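import Pool.Agent.T2h89.Low

/-! Möller's maps: the number of the words all of whose beginnings have a large multiplier, and
intervals with many integers whose orbit stays above its starting point. -/

set_option autoImplicit false

namespace Pool.Agent.T2h89.Mo

open Finset Filter Topology Pool.Agent.H319R3.GC Pool.Agent.TH930.GH

theorem log_Bk {d : ℕ} (hd : 2 ≤ d) {L s : ℕ} (hL : 0 < L) (hs : s ≤ L) :
    (L : ℝ) * Real.qaryEntropy d ((s : ℝ) / L) - Real.log (L + 1) ≤ Real.log ((Bk d L s).card : ℝ) ∧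
      0 < (Bk d L s).card := by
  have h0 : 0 < (Bk d L s).card := by
    rw [card_Bk hd]
    exact Nat.mul_pos (Nat.choose_pos hs) (pow_pos (by omega) _)
  refine ⟨?_, h0⟩
  rw [card_Bk hd]
  have h1 := log_choose hL hs
  have hC : (0 : ℝ) < (L.choose s : ℝ) := by exact_mod_cast Nat.choose_pos hs
  have hd1 : (0 : ℝ) < ((d - 1 : ℕ) : ℝ) := by exact_mod_cast (by omega : 0 < d - 1)
  have hLR : (0 : ℝ) < L := by exact_mod_cast hL
  push_cast
  rw [Real.log_mul hC.ne' (by positivity), Real.log_pow]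
  unfold Real.qaryEntropy
  have e : (((d : ℤ) - 1 : ℤ) : ℝ) = ((d - 1 : ℕ) : ℝ) := by
    rw [Nat.cast_sub (by omega)]; push_cast; ring
  rw [e, mul_add]
  have e2 : (L : ℝ) * ((s : ℝ) / L * Real.log ((d - 1 : ℕ) : ℝ)) = s * Real.log ((d - 1 : ℕ) : ℝ) := by
    field_simp
  rw [e2]
  linarith

theorem log_small {ε : ℝ} (hε : 0 < ε) : ∃ L0 : ℕ, ∀ L : ℕ, L0 ≤ L → Real.log ((L : ℝ) + 1) ≤ ε * L := by
  have h1 : (fun x : ℝ => Real.log x) =o[atTop] (fun x : ℝ => x) := Real.isLittleO_log_id_atTop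
  have h2 := (h1.bound (show 0 < ε / 2 by positivity))
  obtain ⟨x0, hx0⟩ := eventually_atTop.1 h2
  refine ⟨⌈x0⌉₊ + 1, fun L hL => ?_⟩
  have hLR : ((⌈x0⌉₊ : ℝ) + 1) ≤ L := by exact_mod_cast hL
  have h3 := Nat.le_ceil x0
  have h0 : (0 : ℝ) ≤ (⌈x0⌉₊ : ℝ) := Nat.cast_nonneg _
  have h4 := hx0 ((L : ℝ) + 1) (by linarith)
  rw [Real.norm_eq_abs, Real.norm_eq_abs, abs_of_pos (by linarith : (0 : ℝ) < L + 1)] at h4
  have h5 := le_abs_self (Real.log ((L : ℝ) + 1))
  nlinarith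

/-- blocks -/
theorem good_block {d m : ℕ} (hd : 2 ≤ d) (hm : d < m) {ε : ℝ} (hε : 0 < ε) :
    ∃ L s : ℕ, 0 < L ∧ s ≤ L ∧ (d : ℝ) ^ L ≤ (m : ℝ) ^ s ∧
      (L : ℝ) * (hq d m * Real.log d - ε) ≤ Real.log ((Bk d L s).card : ℝ) := by
  have hdR : (2 : ℝ) ≤ d := by exact_mod_cast hd
  have hmR : (d : ℝ) < m := by exact_mod_cast hm
  have hld : 0 < Real.log d := Real.log_pos (by linarith)
  have hlm : 0 < Real.log m := Real.log_pos (by linarith)
  obtain ⟨k0, k1⟩ := kq_lt hd hm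
  set κ : ℝ := kq d m with hκ
  have hκm : κ * Real.log m = Real.log d := by
    rw [hκ]; unfold kq; rw [div_mul_cancel₀ _ hlm.ne']
  have hcont : Continuous (Real.qaryEntropy d) := by fun_prop
  obtain ⟨δ, hδ, hδ'⟩ := Metric.continuous_iff.1 hcont κ (ε / 2) (by positivity)
  obtain ⟨L1, hL1⟩ := log_small (show 0 < ε / 2 by positivity)
  set L : ℕ := L1 + ⌈1 / δ⌉₊ + 1 with hL
  have hL0 : 0 < L := by omega
  have hLR : (0 : ℝ) < L := by exact_mod_cast hL0
  have hLδ : 1 / δ < L := by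
    have h1 := Nat.le_ceil (1 / δ)
    have h2 : ((L1 : ℝ) + ⌈1 / δ⌉₊ + 1) = L := by rw [hL]; push_cast; ring
    have h3 : (0 : ℝ) ≤ L1 := Nat.cast_nonneg _
    linarith
  set s : ℕ := ⌈κ * L⌉₊ with hs
  have hs1 : κ * L ≤ s := Nat.le_ceil _
  have hs2 : (s : ℝ) < κ * L + 1 := Nat.ceil_lt_add_one (by positivity)
  have hsL : s ≤ L := by
    apply Nat.ceil_le.2
    nlinarith
  refine ⟨L, s, hL0, hsL, ?_, ?_⟩
  · have hm0 : (0 : ℝ) < m := by linarith
    rw [← Real.log_le_log_iff (by positivity) (by positivity), Real.log_pow, Real.log_pow]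
    calc (L : ℝ) * Real.log d = (κ * L) * Real.log m := by rw [← hκm]; ring
      _ ≤ _ := mul_le_mul_of_nonneg_right hs1 hlm.le
  · have h1 := (log_Bk hd hL0 hsL).1
    have h2 := hL1 L (by omega)
    have h3 := hδ' ((s : ℝ) / L) (by
      rw [Real.dist_eq, abs_lt]
      constructor
      · have : κ ≤ (s : ℝ) / L := by rw [le_div_iff₀ hLR]; linarith
        linarith
      · rw [sub_lt_iff_lt_add, div_lt_iff₀ hLR]
        have h4 : 1 < δ * L := by
          rw [div_lt_iff₀ hδ] at hLδ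
          linarith
        nlinarith)
    rw [Real.dist_eq, abs_lt] at h3
    have h5 : hq d m * Real.log d = Real.qaryEntropy d κ := by
      unfold hq
      rw [div_mul_cancel₀ _ hld.ne']
    rw [h5]
    nlinarith [h3.1, h3.2]

/-- the number of the words -/
theorem count_words {d m : ℕ} (hd : 2 ≤ d) (hm : d < m) {ε : ℝ} (hε : 0 < ε) :
    ∃ K0 : ℕ, ∀ K : ℕ, K0 ≤ K →
      Real.exp (K * (hq d m * Real.log d - ε)) ≤ ((SS d m K 1).card : ℝ) := by
  have hdR : (2 : ℝ) ≤ d := by exact_mod_cast hd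
  have hd0 : (0 : ℝ) < d := by linarith
  have hmR : (d : ℝ) < m := by exact_mod_cast hm
  obtain ⟨L, s, hL0, hsL, hms, hB⟩ := good_block hd hm (show 0 < ε / 2 by positivity)
  have hLR : (0 : ℝ) < L := by exact_mod_cast hL0
  set a : ℝ := (d : ℝ) ^ L + 1 with ha
  have ha1 : (d : ℝ) ^ L < a := by rw [ha]; linarith
  have ha0 : 0 < a := by positivity
  obtain ⟨c, hc⟩ : ∃ c : ℕ, a * (d : ℝ) ^ c ≤ (m : ℝ) ^ c := by
    have h1 : 1 < (m : ℝ) / d := by rw [one_lt_div hd0]; exact hmR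
    obtain ⟨c, hc⟩ := pow_unbounded_of_one_lt a h1
    refine ⟨c, ?_⟩
    rw [div_pow, lt_div_iff₀ (by positivity)] at hc
    exact hc.le
  set w : ℝ := hq d m * Real.log d - ε / 2 with hw
  obtain ⟨K1, hK1⟩ := exists_nat_ge (2 * ((c : ℝ) + L) * |w| / ε)
  refine ⟨K1 + c, ?_⟩
  intro K hK
  have hKR : (K1 : ℝ) + c ≤ K := by exact_mod_cast hK
  have hKc : c ≤ K := by omega
  have h1 := start hd hm (K := K - c) hc
  have h2 : c + (K - c) = K := by omega
  rw [h2] at h1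
  have h3 := blocks hd (by omega) ha1 hms ((K - c) / L) ((K - c) % L)
  have h4 : (K - c) / L * L + (K - c) % L = K - c := Nat.div_add_mod' _ _
  rw [h4] at h3
  have h5 := base hd (by omega : 1 ≤ m) ha1 (Nat.mod_lt (K - c) hL0).le
  have h6 : (Bk d L s).card ^ ((K - c) / L) ≤ (SS d m K 1).card := by
    calc (Bk d L s).card ^ ((K - c) / L) = (Bk d L s).card ^ ((K - c) / L) * 1 := (mul_one _).symm
      _ ≤ (Bk d L s).card ^ ((K - c) / L) * (SS d m ((K - c) % L) a).card := Nat.mul_le_mul_left _ h5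
      _ ≤ _ := h3.trans h1
  have hBk : (1 : ℝ) ≤ ((Bk d L s).card : ℝ) := by exact_mod_cast (log_Bk hd hL0 hsL).2
  have hS1 : (1 : ℝ) ≤ ((SS d m K 1).card : ℝ) := by
    have : 1 ≤ (SS d m K 1).card := le_trans (Nat.one_le_pow _ _ (log_Bk hd hL0 hsL).2) h6
    exact_mod_cast this
  have hwe : hq d m * Real.log d - ε = w - ε / 2 := by rw [hw]; ring
  rw [hwe]
  have hKn : (0 : ℝ) ≤ K := Nat.cast_nonneg _
  rcases lt_or_ge w 0 with hneg | hpos
  · refine le_trans ?_ hS1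
    rw [Real.exp_le_one_iff]
    nlinarith
  · have h7 : (((K - c) / L : ℕ) : ℝ) * L ≥ K - c - L := by
      have g1 := Nat.mod_lt (K - c) hL0
      have g2 : (((K - c) / L * L + (K - c) % L : ℕ) : ℝ) = ((K - c : ℕ) : ℝ) := by rw [h4]
      rw [Nat.cast_sub hKc] at g2
      push_cast at g2
      have g3 : (((K - c) % L : ℕ) : ℝ) ≤ L := by exact_mod_cast g1.le
      linarith
    have h8 : (K : ℝ) * (w - ε / 2) ≤ (((K - c) / L : ℕ) : ℝ) * (L * w) := by
      have g1 : (K - c - L : ℝ) * w ≤ (((K - c) / L : ℕ) : ℝ) * L * w :=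
        mul_le_mul_of_nonneg_right h7 hpos
      have g2 : ((c : ℝ) + L) * w ≤ K * (ε / 2) := by
        rw [abs_of_nonneg hpos, div_le_iff₀ hε] at hK1
        have hc0 : (0 : ℝ) ≤ c := Nat.cast_nonneg _
        nlinarith
      nlinarith
    have h9 : Real.exp (K * (w - ε / 2)) ≤ ((Bk d L s).card : ℝ) ^ ((K - c) / L) := by
      rw [← Real.exp_log (show (0 : ℝ) < ((Bk d L s).card : ℝ) ^ ((K - c) / L) by positivity)]
      apply Real.exp_le_exp.2
      rw [Real.log_pow]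
      exact h8.trans (mul_le_mul_of_nonneg_left hB (Nat.cast_nonneg _))
    exact h9.trans (by exact_mod_cast h6)

section

variable {d m : ℕ} {m' r : ℕ → ℤ}

theorem wd_take (k j : ℕ) (hj : j ≤ k) (x : ℤ) : (wd d m' r k x).take j = wd d m' r j x := by
  induction k generalizing j x with
  | zero =>
    have : j = 0 := by omega
    subst this
    simp [wd]
  | succ k ih =>
    rcases j with _ | j
    · simp [wd]
    · simp only [wd, List.take_succ_cons]
      rw [ih j (by omega)]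

/-- every set of words of length `K` is realised by at least as many integers of every interval of
length `d ^ K` -/
theorem count_x (h : Adm d m' r) (v : ℤ) (K : ℕ) (S : Finset (List ℕ)) (hS : S ⊆ LW d K) :
    S.card ≤ ((Ioc v (v + (d : ℤ) ^ K)).filter (fun x => wd d m' r K x ∈ S)).card := by
  classical
  have hd := h.two_le
  set I := Ioc v (v + (d : ℤ) ^ K) with hI
  have hinj : Set.InjOn (fun x => wd d m' r K x) (I : Set ℤ) := by
    intro x hx y hy hxy
    rw [mem_coe, hI, mem_Ioc] at hx hy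
    have h1 := wd_cong h hxy
    have h2 : |x - y| < (d : ℤ) ^ K := by
      rw [abs_lt]; constructor <;> linarith [hx.1, hx.2, hy.1, hy.2]
    have := Int.eq_zero_of_abs_lt_dvd h1 h2
    linarith
  have hcard : I.card = d ^ K := by
    rw [hI, Int.card_Ioc]
    have : v + (d : ℤ) ^ K - v = ((d ^ K : ℕ) : ℤ) := by push_cast; ring
    rw [this, Int.toNat_natCast]
  have himg : I.image (fun x => wd d m' r K x) = LW d K := by
    apply eq_of_subset_of_card_le
    · intro w hw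
      rw [mem_image] at hw
      obtain ⟨x, -, rfl⟩ := hw
      exact wd_mem hd K x
    · rw [card_LW, card_image_of_injOn hinj, hcard]
  have hsub : S ⊆ (I.filter (fun x => wd d m' r K x ∈ S)).image (fun x => wd d m' r K x) := by
    intro w hw
    have h1 := hS hw
    rw [← himg, mem_image] at h1
    obtain ⟨x, hx, hxw⟩ := h1
    rw [mem_image]
    exact ⟨x, by rw [mem_filter]; exact ⟨hx, by rw [hxw]; exact hw⟩, hxw⟩
  exact (card_le_card hsub).trans card_image_le

/-- large integers with such a word stay above their starting point -/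
theorem stay (h : Adm d (mq m) r) (K : ℕ) : ∃ N : ℤ, 0 < N ∧ ∀ x : ℤ, N ≤ x →
    wd d (mq m) r K x ∈ SS d m K 1 → ∀ j ≤ K, x ≤ (Tm d (mq m) r)^[j] x := by
  classical
  set N : ℤ := ∑ j ∈ range (K + 1), ∑ w ∈ LW d j, |Ww d (mq m) r w| + 1 with hN
  have hN0 : 0 < N := by
    have : 0 ≤ ∑ j ∈ range (K + 1), ∑ w ∈ LW d j, |Ww d (mq m) r w| :=
      sum_nonneg fun _ _ => sum_nonneg fun _ _ => abs_nonneg _
    omega
  refine ⟨N, hN0, fun x hx hw j hj => ?_⟩
  rcases Nat.eq_zero_or_pos j with h0 | h0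
  · subst h0; simp
  rw [mem_SS] at hw
  obtain ⟨-, hw2⟩ := hw
  have h1 := hw2 j h0 hj
  rw [wd_take K j hj x, one_mul] at h1
  have h2 : (d : ℤ) ^ j < Mw (mq m) (wd d (mq m) r j x) := by exact_mod_cast h1
  have h3 := iter_eq h j x
  have h4 : |Ww d (mq m) r (wd d (mq m) r j x)| ≤ N - 1 := by
    have g1 : |Ww d (mq m) r (wd d (mq m) r j x)| ≤ ∑ w ∈ LW d j, |Ww d (mq m) r w| :=
      single_le_sum (f := fun w => |Ww d (mq m) r w|) (fun _ _ => abs_nonneg _) (wd_mem h.two_le j x)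
    have g2 : ∑ w ∈ LW d j, |Ww d (mq m) r w| ≤ ∑ j ∈ range (K + 1), ∑ w ∈ LW d j, |Ww d (mq m) r w| :=
      single_le_sum (f := fun j => ∑ w ∈ LW d j, |Ww d (mq m) r w|)
        (fun _ _ => sum_nonneg fun _ _ => abs_nonneg _) (mem_range.2 (by omega))
    rw [hN]; linarith
  have h5 := le_abs_self (Ww d (mq m) r (wd d (mq m) r j x))
  have hdj : (0 : ℤ) < (d : ℤ) ^ j := by
    have : (0 : ℤ) < d := by exact_mod_cast (by have := h.two_le; omega : 0 < d)
    positivity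
  have h6 : (d : ℤ) ^ j * x ≤ (d : ℤ) ^ j * (Tm d (mq m) r)^[j] x := by
    rw [h3]
    nlinarith
  exact le_of_mul_le_mul_left h6 hdj

end

/-- SHARPNESS -/
theorem lower {d m : ℕ} (hd : 2 ≤ d) (hm : d < m) (hcop : Nat.Coprime m d) (hc : m ^ (d - 1) < d ^ d)
    {r : ℕ → ℤ} (hr : ∀ i < d, (d : ℤ) ∣ mq m i * i - r i) {τ : ℝ} (hτ : 0 ≤ τ) {ε : ℝ} (hε : 0 < ε) :
    ∃ X₀ : ℝ, ∀ X : ℝ, X₀ ≤ X → ∀ v : ℤ, ∃ u : ℤ, v ≤ u ∧ ∃ B : Finset ℤ,
      (∀ n ∈ B, 0 < n ∧ u < n ∧ (n : ℝ) ≤ u + X ∧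
        ∀ j : ℕ, (j : ℝ) ≤ (1 + τ) * Real.logb d X → n ≤ (Tm d (mq m) r)^[j] n) ∧
      X ^ (1 - (1 + τ) * (1 - hq d m) - ε) ≤ (B.card : ℝ) := by
  classical
  have h := adm_mq hd hm hcop hc hr
  have hdR : (2 : ℝ) ≤ d := by exact_mod_cast hd
  have hd0 : (0 : ℝ) < d := by linarith
  have hl2 : (0.6931471803 : ℝ) < Real.log 2 := Real.log_two_gt_d9
  have hld2 : Real.log 2 ≤ Real.log d := Real.log_le_log (by norm_num) hdR
  have hld : 0 < Real.log d := by linarith
  obtain ⟨hη0, hη1⟩ := hq_lt hd hm hc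
  set η : ℝ := hq d m with hη
  set ε1 : ℝ := ε * Real.log d / (2 * (1 + τ)) with hε1
  have hε10 : 0 < ε1 := by positivity
  obtain ⟨K0, hK0⟩ := count_words hd hm hε10
  have e1 : ∀ᶠ X : ℝ in atTop, (d : ℝ) + 2 ≤ X ^ (ε / 2) :=
    (tendsto_rpow_atTop (by positivity)).eventually_ge_atTop _
  have e2 : ∀ᶠ X : ℝ in atTop, (d : ℝ) ^ (K0 + 1) ≤ X := eventually_ge_atTop _
  obtain ⟨X₀, hX₀⟩ := eventually_atTop.1 ((e1.and e2).and (eventually_ge_atTop 2))
  refine ⟨X₀, fun X hX v => ?_⟩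
  obtain ⟨⟨g1, g2⟩, g3⟩ := hX₀ X hX
  have hX0 : 0 < X := by linarith
  have hX1 : 1 ≤ X := by linarith
  have hlb0 : 0 ≤ Real.logb d X := Real.logb_nonneg (by linarith) hX1
  have hτ1 : 0 < 1 + τ := by linarith
  set K : ℕ := ⌊(1 + τ) * Real.logb d X⌋₊ with hK
  have hK1 : (K : ℝ) ≤ (1 + τ) * Real.logb d X := Nat.floor_le (by positivity)
  have hK2 : (1 + τ) * Real.logb d X < K + 1 := Nat.lt_floor_add_one _
  have hK3 : Real.logb d X < K + 1 := by nlinarith
  have hKK : K0 ≤ K := by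
    have h1 : ((K0 + 1 : ℕ) : ℝ) ≤ Real.logb d X := by
      rw [Real.le_logb_iff_rpow_le (by linarith) hX0, Real.rpow_natCast]
      exact g2
    have h2 : ((K0 : ℝ) + 1) < K + 1 := by push_cast at h1; linarith
    have h3 : (K0 : ℝ) < K := by linarith
    exact_mod_cast h3.le
  have hdK : X < d * (d : ℝ) ^ K := by
    rw [← pow_succ', ← Real.rpow_natCast, ← Real.logb_lt_iff_lt_rpow (by linarith) hX0]
    push_cast
    exact hK3
  set Z : ℕ := ⌊X⌋₊ with hZ
  have hZ1 : (Z : ℝ) ≤ X := Nat.floor_le hX0.le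
  have hZ2 : X < Z + 1 := Nat.lt_floor_add_one _
  have hZ0 : 0 < Z := by
    have : (0 : ℝ) < Z := by linarith
    exact_mod_cast this
  have hZX : X / 2 ≤ Z := by linarith
  have hZR : (0 : ℝ) < Z := by exact_mod_cast hZ0
  obtain ⟨N, hN0, hstay⟩ := stay h K
  set v' : ℤ := max v N with hv'
  set G := (Ioc v' (v' + (d : ℤ) ^ K)).filter (fun x => wd d (mq m) r K x ∈ SS d m K 1) with hG
  have hGc : ((SS d m K 1).card : ℝ) ≤ G.card := by
    have hS : SS d m K 1 ⊆ LW d K := by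
      intro w hw
      rw [mem_SS] at hw
      exact mem_LW.2 hw.1
    exact_mod_cast count_x h v' K (SS d m K 1) hS
  set T : ℕ := d ^ K / Z + 1 with hT
  have hmaps : ∀ x ∈ G, ((x - v' - 1) / (Z : ℤ)).toNat ∈ range T := by
    intro x hx
    rw [hG, mem_filter, mem_Ioc] at hx
    obtain ⟨⟨hx1, hx2⟩, -⟩ := hx
    rw [mem_range]
    have k1 : 0 ≤ (x - v' - 1) / (Z : ℤ) := Int.ediv_nonneg (by omega) (by omega)
    have k2 : (x - v' - 1) / (Z : ℤ) ≤ ((d ^ K : ℕ) : ℤ) / (Z : ℤ) := by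
      apply Int.ediv_le_ediv (by exact_mod_cast hZ0)
      push_cast
      linarith
    have k3 : ((d ^ K / Z : ℕ) : ℤ) = ((d ^ K : ℕ) : ℤ) / (Z : ℤ) := by push_cast; rfl
    rw [← k3] at k2
    omega
  have hT0 : (0 : ℝ) < T := by rw [hT]; positivity
  obtain ⟨t, ht, hcard⟩ := exists_le_card_fiber_of_nsmul_le_card_of_maps_to (M := ℝ)
    (b := (G.card : ℝ) / T) hmaps ⟨0, mem_range.2 (Nat.succ_pos _)⟩ (by
      rw [card_range, nsmul_eq_mul]
      apply le_of_eq
      field_simp)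
  refine ⟨v' + t * Z, ?_, G.filter (fun x => ((x - v' - 1) / (Z : ℤ)).toNat = t), ?_, ?_⟩
  · have h1 : v ≤ v' := le_max_left _ _
    have h2 : (0 : ℤ) ≤ t * Z := by positivity
    linarith
  · intro x hx
    rw [mem_filter, hG, mem_filter, mem_Ioc] at hx
    obtain ⟨⟨⟨hx1, hx2⟩, hx3⟩, hx4⟩ := hx
    have hNv : N ≤ v' := le_max_right _ _
    have k1 : 0 ≤ (x - v' - 1) / (Z : ℤ) := Int.ediv_nonneg (by omega) (by omega)
    have k2 : (x - v' - 1) / (Z : ℤ) = t := by omega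
    have hZi : (0 : ℤ) < Z := by exact_mod_cast hZ0
    have k3 := Int.emod_add_mul_ediv (x - v' - 1) (Z : ℤ)
    have k4 := Int.emod_nonneg (x - v' - 1) hZi.ne'
    have k5 := Int.emod_lt_of_pos (x - v' - 1) hZi
    rw [k2] at k3
    have k6 : x ≤ v' + t * Z + Z := by nlinarith
    refine ⟨by linarith, by nlinarith, ?_, ?_⟩
    · have k7 : (x : ℝ) ≤ ((v' + t * Z : ℤ) : ℝ) + Z := by exact_mod_cast k6
      linarith
    · intro j hj
      apply hstay x (by linarith) hx3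
      exact Nat.le_floor hj
  · refine le_trans ?_ hcard
    have hTle : (T : ℝ) ≤ (d + 2) * (d : ℝ) ^ K / X := by
      have k1 : ((d ^ K / Z : ℕ) : ℝ) ≤ (d : ℝ) ^ K / Z := by
        have := Nat.cast_div_le (α := ℝ) (m := d ^ K) (n := Z)
        push_cast at this
        exact this
      have k2 : (d : ℝ) ^ K / Z ≤ 2 * (d : ℝ) ^ K / X := by
        rw [div_le_div_iff₀ hZR hX0]
        have : (0 : ℝ) < (d : ℝ) ^ K := by positivity
        nlinarith
      have k3 : (1 : ℝ) ≤ d * (d : ℝ) ^ K / X := by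
        rw [le_div_iff₀ hX0]; linarith
      rw [hT]
      push_cast
      calc ((d ^ K / Z : ℕ) : ℝ) + 1 ≤ 2 * (d : ℝ) ^ K / X + d * (d : ℝ) ^ K / X := by linarith
        _ = _ := by ring
    have hexp := hK0 K hKK
    have hfrac : X / (d + 2) * Real.exp (K * (η * Real.log d - ε1)) / (d : ℝ) ^ K ≤ (G.card : ℝ) / T := by
      rw [div_le_div_iff₀ (by positivity) hT0]
      calc X / (d + 2) * Real.exp (K * (η * Real.log d - ε1)) * T
          ≤ X / (d + 2) * Real.exp (K * (η * Real.log d - ε1)) * ((d + 2) * (d : ℝ) ^ K / X) :=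
            mul_le_mul_of_nonneg_left hTle (by positivity)
        _ = Real.exp (K * (η * Real.log d - ε1)) * (d : ℝ) ^ K := by field_simp
        _ ≤ (G.card : ℝ) * (d : ℝ) ^ K :=
            mul_le_mul_of_nonneg_right (hexp.trans hGc) (by positivity)
    refine le_trans ?_ hfrac
    have hdKe : (d : ℝ) ^ K = Real.exp (K * Real.log d) := by
      rw [← Real.rpow_natCast, Real.rpow_def_of_pos hd0, mul_comm]
    have k1 : X / (d + 2) * Real.exp (K * (η * Real.log d - ε1)) / (d : ℝ) ^ K =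
        X / (d + 2) * Real.exp (-(K * ((1 - η) * Real.log d + ε1))) := by
      rw [hdKe, mul_div_assoc, ← Real.exp_sub]
      congr 2
      ring
    rw [k1]
    have k2 : (K : ℝ) * ((1 - η) * Real.log d + ε1) ≤
        ((1 + τ) * (1 - η) + ε / 2) * Real.log X := by
      have k3 : 0 ≤ (1 - η) * Real.log d + ε1 := by
        have : 0 ≤ (1 - η) * Real.log d := mul_nonneg (by linarith) hld.le
        linarith
      calc (K : ℝ) * ((1 - η) * Real.log d + ε1)
          ≤ ((1 + τ) * Real.logb d X) * ((1 - η) * Real.log d + ε1) :=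
            mul_le_mul_of_nonneg_right hK1 k3
        _ = _ := by
            unfold Real.logb
            rw [hε1]
            field_simp
    have k4 : X ^ (1 - (1 + τ) * (1 - η) - ε / 2) ≤
        X * Real.exp (-(K * ((1 - η) * Real.log d + ε1))) := by
      have : X ^ (1 - (1 + τ) * (1 - η) - ε / 2) =
          X * Real.exp (-(((1 + τ) * (1 - η) + ε / 2) * Real.log X)) := by
        have e3 : 1 - (1 + τ) * (1 - η) - ε / 2 = 1 + -((1 + τ) * (1 - η) + ε / 2) := by ring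
        rw [e3, Real.rpow_add hX0, Real.rpow_one, Real.rpow_def_of_pos hX0]
        congr 2
        ring
      rw [this]
      apply mul_le_mul_of_nonneg_left _ hX0.le
      apply Real.exp_le_exp.2
      linarith
    have k5 : X ^ (1 - (1 + τ) * (1 - η) - ε) * (d + 2) ≤ X ^ (1 - (1 + τ) * (1 - η) - ε / 2) := by
      have e3 : 1 - (1 + τ) * (1 - η) - ε / 2 = (1 - (1 + τ) * (1 - η) - ε) + ε / 2 := by ring
      rw [e3, Real.rpow_add hX0]
      exact mul_le_mul_of_nonneg_left g1 (by positivity)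
    calc X ^ (1 - (1 + τ) * (1 - η) - ε)
        = X ^ (1 - (1 + τ) * (1 - η) - ε) * (d + 2) / (d + 2) := by field_simp
      _ ≤ X ^ (1 - (1 + τ) * (1 - η) - ε / 2) / (d + 2) :=
          div_le_div_of_nonneg_right k5 (by positivity)
      _ ≤ X * Real.exp (-(K * ((1 - η) * Real.log d + ε1))) / (d + 2) :=
          div_le_div_of_nonneg_right k4 (by positivity)
      _ = _ := by ring

end Pool.Agent.T2h89.Mo
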