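import Pool.Agent.T2h89.LT1

/-! Straight pieces, high excursions, and a forward closed set. -/

set_option autoImplicit false

namespace Pool.Agent.T2h89.LT

open Finset Pool.Agent.H319R3.GC Pool.Agent.H828R3.GP

variable {d : ℕ} {m r : ℕ → ℤ}

/-- the drift -/
noncomputable def rho (d : ℕ) (m : ℕ → ℤ) : ℝ := Real.log d - lam d m

theorem rho_pos (h : Adm d m r) : 0 < rho d m := by
  have := (lam_bds h).2.2
  unfold rho; linarith

theorem rho_lt (h : Adm d m r) : rho d m < Real.log d := by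
  have := (lam_bds h).1
  unfold rho; linarith

theorem Mu_ne (h : Adm d m r) (n : ℕ) (x : ℤ) : (Mu d m r n x : ℝ) ≠ 0 := by
  rw [Mu_eq]
  have := Mw_ne_zero h (mem_LW.1 (wd_mem (r := r) (m := m) h.two_le n x)).2
  exact_mod_cast this

theorem line (h : Adm d m r) {R Y : ℝ} (hR : ∀ i < d, |(r i : ℝ)| ≤ R) (hR0 : 0 ≤ R) (hY : 0 < Y)
    {n : ℕ} {x : ℤ} (hx0 : x ≠ 0) (hx : ∀ j < n, Y ≤ |(((Tm d m r)^[j] x : ℤ) : ℝ)|)
    (hn : 4 * n * R ≤ Y) :
    (Tm d m r)^[n] x ≠ 0 ∧ |(Real.log |(Mu d m r n x : ℝ)| + Real.log |(x : ℝ)| - n * Real.log d -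
      Real.log |(((Tm d m r)^[n] x : ℤ) : ℝ)|)| ≤ Real.log 2 := by
  have hd0 : (0 : ℝ) < d := by exact_mod_cast (by have := h.two_le; omega : 0 < d)
  have hD : 0 < (d : ℝ) ^ n := by positivity
  have h1 := approx h hR hR0 hY n hx (by
    have : (0 : ℝ) ≤ n := Nat.cast_nonneg n
    nlinarith)
  have h2 : n * (2 * R / Y) ≤ 1 / 2 := by
    rw [mul_div_assoc', div_le_iff₀ hY]; linarith
  have hM := Mu_ne h n x
  have hxR : (x : ℝ) ≠ 0 := by exact_mod_cast hx0
  set z : ℤ := (Tm d m r)^[n] x with hz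
  set M : ℝ := (Mu d m r n x : ℝ) with hMd
  have h3 : |M * x - (d : ℝ) ^ n * z| ≤ 1 / 2 * ((d : ℝ) ^ n * |(z : ℝ)|) :=
    h1.trans (mul_le_mul_of_nonneg_right h2 (by positivity))
  have hz0 : z ≠ 0 := by
    intro h0
    rw [h0] at h3
    simp only [Int.cast_zero, mul_zero, sub_zero, abs_zero] at h3
    have h4 := abs_nonpos_iff.1 h3
    rcases mul_eq_zero.1 h4 with h5 | h5
    · exact hM h5
    · exact hxR h5
  refine ⟨hz0, ?_⟩
  have hzR : (0 : ℝ) < |(z : ℝ)| := abs_pos.2 (by exact_mod_cast hz0)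
  have hxR' : 0 < |(x : ℝ)| := abs_pos.2 hxR
  have hM' : 0 < |M| := abs_pos.2 hM
  have e1 : |(d : ℝ) ^ n * z| = (d : ℝ) ^ n * |(z : ℝ)| := by rw [abs_mul, abs_of_pos hD]
  have e2 := abs_sub_abs_le_abs_sub ((d : ℝ) ^ n * z) (M * x)
  have e3 := abs_sub_abs_le_abs_sub (M * x) ((d : ℝ) ^ n * z)
  rw [abs_sub_comm] at e2
  rw [e1, abs_mul] at e2 e3
  have hlo : (d : ℝ) ^ n * |(z : ℝ)| ≤ 2 * (|M| * |(x : ℝ)|) := by linarith
  have hup : |M| * |(x : ℝ)| ≤ 2 * ((d : ℝ) ^ n * |(z : ℝ)|) := by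
    have : 0 < (d : ℝ) ^ n * |(z : ℝ)| := by positivity
    linarith
  have l1 := Real.log_le_log (by positivity) hlo
  have l2 := Real.log_le_log (by positivity) hup
  have q1 : Real.log ((d : ℝ) ^ n * |(z : ℝ)|) = n * Real.log d + Real.log |(z : ℝ)| := by
    rw [Real.log_mul hD.ne' hzR.ne', Real.log_pow]
  have q2 : Real.log (|M| * |(x : ℝ)|) = Real.log |M| + Real.log |(x : ℝ)| :=
    Real.log_mul hM'.ne' hxR'.ne'
  have q3 : Real.log (2 * (|M| * |(x : ℝ)|)) = Real.log 2 + Real.log (|M| * |(x : ℝ)|) :=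
    Real.log_mul (by norm_num) (by positivity)
  have q4 : Real.log (2 * ((d : ℝ) ^ n * |(z : ℝ)|)) = Real.log 2 + Real.log ((d : ℝ) ^ n * |(z : ℝ)|) :=
    Real.log_mul (by norm_num) (by positivity)
  rw [q3, q1, q2] at l1
  rw [q4, q1, q2] at l2
  rw [abs_le]
  constructor <;> linarith

theorem not_Bd {i : ℕ} {H : ℝ} {z : ℤ} (hz : z ∉ Bd d m r i H) (hzi : |(z : ℝ)| < (d : ℝ) ^ i)
    {j : ℕ} (hj : j ≤ i) : |Real.log |(Mu d m r j z : ℝ)| - j * lam d m| ≤ H := by
  classical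
  by_contra hcon
  push Not at hcon
  apply hz
  unfold Bd
  rw [mem_filter]
  exact ⟨mem_Icc_of_abs hzi, hzi, j, hj, hcon⟩

theorem straight (h : Adm d m r) {R Y : ℝ} (hR : ∀ i < d, |(r i : ℝ)| ≤ R) (hR0 : 0 ≤ R) (hY : 0 < Y)
    {i : ℕ} {H : ℝ} {z : ℤ} (hz : z ∉ Bd d m r i H) (hzi : |(z : ℝ)| < (d : ℝ) ^ i) (hz0 : z ≠ 0)
    {n : ℕ} (hni : n ≤ i) (hx : ∀ j < n, Y ≤ |(((Tm d m r)^[j] z : ℤ) : ℝ)|) (hn : 4 * i * R ≤ Y) :
    (Tm d m r)^[n] z ≠ 0 ∧ |(Real.log |(((Tm d m r)^[n] z : ℤ) : ℝ)| - Real.log |(z : ℝ)| + rho d m * n)|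
      ≤ H + Real.log 2 := by
  have h1 := line h hR hR0 hY hz0 hx (by
    have h2 : (n : ℝ) ≤ i := by exact_mod_cast hni
    refine le_trans ?_ hn
    apply mul_le_mul_of_nonneg_right _ hR0
    linarith)
  refine ⟨h1.1, ?_⟩
  have h2 := not_Bd hz hzi hni
  have h3 := h1.2
  rw [abs_le] at h2 h3 ⊢
  unfold rho
  constructor <;> nlinarith

theorem Tm_upper (h : Adm d m r) {R : ℝ} (hR : ∀ i < d, |(r i : ℝ)| ≤ R) (z : ℤ) :
    (d : ℝ) * |((Tm d m r z : ℤ) : ℝ)| ≤ PP d m * |(z : ℝ)| + R := by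
  have hd0 : (0 : ℝ) < d := by exact_mod_cast (by have := h.two_le; omega : 0 < d)
  obtain ⟨e1, e2⟩ := toNat_mod h.two_le z
  have hTz := Tm_eq h z
  set i := (z % d).toNat with hi
  have hT : (d : ℝ) * ((Tm d m r z : ℤ) : ℝ) = (m i : ℝ) * z - (r i : ℝ) := by exact_mod_cast hTz
  have h1 : (d : ℝ) * |((Tm d m r z : ℤ) : ℝ)| = |(m i : ℝ) * z - (r i : ℝ)| := by
    rw [← hT, abs_mul, abs_of_pos hd0]
  rw [h1]
  have h2 := abs_sub ((m i : ℝ) * z) (r i : ℝ)
  rw [abs_mul] at h2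
  have h3 : |(m i : ℝ)| ≤ PP d m := by
    have h4 := (log_m h e2).2
    have h5 := m_abs h e2
    have h6 : (0 : ℝ) < PP d m := by exact_mod_cast (by have := h.big; omega : 0 < PP d m)
    exact (Real.log_le_log_iff (by linarith) h6).1 h4
  have h4 := mul_le_mul_of_nonneg_right h3 (abs_nonneg (z : ℝ))
  have h5 := hR i e2
  linarith

theorem Tm_lower (h : Adm d m r) {R : ℝ} (hR : ∀ i < d, |(r i : ℝ)| ≤ R) (z : ℤ) :
    |(z : ℝ)| - R ≤ (d : ℝ) * |((Tm d m r z : ℤ) : ℝ)| := by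
  have hd0 : (0 : ℝ) < d := by exact_mod_cast (by have := h.two_le; omega : 0 < d)
  obtain ⟨e1, e2⟩ := toNat_mod h.two_le z
  have hTz := Tm_eq h z
  set i := (z % d).toNat with hi
  have hT : (d : ℝ) * ((Tm d m r z : ℤ) : ℝ) = (m i : ℝ) * z - (r i : ℝ) := by exact_mod_cast hTz
  have h1 : (d : ℝ) * |((Tm d m r z : ℤ) : ℝ)| = |(m i : ℝ) * z - (r i : ℝ)| := by
    rw [← hT, abs_mul, abs_of_pos hd0]
  rw [h1]
  have h2 := abs_sub_abs_le_abs_sub ((m i : ℝ) * z) (r i : ℝ)
  rw [abs_mul] at h2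
  have h4 := mul_le_mul_of_nonneg_right (m_abs h e2) (abs_nonneg (z : ℝ))
  have h5 := hR i e2
  linarith

/-- `z` starts an excursion above `d^i` which reaches the height `d^(2i)` -/
def Hex (d : ℕ) (m r : ℕ → ℤ) (i : ℕ) (z : ℤ) : Prop :=
  |(z : ℝ)| < (d : ℝ) ^ i ∧ ∃ n : ℕ, (∀ l : ℕ, 1 ≤ l → l ≤ n → (d : ℝ) ^ i ≤ |(((Tm d m r)^[l] z : ℤ) : ℝ)|) ∧
    (d : ℝ) ^ (2 * i) ≤ |(((Tm d m r)^[n] z : ℤ) : ℝ)|

open Classical in
/-- the starting points of the high excursions -/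
noncomputable def He (d : ℕ) (m r : ℕ → ℤ) (i : ℕ) : Finset ℤ :=
  (Icc (-(d : ℤ) ^ i) ((d : ℤ) ^ i)).filter (fun z => Hex d m r i z)

theorem mem_He {i : ℕ} {z : ℤ} : z ∈ He d m r i ↔ Hex d m r i z := by
  classical
  unfold He
  rw [mem_filter]
  exact ⟨fun h => h.2, fun h => ⟨mem_Icc_of_abs h.1, h⟩⟩

/-- high excursions are due to deviations -/
theorem He_sub (h : Adm d m r) {R : ℝ} (hR : ∀ i < d, |(r i : ℝ)| ≤ R) (hR0 : 0 ≤ R) {i : ℕ} {H : ℝ}
    (hi : 1 ≤ i) (hiR : 8 * i * R * PP d m ≤ (d : ℝ) ^ i) (hH : H + Real.log 2 < rho d m * i) :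
    He d m r i ⊆ Bd d m r i H := by
  classical
  intro z hz
  by_contra hb
  obtain ⟨hzi, n, hn1, hn2⟩ := mem_He.1 hz
  have hd2 := h.two_le
  have hdR : (2 : ℝ) ≤ d := by exact_mod_cast hd2
  have hd1 : (1 : ℝ) < d := by linarith
  have hP : (2 : ℝ) ≤ PP d m := by exact_mod_cast h.big
  have hiR1 : (1 : ℝ) ≤ i := by exact_mod_cast hi
  have hDi : 0 < (d : ℝ) ^ i := by positivity
  have hn0 : 1 ≤ n := by
    by_contra hcon
    have : n = 0 := by omega
    rw [this, Function.iterate_zero, id] at hn2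
    have h1 : (d : ℝ) ^ i ≤ (d : ℝ) ^ (2 * i) := pow_le_pow_right₀ hd1.le (by omega)
    linarith
  have hRle : R ≤ (d : ℝ) ^ i := by
    have : R ≤ 8 * i * R * PP d m := by
      calc R = 1 * 1 * R * 1 := by ring
        _ ≤ 8 * i * R * PP d m := by
            apply mul_le_mul _ (by linarith) (by norm_num) (by positivity)
            apply mul_le_mul_of_nonneg_right _ hR0
            nlinarith
    linarith
  -- `z` is not much smaller than `d ^ i`
  set Y : ℝ := (d : ℝ) ^ i / PP d m with hYd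
  have hY0 : 0 < Y := by positivity
  have hYle : Y ≤ (d : ℝ) ^ i := by
    rw [hYd, div_le_iff₀ (by linarith)]; nlinarith
  have hzY : Y ≤ |(z : ℝ)| := by
    have h1 := Tm_upper h hR z
    have h2 := hn1 1 le_rfl hn0
    rw [Function.iterate_one] at h2
    rw [hYd, div_le_iff₀ (by linarith)]
    have h3 : 2 * (d : ℝ) ^ i ≤ d * |((Tm d m r z : ℤ) : ℝ)| :=
      mul_le_mul hdR h2 hDi.le (by linarith)
    linarith
  have hz0 : z ≠ 0 := by
    rintro rfl
    simp at hzY
    linarith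
  have hYi : 4 * i * R ≤ Y := by
    rw [hYd, le_div_iff₀ (by linarith)]
    nlinarith [mul_nonneg (mul_nonneg (by linarith : (0:ℝ) ≤ i) hR0) (by linarith : (0:ℝ) ≤ (PP d m : ℝ))]
  have hlogz : Real.log |(z : ℝ)| ≤ i * Real.log d := by
    rw [← Real.log_pow]
    exact Real.log_le_log (lt_of_lt_of_le hY0 hzY) hzi.le
  have hρ := rho_pos h
  have hρd := rho_lt h
  have hall : ∀ l : ℕ, l < n + 1 → Y ≤ |(((Tm d m r)^[l] z : ℤ) : ℝ)| := by
    intro l hl
    rcases Nat.eq_zero_or_pos l with h0 | h0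
    · rw [h0]; exact hzY
    · exact hYle.trans (hn1 l h0 (by omega))
  rcases le_or_gt n i with hni | hni
  · -- the height at time `n ≤ i`
    have h1 := straight h hR hR0 hY0 hb hzi hz0 hni (fun j hj => hall j (by omega)) hYi
    have h2 := (abs_le.1 h1.2).2
    have h3 : ((2 * i : ℕ) : ℝ) * Real.log d ≤ Real.log |(((Tm d m r)^[n] z : ℤ) : ℝ)| := by
      rw [← Real.log_pow]
      exact Real.log_le_log (by positivity) hn2
    push_cast at h3
    have h4 : 0 ≤ rho d m * n := by positivity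
    have h5 : rho d m * i < Real.log d * i := mul_lt_mul_of_pos_right hρd (by linarith)
    linarith
  · -- return before time `i`
    have h1 := straight h hR hR0 hY0 hb hzi hz0 le_rfl (fun j hj => hall j (by omega)) hYi
    have h2 := (abs_le.1 h1.2).2
    have h3 : (i : ℝ) * Real.log d ≤ Real.log |(((Tm d m r)^[i] z : ℤ) : ℝ)| := by
      rw [← Real.log_pow]
      exact Real.log_le_log hDi (hn1 i hi (by omega))
    linarith

open Classical in
/-- the first return below `d ^ i` -/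
noncomputable def ret (d : ℕ) (m r : ℕ → ℤ) (i : ℕ) (z : ℤ) : ℤ :=
  if h : ∃ n : ℕ, |(((Tm d m r)^[n] (Tm d m r z) : ℤ) : ℝ)| < (d : ℝ) ^ i then
    (Tm d m r)^[Nat.find h] (Tm d m r z) else 0

theorem ret_eq {i : ℕ} {z : ℤ} {n : ℕ} (hfp : FP d m r i n (Tm d m r z)) :
    ret d m r i z = (Tm d m r)^[n] (Tm d m r z) := by
  classical
  have hex : ∃ n : ℕ, |(((Tm d m r)^[n] (Tm d m r z) : ℤ) : ℝ)| < (d : ℝ) ^ i := ⟨n, hfp.2⟩
  unfold ret
  rw [dif_pos hex]
  have h1 : Nat.find hex = n := by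
    apply le_antisymm (Nat.find_min' hex hfp.2)
    by_contra hcon
    push Not at hcon
    have h2 := hfp.1 _ hcon
    have h3 := Nat.find_spec hex
    linarith
  rw [h1]

/-- the points where the high excursions return -/
noncomputable def Ph (d : ℕ) (m r : ℕ → ℤ) (i : ℕ) : Finset ℤ := (He d m r i).image (ret d m r i)

/-- stays above `d^i`, or the first passage is in `B` -/
def Ent (d : ℕ) (m r : ℕ → ℤ) (i : ℕ) (B : Finset ℤ) (x : ℤ) : Prop :=
  (∀ n : ℕ, (d : ℝ) ^ i ≤ |(((Tm d m r)^[n] x : ℤ) : ℝ)|) ∨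
    ∃ n : ℕ, FP d m r i n x ∧ (Tm d m r)^[n] x ∈ B

/-- low excursions from `(-d^i, d^i)` -/
def Lo (d : ℕ) (m r : ℕ → ℤ) (i j : ℕ) (x : ℤ) : Prop :=
  ∃ z : ℤ, |(z : ℝ)| < (d : ℝ) ^ i ∧ (Tm d m r)^[j] z = x ∧
    ∀ l ≤ j, |(((Tm d m r)^[l] z : ℤ) : ℝ)| < (d : ℝ) ^ (2 * i)

/-- the forward closed set -/
def Sc (d : ℕ) (m r : ℕ → ℤ) (i : ℕ) (B : Finset ℤ) : Set ℤ :=
  {x : ℤ | Ent d m r i (B ∪ Ph d m r i) x ∨ ∃ j : ℕ, Lo d m r i j x}

theorem Sc_closed (hd : 2 ≤ d) {i : ℕ} (hi : 1 ≤ i) (B : Finset ℤ) {x : ℤ} (hx : x ∈ Sc d m r i B) :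
    Tm d m r x ∈ Sc d m r i B := by
  classical
  have hd1 : (1 : ℝ) < d := by exact_mod_cast (by omega : 1 < d)
  have hpow : (d : ℝ) ^ i < (d : ℝ) ^ (2 * i) := pow_lt_pow_right₀ hd1 (by omega)
  -- the main case: `x` is on a low excursion
  have main : (∃ j : ℕ, Lo d m r i j x) → Tm d m r x ∈ Sc d m r i B := by
    intro hex
    obtain ⟨z, hz1, hz2, hz3⟩ := Nat.find_spec hex
    set j := Nat.find hex with hj
    have hmin : ∀ l : ℕ, 1 ≤ l → l ≤ j → (d : ℝ) ^ i ≤ |(((Tm d m r)^[l] z : ℤ) : ℝ)| := by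
      intro l hl hlj
      by_contra hcon
      push Not at hcon
      have h1 : Lo d m r i (j - l) x := by
        refine ⟨(Tm d m r)^[l] z, hcon, ?_, ?_⟩
        · rw [← Function.iterate_add_apply, Nat.sub_add_cancel hlj]; exact hz2
        · intro l' hl'
          rw [← Function.iterate_add_apply]
          exact hz3 _ (by omega)
      have h2 := Nat.find_min' hex h1
      omega
    have hTx : (Tm d m r)^[j + 1] z = Tm d m r x := by
      rw [Function.iterate_succ_apply', hz2]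
    rcases lt_or_ge |((Tm d m r x : ℤ) : ℝ)| ((d : ℝ) ^ (2 * i)) with hlt | hge
    · right
      refine ⟨j + 1, z, hz1, hTx, ?_⟩
      intro l hl
      rcases Nat.lt_or_ge l (j + 1) with h1 | h1
      · exact hz3 l (by omega)
      · have : l = j + 1 := by omega
        rw [this, hTx]; exact hlt
    · left
      have hH : Hex d m r i z := by
        refine ⟨hz1, j + 1, ?_, by rw [hTx]; exact hge⟩
        intro l hl1 hl2
        rcases Nat.lt_or_ge l (j + 1) with h1 | h1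
        · exact hmin l hl1 (by omega)
        · have : l = j + 1 := by omega
          rw [this, hTx]; linarith
      by_cases hnev : ∀ n : ℕ, (d : ℝ) ^ i ≤ |(((Tm d m r)^[n] (Tm d m r x) : ℤ) : ℝ)|
      · left; exact hnev
      · right
        push Not at hnev
        have hfind := Nat.find_spec hnev
        set n := Nat.find hnev with hn
        have hfp : FP d m r i n (Tm d m r x) := by
          refine ⟨fun l hl => ?_, hfind⟩
          have := Nat.find_min hnev hl
          push Not at this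
          exact this
        have hfp2 : FP d m r i (j + n) (Tm d m r z) := by
          constructor
          · intro l hl
            rcases Nat.lt_or_ge l j with h1 | h1
            · have := hmin (l + 1) (by omega) (by omega)
              rwa [Function.iterate_succ_apply] at this
            · obtain ⟨u, rfl⟩ := Nat.exists_eq_add_of_le h1
              have h2 : (Tm d m r)^[j + u] (Tm d m r z) = (Tm d m r)^[u] (Tm d m r x) := by
                rw [← hTx, ← Function.iterate_succ_apply, ← Function.iterate_add_apply]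
                congr 1; omega
              rw [h2]
              exact hfp.1 u (by omega)
          · have h2 : (Tm d m r)^[j + n] (Tm d m r z) = (Tm d m r)^[n] (Tm d m r x) := by
              rw [← hTx, ← Function.iterate_succ_apply, ← Function.iterate_add_apply]
              congr 1; omega
            rw [h2]
            exact hfp.2
        refine ⟨n, hfp, ?_⟩
        rw [mem_union]
        right
        unfold Ph
        rw [mem_image]
        refine ⟨z, mem_He.2 hH, ?_⟩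
        rw [ret_eq hfp2, ← hTx, ← Function.iterate_succ_apply, ← Function.iterate_add_apply]
        congr 1; omega
  rcases hx with hE | hL
  · rcases hE with h1 | ⟨n, hfp, hB⟩
    · left; left
      intro n
      have := h1 (n + 1)
      rwa [Function.iterate_succ_apply] at this
    · rcases Nat.eq_zero_or_pos n with h0 | h0
      · apply main
        rw [h0] at hfp
        have h1 := hfp.2
        rw [Function.iterate_zero, id] at h1
        refine ⟨0, x, h1, rfl, ?_⟩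
        intro l hl
        have : l = 0 := by omega
        rw [this, Function.iterate_zero, id]
        linarith
      · left; right
        obtain ⟨n', rfl⟩ : ∃ n', n = n' + 1 := ⟨n - 1, by omega⟩
        refine ⟨n', ⟨?_, ?_⟩, ?_⟩
        · intro l hl
          have := hfp.1 (l + 1) (by omega)
          rwa [Function.iterate_succ_apply] at this
        · have := hfp.2
          rwa [Function.iterate_succ_apply] at this
        · rwa [Function.iterate_succ_apply] at hB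
  · exact main hL

theorem Sc_high {i : ℕ} {B : Finset ℤ} {x : ℤ} (hx : x ∈ Sc d m r i B)
    (hge : (d : ℝ) ^ (2 * i) ≤ |(x : ℝ)|) : Ent d m r i (B ∪ Ph d m r i) x := by
  rcases hx with h | ⟨j, z, h1, h2, h3⟩
  · exact h
  · exfalso
    have := h3 j le_rfl
    rw [h2] at this
    linarith

end Pool.Agent.T2h89.LT
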