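import Pool.Agent.T2h89.LT7

/-! The law of trajectories at all scales with errors of the size of the law of the iterated logarithm. -/

set_option autoImplicit false

namespace Pool.Agent.T2h89.LT

open Finset Pool.Agent.H319R3.GC Pool.Agent.H828R3.GP

variable {d : ℕ} {m r : ℕ → ℤ}

/-- `A₀` -/
noncomputable def A0 (d : ℕ) (m : ℕ → ℤ) (B : ℕ) : ℝ :=
  2 * Real.log (PP d m) * √(2 * d + 8 + B)

/-- the constant of the error term -/
noncomputable def AA (d : ℕ) (m : ℕ → ℤ) (B : ℕ) : ℝ :=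
  8 / (dl d m / 4) * A0 d m B / √(Real.log d)

theorem A0_pos (h : Adm d m r) (B : ℕ) : 0 < A0 d m B := by
  have := lPP h
  unfold A0
  positivity

theorem AA_pos (h : Adm d m r) (B : ℕ) : 0 < AA d m B := by
  have h1 := A0_pos h B
  have h2 := (dl_pos h).1
  have hdR : (2 : ℝ) ≤ d := by exact_mod_cast h.two_le
  have h3 : 0 < Real.log d := Real.log_pos (by linarith)
  unfold AA
  have : 0 < √(Real.log d) := Real.sqrt_pos.2 h3
  positivity

theorem A0_sq (_h : Adm d m r) (B : ℕ) : A0 d m B ^ 2 = 4 * Real.log (PP d m) ^ 2 * (2 * d + 8 + B) := by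
  unfold A0
  rw [mul_pow, mul_pow, Real.sq_sqrt (by positivity)]
  ring

/-- estimate of the summand, logarithmic case -/
theorem W2 {K κ₁ b κ D n : ℝ} {p B : ℕ} (hK : 0 < K) (hκ₁ : 1 ≤ κ₁) (hD : 0 < D) (hn : 1 ≤ n)
    (hb : b ≤ 6 * (n + 1) / n ^ (p + 3 + B)) (hκ : κ₁ ^ p * n ^ (p + 2 + B) * κ ≤ 1) :
    K * ((κ₁ * n) ^ p * (2 * b + κ) + (1 / (κ₁ * n)) ^ (B + 2)) + D * b ≤
      (K * (24 * κ₁ ^ p + 2) + 12 * D) * (1 / n ^ (B + 2)) := by
  have hn0 : 0 < n := by linarith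
  have hκ0 : 0 < κ₁ := by linarith
  have hnB : 0 < n ^ (B + 2) := by positivity
  have h1 : b ≤ 12 / n ^ (p + 2 + B) := by
    refine hb.trans ?_
    rw [div_le_div_iff₀ (by positivity) (by positivity)]
    have e : n ^ (p + 3 + B) = n * n ^ (p + 2 + B) := by rw [← pow_succ']; congr 1; omega
    rw [e]
    have : 0 < n ^ (p + 2 + B) := by positivity
    nlinarith
  have h2 : (κ₁ * n) ^ p * (2 * b) ≤ 24 * κ₁ ^ p * (1 / n ^ (B + 2)) := by
    have e : n ^ (p + 2 + B) = n ^ p * n ^ (B + 2) := by rw [← pow_add]; congr 1; omega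
    rw [e] at h1
    calc (κ₁ * n) ^ p * (2 * b) ≤ (κ₁ * n) ^ p * (2 * (12 / (n ^ p * n ^ (B + 2)))) := by
          apply mul_le_mul_of_nonneg_left _ (by positivity)
          linarith
      _ = _ := by rw [mul_pow]; field_simp; ring
  have h3 : (κ₁ * n) ^ p * κ ≤ 1 / n ^ (B + 2) := by
    rw [le_div_iff₀ hnB]
    calc (κ₁ * n) ^ p * κ * n ^ (B + 2) = κ₁ ^ p * n ^ (p + 2 + B) * κ := by
          have e : n ^ (p + 2 + B) = n ^ p * n ^ (B + 2) := by rw [← pow_add]; congr 1; omega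
          rw [e, mul_pow]; ring
      _ ≤ 1 := hκ
  have h4 : (1 / (κ₁ * n)) ^ (B + 2) ≤ 1 / n ^ (B + 2) := by
    rw [div_pow, one_pow]
    apply one_div_le_one_div_of_le hnB
    apply pow_le_pow_left₀ hn0.le
    nlinarith
  have h5 : D * b ≤ 12 * D * (1 / n ^ (B + 2)) := by
    have h6 : b ≤ 12 * (1 / n ^ (B + 2)) := by
      refine h1.trans ?_
      rw [mul_one_div]
      apply div_le_div_of_nonneg_left (by norm_num) hnB
      exact pow_le_pow_right₀ hn (by omega)
    calc D * b ≤ D * (12 * (1 / n ^ (B + 2))) := mul_le_mul_of_nonneg_left h6 hD.le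
      _ = _ := by ring
  have h7 : (κ₁ * n) ^ p * (2 * b + κ) + (1 / (κ₁ * n)) ^ (B + 2) ≤ (24 * κ₁ ^ p + 2) * (1 / n ^ (B + 2)) := by
    linarith
  calc _ ≤ K * ((24 * κ₁ ^ p + 2) * (1 / n ^ (B + 2))) + 12 * D * (1 / n ^ (B + 2)) :=
        add_le_add (mul_le_mul_of_nonneg_left h7 hK.le) h5
    _ = _ := by ring

theorem inv_sq_tail {a b : ℕ} (ha : 2 ≤ a) (B : ℕ) :
    ∑ i ∈ Icc a b, 1 / (i : ℝ) ^ (B + 2) ≤ 1 / (a : ℝ) ^ B := by
  have haR : (2 : ℝ) ≤ a := by exact_mod_cast ha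
  rcases Nat.lt_or_ge b a with hab | hab
  · rw [Icc_eq_empty (by omega), sum_empty]; positivity
  · have h1 : ∑ i ∈ Icc a b, 1 / (i : ℝ) ^ (B + 2) ≤ ∑ i ∈ Icc a b, 1 / (a : ℝ) ^ B * ((i : ℝ) ^ 2)⁻¹ := by
      apply sum_le_sum
      intro i hi
      rw [mem_Icc] at hi
      have hia : (a : ℝ) ≤ i := by exact_mod_cast hi.1
      have hi0 : (0 : ℝ) < i := by linarith
      rw [pow_add, one_div, mul_inv]
      apply mul_le_mul_of_nonneg_right _ (by positivity)
      rw [one_div]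
      apply inv_anti₀ (by positivity)
      exact pow_le_pow_left₀ (by linarith) hia B
    refine h1.trans ?_
    rw [← mul_sum]
    have h2 : Icc a b = Ioc (a - 1) b := by
      ext x; simp only [mem_Icc, mem_Ioc]; omega
    rw [h2]
    have h3 := sum_Ioc_inv_sq_le_sub (α := ℝ) (k := a - 1) (n := b) (by omega) (by omega)
    have h4 : (((a - 1 : ℕ) : ℝ))⁻¹ ≤ 1 := by
      apply inv_le_one_of_one_le₀
      exact_mod_cast (by omega : 1 ≤ a - 1)
    have h5 : 0 ≤ ((b : ℝ))⁻¹ := by positivity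
    calc 1 / (a : ℝ) ^ B * ∑ i ∈ Ioc (a - 1) b, ((i : ℝ) ^ 2)⁻¹ ≤ 1 / (a : ℝ) ^ B * 1 :=
          mul_le_mul_of_nonneg_left (by linarith) (by positivity)
      _ = _ := mul_one _

theorem law2 (h : Adm d m r) {s η : ℝ}
    (hs : 0 ≤ s) (hη0 : 0 ≤ η) (hη1 : η < 1) (hsum : ∑ j ∈ range d, (|(m j : ℝ)| / d) ^ s ≤ (d : ℝ) ^ η)
    (B : ℕ) : ∃ C : ℝ, 0 < C ∧ ∀ X y : ℝ, 1 ≤ X → 2 ≤ y →
      ({x : ℤ | |(x : ℝ)| ≤ X ∧ ¬ Str d m r y (fun L => AA d m B * √(L * Real.log L)) x}.ncard : ℝ) ≤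
        C * X / Real.log y ^ B := by
  classical
  have hd2 := h.two_le
  have hdR : (2 : ℝ) ≤ d := by exact_mod_cast hd2
  have hd0 : (0 : ℝ) < d := by linarith
  have hd1 : (1 : ℝ) ≤ d := by linarith
  have hd1' : (1 : ℝ) < d := by linarith
  have hlogd : 0 < Real.log d := Real.log_pos hd1'
  have hρ := rho_pos h
  have hρd := rho_lt h
  obtain ⟨hδ0, hδ1, hδρ⟩ := dl_pos h
  have hA0 := A0_pos h B
  have hK0 := lPP h
  have hl2 : 0 < Real.log 2 := Real.log_pos (by norm_num)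
  obtain ⟨R, hR0, hR⟩ : ∃ R : ℝ, 0 ≤ R ∧ ∀ i < d, |(r i : ℝ)| ≤ R := by
    refine ⟨∑ i ∈ range d, |(r i : ℝ)|, sum_nonneg fun _ _ => abs_nonneg _, fun i hi => ?_⟩
    exact Finset.single_le_sum (f := fun i => |(r i : ℝ)|) (fun j _ => abs_nonneg _)
      (mem_range.2 hi)
  obtain ⟨K, κ₁, hK, hκ₁, hcount⟩ := count h hR hR0 hs hη0 hη1 hsum (B + 2) (by omega)
  set H : ℕ → ℝ := fun i => A0 d m B * √(i * Real.log i) with hH
  set t : ℕ → ℝ := fun i => κ₁ * i with ht
  have hη' : 0 < 1 - η := by linarith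
  -- eventual conditions
  have ev2 := ev_pow (100 * κ₁ ^ 2 * R * d * d) 2 hd1'
  have ev3 := ev_pow (8 * R * PP d m) 1 hd1'
  have ev4 := ev_half R hR0 hd1'
  have ev5 : ∀ᶠ n : ℕ in Filter.atTop, 2 / dl d m ≤ (n : ℝ) :=
    tendsto_natCast_atTop_atTop.eventually_ge_atTop _
  have ev6 : ∀ᶠ n : ℕ in Filter.atTop, Real.log 2 / A0 d m B ^ 2 ≤ (n : ℝ) :=
    tendsto_natCast_atTop_atTop.eventually_ge_atTop _
  have ev7 : ∀ᶠ n : ℕ in Filter.atTop, 4 * Real.log 2 / rho d m ≤ (n : ℝ) :=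
    tendsto_natCast_atTop_atTop.eventually_ge_atTop _
  have ev8 : ∀ᶠ n : ℕ in Filter.atTop, 4 / Real.log d ^ 2 ≤ (n : ℝ) :=
    tendsto_natCast_atTop_atTop.eventually_ge_atTop _
  have ev9 := ev_pow (κ₁ ^ (2 * d + 5)) (2 * d + 5 + 2 + B) (a := (d : ℝ) ^ (1 - η))
    (Real.one_lt_rpow hd1' hη')
  have ev10 : ∀ᶠ n : ℕ in Filter.atTop, Real.log n ≤ (rho d m / (4 * A0 d m B)) ^ 2 * n := by
    have e1 := (Real.isLittleO_log_id_atTop.bound (c := (rho d m / (4 * A0 d m B)) ^ 2)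
      (by positivity))
    have e2 := tendsto_natCast_atTop_atTop (R := ℝ) |>.eventually e1
    filter_upwards [e2] with n hn
    rw [Real.norm_eq_abs, Real.norm_eq_abs, id, abs_of_nonneg (Nat.cast_nonneg (α := ℝ) n)] at hn
    exact (le_abs_self _).trans hn
  obtain ⟨N, hN⟩ := Filter.eventually_atTop.1 ((((ev2.and ev3).and ev4).and (ev5.and ev6)).and
    ((ev7.and ev8).and (ev9.and ev10)))
  set i₀ : ℕ := max N 2 with hi₀
  have hlogn : ∀ i : ℕ, 2 ≤ i → Real.log 2 ≤ Real.log i := by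
    intro i hi
    exact Real.log_le_log (by norm_num) (by exact_mod_cast hi)
  have hcond : ∀ i : ℕ, i₀ ≤ i → 100 * t i ^ 2 * R * d ≤ (d : ℝ) ^ (i - 1) ∧ 0 < H i ∧
        H i + Real.log 2 ≤ rho d m * i / 2 ∧ 8 * i * R * PP d m ≤ (d : ℝ) ^ i ∧
        4 * i * R ≤ (d : ℝ) ^ (i / 2) ∧ 2 ≤ dl d m * i ∧ Real.log 2 ≤ H i ∧
        4 ≤ Real.log d ^ 2 * i ∧
        κ₁ ^ (2 * d + 5) * (i : ℝ) ^ (2 * d + 5 + 2 + B) * ((d : ℝ) ^ i) ^ (-(1 - η)) ≤ 1 := by
    intro i hi
    obtain ⟨⟨⟨⟨a2, a3⟩, a4⟩, a5, a6⟩, ⟨a7, a8⟩, a9, a10⟩ := hN i ((le_max_left _ _).trans hi)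
    have hi2 : 2 ≤ i := (le_max_right _ _).trans hi
    have hiR : (2 : ℝ) ≤ i := by exact_mod_cast hi2
    have hlog := hlogn i hi2
    rw [pow_one] at a3
    rw [div_le_iff₀ hδ0] at a5
    rw [div_le_iff₀ (by positivity)] at a6
    rw [div_le_iff₀ hρ] at a7
    rw [div_le_iff₀ (by positivity)] at a8
    have hil : 0 < (i : ℝ) * Real.log i := by
      have : 0 < Real.log i := by linarith
      positivity
    have hHpos : 0 < A0 d m B * √(i * Real.log i) := mul_pos hA0 (Real.sqrt_pos.2 hil)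
    refine ⟨?_, by simpa only [hH] using hHpos, ?_, by linarith, a4, by linarith, ?_, by linarith, ?_⟩
    · simp only [ht]
      have e2 : (d : ℝ) ^ i = (d : ℝ) ^ (i - 1) * d := by rw [← pow_succ]; congr 1; omega
      rw [e2] at a2
      have e3 : 100 * (κ₁ * i) ^ 2 * R * d * d ≤ (d : ℝ) ^ (i - 1) * d := by
        calc 100 * (κ₁ * i) ^ 2 * R * d * d = 100 * κ₁ ^ 2 * R * d * d * (i : ℝ) ^ 2 := by ring
          _ ≤ _ := a2
      exact le_of_mul_le_mul_right e3 hd0
    · simp only [hH]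
      have e1 : √((i : ℝ) * Real.log i) ≤ rho d m / (4 * A0 d m B) * i := by
        apply Real.sqrt_le_iff.2
        refine ⟨by positivity, ?_⟩
        calc (i : ℝ) * Real.log i ≤ i * ((rho d m / (4 * A0 d m B)) ^ 2 * i) :=
              mul_le_mul_of_nonneg_left a10 (by linarith)
          _ = _ := by ring
      have e2 : A0 d m B * √((i : ℝ) * Real.log i) ≤ rho d m / 4 * i := by
        calc A0 d m B * √((i : ℝ) * Real.log i) ≤ A0 d m B * (rho d m / (4 * A0 d m B) * i) :=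
              mul_le_mul_of_nonneg_left e1 hA0.le
          _ = _ := by field_simp
      linarith
    · simp only [hH]
      have e1 : (Real.log 2 / A0 d m B) ≤ √((i : ℝ) * Real.log i) := by
        apply Real.le_sqrt_of_sq_le
        rw [div_pow, div_le_iff₀ (by positivity)]
        have e2 : Real.log 2 * Real.log 2 ≤ (i * A0 d m B ^ 2) * Real.log i :=
          mul_le_mul a6 hlog hl2.le (by positivity)
        calc Real.log 2 ^ 2 = Real.log 2 * Real.log 2 := by ring
          _ ≤ (i * A0 d m B ^ 2) * Real.log i := e2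
          _ = _ := by ring
      rw [div_le_iff₀ hA0] at e1
      linarith
    · have e1 : ((d : ℝ) ^ i) ^ (-(1 - η)) = (((d : ℝ) ^ (1 - η)) ^ i)⁻¹ := by
        rw [Real.rpow_neg (by positivity), ← Real.rpow_natCast, ← Real.rpow_natCast, ← Real.rpow_mul hd0.le,
          ← Real.rpow_mul hd0.le, mul_comm]
      rw [e1, ← div_eq_mul_inv, div_le_one (by positivity)]
      exact a9
  have htol : ∀ i₁ : ℕ, i₀ ≤ i₁ → Tol d m R (dl d m) (dl d m / 4) i₁ H := by
    intro i₁ hi₁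
    have hi₁2 : 2 ≤ i₁ := (le_max_right _ _).trans hi₁
    refine ⟨by omega, hδ0, hδ1, hδρ.le, by linarith, ?_, ?_, ?_, ?_, ?_, ?_⟩
    · intro i hi
      obtain ⟨-, -, -, -, -, a, -⟩ := hcond i (hi₁.trans hi)
      linarith
    · intro i hi
      exact (hcond i (hi₁.trans hi)).2.2.2.2.1
    · intro i hi
      exact (hcond i (hi₁.trans hi)).2.2.2.2.2.2.1
    · intro i hi
      exact (hcond i (hi₁.trans hi)).2.2.1
    · intro i j hi hij
      simp only [hH]
      apply mul_le_mul_of_nonneg_left _ hA0.le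
      apply Real.sqrt_le_sqrt
      have hi2 : 2 ≤ i := hi₁2.trans hi
      have h1 : (i : ℝ) ≤ j := by exact_mod_cast hij
      have h0 : (0 : ℝ) < i := by exact_mod_cast (by omega : 0 < i)
      have h2 : Real.log i ≤ Real.log j := Real.log_le_log h0 h1
      have h3 := hlogn i hi2
      exact mul_le_mul h1 h2 (by linarith) (by linarith)
    · intro i hi
      have h1 : i₁ ≤ i := hi.trans (Nat.sub_le _ _)
      obtain ⟨-, -, -, -, -, a, -⟩ := hcond i (hi₁.trans h1)
      have h2 := floor_gain hδ0 hδ1 a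
      set j : ℕ := i - ⌊dl d m * i⌋₊ with hj
      have hj2 : 2 ≤ j := hi₁2.trans hi
      have hji : j ≤ i := Nat.sub_le _ _
      have hj0 : (0 : ℝ) < j := by exact_mod_cast (by omega : 0 < j)
      have hjiR : (j : ℝ) ≤ i := by exact_mod_cast hji
      simp only [hH]
      have h3 : (j : ℝ) * Real.log j ≤ (1 - dl d m / 2) * (i * Real.log i) := by
        have e1 := Real.log_le_log hj0 hjiR
        have e2 := hlogn j hj2
        calc (j : ℝ) * Real.log j ≤ ((1 - dl d m / 2) * i) * Real.log i :=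
              mul_le_mul h2 e1 (by linarith) (by nlinarith)
          _ = _ := by ring
      have h4 : √((j : ℝ) * Real.log j) ≤ (1 - dl d m / 4) * √(i * Real.log i) := by
        apply Real.sqrt_le_iff.2
        refine ⟨mul_nonneg (by linarith) (Real.sqrt_nonneg _), ?_⟩
        have hil : 0 ≤ (i : ℝ) * Real.log i := by
          have := hlogn i (hj2.trans hji)
          have h0 : (0 : ℝ) ≤ i := Nat.cast_nonneg i
          exact mul_nonneg h0 (by linarith)
        rw [mul_pow, Real.sq_sqrt hil]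
        refine h3.trans (mul_le_mul_of_nonneg_right ?_ hil)
        nlinarith [sq_nonneg (dl d m)]
      calc A0 d m B * √((j : ℝ) * Real.log j) ≤ A0 d m B * ((1 - dl d m / 4) * √(i * Real.log i)) :=
            mul_le_mul_of_nonneg_left h4 hA0.le
        _ = _ := by ring
  -- the constants
  set M : ℝ := K * (24 * κ₁ ^ (2 * d + 5) + 2) + 12 * d with hM
  have hM0 : 0 < M := by positivity
  set Y₀ : ℝ := (d : ℝ) ^ i₀ with hY₀
  have hY₀1 : 1 ≤ Y₀ := one_le_pow₀ hd1
  have hlY₀ : 0 ≤ Real.log Y₀ := Real.log_nonneg hY₀1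
  refine ⟨3 * Real.log Y₀ ^ B + M * (2 * Real.log d) ^ B, by positivity, ?_⟩
  intro X y hX hy
  have hy0 : 0 < y := by linarith
  have hly : 0 < Real.log y := Real.log_pos (by linarith)
  rw [le_div_iff₀ (by positivity)]
  rcases lt_or_ge y Y₀ with hsm | hbig
  · have h1 := ncard_trivial X hX {x : ℤ | |(x : ℝ)| ≤ X ∧ ¬ Str d m r y (fun L => AA d m B *
      √(L * Real.log L)) x} (fun x hx => hx.1)
    have h2 : Real.log y ^ B ≤ Real.log Y₀ ^ B :=
      pow_le_pow_left₀ hly.le (Real.log_le_log hy0 hsm.le) B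
    have h4 : 0 ≤ M * (2 * Real.log d) ^ B * X := by positivity
    calc _ ≤ 3 * X * Real.log Y₀ ^ B := mul_le_mul h1 h2 (by positivity) (by linarith)
      _ ≤ 3 * X * Real.log Y₀ ^ B + M * (2 * Real.log d) ^ B * X := by linarith
      _ = _ := by ring
  · obtain ⟨i₁, hi1, hi2⟩ := exists_pow hd2 (y := y) (by linarith)
    have hi2' : y < (d : ℝ) ^ (i₁ + 1) := by rw [pow_succ]; linarith
    have hi₁ : i₀ ≤ i₁ := by
      have h1 : (d : ℝ) ^ i₀ < (d : ℝ) ^ (i₁ + 1) := lt_of_le_of_lt hbig hi2'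
      have := (pow_lt_pow_iff_right₀ hd1').1 h1
      omega
    have hi₁2 : 2 ≤ i₁ := (le_max_right _ _).trans hi₁
    have hi₁R : (2 : ℝ) ≤ i₁ := by exact_mod_cast hi₁2
    have hTl := htol i₁ hi₁
    obtain ⟨I, hI⟩ := pow_unbounded_of_one_lt X hd1'
    have hcnt := hcount i₁ H t hi₁2 (by
      intro i hi
      obtain ⟨a2, a3, a4, a5, a6, a7, a8, a9, a10⟩ := hcond i (hi₁.trans hi)
      refine ⟨le_rfl, a2, a3, ?_, a5⟩
      have hiR : (0 : ℝ) < i := by exact_mod_cast (by omega : 0 < i)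
      have : 0 < rho d m * i := by positivity
      linarith) X hX I hI.le
    have hsub : {x : ℤ | |(x : ℝ)| ≤ X ∧ ¬ Str d m r y (fun L => AA d m B * √(L * Real.log L)) x} ⊆
        {x : ℤ | |(x : ℝ)| ≤ X ∧ ¬ Good d m r i₁ H x} := by
      rintro x ⟨h1, h2⟩
      refine ⟨h1, fun hg => h2 ?_⟩
      apply good_str h hR hR0 hTl hg hi1
      intro i hi L hL
      have hi2n : 2 ≤ i := by omega
      have hiR : (2 : ℝ) ≤ i := by exact_mod_cast hi2n
      have hL2 : i * Real.log d / 2 ≤ L := by nlinarith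
      obtain ⟨-, -, -, -, -, -, -, a9, -⟩ := hcond i (hi₁.trans hi.le)
      have hL0 : 0 < L := lt_of_lt_of_le (by positivity) hL2
      have hiL : (i : ℝ) ≤ 2 * L / Real.log d := by
        rw [le_div_iff₀ hlogd]; linarith
      have hLd : 2 / Real.log d ≤ L := by
        rw [div_le_iff₀ hlogd]
        have e1 : i * Real.log d / 2 * Real.log d ≤ L * Real.log d :=
          mul_le_mul_of_nonneg_right hL2 hlogd.le
        have e2 : i * Real.log d / 2 * Real.log d = Real.log d ^ 2 * i / 2 := by ring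
        linarith
      have hlogi : Real.log i ≤ 2 * Real.log L := by
        have e1 : (i : ℝ) ≤ L ^ 2 := by
          calc (i : ℝ) ≤ 2 * L / Real.log d := hiL
            _ = (2 / Real.log d) * L := by ring
            _ ≤ L * L := mul_le_mul_of_nonneg_right hLd hL0.le
            _ = L ^ 2 := by ring
        have e2 := Real.log_le_log (by linarith) e1
        rw [Real.log_pow] at e2
        push_cast at e2
        exact e2
      have hlog2 := hlogn i hi2n
      have hprod : (i : ℝ) * Real.log i ≤ 4 / Real.log d * (L * Real.log L) := by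
        calc (i : ℝ) * Real.log i ≤ (2 * L / Real.log d) * (2 * Real.log L) :=
              mul_le_mul hiL hlogi (by linarith) (by positivity)
          _ = _ := by ring
      simp only [hH]
      have hs1 : √((i : ℝ) * Real.log i) ≤ 2 / √(Real.log d) * √(L * Real.log L) := by
        refine (Real.sqrt_le_sqrt hprod).trans (le_of_eq ?_)
        rw [Real.sqrt_mul (by positivity), Real.sqrt_div (by norm_num)]
        congr 2
        rw [show (4 : ℝ) = 2 ^ 2 by norm_num, Real.sqrt_sq (by norm_num)]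
      calc 4 / (dl d m / 4) * (A0 d m B * √((i : ℝ) * Real.log i)) ≤
            4 / (dl d m / 4) * (A0 d m B * (2 / √(Real.log d) * √(L * Real.log L))) := by
            apply mul_le_mul_of_nonneg_left _ (by positivity)
            exact mul_le_mul_of_nonneg_left hs1 hA0.le
        _ = AA d m B * √(L * Real.log L) := by unfold AA; ring
    have h1 : ({x : ℤ | |(x : ℝ)| ≤ X ∧ ¬ Str d m r y (fun L => AA d m B * √(L * Real.log L)) x}.ncard : ℝ) ≤
        ({x : ℤ | |(x : ℝ)| ≤ X ∧ ¬ Good d m r i₁ H x}.ncard : ℝ) := by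
      exact_mod_cast Set.ncard_le_ncard hsub (fin_le X _ fun x hx => hx.1)
    have hsumm : ∑ i ∈ Icc i₁ (I + 1), (K * (t i ^ (2 * d + 5) * (2 * bb d m i (H i) +
          ((d : ℝ) ^ i) ^ (-(1 - η))) + (1 / t i) ^ (B + 2)) + d * bb d m i (H i)) ≤
        ∑ i ∈ Icc i₁ (I + 1), M * (1 / (i : ℝ) ^ (B + 2)) := by
      apply sum_le_sum
      intro i hi
      rw [mem_Icc] at hi
      have hi2n : 2 ≤ i := by omega
      have hiR : (2 : ℝ) ≤ i := by exact_mod_cast hi2n
      have hi0 : (0 : ℝ) < i := by linarith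
      obtain ⟨-, -, -, -, -, -, -, -, a10⟩ := hcond i (hi₁.trans hi.1)
      have e1 : bb d m i (H i) ≤ 6 * ((i : ℝ) + 1) / (i : ℝ) ^ (2 * d + 5 + 3 + B) := by
        unfold bb
        apply le_of_eq
        simp only [hH]
        have hil : 0 ≤ (i : ℝ) * Real.log i := by
          have := hlogn i hi2n
          exact mul_nonneg hi0.le (by linarith)
        rw [mul_pow, Real.sq_sqrt hil, A0_sq h]
        have e2 : 4 * Real.log (PP d m) ^ 2 * (2 * (d : ℝ) + 8 + B) * (i * Real.log i) /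
            (4 * Real.log (PP d m) ^ 2 * i) = ((2 * d + 5 + 3 + B : ℕ) : ℝ) * Real.log i := by
          push_cast
          field_simp
          ring
        rw [e2, Real.exp_neg, Real.exp_nat_mul, Real.exp_log hi0, div_eq_mul_inv]
      exact W2 hK hκ₁ hd0 (by linarith) e1 a10
    have h2 : ∑ i ∈ Icc i₁ (I + 1), M * (1 / (i : ℝ) ^ (B + 2)) ≤ M * (1 / (i₁ : ℝ) ^ B) := by
      rw [← mul_sum]
      exact mul_le_mul_of_nonneg_left (inv_sq_tail hi₁2 B) hM0.le
    have h3 : 1 / (i₁ : ℝ) ^ B * Real.log y ^ B ≤ (2 * Real.log d) ^ B := by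
      rw [one_div, inv_mul_le_iff₀ (by positivity), ← mul_pow]
      apply pow_le_pow_left₀ hly.le
      have h4 : Real.log y ≤ (i₁ + 1) * Real.log d := by
        have := Real.log_le_log hy0 hi2'.le
        rw [Real.log_pow] at this
        push_cast at this
        exact this
      have h5 : ((i₁ : ℝ) + 1) * Real.log d ≤ (2 * i₁) * Real.log d :=
        mul_le_mul_of_nonneg_right (by linarith) hlogd.le
      linarith
    have h4 : 0 ≤ 3 * Real.log Y₀ ^ B * X := by positivity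
    calc _ ≤ (X * (M * (1 / (i₁ : ℝ) ^ B))) * Real.log y ^ B := by
          apply mul_le_mul_of_nonneg_right _ (by positivity)
          refine (h1.trans hcnt).trans ?_
          exact mul_le_mul_of_nonneg_left (hsumm.trans h2) (by linarith)
      _ = X * M * (1 / (i₁ : ℝ) ^ B * Real.log y ^ B) := by ring
      _ ≤ X * M * (2 * Real.log d) ^ B := mul_le_mul_of_nonneg_left h3 (by positivity)
      _ ≤ X * M * (2 * Real.log d) ^ B + 3 * Real.log Y₀ ^ B * X := by linarith
      _ = _ := by ring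

end Pool.Agent.T2h89.LT
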