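import Pool.Agent.H828R3.GP.Main

/-! Large deviations of the multipliers of the words of a generalised Collatz map. -/

set_option autoImplicit false

namespace Pool.Agent.T2h89.LT

open Finset Pool.Agent.H319R3.GC Pool.Agent.H828R3.GP

variable {d : ℕ} {m r : ℕ → ℤ}

/-- mean of the logarithm of the multiplier -/
noncomputable def lam (d : ℕ) (m : ℕ → ℤ) : ℝ := Real.log (PP d m) / d

theorem mgf (f : ℕ → ℝ) (s : ℝ) (b : ℕ) :
    ∑ w ∈ LW d b, Real.exp (s * (w.map f).sum) = (∑ j ∈ range d, Real.exp (s * f j)) ^ b := by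
  induction b with
  | zero => simp [LW]
  | succ k ih =>
    rw [sum_LW_succ, pow_succ', Finset.sum_mul]
    refine Finset.sum_congr rfl fun j _ => ?_
    rw [← ih, Finset.mul_sum]
    refine Finset.sum_congr rfl fun w _ => ?_
    rw [← Real.exp_add]
    congr 1
    rw [List.map_cons, List.sum_cons]
    ring

theorem base {f : ℕ → ℝ} {K : ℝ} (hf : ∀ j < d, |f j| ≤ K) (hf0 : ∑ j ∈ range d, f j = 0)
    {s : ℝ} (hs : |s| * K ≤ 1) : ∑ j ∈ range d, Real.exp (s * f j) ≤ d * Real.exp (s ^ 2 * K ^ 2) := by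
  have h1 : ∀ j ∈ range d, Real.exp (s * f j) ≤ 1 + s * f j + s ^ 2 * K ^ 2 := by
    intro j hj
    have hj' := hf j (mem_range.1 hj)
    have hsx : |s * f j| ≤ 1 := by
      rw [abs_mul]
      exact (mul_le_mul_of_nonneg_left hj' (abs_nonneg s)).trans hs
    have h4 := (abs_le.1 (Real.abs_exp_sub_one_sub_id_le hsx)).2
    have h6 : (s * f j) ^ 2 ≤ s ^ 2 * K ^ 2 := by
      rw [mul_pow]
      apply mul_le_mul_of_nonneg_left _ (sq_nonneg s)
      rw [← sq_abs (f j)]
      exact pow_le_pow_left₀ (abs_nonneg _) hj' 2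
    linarith
  refine (Finset.sum_le_sum h1).trans ?_
  rw [Finset.sum_add_distrib, Finset.sum_add_distrib, ← Finset.mul_sum, hf0, mul_zero, add_zero]
  simp only [Finset.sum_const, Finset.card_range, nsmul_eq_mul, mul_one]
  have := Real.add_one_le_exp (s ^ 2 * K ^ 2)
  nlinarith [Nat.cast_nonneg (α := ℝ) d]

theorem tail {f : ℕ → ℝ} {K : ℝ} (hf : ∀ j < d, |f j| ≤ K) (hf0 : ∑ j ∈ range d, f j = 0)
    {s : ℝ} (hs : |s| * K ≤ 1) (b : ℕ) (U : ℝ) :
    (((LW d b).filter fun w => U ≤ s * (w.map f).sum).card : ℝ)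
      ≤ (d : ℝ) ^ b * Real.exp (s ^ 2 * K ^ 2 * b - U) := by
  set F := (LW d b).filter fun w => U ≤ s * (w.map f).sum with hF
  have h1 : (F.card : ℝ) * Real.exp U ≤ ∑ w ∈ LW d b, Real.exp (s * (w.map f).sum) := by
    calc (F.card : ℝ) * Real.exp U = ∑ _w ∈ F, Real.exp U := by
          rw [Finset.sum_const, nsmul_eq_mul]
      _ ≤ ∑ w ∈ F, Real.exp (s * (w.map f).sum) := by
          refine Finset.sum_le_sum fun w hw => Real.exp_le_exp.2 ?_
          exact (Finset.mem_filter.1 hw).2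
      _ ≤ ∑ w ∈ LW d b, Real.exp (s * (w.map f).sum) :=
          Finset.sum_le_sum_of_subset_of_nonneg (Finset.filter_subset _ _)
            fun _ _ _ => (Real.exp_pos _).le
  rw [mgf] at h1
  have h2 : (∑ j ∈ range d, Real.exp (s * f j)) ^ b ≤ (d * Real.exp (s ^ 2 * K ^ 2)) ^ b :=
    pow_le_pow_left₀ (Finset.sum_nonneg fun _ _ => (Real.exp_pos _).le) (base hf hf0 hs) b
  have h3 := h1.trans h2
  have h4 : (F.card : ℝ) = (F.card : ℝ) * Real.exp U * Real.exp (-U) := by
    rw [mul_assoc, ← Real.exp_add]; simp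
  rw [h4]
  calc (F.card : ℝ) * Real.exp U * Real.exp (-U)
      ≤ (d * Real.exp (s ^ 2 * K ^ 2)) ^ b * Real.exp (-U) :=
        mul_le_mul_of_nonneg_right h3 (Real.exp_pos _).le
    _ = (d : ℝ) ^ b * Real.exp (s ^ 2 * K ^ 2 * b - U) := by
        rw [mul_pow, ← Real.exp_nat_mul, mul_assoc, ← Real.exp_add]
        congr 2
        ring

theorem sum_abs_le {f : ℕ → ℝ} {K : ℝ} (hf : ∀ j < d, |f j| ≤ K) : ∀ (b : ℕ) (w : List ℕ), w ∈ LW d b →
    |(w.map f).sum| ≤ K * b := by
  intro b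
  induction b with
  | zero => intro w hw; rw [LW, mem_singleton] at hw; rw [hw]; simp
  | succ b ih =>
    intro w hw
    rw [LW, mem_biUnion] at hw
    obtain ⟨i, hi, hw⟩ := hw
    rw [mem_image] at hw
    obtain ⟨u, hu, rfl⟩ := hw
    rw [List.map_cons, List.sum_cons]
    have h1 := ih u hu
    have h2 := hf i (mem_range.1 hi)
    push_cast
    calc |f i + (u.map f).sum| ≤ |f i| + |(u.map f).sum| := abs_add_le _ _
      _ ≤ K + K * b := add_le_add h2 h1
      _ = K * (b + 1) := by ring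

/-- Hoeffding's inequality for words -/
theorem hoeff {f : ℕ → ℝ} {K : ℝ} (hK : 0 < K) (hf : ∀ j < d, |f j| ≤ K)
    (hf0 : ∑ j ∈ range d, f j = 0) {b : ℕ} {n H : ℝ} (hn : 0 < n) (hb : (b : ℝ) ≤ n) (hH : 0 < H) :
    (((LW d b).filter fun w => H < |(w.map f).sum|).card : ℝ)
      ≤ 2 * ((d : ℝ) ^ b * Real.exp (-(H ^ 2 / (4 * K ^ 2 * n)))) := by
  classical
  rcases le_or_gt (2 * K * n) H with hbig | hsm
  · have : ((LW d b).filter fun w => H < |(w.map f).sum|) = ∅ := by
      apply Finset.filter_eq_empty_iff.2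
      intro w hw hlt
      have h1 := sum_abs_le hf b w hw
      have h2 : K * b ≤ K * n := mul_le_mul_of_nonneg_left hb hK.le
      have h3 : 0 < K * n := mul_pos hK hn
      nlinarith
    rw [this, card_empty, Nat.cast_zero]
    positivity
  · set s : ℝ := H / (2 * K ^ 2 * n) with hs
    have hs0 : 0 < s := by positivity
    have hsK : s * K ≤ 1 := by
      rw [hs, div_mul_eq_mul_div, div_le_one (by positivity)]
      nlinarith
    have hex : s ^ 2 * K ^ 2 * b - s * H ≤ -(H ^ 2 / (4 * K ^ 2 * n)) := by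
      have h1 : s ^ 2 * K ^ 2 * b ≤ s ^ 2 * K ^ 2 * n := mul_le_mul_of_nonneg_left hb (by positivity)
      have h2 : s ^ 2 * K ^ 2 * n - s * H = -(H ^ 2 / (4 * K ^ 2 * n)) := by
        rw [hs]; field_simp; ring
      linarith
    have t1 := tail hf hf0 (s := s) (by rwa [abs_of_pos hs0]) b (s * H)
    have t2 := tail hf hf0 (s := -s) (by rwa [abs_neg, abs_of_pos hs0]) b (s * H)
    rw [neg_sq] at t2
    have hsub : ((LW d b).filter fun w => H < |(w.map f).sum|) ⊆
        ((LW d b).filter fun w => s * H ≤ s * (w.map f).sum) ∪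
        ((LW d b).filter fun w => s * H ≤ -s * (w.map f).sum) := by
      intro w hw
      obtain ⟨hwL, hlt⟩ := Finset.mem_filter.1 hw
      rw [mem_union, mem_filter, mem_filter]
      rcases lt_abs.1 hlt with h1 | h1
      · exact Or.inl ⟨hwL, mul_le_mul_of_nonneg_left h1.le hs0.le⟩
      · refine Or.inr ⟨hwL, ?_⟩
        rw [neg_mul, ← mul_neg]
        exact mul_le_mul_of_nonneg_left h1.le hs0.le
    have h3 : (((LW d b).filter fun w => H < |(w.map f).sum|).card : ℝ) ≤
        (((LW d b).filter fun w => s * H ≤ s * (w.map f).sum).card : ℝ) +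
        (((LW d b).filter fun w => s * H ≤ -s * (w.map f).sum).card : ℝ) := by
      exact_mod_cast (card_le_card hsub).trans (card_union_le _ _)
    have h4 : Real.exp (s ^ 2 * K ^ 2 * b - s * H) ≤ Real.exp (-(H ^ 2 / (4 * K ^ 2 * n))) :=
      Real.exp_le_exp.2 hex
    have h5 : (d : ℝ) ^ b * Real.exp (s ^ 2 * K ^ 2 * b - s * H) ≤
        (d : ℝ) ^ b * Real.exp (-(H ^ 2 / (4 * K ^ 2 * n))) :=
      mul_le_mul_of_nonneg_left h4 (by positivity)
    linarith

theorem log_m (h : Adm d m r) {j : ℕ} (hj : j < d) :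
    0 ≤ Real.log |(m j : ℝ)| ∧ Real.log |(m j : ℝ)| ≤ Real.log (PP d m) := by
  have h1 := m_abs h hj
  refine ⟨Real.log_nonneg h1, Real.log_le_log (by linarith) ?_⟩
  have h2 : (m j).natAbs ≤ PP d m := by
    unfold PP
    apply Nat.le_of_dvd
    · have := h.big; unfold PP at this; omega
    · exact Finset.dvd_prod_of_mem _ (mem_range.2 hj)
  have h3 : |(m j : ℝ)| = ((m j).natAbs : ℝ) := by
    rw [← Int.cast_abs, Int.abs_eq_natAbs, Int.cast_natCast]
  rw [h3]; exact_mod_cast h2

theorem sum_log (h : Adm d m r) : ∑ j ∈ range d, Real.log |(m j : ℝ)| = Real.log (PP d m) := by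
  unfold PP
  push_cast
  rw [Real.log_prod]
  · apply Finset.sum_congr rfl
    intro j _
    congr 1
    rw [← Int.cast_abs, Int.abs_eq_natAbs, Int.cast_natCast]
  · intro j hj
    have h1 := m_abs h (mem_range.1 hj)
    have h3 : |(m j : ℝ)| = ((m j).natAbs : ℝ) := by
      rw [← Int.cast_abs, Int.abs_eq_natAbs, Int.cast_natCast]
    rw [← h3]; linarith

theorem lPP (h : Adm d m r) : 0 < Real.log (PP d m) := by
  have : (2 : ℝ) ≤ PP d m := by exact_mod_cast h.big
  exact Real.log_pos (by linarith)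

theorem lam_bds (h : Adm d m r) : 0 < lam d m ∧ lam d m ≤ Real.log (PP d m) ∧ lam d m < Real.log d := by
  have h1 := lPP h
  have hd : (2 : ℝ) ≤ d := by exact_mod_cast h.two_le
  have hP : (0 : ℝ) < PP d m := by exact_mod_cast (by have := h.big; omega : 0 < PP d m)
  unfold lam
  refine ⟨by positivity, ?_, ?_⟩
  · rw [div_le_iff₀ (by linarith)]; nlinarith
  · rw [div_lt_iff₀ (by linarith)]
    have h2 : ((PP d m : ℕ) : ℝ) < (d : ℝ) ^ d := by exact_mod_cast h.contr
    have h3 := Real.log_lt_log hP h2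
    rw [Real.log_pow] at h3
    linarith

theorem word_sum (h : Adm d m r) : ∀ (b : ℕ) (w : List ℕ), w ∈ LW d b →
    (w.map fun j => Real.log |(m j : ℝ)| - lam d m).sum = Real.log |(Mw m w : ℝ)| - b * lam d m := by
  intro b
  induction b with
  | zero => intro w hw; rw [LW, mem_singleton] at hw; rw [hw]; simp [Mw]
  | succ b ih =>
    intro w hw
    rw [LW, mem_biUnion] at hw
    obtain ⟨i, hi, hw⟩ := hw
    rw [mem_image] at hw
    obtain ⟨u, hu, rfl⟩ := hw
    rw [List.map_cons, List.sum_cons, ih u hu, Mw_cons]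
    push_cast
    have h1 := m_abs h (mem_range.1 hi)
    have h2 : (Mw m u : ℝ) ≠ 0 := by
      have := Mw_ne_zero h (mem_LW.1 hu).2
      exact_mod_cast this
    rw [abs_mul, Real.log_mul (by linarith) (abs_ne_zero.2 h2)]
    ring

theorem Mu_eq (n : ℕ) : ∀ x : ℤ, Mu d m r n x = Mw m (wd d m r n x) := by
  induction n with
  | zero => intro x; simp [Mu, wd, Mw]
  | succ n ih =>
    intro x
    have h1 := ih (Tm d m r x)
    unfold Mu at h1 ⊢
    rw [prod_range_succ']
    simp only [Function.iterate_succ_apply, Function.iterate_zero, id]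
    rw [h1]
    simp [wd, Mw, mul_comm]

open Classical in
/-- the points whose multipliers deviate from the mean in the first `i` steps -/
noncomputable def Bd (d : ℕ) (m r : ℕ → ℤ) (i : ℕ) (H : ℝ) : Finset ℤ :=
  (Icc (-(d : ℤ) ^ i) ((d : ℤ) ^ i)).filter (fun z => |(z : ℝ)| < (d : ℝ) ^ i ∧
    ∃ j ≤ i, H < |Real.log |(Mu d m r j z : ℝ)| - j * lam d m|)

theorem card_Bd (h : Adm d m r) {i : ℕ} (hi : 1 ≤ i) {H : ℝ} (hH : 0 < H) :
    ((Bd d m r i H).card : ℝ) ≤ 6 * (i + 1) * (d : ℝ) ^ i *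
      Real.exp (-(H ^ 2 / (4 * Real.log (PP d m) ^ 2 * i))) := by
  classical
  have hd0 : 0 < d := by have := h.two_le; omega
  have hdR : (0 : ℝ) < d := by exact_mod_cast hd0
  have hd1 : (1 : ℝ) ≤ d := by exact_mod_cast hd0
  have hiR : (0 : ℝ) < i := by exact_mod_cast hi
  have hK := lPP h
  set f : ℕ → ℝ := fun j => Real.log |(m j : ℝ)| - lam d m with hf
  have hl := lam_bds h
  have hfK : ∀ j < d, |f j| ≤ Real.log (PP d m) := by
    intro j hj
    obtain ⟨h1, h2⟩ := log_m h hj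
    rw [abs_le]
    constructor <;> simp only [hf] <;> linarith
  have hf0 : ∑ j ∈ range d, f j = 0 := by
    simp only [hf]
    rw [Finset.sum_sub_distrib, sum_log h, Finset.sum_const, card_range, nsmul_eq_mul]
    unfold lam
    field_simp
    ring
  set e : ℝ := Real.exp (-(H ^ 2 / (4 * Real.log (PP d m) ^ 2 * i))) with he
  have he0 : 0 < e := Real.exp_pos _
  set W : ℕ → Finset (List ℕ) := fun j => (LW d j).filter fun w => H < |(w.map f).sum| with hW
  set Z : Finset ℤ := (Icc (-(d : ℤ) ^ i) ((d : ℤ) ^ i)).filter (fun z => |(z : ℝ)| < (d : ℝ) ^ i) with hZ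
  have hsub : Bd d m r i H ⊆ (range (i + 1)).biUnion (fun j => (W j).biUnion
      (fun w => Z.filter (fun z => wd d m r j z = w))) := by
    intro z hz
    unfold Bd at hz
    rw [mem_filter] at hz
    obtain ⟨h1, h2, j, hj, h3⟩ := hz
    rw [mem_biUnion]
    refine ⟨j, mem_range.2 (by omega), ?_⟩
    rw [mem_biUnion]
    have hw := wd_mem (r := r) (m := m) h.two_le j z
    refine ⟨wd d m r j z, ?_, ?_⟩
    · simp only [hW]
      rw [mem_filter]
      refine ⟨hw, ?_⟩
      rw [word_sum h j _ hw, ← Mu_eq]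
      exact h3
    · rw [mem_filter, hZ, mem_filter]
      exact ⟨⟨h1, h2⟩, rfl⟩
  have hfib : ∀ j ∈ range (i + 1), ∀ w ∈ W j, ((Z.filter (fun z => wd d m r j z = w)).card : ℝ) ≤
      3 * (d : ℝ) ^ i / (d : ℝ) ^ j := by
    intro j hj w _
    rw [mem_range] at hj
    have hpj : (0 : ℝ) < (d : ℝ) ^ j := by positivity
    rcases (Z.filter (fun z => wd d m r j z = w)).eq_empty_or_nonempty with h0 | ⟨z₀, hz₀⟩
    · rw [h0, card_empty, Nat.cast_zero]; positivity
    · have h1 := card_ap (Z.filter (fun z => wd d m r j z = w)) (d ^ j) (by positivity) z₀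
        (2 * (d : ℝ) ^ i) (by positivity) (by
          intro x hx
          push_cast
          exact wd_cong h (((mem_filter.1 hx).2).trans ((mem_filter.1 hz₀).2).symm)) (by
          intro x hx z hz
          have hx' := (mem_filter.1 (mem_filter.1 hx).1).2
          have hz' := (mem_filter.1 (mem_filter.1 hz).1).2
          rw [abs_lt] at hx' hz'
          push_cast
          linarith)
      refine h1.trans ?_
      push_cast
      have h2 : (1 : ℝ) ≤ (d : ℝ) ^ i / (d : ℝ) ^ j := by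
        rw [le_div_iff₀ hpj, one_mul]
        exact pow_le_pow_right₀ hd1 (by omega)
      have e1 : 3 * (d : ℝ) ^ i / (d : ℝ) ^ j = 2 * (d : ℝ) ^ i / (d : ℝ) ^ j + (d : ℝ) ^ i / (d : ℝ) ^ j := by
        ring
      rw [e1]
      linarith
  have h1 : ((Bd d m r i H).card : ℝ) ≤ ∑ j ∈ range (i + 1), ∑ w ∈ W j,
      ((Z.filter (fun z => wd d m r j z = w)).card : ℝ) := by
    have : (Bd d m r i H).card ≤ ∑ j ∈ range (i + 1), ∑ w ∈ W j,
        (Z.filter (fun z => wd d m r j z = w)).card := by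
      refine (card_le_card hsub).trans ?_
      refine card_biUnion_le.trans (sum_le_sum fun j _ => ?_)
      exact card_biUnion_le
    exact_mod_cast this
  refine h1.trans ?_
  have h2 : ∀ j ∈ range (i + 1), ∑ w ∈ W j, ((Z.filter (fun z => wd d m r j z = w)).card : ℝ) ≤
      6 * (d : ℝ) ^ i * e := by
    intro j hj
    refine (sum_le_card_nsmul _ _ _ (hfib j hj)).trans ?_
    rw [nsmul_eq_mul]
    rw [mem_range] at hj
    have h3 := hoeff hK hfK hf0 (b := j) (n := i) hiR (by exact_mod_cast (by omega : j ≤ i)) hH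
    have hpj : (0 : ℝ) < (d : ℝ) ^ j := by positivity
    calc ((W j).card : ℝ) * (3 * (d : ℝ) ^ i / (d : ℝ) ^ j)
        ≤ (2 * ((d : ℝ) ^ j * e)) * (3 * (d : ℝ) ^ i / (d : ℝ) ^ j) :=
          mul_le_mul_of_nonneg_right h3 (by positivity)
      _ = 6 * (d : ℝ) ^ i * e := by field_simp; ring
  refine (sum_le_card_nsmul _ _ _ h2).trans ?_
  rw [card_range, nsmul_eq_mul]
  push_cast
  apply le_of_eq
  ring

end Pool.Agent.T2h89.LT
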