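import Pool.Agent.T2h89.LT2

/-! Counting the points whose first passage is in a sparse set: small scales. -/

set_option autoImplicit false

namespace Pool.Agent.T2h89.LT

open Finset Pool.Agent.H319R3.GC Pool.Agent.H828R3.GP

variable {d : ℕ} {m r : ℕ → ℤ}

/-- the points of a class which do not pass below `d^l` within `k * k` steps -/
theorem card_stay' (h : Adm d m r) {R : ℝ} (hR : ∀ i < d, |(r i : ℝ)| ≤ R) (hR0 : 0 ≤ R) {s K : ℝ}
    (hs : 0 ≤ s) (hK1 : 1 ≤ K) (hK : ∑ j ∈ range d, (|(m j : ℝ)| / d) ^ s ≤ K) (hKd : K < d)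
    {k l q : ℕ} (hq : 0 < q) (c : ℤ) (hk1 : 1 ≤ k) (hlk : l ≤ k)
    (hl : 4 * (k * k) * R ≤ (d : ℝ) ^ l) (S : Finset ℤ)
    (hS : ∀ x ∈ S, |(x : ℝ)| < (d : ℝ) ^ k ∧ (q : ℤ) ∣ x - c ∧ ∀ n ≤ k * k, ¬ FP d m r l n x) :
    (S.card : ℝ) ≤ k * (3 * (2 * d) ^ s * ((k * k + 1) ^ (d + 1) *
      (8 * (k * k) * R * d * ((d : ℝ) ^ k * (K / d) ^ l) / q + (d : ℝ) ^ k * (K / d) ^ k))) := by
  classical
  have hqR : (0 : ℝ) < q := by exact_mod_cast hq
  have hd1 : (1 : ℝ) ≤ d := by exact_mod_cast (by have := h.two_le; omega : 1 ≤ d)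
  have hd0 : (0 : ℝ) < d := by linarith
  have hkR : (1 : ℝ) ≤ k := by exact_mod_cast hk1
  have hK0 : 0 < K := by linarith
  have hκ1 : K / d ≤ 1 := by rw [div_le_one hd0]; exact hKd.le
  have hκ0 : 0 ≤ K / d := by positivity
  have hsum0 : 0 ≤ ∑ j ∈ range d, (|(m j : ℝ)| / d) ^ s := sum_nonneg fun j _ => by positivity
  have hsub : S ⊆ (Ioc l k).biUnion (fun i => Pa d m r k i (k * k) q c (St d m r i)) := by
    intro x hx
    obtain ⟨h1, h2, h3⟩ := hS x hx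
    by_contra hcon
    simp only [mem_biUnion, mem_Ioc, not_exists, not_and] at hcon
    obtain ⟨n, hn, hfp⟩ := descend h hR hR0 (k := k) (l := l) (by
      refine le_trans ?_ hl
      apply mul_le_mul_of_nonneg_right _ hR0
      nlinarith) h1 (by
      intro i hi hik n hn hfp hst
      apply hcon i ⟨hi, hik⟩
      unfold Pa
      rw [mem_filter]
      exact ⟨mem_Icc_of_abs h1, h1, h2, n, hn, hfp, hst⟩) (k - l) (by omega)
    have e : k - (k - l) = l := by omega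
    rw [e] at hfp
    exact h3 n (hn.trans (Nat.mul_le_mul_right _ (by omega))) hfp
  have h1 : (S.card : ℝ) ≤ ∑ i ∈ Ioc l k, ((Pa d m r k i (k * k) q c (St d m r i)).card : ℝ) := by
    exact_mod_cast (card_le_card hsub).trans card_biUnion_le
  set W : ℝ := 3 * (2 * d) ^ s * ((k * k + 1) ^ (d + 1) *
      (8 * (k * k) * R * d * ((d : ℝ) ^ k * (K / d) ^ l) / q + (d : ℝ) ^ k * (K / d) ^ k)) with hW
  have hW0 : 0 ≤ W := by positivity
  have h2 : ∀ i ∈ Ioc l k, ((Pa d m r k i (k * k) q c (St d m r i)).card : ℝ) ≤ W := by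
    intro i hi
    rw [mem_Ioc] at hi
    have a1 := card_Pa h hR hR0 (k := k) (i := i) (N := k * k) (q := q) (by omega) hi.2 (by
      push_cast
      exact hl.trans (pow_le_pow_right₀ hd1 hi.1.le)) hq c (St d m r i) (by
      intro y hy
      unfold St at hy
      rw [mem_filter] at hy
      exact hy.2.1)
    have a2 := card_St h hs i
    have a3 : (∑ j ∈ range d, (|(m j : ℝ)| / d) ^ s) ^ i ≤ K ^ i := pow_le_pow_left₀ hsum0 hK i
    refine a1.trans ?_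
    push_cast
    have a4 : K ^ i ≤ K ^ k := pow_le_pow_right₀ hK1 hi.2
    have a5 : K ^ i * (d : ℝ) ^ (k - i + 1) ≤ d * ((d : ℝ) ^ k * (K / d) ^ l) := by
      have e1 : K ^ i = (d : ℝ) ^ i * (K / d) ^ i := by rw [← mul_pow]; congr 1; field_simp
      have e2 : (K / d) ^ i ≤ (K / d) ^ l := pow_le_pow_of_le_one hκ0 hκ1 hi.1.le
      have e3 : (d : ℝ) ^ i * (d : ℝ) ^ (k - i + 1) = d * (d : ℝ) ^ k := by
        rw [← pow_add, ← pow_succ']; congr 1; omega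
      calc K ^ i * (d : ℝ) ^ (k - i + 1) = ((d : ℝ) ^ i * (d : ℝ) ^ (k - i + 1)) * (K / d) ^ i := by
            rw [e1]; ring
        _ ≤ ((d : ℝ) ^ i * (d : ℝ) ^ (k - i + 1)) * (K / d) ^ l :=
            mul_le_mul_of_nonneg_left e2 (by positivity)
        _ = _ := by rw [e3]; ring
    have a6 : K ^ k = (d : ℝ) ^ k * (K / d) ^ k := by rw [← mul_pow]; congr 1; field_simp
    have a7 : (St d m r i).card * (8 * ((k : ℝ) * k) * R * (d : ℝ) ^ (k - i + 1) / q + 1) ≤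
        3 * (2 * d) ^ s * (8 * (k * k) * R * d * ((d : ℝ) ^ k * (K / d) ^ l) / q +
          (d : ℝ) ^ k * (K / d) ^ k) := by
      have b1 : ((St d m r i).card : ℝ) ≤ 3 * (2 * d) ^ s * K ^ i :=
        a2.trans (mul_le_mul_of_nonneg_left a3 (by positivity))
      refine (mul_le_mul_of_nonneg_right b1 (by positivity)).trans ?_
      rw [mul_assoc (3 * (2 * (d : ℝ)) ^ s)]
      apply mul_le_mul_of_nonneg_left _ (by positivity)
      rw [mul_add, mul_one]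
      apply add_le_add
      · calc K ^ i * (8 * ((k : ℝ) * k) * R * (d : ℝ) ^ (k - i + 1) / q)
            = 8 * ((k : ℝ) * k) * R * (K ^ i * (d : ℝ) ^ (k - i + 1)) / q := by ring
          _ ≤ 8 * ((k : ℝ) * k) * R * (d * ((d : ℝ) ^ k * (K / d) ^ l)) / q := by
              apply div_le_div_of_nonneg_right _ hqR.le
              exact mul_le_mul_of_nonneg_left a5 (by positivity)
          _ = _ := by ring
      · rw [← a6]; exact a4
    calc ((St d m r i).card : ℝ) * ((k * k + 1) * ((k * k + 1) ^ d *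
          (8 * (k * k) * R * (d : ℝ) ^ (k - i + 1) / q + 1)))
        = (k * k + 1) ^ (d + 1) * ((St d m r i).card *
          (8 * ((k : ℝ) * k) * R * (d : ℝ) ^ (k - i + 1) / q + 1)) := by ring
      _ ≤ (k * k + 1) ^ (d + 1) * (3 * (2 * d) ^ s *
          (8 * (k * k) * R * d * ((d : ℝ) ^ k * (K / d) ^ l) / q + (d : ℝ) ^ k * (K / d) ^ k)) :=
          mul_le_mul_of_nonneg_left a7 (by positivity)
      _ = W := by rw [hW]; ring
  calc (S.card : ℝ) ≤ ∑ i ∈ Ioc l k, ((Pa d m r k i (k * k) q c (St d m r i)).card : ℝ) := h1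
    _ ≤ (Ioc l k).card • W := sum_le_card_nsmul _ _ _ h2
    _ = ((k - l : ℕ) : ℝ) * W := by rw [Nat.card_Ioc, nsmul_eq_mul]
    _ ≤ k * W := by
        apply mul_le_mul_of_nonneg_right _ hW0
        exact_mod_cast Nat.sub_le _ _

/-- the points `≥ d^i` which stay above `d^i` or whose first passage below `d^i` is in `B` -/
def Ar (d : ℕ) (m r : ℕ → ℤ) (i : ℕ) (B : Finset ℤ) : Set ℤ :=
  {x : ℤ | (d : ℝ) ^ i ≤ |(x : ℝ)| ∧ Ent d m r i B x}

/-- the covering of a finite part of `Ar` -/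
theorem cover (h : Adm d m r) {R : ℝ} (hR : ∀ i < d, |(r i : ℝ)| ≤ R) {i k q : ℕ} (hi : 2 ≤ i)
    (hRi : R + (d : ℝ) ^ (i - 1) ≤ (d : ℝ) ^ i) (c : ℤ) (B : Finset ℤ) (S : Finset ℤ)
    (hS : ∀ x ∈ S, x ∈ Ar d m r i B ∧ |(x : ℝ)| < (d : ℝ) ^ k ∧ (q : ℤ) ∣ x - c)
    [DecidablePred fun x : ℤ => ∀ n ≤ k * k, ¬ FP d m r i n x]
    [DecidablePred fun y : ℤ => (d : ℝ) ^ (i - 1) ≤ |(y : ℝ)|]
    [DecidablePred fun y : ℤ => (d : ℝ) ^ (i - 1 - 1) ≤ |(y : ℝ)|] :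
    S ⊆ S.filter (fun x => ∀ n ≤ k * k, ¬ FP d m r i n x) ∪
      (Pa d m r k i (k * k) q c (B.filter fun y => (d : ℝ) ^ (i - 1) ≤ |(y : ℝ)|) ∪
       Pa d m r k (i - 1) (k * k) q c (B.filter fun y => (d : ℝ) ^ (i - 1 - 1) ≤ |(y : ℝ)|)) := by
  classical
  intro x hx
  obtain ⟨⟨hge, hent⟩, hk, hq⟩ := hS x hx
  have hd0 : (0 : ℝ) < d := by exact_mod_cast (by have := h.two_le; omega : 0 < d)
  have hd1 : (1 : ℝ) ≤ d := by exact_mod_cast (by have := h.two_le; omega : 1 ≤ d)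
  by_cases hst : ∀ n ≤ k * k, ¬ FP d m r i n x
  · rw [mem_union, mem_filter]
    exact Or.inl ⟨hx, hst⟩
  · push Not at hst
    obtain ⟨n, hn, hfp⟩ := hst
    have hB : (Tm d m r)^[n] x ∈ B := by
      rcases hent with h1 | ⟨n', hfp', h1⟩
      · exfalso
        have := h1 n
        have := hfp.2
        linarith
      · have : n' = n := by
          rcases lt_trichotomy n n' with h2 | h2 | h2
          · have := hfp'.1 n h2
            have := hfp.2
            linarith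
          · exact h2.symm
          · have := hfp.1 n' h2
            have := hfp'.2
            linarith
        rwa [this] at h1
    rw [mem_union, mem_union]
    right
    have hn0 : 1 ≤ n := by
      by_contra hcon
      have h0 : n = 0 := by omega
      rw [h0] at hfp
      have := hfp.2
      rw [Function.iterate_zero, id] at this
      linarith
    obtain ⟨n', rfl⟩ : ∃ n', n = n' + 1 := ⟨n - 1, by omega⟩
    have hprev := hfp.1 n' (by omega)
    have hlow := Tm_lower h hR ((Tm d m r)^[n'] x)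
    rw [← Function.iterate_succ_apply' (Tm d m r) n' x] at hlow
    have hlow2 : (d : ℝ) ^ (i - 1 - 1) ≤ |(((Tm d m r)^[n' + 1] x : ℤ) : ℝ)| := by
      have e : (d : ℝ) ^ (i - 1) = d * (d : ℝ) ^ (i - 1 - 1) := by
        rw [← pow_succ']; congr 1; omega
      have h1 : (d : ℝ) * (d : ℝ) ^ (i - 1 - 1) ≤ d * |(((Tm d m r)^[n' + 1] x : ℤ) : ℝ)| := by
        rw [← e]; linarith
      exact le_of_mul_le_mul_left h1 hd0
    rcases le_or_gt ((d : ℝ) ^ (i - 1)) |(((Tm d m r)^[n' + 1] x : ℤ) : ℝ)| with h1 | h1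
    · left
      unfold Pa
      rw [mem_filter]
      exact ⟨mem_Icc_of_abs hk, hk, hq, n' + 1, hn, hfp, mem_filter.2 ⟨hB, h1⟩⟩
    · right
      unfold Pa
      rw [mem_filter]
      refine ⟨mem_Icc_of_abs hk, hk, hq, n' + 1, hn, ⟨?_, h1⟩, mem_filter.2 ⟨hB, hlow2⟩⟩
      intro j hj
      exact (pow_le_pow_right₀ hd1 (by omega)).trans (hfp.1 j hj)

/-- the constant -/
noncomputable def Cb (d : ℕ) (R s : ℝ) : ℝ :=
  3 * (2 * d) ^ s * d * (5 * 26 ^ (d + 1) * (200 * R * d + 1)) +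
    2 * (26 ^ (d + 1) * (200 * R * d ^ 3 + 1))

/-- the density bound at the starting scales -/
theorem pb_ar (h : Adm d m r) {R : ℝ} (hR : ∀ i < d, |(r i : ℝ)| ≤ R) (hR0 : 0 ≤ R) {s η : ℝ}
    (hs : 0 ≤ s) (hη0 : 0 ≤ η) (hη1 : η < 1) (hsum : ∑ j ∈ range d, (|(m j : ℝ)| / d) ^ s ≤ (d : ℝ) ^ η)
    {i : ℕ} (hi : 2 ≤ i) (B : Finset ℤ)
    {t₁ a : ℝ} (ht₁ : 1 ≤ t₁) (ha : 0 < a) (hya : (d : ℝ) ^ i ≤ 2 * a) (hat : Real.log a ≤ t₁)
    (hyt : 100 * t₁ ^ 2 * R * d ≤ (d : ℝ) ^ (i - 1)) {Q : ℕ} (hQ0 : 0 < Q)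
    (hQ : (Q : ℝ) ≤ (2 * a / (d : ℝ) ^ i) ^ (1 - η)) :
    PB (Ar d m r i B) a Q (Cb d R s * t₁ ^ (2 * d + 5) *
      ((B.card : ℝ) / (d : ℝ) ^ i + ((d : ℝ) ^ i) ^ (-(1 - η)))) := by
  classical
  have hd2 := h.two_le
  have hdR : (2 : ℝ) ≤ d := by exact_mod_cast hd2
  have hd0 : (0 : ℝ) < d := by linarith
  have hd1 : (1 : ℝ) ≤ d := by linarith
  have hQR : (0 : ℝ) < Q := by exact_mod_cast hQ0
  have hl2 := Real.log_two_gt_d9
  have hl2' := Real.log_two_lt_d9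
  have hη' : 0 < 1 - η := by linarith
  have hDi : 0 < (d : ℝ) ^ i := by positivity
  have h2a : (1 : ℝ) ≤ 2 * a := le_trans (one_le_pow₀ hd1) hya
  intro c
  obtain ⟨k0, hk1, hk3⟩ := exists_pow hd2 (y := 2 * a) h2a
  set k := k0 + 1 with hk
  have hkA : (d : ℝ) ^ k ≤ 2 * a * d := by rw [hk, pow_succ]; nlinarith
  have hkA2 : 2 * a < (d : ℝ) ^ k := by rw [hk, pow_succ]; linarith
  have hik : i < k := by
    have : (d : ℝ) ^ i < (d : ℝ) ^ k := by linarith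
    exact (pow_lt_pow_iff_right₀ (by linarith)).1 this
  have hlogd : 1 / 2 ≤ Real.log d := by
    have := Real.log_le_log (by norm_num) hdR
    linarith
  have hkt : (k : ℝ) ≤ 5 * t₁ := by
    have h1 : (k0 : ℝ) * Real.log d ≤ Real.log (2 * a) := by
      rw [← Real.log_pow]
      exact Real.log_le_log (by positivity) hk1
    rw [Real.log_mul (by norm_num) ha.ne'] at h1
    have h2 : (k0 : ℝ) * (1 / 2) ≤ k0 * Real.log d := mul_le_mul_of_nonneg_left hlogd (Nat.cast_nonneg _)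
    rw [hk]; push_cast
    linarith
  have hkR : (1 : ℝ) ≤ k := by
    have : 1 ≤ k := by omega
    exact_mod_cast this
  have hk2 : (k : ℝ) * k ≤ 25 * t₁ ^ 2 := by nlinarith
  have hR4 : 4 * ((k : ℝ) * k) * R ≤ (d : ℝ) ^ (i - 1) := by
    have h2 : 4 * ((k : ℝ) * k) * R * 1 ≤ 100 * t₁ ^ 2 * R * d := by
      apply mul_le_mul _ hd1 (by norm_num) (by positivity)
      apply mul_le_mul_of_nonneg_right _ hR0
      linarith
    linarith
  have hpow1 : (d : ℝ) ^ (i - 1) ≤ (d : ℝ) ^ i := pow_le_pow_right₀ hd1 (by omega)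
  have hdi : (d : ℝ) ^ i = d * (d : ℝ) ^ (i - 1) := by rw [← pow_succ']; congr 1; omega
  have hRi : R + (d : ℝ) ^ (i - 1) ≤ (d : ℝ) ^ i := by
    have h3 : R ≤ (d : ℝ) ^ (i - 1) := by
      have h5 : (1 : ℝ) ≤ (k : ℝ) * k := by nlinarith
      have h6 : 1 * R ≤ 4 * ((k : ℝ) * k) * R := mul_le_mul_of_nonneg_right (by linarith) hR0
      linarith
    rw [hdi]
    nlinarith
  -- finset of the window
  set W : Set ℤ := {x : ℤ | x ∈ Ar d m r i B ∧ a ≤ |(x : ℝ)| ∧ |(x : ℝ)| < 2 * a ∧ (Q : ℤ) ∣ x - c} with hW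
  have hWfin : W.Finite := by
    apply (I1_window_finite (Ar d m r i B) (2 * a)).subset
    rintro x ⟨h1, -, h3, -⟩
    exact ⟨h1, h3⟩
  have hwc : wc (Ar d m r i B) a Q c = (hWfin.toFinset.card : ℝ) := by
    unfold wc
    rw [← Set.ncard_eq_toFinset_card W hWfin]
  rw [hwc]
  set K : ℝ := (d : ℝ) ^ η with hK
  have hK1 : 1 ≤ K := Real.one_le_rpow (by linarith) hη0
  have hKd : K < d := by
    calc K = (d : ℝ) ^ η := rfl
      _ < (d : ℝ) ^ (1 : ℝ) := Real.rpow_lt_rpow_of_exponent_lt (by linarith) hη1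
      _ = d := Real.rpow_one _
  have hκ : K / d = (d : ℝ) ^ (-(1 - η)) := by
    rw [hK, show -(1 - η) = η - 1 by ring, Real.rpow_sub hd0, Real.rpow_one]
  have hκ0 : 0 < K / d := by positivity
  have hcov := cover h hR (k := k) (q := Q) hi hRi c B hWfin.toFinset (by
    intro x hx
    rw [Set.Finite.mem_toFinset] at hx
    obtain ⟨h1, h2, h3, h4⟩ := hx
    exact ⟨h1, by linarith, h4⟩)
  have hstay := card_stay' h hR hR0 hs hK1 hsum hKd (k := k) (l := i) (q := Q) hQ0 c (by omega) hik.le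
    (hR4.trans hpow1) (hWfin.toFinset.filter (fun x => ∀ n ≤ k * k, ¬ FP d m r i n x)) (by
      intro x hx
      rw [mem_filter, Set.Finite.mem_toFinset] at hx
      obtain ⟨⟨h1, h2, h3, h4⟩, h5⟩ := hx
      exact ⟨by linarith, h4, h5⟩)
  have hpa1 := card_Pa h hR hR0 (k := k) (i := i) (N := k * k) (q := Q) (by omega) hik.le (by
      push_cast
      exact hR4.trans hpow1) hQ0 c (B.filter fun y => (d : ℝ) ^ (i - 1) ≤ |(y : ℝ)|)
      (fun y hy => (mem_filter.1 hy).2)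
  have hpa2 := card_Pa h hR hR0 (k := k) (i := i - 1) (N := k * k) (q := Q) (by omega) (by omega) (by
      push_cast
      exact hR4) hQ0 c (B.filter fun y => (d : ℝ) ^ (i - 1 - 1) ≤ |(y : ℝ)|)
      (fun y hy => (mem_filter.1 hy).2)
  have hcard : (hWfin.toFinset.card : ℝ) ≤
      ((hWfin.toFinset.filter (fun x => ∀ n ≤ k * k, ¬ FP d m r i n x)).card : ℝ) +
      (((Pa d m r k i (k * k) Q c (B.filter fun y => (d : ℝ) ^ (i - 1) ≤ |(y : ℝ)|)).card : ℝ) +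
      ((Pa d m r k (i - 1) (k * k) Q c (B.filter fun y => (d : ℝ) ^ (i - 1 - 1) ≤ |(y : ℝ)|)).card : ℝ)) := by
    exact_mod_cast (card_le_card hcov).trans ((card_union_le _ _).trans
      (Nat.add_le_add_left (card_union_le _ _) _))
  -- `κ^k ≤ κ^i / Q`
  have hpk : ∀ n : ℕ, (K / d) ^ n = ((d : ℝ) ^ n) ^ (-(1 - η)) := by
    intro n
    rw [hκ, ← Real.rpow_natCast, ← Real.rpow_natCast (d : ℝ) n, ← Real.rpow_mul hd0.le,
      ← Real.rpow_mul hd0.le, mul_comm]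
  have hkl : (K / d) ^ k ≤ (K / d) ^ i / Q := by
    rw [le_div_iff₀ hQR]
    have h1 : (K / d) ^ k ≤ (K / d) ^ i * (2 * a / (d : ℝ) ^ i) ^ (-(1 - η)) := by
      rw [hpk, hpk, ← Real.mul_rpow (by positivity) (by positivity)]
      apply Real.rpow_le_rpow_of_nonpos (by positivity) _ (by linarith)
      calc (d : ℝ) ^ i * (2 * a / (d : ℝ) ^ i) = 2 * a := by field_simp
        _ ≤ _ := hkA2.le
    have h2 : (2 * a / (d : ℝ) ^ i) ^ (-(1 - η)) * (2 * a / (d : ℝ) ^ i) ^ (1 - η) = 1 := by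
      rw [← Real.rpow_add (by positivity), neg_add_cancel, Real.rpow_zero]
    calc (K / d) ^ k * Q ≤ ((K / d) ^ i * (2 * a / (d : ℝ) ^ i) ^ (-(1 - η))) *
          (2 * a / (d : ℝ) ^ i) ^ (1 - η) :=
          mul_le_mul h1 hQ hQR.le (by positivity)
      _ = (K / d) ^ i * ((2 * a / (d : ℝ) ^ i) ^ (-(1 - η)) * (2 * a / (d : ℝ) ^ i) ^ (1 - η)) := by ring
      _ = _ := by rw [h2, mul_one]
  have e5 : 1 ≤ t₁ ^ 2 := by nlinarith
  have h2 : ((k : ℝ) * k + 1) ^ (d + 1) ≤ (26 * t₁ ^ 2) ^ (d + 1) := by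
    apply pow_le_pow_left₀ (by positivity)
    linarith
  set V : ℝ := (K / d) ^ i / Q with hV
  have hV0 : 0 < V := by positivity
  have h1 : 8 * ((k : ℝ) * k) * R * d * ((d : ℝ) ^ k * (K / d) ^ i) / Q + (d : ℝ) ^ k * (K / d) ^ k ≤
      (200 * R * d + 1) * t₁ ^ 2 * (2 * a * d) * V := by
    have e1 : 8 * ((k : ℝ) * k) * R * d * ((d : ℝ) ^ k * (K / d) ^ i) / Q =
        8 * ((k : ℝ) * k) * R * d * (d : ℝ) ^ k * V := by rw [hV]; ring
    rw [e1]
    have e2 : (d : ℝ) ^ k * (K / d) ^ k ≤ (d : ℝ) ^ k * V := mul_le_mul_of_nonneg_left hkl (by positivity)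
    have e3 : 8 * ((k : ℝ) * k) * R * d + 1 ≤ (200 * R * d + 1) * t₁ ^ 2 := by
      have e4 : 8 * ((k : ℝ) * k) * R * d ≤ 8 * (25 * t₁ ^ 2) * R * d := by
        apply mul_le_mul_of_nonneg_right _ hd0.le
        apply mul_le_mul_of_nonneg_right _ hR0
        linarith
      nlinarith
    calc 8 * ((k : ℝ) * k) * R * d * (d : ℝ) ^ k * V + (d : ℝ) ^ k * (K / d) ^ k
        ≤ 8 * ((k : ℝ) * k) * R * d * (d : ℝ) ^ k * V + (d : ℝ) ^ k * V := by linarith
      _ = (8 * ((k : ℝ) * k) * R * d + 1) * (d : ℝ) ^ k * V := by ring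
      _ ≤ ((200 * R * d + 1) * t₁ ^ 2) * (2 * a * d) * V := by
          apply mul_le_mul_of_nonneg_right _ hV0.le
          exact mul_le_mul e3 hkA (by positivity) (by positivity)
  have hA : ((hWfin.toFinset.filter (fun x => ∀ n ≤ k * k, ¬ FP d m r i n x)).card : ℝ) ≤
      (3 * (2 * d) ^ s * d * (5 * 26 ^ (d + 1) * (200 * R * d + 1))) * t₁ ^ (2 * d + 5) *
        ((d : ℝ) ^ i) ^ (-(1 - η)) * (2 * a / Q) := by
    refine hstay.trans ?_
    calc (k : ℝ) * (3 * (2 * d) ^ s * (((k : ℝ) * k + 1) ^ (d + 1) *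
        (8 * ((k : ℝ) * k) * R * d * ((d : ℝ) ^ k * (K / d) ^ i) / Q + (d : ℝ) ^ k * (K / d) ^ k)))
        ≤ (5 * t₁) * (3 * (2 * d) ^ s * ((26 * t₁ ^ 2) ^ (d + 1) *
          ((200 * R * d + 1) * t₁ ^ 2 * (2 * a * d) * V))) := by
          apply mul_le_mul hkt _ (by positivity) (by positivity)
          apply mul_le_mul_of_nonneg_left _ (by positivity)
          exact mul_le_mul h2 h1 (by positivity) (by positivity)
      _ = (3 * (2 * d) ^ s * d * (5 * 26 ^ (d + 1) * (200 * R * d + 1))) * t₁ ^ (2 * d + 5) *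
          (K / d) ^ i * (2 * a / Q) := by
          rw [hV, mul_pow, ← pow_mul]
          have e : t₁ ^ (2 * d + 5) = t₁ * t₁ ^ (2 * (d + 1)) * t₁ ^ 2 := by
            rw [← pow_succ', ← pow_add]; congr 1
          rw [e]
          ring
      _ = _ := by rw [hpk]
  have hQi : (Q : ℝ) ≤ 2 * a / (d : ℝ) ^ i := by
    refine hQ.trans ?_
    have h3 : 1 ≤ 2 * a / (d : ℝ) ^ i := by rw [le_div_iff₀ hDi]; linarith
    calc (2 * a / (d : ℝ) ^ i) ^ (1 - η) ≤ (2 * a / (d : ℝ) ^ i) ^ (1 : ℝ) :=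
          Real.rpow_le_rpow_of_exponent_le h3 (by linarith)
      _ = _ := Real.rpow_one _
  have hPgen : ∀ (i' : ℕ) (B' : Finset ℤ) (P : ℝ), B' ⊆ B → i - 1 ≤ i' → i' ≤ i →
      P ≤ (B'.card : ℝ) * (((k * k : ℕ) + 1) * (((k * k : ℕ) + 1) ^ d *
        (8 * (k * k : ℕ) * R * (d : ℝ) ^ (k - i' + 1) / Q + 1))) →
      P ≤ (26 ^ (d + 1) * (200 * R * d ^ 3 + 1)) * t₁ ^ (2 * d + 5) * ((B.card : ℝ) / (d : ℝ) ^ i) *
        (2 * a / Q) := by
    intro i' B' P hB' hi1 hi2 hP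
    refine hP.trans ?_
    push_cast
    have c1 : (B'.card : ℝ) ≤ B.card := by exact_mod_cast card_le_card hB'
    have c2 : (d : ℝ) ^ (k - i' + 1) ≤ 2 * a * d ^ 3 / (d : ℝ) ^ i := by
      rw [le_div_iff₀ hDi]
      calc (d : ℝ) ^ (k - i' + 1) * (d : ℝ) ^ i ≤ (d : ℝ) ^ k * (d : ℝ) ^ 2 := by
            rw [← pow_add, ← pow_add]
            exact pow_le_pow_right₀ hd1 (by omega)
        _ ≤ (2 * a * d) * (d : ℝ) ^ 2 := mul_le_mul_of_nonneg_right hkA (by positivity)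
        _ = _ := by ring
    have c3 : 8 * ((k : ℝ) * k) * R * (d : ℝ) ^ (k - i' + 1) / Q + 1 ≤
        (200 * R * d ^ 3 + 1) * t₁ ^ 2 * (2 * a / ((d : ℝ) ^ i * Q)) := by
      have d1 : (1 : ℝ) ≤ 2 * a / ((d : ℝ) ^ i * Q) := by
        rw [le_div_iff₀ (by positivity), one_mul]
        rw [le_div_iff₀ hDi] at hQi
        linarith
      have d2 : 8 * ((k : ℝ) * k) * R * (d : ℝ) ^ (k - i' + 1) / Q ≤
          8 * (25 * t₁ ^ 2) * R * (2 * a * d ^ 3 / (d : ℝ) ^ i) / Q := by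
        apply div_le_div_of_nonneg_right _ hQR.le
        apply mul_le_mul _ c2 (by positivity) (by positivity)
        apply mul_le_mul_of_nonneg_right _ hR0
        linarith
      have d3 : 8 * (25 * t₁ ^ 2) * R * (2 * a * d ^ 3 / (d : ℝ) ^ i) / Q =
          200 * R * d ^ 3 * t₁ ^ 2 * (2 * a / ((d : ℝ) ^ i * Q)) := by
        field_simp
        ring
      have d4 : (1 : ℝ) ≤ t₁ ^ 2 * (2 * a / ((d : ℝ) ^ i * Q)) := by nlinarith
      calc 8 * ((k : ℝ) * k) * R * (d : ℝ) ^ (k - i' + 1) / Q + 1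
          ≤ 200 * R * d ^ 3 * t₁ ^ 2 * (2 * a / ((d : ℝ) ^ i * Q)) +
            t₁ ^ 2 * (2 * a / ((d : ℝ) ^ i * Q)) := by linarith
        _ = _ := by ring
    calc (B'.card : ℝ) * (((k : ℝ) * k + 1) * (((k : ℝ) * k + 1) ^ d *
          (8 * ((k : ℝ) * k) * R * (d : ℝ) ^ (k - i' + 1) / Q + 1)))
        = (B'.card : ℝ) * (((k : ℝ) * k + 1) ^ (d + 1) *
          (8 * ((k : ℝ) * k) * R * (d : ℝ) ^ (k - i' + 1) / Q + 1)) := by ring
      _ ≤ (B.card : ℝ) * ((26 * t₁ ^ 2) ^ (d + 1) *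
          ((200 * R * d ^ 3 + 1) * t₁ ^ 2 * (2 * a / ((d : ℝ) ^ i * Q)))) := by
          apply mul_le_mul c1 _ (by positivity) (by positivity)
          exact mul_le_mul h2 c3 (by positivity) (by positivity)
      _ = (26 ^ (d + 1) * (200 * R * d ^ 3 + 1)) * t₁ ^ (2 * d + 4) * ((B.card : ℝ) / (d : ℝ) ^ i) *
          (2 * a / Q) := by
          rw [mul_pow, ← pow_mul]
          have e : t₁ ^ (2 * d + 4) = t₁ ^ (2 * (d + 1)) * t₁ ^ 2 := by
            rw [← pow_add]; congr 1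
          rw [e]
          field_simp
      _ ≤ (26 ^ (d + 1) * (200 * R * d ^ 3 + 1)) * t₁ ^ (2 * d + 5) * ((B.card : ℝ) / (d : ℝ) ^ i) *
          (2 * a / Q) := by
          apply mul_le_mul_of_nonneg_right _ (by positivity)
          apply mul_le_mul_of_nonneg_right _ (by positivity)
          apply mul_le_mul_of_nonneg_left _ (by positivity)
          exact pow_le_pow_right₀ ht₁ (by omega)
  have hB1 := hPgen i _ _ (filter_subset _ _) (by omega) le_rfl hpa1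
  have hB2 := hPgen (i - 1) _ _ (filter_subset _ _) le_rfl (by omega) hpa2
  refine hcard.trans ((add_le_add hA (add_le_add hB1 hB2)).trans ?_)
  unfold Cb
  have hX1 : 0 ≤ (3 * (2 * (d : ℝ)) ^ s * d * (5 * 26 ^ (d + 1) * (200 * R * d + 1))) := by positivity
  have hX2 : 0 ≤ 2 * ((26 : ℝ) ^ (d + 1) * (200 * R * d ^ 3 + 1)) := by positivity
  have hX3 : 0 ≤ t₁ ^ (2 * d + 5) := by positivity
  have hX4 : 0 ≤ (B.card : ℝ) / (d : ℝ) ^ i := by positivity
  have hX5 : 0 ≤ ((d : ℝ) ^ i) ^ (-(1 - η)) := Real.rpow_nonneg hDi.le _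
  have hX6 : 0 ≤ 2 * a / Q := by positivity
  have e1 : ∀ X1 X2 T b κ q : ℝ, 0 ≤ X1 → 0 ≤ X2 → 0 ≤ T → 0 ≤ b → 0 ≤ κ → 0 ≤ q →
      X1 * T * κ * q + (X2 / 2 * T * b * q + X2 / 2 * T * b * q) ≤ (X1 + X2) * T * (b + κ) * q := by
    intro X1 X2 T b κ q h1 h2 h3 h4 h5 h6
    have : (X1 + X2) * T * (b + κ) * q - (X1 * T * κ * q + (X2 / 2 * T * b * q + X2 / 2 * T * b * q)) =
      X1 * T * b * q + X2 * T * κ * q := by ring
    have h7 : 0 ≤ X1 * T * b * q := by positivity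
    have h8 : 0 ≤ X2 * T * κ * q := by positivity
    linarith
  have h3 := e1 _ _ _ _ _ _ hX1 hX2 hX3 hX4 hX5 hX6
  have e2 : ∀ X1 X2 T b κ A q : ℝ, (X1 + X2) * T * (b + κ) * (2 * A / q) =
      (X1 + X2) * T * (b + κ) * (2 * A) / q := by
    intros; ring
  rw [← e2]
  refine le_trans (le_of_eq ?_) h3
  ring

end Pool.Agent.T2h89.LT
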