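import Pool.Agent.T2h89.LT3

/-! Counting the points whose first passage is in a sparse set: all scales. -/

set_option autoImplicit false

namespace Pool.Agent.T2h89.LT

open Finset Pool.Agent.H319R3.GC Pool.Agent.H828R3.GP

variable {d : ℕ} {m r : ℕ → ℤ}

theorem PB_sub {S S' : Set ℤ} {a : ℝ} (hs : ∀ x ∈ S, a ≤ |(x : ℝ)| → x ∈ S') {Q : ℕ} {ρ : ℝ}
    (h : PB S' a Q ρ) : PB S a Q ρ := by
  intro c
  refine le_trans ?_ (h c)
  unfold wc
  have hf : {x : ℤ | x ∈ S' ∧ a ≤ |(x : ℝ)| ∧ |(x : ℝ)| < 2 * a ∧ (Q : ℤ) ∣ x - c}.Finite := by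
    apply (I1_window_finite S' (2 * a)).subset
    rintro x ⟨h1, -, h3, -⟩
    exact ⟨h1, h3⟩
  have hsub : {x : ℤ | x ∈ S ∧ a ≤ |(x : ℝ)| ∧ |(x : ℝ)| < 2 * a ∧ (Q : ℤ) ∣ x - c} ⊆
      {x : ℤ | x ∈ S' ∧ a ≤ |(x : ℝ)| ∧ |(x : ℝ)| < 2 * a ∧ (Q : ℤ) ∣ x - c} := by
    rintro x ⟨h1, h2, h3, h4⟩
    exact ⟨hs x h1 h2, h2, h3, h4⟩
  exact_mod_cast Set.ncard_le_ncard hsub hf

theorem Ent_mono {i : ℕ} {B B' : Finset ℤ} (hB : B ⊆ B') {x : ℤ} (hx : Ent d m r i B x) :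
    Ent d m r i B' x := by
  rcases hx with h | ⟨n, h1, h2⟩
  · exact Or.inl h
  · exact Or.inr ⟨n, h1, hB h2⟩

/-- THE TRANSFER: few points have their first passage below `d^i` in a sparse set -/
theorem transfer (h : Adm d m r) {R : ℝ} (hR : ∀ i < d, |(r i : ℝ)| ≤ R) (hR0 : 0 ≤ R) {s η : ℝ}
    (hs : 0 ≤ s) (hη0 : 0 ≤ η) (hη1 : η < 1) (hsum : ∑ j ∈ range d, (|(m j : ℝ)| / d) ^ s ≤ (d : ℝ) ^ η)
    (E : ℕ) (hE : 1 ≤ E) : ∃ K κ₁ : ℝ, 0 < K ∧ 1 ≤ κ₁ ∧ ∀ (i : ℕ) (t₁ : ℝ) (B : Finset ℤ), 2 ≤ i →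
      κ₁ * i ≤ t₁ → 100 * t₁ ^ 2 * R * d ≤ (d : ℝ) ^ (i - 1) → ∀ X : ℝ, 1 ≤ X →
      ({x : ℤ | x ∈ Ar d m r i B ∧ |(x : ℝ)| ≤ X}.ncard : ℝ) ≤
        K * X * (t₁ ^ (2 * d + 5) * (((B.card : ℝ) + ((Ph d m r i).card : ℝ)) / (d : ℝ) ^ i +
          ((d : ℝ) ^ i) ^ (-(1 - η))) + (1 / t₁) ^ E) := by
  classical
  have hd2 := h.two_le
  have hdR : (2 : ℝ) ≤ d := by exact_mod_cast hd2
  have hd0 : (0 : ℝ) < d := by linarith
  have hd1 : (1 : ℝ) ≤ d := by linarith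
  have hη' : 0 < 1 - η := by linarith
  have hPR2 : (2 : ℝ) ≤ PP d m := by exact_mod_cast h.big
  have hlP : 0 < Real.log (PP d m) := Real.log_pos (by linarith)
  have hP0 : 0 < PP d m := by have := h.big; omega
  have hlogd : 0 < Real.log d := Real.log_pos (by linarith)
  obtain ⟨lo, hi, ν, L₀, C, hνν, hlo, hlh, hhi, hν, hL₀, hC, hst⟩ :=
    stage' h E ((1 - η) / (2 * Real.log (PP d m))) (by positivity)
  have hhi0 : 0 < hi := hlo.trans_le hlh
  have hq1 : 1 < (1 / hi) ^ E := by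
    apply one_lt_pow₀ _ (by omega)
    rw [one_lt_div hhi0]; exact hhi
  set C₁ : ℝ := C / ((1 / hi) ^ E - 1) with hC₁
  have hC₁0 : 0 < C₁ := div_pos hC (by linarith)
  have hCb : 0 ≤ Cb d R s := by unfold Cb; positivity
  set C₂ : ℝ := C₁ * (1 / lo) ^ E with hC₂
  have hC₂0 : 0 < C₂ := by positivity
  refine ⟨4 * (Cb d R s + C₂), max (max L₀ (2 * Real.log d / lo)) 1, by positivity, le_max_right _ _, ?_⟩
  intro i t₁ B hi2 hκ hyt X hX
  have hiR : (2 : ℝ) ≤ i := by exact_mod_cast hi2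
  have hi1 : (1 : ℝ) ≤ i := by linarith
  have hmx0 : (0 : ℝ) ≤ max (max L₀ (2 * Real.log d / lo)) 1 := le_trans zero_le_one (le_max_right _ _)
  have hmx : max (max L₀ (2 * Real.log d / lo)) 1 ≤ t₁ := by
    refine le_trans ?_ hκ
    nlinarith
  have htL : L₀ ≤ t₁ := le_trans ((le_max_left _ _).trans (le_max_left _ _)) hmx
  have ht1 : 1 ≤ t₁ := le_trans (le_max_right _ _) hmx
  have ht0 : 0 < t₁ := by linarith
  have hlot : 2 * i * Real.log d ≤ lo * t₁ := by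
    have h1 : 2 * Real.log d / lo * i ≤ t₁ :=
      le_trans (mul_le_mul_of_nonneg_right ((le_max_right _ _).trans (le_max_left _ _)) (by linarith)) hκ
    rw [div_mul_eq_mul_div, div_le_iff₀ hlo] at h1
    linarith
  have hDi : 0 < (d : ℝ) ^ i := by positivity
  have hDi1 : 1 ≤ (d : ℝ) ^ i := one_le_pow₀ hd1
  set B' := B ∪ Ph d m r i with hB'
  have hB'c : (B'.card : ℝ) ≤ (B.card : ℝ) + ((Ph d m r i).card : ℝ) := by
    exact_mod_cast card_union_le _ _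
  set T : ℝ := t₁ ^ (2 * d + 5) with hT
  have hT0 : 0 ≤ T := by positivity
  set κ : ℝ := ((d : ℝ) ^ i) ^ (-(1 - η)) with hκd
  have hκ0 : 0 ≤ κ := Real.rpow_nonneg hDi.le _
  set ρ₀ : ℝ := Cb d R s * T * (((B.card : ℝ) + ((Ph d m r i).card : ℝ)) / (d : ℝ) ^ i + κ) with hρ₀
  have hρ₀0 : 0 ≤ ρ₀ := by positivity
  have hbase : ∀ (B₀ : Finset ℤ), B₀ ⊆ B' → ∀ a : ℝ, 0 < a → (d : ℝ) ^ i ≤ 2 * a → Real.log a ≤ t₁ →
      ∀ Q : ℕ, 0 < Q → (Q : ℝ) ≤ (2 * a / (d : ℝ) ^ i) ^ (1 - η) → PB (Ar d m r i B₀) a Q ρ₀ := by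
    intro B₀ hB₀ a ha hya hat Q hQ0 hQ
    refine I1_PB_mono ha (pb_ar h hR hR0 hs hη0 hη1 hsum hi2 B₀ ht1 ha hya hat hyt hQ0 hQ) ?_
    rw [hρ₀]
    apply mul_le_mul_of_nonneg_left _ (by positivity)
    apply add_le_add _ le_rfl
    apply div_le_div_of_nonneg_right _ hDi.le
    have : (B₀.card : ℝ) ≤ B'.card := by exact_mod_cast card_le_card hB₀
    linarith
  have hScl : ∀ x ∈ Sc d m r i B, Tm d m r x ∈ Sc d m r i B := fun x hx => Sc_closed hd2 (by omega) B hx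
  have hres := restart (S := Sc d m r i B) (B := E) (P := PP d m) (lo := lo) (hi := hi) (ν := ν)
      (L₀ := L₀) (C := C) hE hlo hlh hhi hC (hst (Sc d m r i B) hScl) (t₁ := t₁)
      (ρ₀ := ρ₀) htL ht0 hρ₀0 (by
        intro a' ha' hl1 hl2
        have hla : 2 * i * Real.log d ≤ Real.log a' := hlot.trans hl1
        have hda : (d : ℝ) ^ (2 * i) ≤ a' := by
          rw [← Real.log_le_log_iff (by positivity) ha', Real.log_pow]
          push_cast; exact hla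
        have hsq : (d : ℝ) ^ (2 * i) = (d : ℝ) ^ i * (d : ℝ) ^ i := by rw [← pow_add]; congr 1; omega
        have hia : (d : ℝ) ^ i ≤ a' := by
          have : (d : ℝ) ^ i ≤ (d : ℝ) ^ (2 * i) := pow_le_pow_right₀ hd1 (by omega)
          linarith
        apply PB_sub (S' := Ar d m r i B') (fun x hx hax => ?_)
        · apply hbase B' (subset_refl _) a' ha' (by linarith) hl2 _ (pow_pos hP0 _)
          -- `Q ≤ (2 a / d^i)^(1-η)`
          rw [← Real.log_le_log_iff (by positivity) (by positivity)]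
          rw [Nat.cast_pow, Real.log_pow, Real.log_rpow (by positivity), Real.log_div (by positivity)
            hDi.ne', Real.log_mul (by norm_num) ha'.ne', Real.log_pow]
          have hla0 : 0 ≤ Real.log a' := by
            have : 0 ≤ 2 * (i : ℝ) * Real.log d := by positivity
            linarith
          have hfl : (⌊ν * Real.log a'⌋₊ : ℝ) ≤ ν * Real.log a' := Nat.floor_le (by positivity)
          have hl2p : 0 < Real.log 2 := Real.log_pos (by norm_num)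
          calc (⌊ν * Real.log a'⌋₊ : ℝ) * Real.log (PP d m) ≤ ν * Real.log a' * Real.log (PP d m) :=
                mul_le_mul_of_nonneg_right hfl hlP.le
            _ ≤ (1 - η) / (2 * Real.log (PP d m)) * Real.log a' * Real.log (PP d m) := by
                apply mul_le_mul_of_nonneg_right _ hlP.le
                exact mul_le_mul_of_nonneg_right hνν hla0
            _ = (1 - η) * (Real.log a' / 2) := by field_simp
            _ ≤ (1 - η) * (Real.log 2 + Real.log a' - i * Real.log d) := by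
                apply mul_le_mul_of_nonneg_left _ hη'.le
                linarith
        · exact ⟨by linarith, Sc_high hx (by linarith)⟩)
  -- all windows
  set ρ : ℝ := ρ₀ + C₂ * (1 / t₁) ^ E with hρ
  have hρ0 : 0 ≤ ρ := by positivity
  have hall : ∀ a : ℝ, 0 < a → PB (Ar d m r i B) a 1 ρ := by
    intro a ha
    rcases lt_or_ge (2 * a) ((d : ℝ) ^ i) with h1 | h1
    · intro c
      have h0 : {x : ℤ | x ∈ Ar d m r i B ∧ a ≤ |(x : ℝ)| ∧ |(x : ℝ)| < 2 * a ∧ ((1 : ℕ) : ℤ) ∣ x - c} = ∅ := by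
        ext x
        simp only [Set.mem_ofPred_eq, Set.mem_empty_iff_false, iff_false]
        rintro ⟨h2, -, h3, -⟩
        have := h2.1
        linarith
      rw [wc, h0, Set.ncard_empty, Nat.cast_zero]
      positivity
    · rcases le_or_gt (Real.log a) t₁ with h2 | h2
      · refine I1_PB_mono ha (hbase B subset_union_left a ha h1 h2 1 one_pos ?_) ?_
        · rw [Nat.cast_one]
          apply Real.one_le_rpow _ hη'.le
          rw [le_div_iff₀ hDi]; linarith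
        · rw [hρ]
          have : 0 ≤ C₂ * (1 / t₁) ^ E := by positivity
          linarith
      · have hlot2 : lo * t₁ ≤ Real.log a := by nlinarith
        have h3 := hres a ha hlot2
        have h4 := PB.coarse ha (pow_pos hP0 _) (one_dvd _) h3
        have h5 : PB (Ar d m r i B) a 1 (ρ₀ + C₁ * (1 / (lo * t₁)) ^ E) := by
          apply PB_sub (S' := Sc d m r i B) (fun x hx _ => ?_) h4
          exact Or.inl (Ent_mono subset_union_left hx.2)
        refine I1_PB_mono ha h5 ?_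
        rw [hρ, hC₂]
        have e4 : (1 / (lo * t₁)) ^ E = (1 / lo) ^ E * (1 / t₁) ^ E := by
          rw [← mul_pow]; congr 1; field_simp
        rw [e4, ← mul_assoc]
  obtain ⟨n, hn⟩ := pow_unbounded_of_one_lt (2 * X) (show (1 : ℝ) < 2 by norm_num)
  have hsumm := I1_sum (S := Ar d m r i B) (y := (d : ℝ) ^ i / 2) (fun x hx => by
    have := hx.1; linarith) hρ0 (fun a _ ha => hall a ha) (n + 1) (2 * X) (by linarith) (by
      have h1 : (2 : ℝ) ^ n ≤ (d : ℝ) ^ i * 2 ^ n := le_mul_of_one_le_left (by positivity) hDi1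
      rw [pow_succ]
      linarith)
  have hfin1 : {x : ℤ | x ∈ Ar d m r i B ∧ |(x : ℝ)| ≤ X} ⊆
      {x : ℤ | x ∈ Ar d m r i B ∧ |(x : ℝ)| < 2 * X} := by
    rintro x ⟨h1, h2⟩
    exact ⟨h1, by linarith⟩
  have h2 := Set.ncard_le_ncard hfin1 (I1_window_finite _ _)
  have h3 : ({x : ℤ | x ∈ Ar d m r i B ∧ |(x : ℝ)| ≤ X}.ncard : ℝ) ≤
      ({x : ℤ | x ∈ Ar d m r i B ∧ |(x : ℝ)| < 2 * X}.ncard : ℝ) := by exact_mod_cast h2
  refine (h3.trans hsumm).trans ?_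
  have h4 : ρ ≤ (Cb d R s + C₂) * (T * (((B.card : ℝ) + ((Ph d m r i).card : ℝ)) / (d : ℝ) ^ i + κ) +
      (1 / t₁) ^ E) := by
    rw [hρ, hρ₀]
    have a1 : 0 ≤ T * (((B.card : ℝ) + ((Ph d m r i).card : ℝ)) / (d : ℝ) ^ i + κ) := by positivity
    have a2 : 0 ≤ (1 / t₁) ^ E := by positivity
    nlinarith
  calc 2 * ρ * (2 * X) = 4 * X * ρ := by ring
    _ ≤ 4 * X * ((Cb d R s + C₂) * (T * (((B.card : ℝ) + ((Ph d m r i).card : ℝ)) / (d : ℝ) ^ i + κ) +
      (1 / t₁) ^ E)) := mul_le_mul_of_nonneg_left h4 (by linarith)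
    _ = _ := by ring

end Pool.Agent.T2h89.LT
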