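import Pool.Agent.T2h89.LT2

/-! Straightness of the trajectories whose first passages avoid the deviating points. -/

set_option autoImplicit false

namespace Pool.Agent.T2h89.LT

open Finset Pool.Agent.H319R3.GC Pool.Agent.H828R3.GP

variable {d : ℕ} {m r : ℕ → ℤ}

/-- all first passages exist and avoid the deviating points -/
def Good (d : ℕ) (m r : ℕ → ℤ) (i₁ : ℕ) (H : ℕ → ℝ) (x : ℤ) : Prop :=
  ∀ i : ℕ, i₁ ≤ i → (d : ℝ) ^ (i - 1) ≤ |(x : ℝ)| → ∃ n : ℕ, FP d m r i n x ∧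
    (Tm d m r)^[n] x ∉ Bd d m r i (H i)

/-- conditions on the tolerances -/
structure Tol (d : ℕ) (m : ℕ → ℤ) (R δ δ₁ : ℝ) (i₁ : ℕ) (H : ℕ → ℝ) : Prop where
  one : 1 ≤ i₁
  δ0 : 0 < δ
  δ1 : δ ≤ 1 / 4
  δρ : δ * Real.log d ≤ rho d m / 4
  δ₁0 : 0 < δ₁
  big : ∀ i : ℕ, i₁ ≤ i → 1 ≤ δ * i
  hR : ∀ i : ℕ, i₁ ≤ i → 4 * i * R ≤ (d : ℝ) ^ (i / 2)
  H2 : ∀ i : ℕ, i₁ ≤ i → Real.log 2 ≤ H i
  Hρ : ∀ i : ℕ, i₁ ≤ i → H i + Real.log 2 ≤ rho d m * i / 2
  Hm : ∀ i j : ℕ, i₁ ≤ i → i ≤ j → H i ≤ H j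
  Hd : ∀ i : ℕ, i₁ ≤ i - ⌊δ * i⌋₊ → H (i - ⌊δ * i⌋₊) ≤ (1 - δ₁) * H i

theorem FP_unique {i n n' : ℕ} {x : ℤ} (h : FP d m r i n x) (h' : FP d m r i n' x) : n = n' := by
  rcases lt_trichotomy n n' with h2 | h2 | h2
  · have := h'.1 n h2
    have := h.2
    linarith
  · exact h2
  · have := h.1 n' h2
    have := h'.2
    linarith

theorem chain_aux (h : Adm d m r) {R : ℝ} (hR : ∀ i < d, |(r i : ℝ)| ≤ R) (hR0 : 0 ≤ R) {δ δ₁ : ℝ}
    {i₁ : ℕ} {H : ℕ → ℝ} (hT : Tol d m R δ δ₁ i₁ H) {x : ℤ} (hg : Good d m r i₁ H x) :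
    ∀ i : ℕ, i₁ ≤ i → (d : ℝ) ^ (i - 1) ≤ |(x : ℝ)| → ∀ n : ℕ, FP d m r i n x → ∀ t : ℕ, n ≤ t →
      (∀ l ≤ t, (d : ℝ) ^ i₁ ≤ |(((Tm d m r)^[l] x : ℤ) : ℝ)|) →
      |(Real.log |(((Tm d m r)^[t] x : ℤ) : ℝ)| - Real.log |(((Tm d m r)^[n] x : ℤ) : ℝ)| +
        rho d m * ((t : ℝ) - n))| ≤ 2 / δ₁ * H i := by
  have hd2 := h.two_le
  have hdR : (2 : ℝ) ≤ d := by exact_mod_cast hd2
  have hd0 : (0 : ℝ) < d := by linarith
  have hd1 : (1 : ℝ) ≤ d := by linarith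
  have hδ0 := hT.δ0
  have hδ1 := hT.δ1
  have hδ₁ := hT.δ₁0
  have hl2 : 0 < Real.log 2 := Real.log_pos (by norm_num)
  intro i
  induction i using Nat.strong_induction_on with
  | _ i ih =>
  intro hi hxi n hfp t hnt hl
  rcases Nat.eq_or_lt_of_le hi with heq | hlt
  · exfalso
    have h1 := hfp.2
    have h2 := hl n hnt
    rw [← heq] at h1
    linarith
  have hiR : (1 : ℝ) ≤ i := by exact_mod_cast (by omega : 1 ≤ i)
  set q : ℕ := ⌊δ * i⌋₊ with hq
  have hq1 : 1 ≤ q := Nat.le_floor (by push_cast; exact hT.big i hi)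
  have hqle : (q : ℝ) ≤ δ * i := Nat.floor_le (by positivity)
  have hqi : (q : ℝ) ≤ i / 4 := by nlinarith
  have hqi' : 4 * q ≤ i := by
    have : (4 * q : ℝ) ≤ i := by linarith
    exact_mod_cast this
  set i' : ℕ := max i₁ (i - q) with hi'
  have hi'1 : i₁ ≤ i' := le_max_left _ _
  have hi'2 : i' < i := by
    rw [hi']; exact max_lt hlt (by omega)
  have hi'3 : i - q ≤ i' := le_max_right _ _
  have hi'0 : 1 ≤ i' := le_trans hT.one hi'1
  obtain ⟨n', hfp', hnb'⟩ := hg i' hi'1 ((pow_le_pow_right₀ hd1 (by omega)).trans hxi)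
  obtain ⟨n0, hfp0, hnb0⟩ := hg i hi hxi
  have hn0 : n0 = n := FP_unique hfp0 hfp
  rw [hn0] at hnb0
  have hnn' : n ≤ n' := by
    by_contra hcon
    push Not at hcon
    have h1 := hfp.1 n' hcon
    have h2 := hfp'.2
    have h3 : (d : ℝ) ^ i' ≤ (d : ℝ) ^ i := pow_le_pow_right₀ hd1 hi'2.le
    linarith
  set z : ℤ := (Tm d m r)^[n] x with hz
  have hzi : |(z : ℝ)| < (d : ℝ) ^ i := hfp.2
  have hzl : (d : ℝ) ^ i₁ ≤ |(z : ℝ)| := hl n hnt
  have hz0 : z ≠ 0 := by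
    rintro h0
    rw [h0] at hzl
    simp only [Int.cast_zero, abs_zero] at hzl
    have : 0 < (d : ℝ) ^ i₁ := by positivity
    linarith
  have hY0 : 0 < (d : ℝ) ^ i' := by positivity
  have hYi : 4 * i * R ≤ (d : ℝ) ^ i' := by
    refine (hT.hR i hi).trans (pow_le_pow_right₀ hd1 ?_)
    omega
  have hHρ := hT.Hρ i hi
  have hH2 := hT.H2 i hi
  have hρ := rho_pos h
  -- the straight piece
  have hst : ∀ j : ℕ, n + j ≤ n' → j ≤ i →
      |(Real.log |(((Tm d m r)^[n + j] x : ℤ) : ℝ)| - Real.log |(z : ℝ)| + rho d m * j)| ≤ 2 * H i := by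
    intro j hj hji
    have h1 := straight h hR hR0 hY0 hnb0 hzi hz0 hji (fun j' hj' => by
      rw [hz, ← Function.iterate_add_apply, add_comm]
      exact hfp'.1 _ (by omega)) hYi
    have e : (Tm d m r)^[n + j] x = (Tm d m r)^[j] z := by
      rw [hz, ← Function.iterate_add_apply, add_comm]
    rw [e]
    linarith [h1.2]
  have hn'i : n' ≤ n + i := by
    by_contra hcon
    push Not at hcon
    have h1 := straight h hR hR0 hY0 hnb0 hzi hz0 le_rfl (fun j' hj' => by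
      rw [hz, ← Function.iterate_add_apply, add_comm]
      exact hfp'.1 _ (by omega)) hYi
    have h2 := (abs_le.1 h1.2).2
    have h3 : (d : ℝ) ^ i' ≤ |(((Tm d m r)^[i] z : ℤ) : ℝ)| := by
      rw [hz, ← Function.iterate_add_apply, add_comm]
      exact hfp'.1 _ (by omega)
    have h4 : (i' : ℝ) * Real.log d ≤ Real.log |(((Tm d m r)^[i] z : ℤ) : ℝ)| := by
      rw [← Real.log_pow]; exact Real.log_le_log hY0 h3
    have h5 : Real.log |(z : ℝ)| ≤ i * Real.log d := by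
      rw [← Real.log_pow]
      exact Real.log_le_log (abs_pos.2 (by exact_mod_cast hz0)) hzi.le
    have h6 : (i : ℝ) - q ≤ i' := by
      have : ((i - q : ℕ) : ℝ) ≤ i' := by exact_mod_cast hi'3
      rw [Nat.cast_sub (by omega)] at this
      exact this
    have hlogd : 0 < Real.log d := Real.log_pos (by linarith)
    have h7 : ((i : ℝ) - δ * i) * Real.log d ≤ i' * Real.log d :=
      mul_le_mul_of_nonneg_right (by linarith) hlogd.le
    have h8 : δ * i * Real.log d ≤ rho d m / 4 * i := by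
      calc δ * i * Real.log d = (δ * Real.log d) * i := by ring
        _ ≤ rho d m / 4 * i := mul_le_mul_of_nonneg_right hT.δρ (by linarith)
    have h9 : 0 < rho d m * i := by positivity
    nlinarith
  have hHi : 0 < H i := by linarith
  have hδH : 0 ≤ 2 / δ₁ * H i := by positivity
  -- `δ₁ ≤ 1`
  have hδ1le : 2 * H i ≤ 2 / δ₁ * H i ∧ (i₁ < i' → 2 * H i + 2 / δ₁ * H i' ≤ 2 / δ₁ * H i) := by
    rcases le_or_gt δ₁ 1 with h1 | h1
    · constructor
      · apply mul_le_mul_of_nonneg_right _ hHi.le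
        rw [le_div_iff₀ hδ₁]; linarith
      · intro hlt'
        have h2 : i' = i - q := by
          rw [hi']; apply max_eq_right
          by_contra hcon
          push Not at hcon
          rw [hi', max_eq_left hcon.le] at hlt'
          omega
        have h3 := hT.Hd i (by rw [← hq, ← h2]; exact hi'1)
        rw [← hq, ← h2] at h3
        have h4 : 2 / δ₁ * H i' ≤ 2 / δ₁ * ((1 - δ₁) * H i) := mul_le_mul_of_nonneg_left h3 (by positivity)
        have h5 : 2 / δ₁ * ((1 - δ₁) * H i) = 2 / δ₁ * H i - 2 * H i := by field_simp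
        linarith
    · -- impossible: a large index would have a negative tolerance
      exfalso
      -- take `j` large
      obtain ⟨j, hj⟩ : ∃ j : ℕ, 2 * i₁ ≤ j := ⟨2 * i₁, le_rfl⟩
      have hj1 : (⌊δ * j⌋₊ : ℝ) ≤ δ * j := Nat.floor_le (by positivity)
      have hj2 : (⌊δ * j⌋₊ : ℝ) ≤ j / 4 := by
        have : (0 : ℝ) ≤ j := Nat.cast_nonneg j
        nlinarith
      have hj3 : 4 * ⌊δ * j⌋₊ ≤ j := by
        have : (4 * ⌊δ * j⌋₊ : ℝ) ≤ j := by linarith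
        exact_mod_cast this
      have h3 := hT.Hd j (by omega)
      have h4 := hT.H2 (j - ⌊δ * j⌋₊) (by omega)
      have h5 := hT.H2 j (by omega)
      nlinarith
  rcases Nat.lt_or_ge t n' with htn | htn
  · have h1 := hst (t - n) (by omega) (by omega)
    have e1 : n + (t - n) = t := by omega
    rw [e1, Nat.cast_sub hnt] at h1
    exact h1.trans hδ1le.1
  · -- pass through the level `i'`
    have hlt' : i₁ < i' := by
      rcases Nat.eq_or_lt_of_le hi'1 with h1 | h1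
      · exfalso
        have h2 := hfp'.2
        have h3 := hl n' htn
        rw [← h1] at h2
        linarith
      · exact h1
    have h1 := ih i' hi'2 hi'1 ((pow_le_pow_right₀ hd1 (by omega)).trans hxi) n' hfp' t htn hl
    have h2 := hst (n' - n) (by omega) (by omega)
    have e1 : n + (n' - n) = n' := by omega
    rw [e1, Nat.cast_sub hnn'] at h2
    have h3 := hδ1le.2 hlt'
    rw [abs_le] at h1 h2 ⊢
    constructor <;> nlinarith

/-- straightness between any two times -/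
theorem chain (h : Adm d m r) {R : ℝ} (hR : ∀ i < d, |(r i : ℝ)| ≤ R) (hR0 : 0 ≤ R) {δ δ₁ : ℝ}
    {i₁ : ℕ} {H : ℕ → ℝ} (hT : Tol d m R δ δ₁ i₁ H) {x : ℤ} (hg : Good d m r i₁ H x)
    {s t : ℕ} (hst : s ≤ t) (hl : ∀ l ≤ t, (d : ℝ) ^ i₁ ≤ |(((Tm d m r)^[l] x : ℤ) : ℝ)|)
    {i : ℕ} (hi1 : (d : ℝ) ^ (i - 1) ≤ |(((Tm d m r)^[s] x : ℤ) : ℝ)|)
    (hi2 : |(((Tm d m r)^[s] x : ℤ) : ℝ)| < (d : ℝ) ^ i) :
      |(Real.log |(((Tm d m r)^[t] x : ℤ) : ℝ)| - Real.log |(((Tm d m r)^[s] x : ℤ) : ℝ)| +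
        rho d m * ((t : ℝ) - s))| ≤ 4 / δ₁ * H i := by
  have hd2 := h.two_le
  have hdR : (2 : ℝ) ≤ d := by exact_mod_cast hd2
  have hd1 : (1 : ℝ) ≤ d := by linarith
  have hd1' : (1 : ℝ) < d := by linarith
  have hx0 := hl 0 (Nat.zero_le _)
  rw [Function.iterate_zero, id] at hx0
  have hx1 : (1 : ℝ) ≤ |(x : ℝ)| := le_trans (one_le_pow₀ hd1) hx0
  obtain ⟨k0, hk1, hk2⟩ := exists_pow hd2 hx1
  have hk2' : |(x : ℝ)| < (d : ℝ) ^ (k0 + 1) := by rw [pow_succ]; linarith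
  have hδ₁ := hT.δ₁0
  have hii : i₁ < i := by
    have := (hl s hst).trans_lt hi2
    exact (pow_lt_pow_iff_right₀ hd1').1 this
  have hik : i₁ < k0 + 1 := by
    have := hx0.trans_lt hk2'
    exact (pow_lt_pow_iff_right₀ hd1').1 this
  -- the reference level
  set e : ℕ := min i (k0 + 1) with he
  have he1 : i₁ ≤ e := by rw [he]; exact le_min hii.le hik.le
  have he2 : e ≤ i := min_le_left _ _
  have he3 : (d : ℝ) ^ (e - 1) ≤ |(x : ℝ)| := by
    refine (pow_le_pow_right₀ hd1 ?_).trans hk1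
    have : e ≤ k0 + 1 := min_le_right _ _
    omega
  obtain ⟨n, hfp, -⟩ := hg e he1 he3
  have hns : n ≤ s := by
    by_contra hcon
    push Not at hcon
    rcases Nat.le_total i (k0 + 1) with h1 | h1
    · have h2 : e = i := min_eq_left h1
      have h3 := hfp.1 s hcon
      rw [h2] at h3
      linarith
    · have h2 : e = k0 + 1 := min_eq_right h1
      have h3 := hfp.1 0 (by omega)
      rw [h2, Function.iterate_zero, id] at h3
      linarith
  have h1 := chain_aux h hR hR0 hT hg e he1 he3 n hfp t (hns.trans hst) hl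
  have h2 := chain_aux h hR hR0 hT hg e he1 he3 n hfp s hns (fun l hl' => hl l (hl'.trans hst))
  have h3 : 2 / δ₁ * H e ≤ 2 / δ₁ * H i := mul_le_mul_of_nonneg_left (hT.Hm e i he1 he2) (by positivity)
  have h4 : 4 / δ₁ * H i = 2 * (2 / δ₁ * H i) := by ring
  rw [h4]
  rw [abs_le] at h1 h2 ⊢
  constructor <;> nlinarith

end Pool.Agent.T2h89.LT
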