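import Pool.Agent.T2h89.LT4
import Pool.Agent.T2h89.LT5

/-! Counting the integers whose trajectory is not straight. -/

set_option autoImplicit false

namespace Pool.Agent.T2h89.LT

open Finset Pool.Agent.H319R3.GC Pool.Agent.H828R3.GP

variable {d : ℕ} {m r : ℕ → ℤ}

/-- proportion of the deviating points -/
noncomputable def bb (d : ℕ) (m : ℕ → ℤ) (i : ℕ) (H : ℝ) : ℝ :=
  6 * (i + 1) * Real.exp (-(H ^ 2 / (4 * Real.log (PP d m) ^ 2 * i)))

theorem bb_nonneg (i : ℕ) (H : ℝ) : 0 ≤ bb d m i H := by unfold bb; positivity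

theorem card_Ph (h : Adm d m r) {R : ℝ} (hR : ∀ i < d, |(r i : ℝ)| ≤ R) (hR0 : 0 ≤ R) {i : ℕ} {H : ℝ}
    (hi : 1 ≤ i) (hiR : 8 * i * R * PP d m ≤ (d : ℝ) ^ i) (hH : H + Real.log 2 < rho d m * i) :
    ((Ph d m r i).card : ℝ) ≤ (Bd d m r i H).card := by
  unfold Ph
  exact_mod_cast card_image_le.trans (card_le_card (He_sub h hR hR0 hi hiR hH))

theorem ncard_bU {ι : Type*} (s : Finset ι) (A : Set ℤ) (B : ι → Set ℤ)
    (hB : ∀ i ∈ s, (B i).Finite) (h : ∀ x ∈ A, ∃ i ∈ s, x ∈ B i) :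
    (A.ncard : ℝ) ≤ ∑ i ∈ s, ((B i).ncard : ℝ) := by
  classical
  have h1 : A ⊆ ⋃ i ∈ s, B i := by
    intro x hx
    obtain ⟨i, hi, hxi⟩ := h x hx
    exact Set.mem_biUnion hi hxi
  have hfin : (⋃ i ∈ s, B i).Finite := Set.Finite.biUnion s.finite_toSet hB
  have h2 := Set.ncard_le_ncard h1 hfin
  have h3 : (⋃ i ∈ s, B i).ncard ≤ ∑ i ∈ s, (B i).ncard := by
    clear h1 h2 hfin h
    induction s using Finset.induction_on with
    | empty => simp
    | insert a t ha ih =>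
      rw [Finset.set_biUnion_insert, Finset.sum_insert ha]
      refine (Set.ncard_union_le _ _).trans ?_
      gcongr
      exact ih fun i hi => hB i (Finset.mem_insert_of_mem hi)
  exact_mod_cast h2.trans h3

theorem fin_le (X : ℝ) (S : Set ℤ) (h : ∀ x ∈ S, |(x : ℝ)| ≤ X) : S.Finite := by
  apply (Set.finite_Icc (-⌈X⌉) ⌈X⌉).subset
  intro x hx
  have h1 := abs_le.1 (h x hx)
  have h2 := Int.le_ceil X
  rw [Set.mem_Icc]
  constructor
  · have : (-(⌈X⌉ : ℤ) : ℝ) ≤ x := by linarith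
    exact_mod_cast this
  · have : (x : ℝ) ≤ (⌈X⌉ : ℤ) := by linarith
    exact_mod_cast this

theorem count (h : Adm d m r) {R : ℝ} (hR : ∀ i < d, |(r i : ℝ)| ≤ R) (hR0 : 0 ≤ R) {s η : ℝ}
    (hs : 0 ≤ s) (hη0 : 0 ≤ η) (hη1 : η < 1) (hsum : ∑ j ∈ range d, (|(m j : ℝ)| / d) ^ s ≤ (d : ℝ) ^ η)
    (E : ℕ) (hE : 1 ≤ E) : ∃ K κ₁ : ℝ, 0 < K ∧ 1 ≤ κ₁ ∧ ∀ (i₁ : ℕ) (H t : ℕ → ℝ), 2 ≤ i₁ →
      (∀ i : ℕ, i₁ ≤ i → κ₁ * i ≤ t i ∧ 100 * t i ^ 2 * R * d ≤ (d : ℝ) ^ (i - 1) ∧ 0 < H i ∧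
        H i + Real.log 2 < rho d m * i ∧ 8 * i * R * PP d m ≤ (d : ℝ) ^ i) →
      ∀ X : ℝ, 1 ≤ X → ∀ I : ℕ, X ≤ (d : ℝ) ^ I →
      ({x : ℤ | |(x : ℝ)| ≤ X ∧ ¬ Good d m r i₁ H x}.ncard : ℝ) ≤
        X * ∑ i ∈ Icc i₁ (I + 1), (K * (t i ^ (2 * d + 5) * (2 * bb d m i (H i) +
          ((d : ℝ) ^ i) ^ (-(1 - η))) + (1 / t i) ^ E) + d * bb d m i (H i)) := by
  classical
  obtain ⟨K, κ₁, hK, hκ₁, htr⟩ := transfer h hR hR0 hs hη0 hη1 hsum E hE
  refine ⟨K, κ₁, hK, hκ₁, ?_⟩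
  intro i₁ H t hi₁ hyp X hX I hXI
  have hd2 := h.two_le
  have hdR : (2 : ℝ) ≤ d := by exact_mod_cast hd2
  have hd0 : (0 : ℝ) < d := by linarith
  have hd1 : (1 : ℝ) ≤ d := by linarith
  have hd1' : (1 : ℝ) < d := by linarith
  set U : ℕ → Set ℤ := fun i => {x : ℤ | |(x : ℝ)| ≤ X ∧ (d : ℝ) ^ (i - 1) ≤ |(x : ℝ)| ∧
    (x ∈ Ar d m r i (Bd d m r i (H i)) ∨ x ∈ Bd d m r i (H i))} with hU
  have hcov := ncard_bU (Icc i₁ (I + 1)) {x : ℤ | |(x : ℝ)| ≤ X ∧ ¬ Good d m r i₁ H x} U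
    (fun i _ => fin_le X _ (fun x hx => hx.1)) (by
      rintro x ⟨hx, hng⟩
      unfold Good at hng
      push Not at hng
      obtain ⟨i, hi, hxi, hno⟩ := hng
      refine ⟨i, ?_, hx, hxi, ?_⟩
      · rw [mem_Icc]
        refine ⟨hi, ?_⟩
        have h1 : (d : ℝ) ^ (i - 1) ≤ (d : ℝ) ^ I := by linarith
        have h2 := (pow_le_pow_iff_right₀ hd1').1 h1
        omega
      · rcases lt_or_ge |(x : ℝ)| ((d : ℝ) ^ i) with h1 | h1
        · right
          have := hno 0 ⟨by intro j hj; omega, by simpa using h1⟩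
          simpa using this
        · left
          refine ⟨h1, ?_⟩
          by_cases hnev : ∀ n : ℕ, (d : ℝ) ^ i ≤ |(((Tm d m r)^[n] x : ℤ) : ℝ)|
          · exact Or.inl hnev
          · push Not at hnev
            have hfp : FP d m r i (Nat.find hnev) x := by
              refine ⟨fun l hl => ?_, Nat.find_spec hnev⟩
              have := Nat.find_min hnev hl
              push Not at this
              exact this
            exact Or.inr ⟨_, hfp, hno _ hfp⟩)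
  refine hcov.trans ?_
  rw [mul_sum]
  apply sum_le_sum
  intro i hi
  rw [mem_Icc] at hi
  obtain ⟨a1, a2, a3, a4, a5⟩ := hyp i hi.1
  have hi1 : 1 ≤ i := by omega
  have hDi : 0 < (d : ℝ) ^ i := by positivity
  have hti : 0 < t i := by
    have : (0 : ℝ) < κ₁ * i := by
      have : (0 : ℝ) < i := by exact_mod_cast (by omega : 0 < i)
      nlinarith
    linarith
  have hb0 := bb_nonneg (d := d) (m := m) i (H i)
  have hκ0 : 0 ≤ ((d : ℝ) ^ i) ^ (-(1 - η)) := Real.rpow_nonneg hDi.le _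
  rcases lt_or_ge X ((d : ℝ) ^ (i - 1)) with hXi | hXi
  · have h0 : U i = ∅ := by
      ext x
      simp only [hU, Set.mem_ofPred_eq, Set.mem_empty_iff_false, iff_false]
      rintro ⟨h1, h2, -⟩
      linarith
    rw [h0, Set.ncard_empty, Nat.cast_zero]
    positivity
  · have hB := card_Bd h hi1 a3
    have hBb : ((Bd d m r i (H i)).card : ℝ) ≤ (d : ℝ) ^ i * bb d m i (H i) := by
      refine hB.trans (le_of_eq ?_)
      unfold bb; ring
    have hPh := card_Ph h hR hR0 hi1 a5 a4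
    have h1 := htr i (t i) (Bd d m r i (H i)) (by omega) a1 a2 X hX
    have h2 : ((U i).ncard : ℝ) ≤ ({x : ℤ | x ∈ Ar d m r i (Bd d m r i (H i)) ∧ |(x : ℝ)| ≤ X}.ncard : ℝ) +
        ((Bd d m r i (H i)).card : ℝ) := by
      have hsub : U i ⊆ {x : ℤ | x ∈ Ar d m r i (Bd d m r i (H i)) ∧ |(x : ℝ)| ≤ X} ∪
          ((Bd d m r i (H i) : Finset ℤ) : Set ℤ) := by
        rintro x ⟨b1, b2, b3 | b3⟩
        · exact Or.inl ⟨b3, b1⟩
        · exact Or.inr b3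
      have hfin : ({x : ℤ | x ∈ Ar d m r i (Bd d m r i (H i)) ∧ |(x : ℝ)| ≤ X} ∪
          ((Bd d m r i (H i) : Finset ℤ) : Set ℤ)).Finite :=
        (fin_le X _ (fun x hx => hx.2)).union (Finset.finite_toSet _)
      have h3 := (Set.ncard_le_ncard hsub hfin).trans (Set.ncard_union_le _ _)
      rw [Set.ncard_coe_finset] at h3
      exact_mod_cast h3
    refine h2.trans ?_
    have h3 : (((Bd d m r i (H i)).card : ℝ) + ((Ph d m r i).card : ℝ)) / (d : ℝ) ^ i ≤ 2 * bb d m i (H i) := by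
      rw [div_le_iff₀ hDi]; linarith
    have h4 : ((Bd d m r i (H i)).card : ℝ) ≤ X * (d * bb d m i (H i)) := by
      refine hBb.trans ?_
      have e : (d : ℝ) ^ i = (d : ℝ) ^ (i - 1) * d := by rw [← pow_succ]; congr 1; omega
      rw [e]
      calc (d : ℝ) ^ (i - 1) * d * bb d m i (H i) = (d : ℝ) ^ (i - 1) * (d * bb d m i (H i)) := by ring
        _ ≤ X * (d * bb d m i (H i)) := mul_le_mul_of_nonneg_right hXi (by positivity)
    have h5 : K * X * (t i ^ (2 * d + 5) * ((((Bd d m r i (H i)).card : ℝ) + ((Ph d m r i).card : ℝ)) /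
        (d : ℝ) ^ i + ((d : ℝ) ^ i) ^ (-(1 - η))) + (1 / t i) ^ E) ≤
        K * X * (t i ^ (2 * d + 5) * (2 * bb d m i (H i) + ((d : ℝ) ^ i) ^ (-(1 - η))) + (1 / t i) ^ E) := by
      apply mul_le_mul_of_nonneg_left _ (by positivity)
      apply add_le_add _ le_rfl
      apply mul_le_mul_of_nonneg_left _ (by positivity)
      linarith
    calc _ ≤ K * X * (t i ^ (2 * d + 5) * (2 * bb d m i (H i) + ((d : ℝ) ^ i) ^ (-(1 - η))) + (1 / t i) ^ E) +
          X * (d * bb d m i (H i)) := add_le_add (h1.trans h5) h4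
      _ = _ := by ring

/-- eventually `C n^k ≤ a^n` -/
theorem ev_pow (C : ℝ) (k : ℕ) {a : ℝ} (ha : 1 < a) : ∀ᶠ n : ℕ in Filter.atTop, C * (n : ℝ) ^ k ≤ a ^ n := by
  have h1 := tendsto_pow_const_div_const_pow_of_one_lt k ha
  have h2 := h1.eventually (gt_mem_nhds (show (0 : ℝ) < 1 / (|C| + 1) by positivity))
  filter_upwards [h2] with n hn
  have ha0 : 0 < a ^ n := by positivity
  rw [div_lt_div_iff₀ ha0 (by positivity), one_mul] at hn
  have h3 : C * (n : ℝ) ^ k ≤ |C| * (n : ℝ) ^ k := mul_le_mul_of_nonneg_right (le_abs_self C) (by positivity)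
  have h4 : 0 ≤ (n : ℝ) ^ k := by positivity
  nlinarith

theorem ev_half (R : ℝ) (hR0 : 0 ≤ R) {a : ℝ} (ha : 1 < a) :
    ∀ᶠ n : ℕ in Filter.atTop, 4 * (n : ℝ) * R ≤ a ^ (n / 2) := by
  obtain ⟨N, hN⟩ := Filter.eventually_atTop.1 (ev_pow (12 * R) 1 ha)
  filter_upwards [Filter.eventually_ge_atTop (2 * N + 2)] with n hn
  have h1 := hN (n / 2) (by omega)
  have h2 : (n : ℝ) ≤ 3 * ((n / 2 : ℕ) : ℝ) := by
    have : n ≤ 3 * (n / 2) := by omega
    exact_mod_cast this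
  rw [pow_one] at h1
  nlinarith

end Pool.Agent.T2h89.LT
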