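import Pool.Agent.T2h89.LT6

/-! The law of large numbers at all scales. -/

set_option autoImplicit false

namespace Pool.Agent.T2h89.LT

open Finset Pool.Agent.H319R3.GC Pool.Agent.H828R3.GP

variable {d : ℕ} {m r : ℕ → ℤ}

/-- the orbit enters `[-y, y]` and is a straight line up to the errors `ψ` before -/
def Str (d : ℕ) (m r : ℕ → ℤ) (y : ℝ) (ψ : ℝ → ℝ) (x : ℤ) : Prop :=
  (∃ k : ℕ, |(((Tm d m r)^[k] x : ℤ) : ℝ)| ≤ y) ∧
  ∀ s t : ℕ, s ≤ t → (∀ l ≤ t, y < |(((Tm d m r)^[l] x : ℤ) : ℝ)|) →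
    |(Real.log |(((Tm d m r)^[t] x : ℤ) : ℝ)| - Real.log |(((Tm d m r)^[s] x : ℤ) : ℝ)| +
        rho d m * ((t : ℝ) - s))| ≤ ψ (Real.log |(((Tm d m r)^[s] x : ℤ) : ℝ)|)

theorem good_str (h : Adm d m r) {R : ℝ} (hR : ∀ i < d, |(r i : ℝ)| ≤ R) (hR0 : 0 ≤ R) {δ δ₁ : ℝ}
    {i₁ : ℕ} {H : ℕ → ℝ} (hT : Tol d m R δ δ₁ i₁ H) {x : ℤ} (hg : Good d m r i₁ H x) {y : ℝ}
    (hy : (d : ℝ) ^ i₁ ≤ y) {ψ : ℝ → ℝ}
    (hψ : ∀ i : ℕ, i₁ < i → ∀ L : ℝ, ((i : ℝ) - 1) * Real.log d ≤ L → 4 / δ₁ * H i ≤ ψ L) :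
    Str d m r y ψ x := by
  have hd2 := h.two_le
  have hdR : (2 : ℝ) ≤ d := by exact_mod_cast hd2
  have hd1 : (1 : ℝ) ≤ d := by linarith
  have hd1' : (1 : ℝ) < d := by linarith
  constructor
  · rcases lt_or_ge |(x : ℝ)| ((d : ℝ) ^ (i₁ - 1)) with h1 | h1
    · refine ⟨0, ?_⟩
      rw [Function.iterate_zero, id]
      have h2 : (d : ℝ) ^ (i₁ - 1) ≤ (d : ℝ) ^ i₁ := pow_le_pow_right₀ hd1 (by omega)
      linarith
    · obtain ⟨n, hfp, -⟩ := hg i₁ le_rfl h1
      exact ⟨n, hfp.2.le.trans hy⟩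
  · intro s t hst hl
    have hs := hl s hst
    have hs1 : (1 : ℝ) ≤ |(((Tm d m r)^[s] x : ℤ) : ℝ)| := by
      have : (1 : ℝ) ≤ (d : ℝ) ^ i₁ := one_le_pow₀ hd1
      linarith
    obtain ⟨l, hl1, hl2⟩ := exists_pow hd2 hs1
    have hl2' : |(((Tm d m r)^[s] x : ℤ) : ℝ)| < (d : ℝ) ^ (l + 1) := by rw [pow_succ]; linarith
    have hil : i₁ < l + 1 := by
      have : (d : ℝ) ^ i₁ < (d : ℝ) ^ (l + 1) := by linarith
      exact (pow_lt_pow_iff_right₀ hd1').1 this
    refine (chain h hR hR0 hT hg hst (fun l' hl' => hy.trans (hl l' hl').le) (i := l + 1)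
      (by simpa using hl1) hl2').trans ?_
    apply hψ (l + 1) hil
    push_cast
    rw [add_sub_cancel_right, ← Real.log_pow]
    exact Real.log_le_log (by positivity) hl1

/-- `δ` -/
noncomputable def dl (d : ℕ) (m : ℕ → ℤ) : ℝ := rho d m / (4 * Real.log d)

theorem dl_pos (h : Adm d m r) : 0 < dl d m ∧ dl d m ≤ 1 / 4 ∧ dl d m * Real.log d = rho d m / 4 := by
  have h1 := rho_pos h
  have h2 := rho_lt h
  have h3 : 0 < Real.log d := by linarith
  unfold dl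
  refine ⟨by positivity, ?_, by field_simp⟩
  rw [div_le_iff₀ (by positivity)]
  linarith

theorem floor_gain {δ : ℝ} (hδ0 : 0 < δ) (hδ1 : δ ≤ 1 / 4) {i : ℕ} (hi : 2 ≤ δ * i) :
    ((i - ⌊δ * i⌋₊ : ℕ) : ℝ) ≤ (1 - δ / 2) * i := by
  have h0 : (0 : ℝ) ≤ i := Nat.cast_nonneg i
  have h1 : (⌊δ * i⌋₊ : ℝ) ≤ δ * i := Nat.floor_le (by positivity)
  have h2 : ⌊δ * i⌋₊ ≤ i := by
    have : (⌊δ * i⌋₊ : ℝ) ≤ i := by nlinarith
    exact_mod_cast this
  have h3 := Nat.lt_floor_add_one (δ * i)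
  rw [Nat.cast_sub h2]
  linarith

/-- `ε'` -/
noncomputable def ep (d : ℕ) (m : ℕ → ℤ) (ε : ℝ) : ℝ :=
  min (ε * (dl d m / 4) * Real.log d / 8) (rho d m / 4)

/-- the exponent to the base `e` -/
noncomputable def c2 (d : ℕ) (m : ℕ → ℤ) (η ε : ℝ) : ℝ :=
  min (ep d m ε ^ 2 / (4 * Real.log (PP d m) ^ 2)) ((1 - η) * Real.log d) / 2

theorem ep_pos (h : Adm d m r) {ε : ℝ} (hε : 0 < ε) : 0 < ep d m ε := by
  have h1 := rho_pos h
  have h2 := rho_lt h
  have h3 := (dl_pos h).1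
  have h4 : 0 < Real.log d := by linarith
  unfold ep
  exact lt_min (by positivity) (by positivity)

theorem c2_pos (h : Adm d m r) {η ε : ℝ} (hη1 : η < 1) (hε : 0 < ε) : 0 < c2 d m η ε := by
  have h1 := rho_pos h
  have h2 := rho_lt h
  have h4 : 0 < Real.log d := by linarith
  have h5 := ep_pos h hε
  have h6 := lPP h
  unfold c2
  apply div_pos (lt_min (by positivity) (mul_pos (by linarith) h4)) (by norm_num)

theorem geom_tail {q : ℝ} (hq0 : 0 < q) (hq1 : q < 1) (a b : ℕ) :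
    ∑ i ∈ Icc a b, q ^ i ≤ q ^ a / (1 - q) := by
  have h1 : (0 : ℝ) < 1 - q := by linarith
  rcases Nat.lt_or_ge b a with hab | hab
  · rw [Icc_eq_empty (by omega), sum_empty]; positivity
  · have h2 : Icc a b = (range (b + 1 - a)).image (fun j => a + j) := by
      ext x
      simp only [mem_Icc, mem_image, mem_range]
      constructor
      · rintro ⟨h1, h2⟩; exact ⟨x - a, by omega, by omega⟩
      · rintro ⟨j, h1, h2⟩; omega
    rw [h2, sum_image (by intro x _ y _ hxy; simpa using hxy)]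
    have h3 : ∑ j ∈ range (b + 1 - a), q ^ (a + j) = q ^ a * ∑ j ∈ range (b + 1 - a), q ^ j := by
      rw [mul_sum]
      apply sum_congr rfl
      intro j _
      rw [pow_add]
    rw [h3, div_eq_mul_inv]
    apply mul_le_mul_of_nonneg_left _ (by positivity)
    rw [← tsum_geometric_of_lt_one hq0.le hq1]
    exact (summable_geometric_of_lt_one hq0.le hq1).sum_le_tsum _ (fun _ _ => by positivity)

/-- estimate of the summand, power saving case -/
theorem W1 {K c₂ b κ τ D n : ℝ} (hK : 0 < K) (hc : 0 < c₂) (hD : 0 < D) (hn : 0 ≤ n)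
    (_hb0 : 0 ≤ b) (hb : b ≤ 6 * (n + 1) * Real.exp (-(2 * c₂ * n))) (hκ : κ ≤ Real.exp (-(2 * c₂ * n)))
    (hτ : τ = Real.exp (c₂ / 2 * n)) :
    K * (τ * (2 * b + κ) + Real.exp (-(c₂ * n))) + D * b ≤
      (K * (13 * (2 / c₂ + 1) + 1) + 6 * D * (2 / c₂ + 1)) * Real.exp (-(c₂ * n)) := by
  have h1 : n + 1 ≤ (2 / c₂ + 1) * Real.exp (c₂ / 2 * n) := by
    have e1 := Real.add_one_le_exp (c₂ / 2 * n)
    have e2 : 0 ≤ c₂ / 2 * n := by positivity
    have e3 : 1 ≤ Real.exp (c₂ / 2 * n) := by linarith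
    have e4 : n = 2 / c₂ * (c₂ / 2 * n) := by field_simp
    have e5 : 2 / c₂ * (c₂ / 2 * n) ≤ 2 / c₂ * Real.exp (c₂ / 2 * n) :=
      mul_le_mul_of_nonneg_left (by linarith) (by positivity)
    linarith
  set M : ℝ := 2 / c₂ + 1 with hM
  have hM0 : 0 < M := by positivity
  have hex : Real.exp (c₂ / 2 * n) * (Real.exp (c₂ / 2 * n) * Real.exp (-(2 * c₂ * n))) =
      Real.exp (-(c₂ * n)) := by
    rw [← Real.exp_add, ← Real.exp_add]; congr 1; ring
  have hle2 : Real.exp (c₂ / 2 * n) * Real.exp (-(2 * c₂ * n)) ≤ Real.exp (-(c₂ * n)) := by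
    rw [← Real.exp_add]; apply Real.exp_le_exp.2
    nlinarith [mul_nonneg hc.le hn]
  have hE0 : 0 < Real.exp (-(2 * c₂ * n)) := Real.exp_pos _
  have hT0 : 0 < Real.exp (c₂ / 2 * n) := Real.exp_pos _
  have h2 : 2 * b + κ ≤ 13 * (n + 1) * Real.exp (-(2 * c₂ * n)) := by nlinarith
  have h3 : τ * (2 * b + κ) ≤ 13 * M * Real.exp (-(c₂ * n)) := by
    rw [hτ]
    calc Real.exp (c₂ / 2 * n) * (2 * b + κ)
        ≤ Real.exp (c₂ / 2 * n) * (13 * (n + 1) * Real.exp (-(2 * c₂ * n))) :=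
          mul_le_mul_of_nonneg_left h2 hT0.le
      _ ≤ Real.exp (c₂ / 2 * n) * (13 * (M * Real.exp (c₂ / 2 * n)) * Real.exp (-(2 * c₂ * n))) := by
          apply mul_le_mul_of_nonneg_left _ hT0.le
          apply mul_le_mul_of_nonneg_right _ hE0.le
          linarith
      _ = 13 * M * (Real.exp (c₂ / 2 * n) * (Real.exp (c₂ / 2 * n) * Real.exp (-(2 * c₂ * n)))) := by ring
      _ = _ := by rw [hex]
  have h4 : b ≤ 6 * M * Real.exp (-(c₂ * n)) := by
    calc b ≤ 6 * (n + 1) * Real.exp (-(2 * c₂ * n)) := hb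
      _ ≤ 6 * (M * Real.exp (c₂ / 2 * n)) * Real.exp (-(2 * c₂ * n)) := by
          apply mul_le_mul_of_nonneg_right _ hE0.le
          linarith
      _ = 6 * M * (Real.exp (c₂ / 2 * n) * Real.exp (-(2 * c₂ * n))) := by ring
      _ ≤ 6 * M * Real.exp (-(c₂ * n)) := mul_le_mul_of_nonneg_left hle2 (by positivity)
  calc K * (τ * (2 * b + κ) + Real.exp (-(c₂ * n))) + D * b
      ≤ K * (13 * M * Real.exp (-(c₂ * n)) + Real.exp (-(c₂ * n))) + D * (6 * M * Real.exp (-(c₂ * n))) := by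
        apply add_le_add
        · exact mul_le_mul_of_nonneg_left (add_le_add h3 le_rfl) hK.le
        · exact mul_le_mul_of_nonneg_left h4 hD.le
    _ = _ := by ring

theorem law1 (h : Adm d m r) {s η : ℝ}
    (hs : 0 ≤ s) (hη0 : 0 ≤ η) (hη1 : η < 1) (hsum : ∑ j ∈ range d, (|(m j : ℝ)| / d) ^ s ≤ (d : ℝ) ^ η)
    {ε : ℝ} (hε : 0 < ε) : ∃ C : ℝ, 0 < C ∧ ∀ X y : ℝ, 1 ≤ X → 1 ≤ y →
      ({x : ℤ | |(x : ℝ)| ≤ X ∧ ¬ Str d m r y (fun L => ε * L) x}.ncard : ℝ) ≤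
        C * X * y ^ (-(c2 d m η ε / Real.log d)) := by
  classical
  have hd2 := h.two_le
  have hdR : (2 : ℝ) ≤ d := by exact_mod_cast hd2
  have hd0 : (0 : ℝ) < d := by linarith
  have hd1 : (1 : ℝ) ≤ d := by linarith
  have hd1' : (1 : ℝ) < d := by linarith
  have hlogd : 0 < Real.log d := Real.log_pos hd1'
  have hρ := rho_pos h
  have hρd := rho_lt h
  obtain ⟨hδ0, hδ1, hδρ⟩ := dl_pos h
  have hep := ep_pos h hε
  have hc2 := c2_pos h hη1 hε
  have hK0 := lPP h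
  have hl2 : 0 < Real.log 2 := Real.log_pos (by norm_num)
  obtain ⟨R, hR0, hR⟩ : ∃ R : ℝ, 0 ≤ R ∧ ∀ i < d, |(r i : ℝ)| ≤ R := by
    refine ⟨∑ i ∈ range d, |(r i : ℝ)|, sum_nonneg fun _ _ => abs_nonneg _, fun i hi => ?_⟩
    exact Finset.single_le_sum (f := fun i => |(r i : ℝ)|) (fun j _ => abs_nonneg _)
      (mem_range.2 hi)
  obtain ⟨K, κ₁, hK, hκ₁, hcount⟩ := count h hR hR0 hs hη0 hη1 hsum (4 * d + 10) (by omega)
  set c₂ : ℝ := c2 d m η ε with hc₂
  set γ : ℝ := c₂ / (2 * (2 * d + 5)) with hγ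
  have hγ0 : 0 < γ := by positivity
  have hc2a : 2 * c₂ ≤ ep d m ε ^ 2 / (4 * Real.log (PP d m) ^ 2) := by
    rw [hc₂]; unfold c2
    have := min_le_left (ep d m ε ^ 2 / (4 * Real.log (PP d m) ^ 2)) ((1 - η) * Real.log d)
    linarith
  have hc2b : 2 * c₂ ≤ (1 - η) * Real.log d := by
    rw [hc₂]; unfold c2
    have := min_le_right (ep d m ε ^ 2 / (4 * Real.log (PP d m) ^ 2)) ((1 - η) * Real.log d)
    linarith
  have hγd : 2 * γ < Real.log d := by
    have h1 : γ ≤ c₂ / 18 := by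
      rw [hγ]
      apply div_le_div_of_nonneg_left hc2.le (by norm_num) (by linarith)
    nlinarith
  set H : ℕ → ℝ := fun i => ep d m ε * i with hH
  set t : ℕ → ℝ := fun i => Real.exp (γ * i) with ht
  -- eventual conditions
  have ev1 := ev_pow κ₁ 1 (a := Real.exp γ) (Real.one_lt_exp_iff.2 hγ0)
  have ev2 := ev_pow (100 * R * d * d) 0 (a := (d : ℝ) / Real.exp (2 * γ)) (by
    rw [one_lt_div (Real.exp_pos _)]
    calc Real.exp (2 * γ) < Real.exp (Real.log d) := Real.exp_lt_exp.2 hγd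
      _ = d := Real.exp_log hd0)
  have ev3 := ev_pow (8 * R * PP d m) 1 hd1'
  have ev4 := ev_half R hR0 hd1'
  have ev5 : ∀ᶠ n : ℕ in Filter.atTop, 2 / dl d m ≤ (n : ℝ) :=
    tendsto_natCast_atTop_atTop.eventually_ge_atTop _
  have ev6 : ∀ᶠ n : ℕ in Filter.atTop, Real.log 2 / ep d m ε ≤ (n : ℝ) :=
    tendsto_natCast_atTop_atTop.eventually_ge_atTop _
  have ev7 : ∀ᶠ n : ℕ in Filter.atTop, 4 * Real.log 2 / rho d m ≤ (n : ℝ) :=
    tendsto_natCast_atTop_atTop.eventually_ge_atTop _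
  obtain ⟨N, hN⟩ := Filter.eventually_atTop.1 (((((ev1.and ev2).and ev3).and ev4).and (ev5.and ev6)).and ev7)
  set i₀ : ℕ := max N 2 with hi₀
  have hcond : ∀ i : ℕ, i₀ ≤ i → κ₁ * i ≤ t i ∧ 100 * t i ^ 2 * R * d ≤ (d : ℝ) ^ (i - 1) ∧ 0 < H i ∧
        H i + Real.log 2 ≤ rho d m * i / 2 ∧ 8 * i * R * PP d m ≤ (d : ℝ) ^ i ∧
        4 * i * R ≤ (d : ℝ) ^ (i / 2) ∧ 2 ≤ dl d m * i ∧ Real.log 2 ≤ H i := by
    intro i hi
    obtain ⟨⟨⟨⟨⟨a1, a2⟩, a3⟩, a4⟩, a5, a6⟩, a7⟩ := hN i ((le_max_left _ _).trans hi)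
    have hi2 : 2 ≤ i := (le_max_right _ _).trans hi
    have hiR : (2 : ℝ) ≤ i := by exact_mod_cast hi2
    rw [pow_one] at a1 a3
    rw [pow_zero, mul_one] at a2
    rw [div_le_iff₀ hδ0] at a5
    rw [div_le_iff₀ hep] at a6
    rw [div_le_iff₀ hρ] at a7
    have hepρ : ep d m ε ≤ rho d m / 4 := min_le_right _ _
    refine ⟨?_, ?_, ?_, ?_, by linarith, a4, by linarith, ?_⟩
    · simp only [ht]
      rw [← Real.exp_nat_mul] at a1
      rwa [mul_comm γ]
    · simp only [ht]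
      have e1 : Real.exp (γ * i) ^ 2 = Real.exp (2 * γ) ^ i := by
        rw [← Real.exp_nat_mul, ← Real.exp_nat_mul]; congr 1; push_cast; ring
      have e2 : (d : ℝ) ^ i = (d : ℝ) ^ (i - 1) * d := by rw [← pow_succ]; congr 1; omega
      rw [div_pow, le_div_iff₀ (by positivity), e2] at a2
      rw [e1]
      have e3 : 100 * Real.exp (2 * γ) ^ i * R * d * d ≤ (d : ℝ) ^ (i - 1) * d := by linarith
      exact le_of_mul_le_mul_right e3 hd0
    · simp only [hH]; positivity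
    · simp only [hH]
      have e1 : ep d m ε * i ≤ rho d m / 4 * i := mul_le_mul_of_nonneg_right hepρ (by linarith)
      linarith
    · simp only [hH]; linarith
  have htol : ∀ i₁ : ℕ, i₀ ≤ i₁ → Tol d m R (dl d m) (dl d m / 4) i₁ H := by
    intro i₁ hi₁
    have hi₁2 : 2 ≤ i₁ := (le_max_right _ _).trans hi₁
    refine ⟨by omega, hδ0, hδ1, hδρ.le, by linarith, ?_, ?_, ?_, ?_, ?_, ?_⟩
    · intro i hi
      obtain ⟨-, -, -, -, -, -, a, -⟩ := hcond i (hi₁.trans hi)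
      linarith
    · intro i hi
      exact (hcond i (hi₁.trans hi)).2.2.2.2.2.1
    · intro i hi
      exact (hcond i (hi₁.trans hi)).2.2.2.2.2.2.2
    · intro i hi
      exact (hcond i (hi₁.trans hi)).2.2.2.1
    · intro i j _ hij
      simp only [hH]
      apply mul_le_mul_of_nonneg_left _ hep.le
      exact_mod_cast hij
    · intro i hi
      have h1 : i₁ ≤ i := hi.trans (Nat.sub_le _ _)
      obtain ⟨-, -, -, -, -, -, a, -⟩ := hcond i (hi₁.trans h1)
      have h2 := floor_gain hδ0 hδ1 a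
      simp only [hH]
      have h3 : (0 : ℝ) ≤ i := Nat.cast_nonneg i
      calc ep d m ε * ((i - ⌊dl d m * i⌋₊ : ℕ) : ℝ) ≤ ep d m ε * ((1 - dl d m / 2) * i) :=
            mul_le_mul_of_nonneg_left h2 hep.le
        _ ≤ ep d m ε * ((1 - dl d m / 4) * i) := by
            apply mul_le_mul_of_nonneg_left _ hep.le
            apply mul_le_mul_of_nonneg_right _ h3
            linarith
        _ = _ := by ring
  -- the constants
  set M : ℝ := K * (13 * (2 / c₂ + 1) + 1) + 6 * d * (2 / c₂ + 1) with hM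
  have hM0 : 0 < M := by positivity
  set q : ℝ := Real.exp (-c₂) with hq
  have hq0 : 0 < q := Real.exp_pos _
  have hq1 : q < 1 := by
    rw [hq, ← Real.exp_zero]
    exact Real.exp_lt_exp.2 (by linarith)
  have hq1' : 0 < 1 - q := by linarith
  set Y₀ : ℝ := (d : ℝ) ^ i₀ with hY₀
  have hY₀1 : 1 ≤ Y₀ := one_le_pow₀ hd1
  set c : ℝ := c₂ / Real.log d with hcd
  have hc0 : 0 < c := by positivity
  refine ⟨3 * Y₀ ^ c + M / (1 - q) * Real.exp c₂, by positivity, ?_⟩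
  intro X y hX hy
  have hy0 : 0 < y := by linarith
  have hyc : 0 < y ^ (-c) := Real.rpow_pos_of_pos hy0 _
  rcases lt_or_ge y Y₀ with hsm | hbig
  · have h1 := ncard_trivial X hX {x : ℤ | |(x : ℝ)| ≤ X ∧ ¬ Str d m r y (fun L => ε * L) x}
      (fun x hx => hx.1)
    refine h1.trans ?_
    have h2 : 1 ≤ Y₀ ^ c * y ^ (-c) := by
      have h3 : y ^ c ≤ Y₀ ^ c := Real.rpow_le_rpow hy0.le hsm.le hc0.le
      calc (1 : ℝ) = y ^ c * y ^ (-c) := by rw [← Real.rpow_add hy0, add_neg_cancel, Real.rpow_zero]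
        _ ≤ Y₀ ^ c * y ^ (-c) := mul_le_mul_of_nonneg_right h3 hyc.le
    have h4 : 0 ≤ M / (1 - q) * Real.exp c₂ * X * y ^ (-c) := by positivity
    calc 3 * X = 3 * X * 1 := by ring
      _ ≤ 3 * X * (Y₀ ^ c * y ^ (-c)) := mul_le_mul_of_nonneg_left h2 (by linarith)
      _ ≤ 3 * X * (Y₀ ^ c * y ^ (-c)) + M / (1 - q) * Real.exp c₂ * X * y ^ (-c) := by linarith
      _ = _ := by ring
  · obtain ⟨i₁, hi1, hi2⟩ := exists_pow hd2 hy
    have hi2' : y < (d : ℝ) ^ (i₁ + 1) := by rw [pow_succ]; linarith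
    have hi₁ : i₀ ≤ i₁ := by
      have h1 : (d : ℝ) ^ i₀ < (d : ℝ) ^ (i₁ + 1) := lt_of_le_of_lt hbig hi2'
      have := (pow_lt_pow_iff_right₀ hd1').1 h1
      omega
    have hi₁2 : 2 ≤ i₁ := (le_max_right _ _).trans hi₁
    have hTl := htol i₁ hi₁
    obtain ⟨I, hI⟩ := pow_unbounded_of_one_lt X hd1'
    have hcnt := hcount i₁ H t hi₁2 (by
      intro i hi
      obtain ⟨a1, a2, a3, a4, a5, a6, a7, a8⟩ := hcond i (hi₁.trans hi)
      refine ⟨a1, a2, a3, ?_, a5⟩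
      have hiR : (0 : ℝ) < i := by exact_mod_cast (by omega : 0 < i)
      have : 0 < rho d m * i := by positivity
      linarith) X hX I hI.le
    have hsub : {x : ℤ | |(x : ℝ)| ≤ X ∧ ¬ Str d m r y (fun L => ε * L) x} ⊆
        {x : ℤ | |(x : ℝ)| ≤ X ∧ ¬ Good d m r i₁ H x} := by
      rintro x ⟨h1, h2⟩
      refine ⟨h1, fun hg => h2 ?_⟩
      apply good_str h hR hR0 hTl hg hi1
      intro i hi L hL
      have hiR : (2 : ℝ) ≤ i := by exact_mod_cast (by omega : 2 ≤ i)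
      have hL2 : i * Real.log d / 2 ≤ L := by nlinarith
      simp only [hH]
      have h3 : ep d m ε ≤ ε * (dl d m / 4) * Real.log d / 8 := min_le_left _ _
      calc 4 / (dl d m / 4) * (ep d m ε * i) ≤
            4 / (dl d m / 4) * ((ε * (dl d m / 4) * Real.log d / 8) * i) := by
            apply mul_le_mul_of_nonneg_left _ (by positivity)
            exact mul_le_mul_of_nonneg_right h3 (by linarith)
        _ = ε * (i * Real.log d / 2) := by field_simp; norm_num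
        _ ≤ ε * L := mul_le_mul_of_nonneg_left hL2 hε.le
    have h1 : ({x : ℤ | |(x : ℝ)| ≤ X ∧ ¬ Str d m r y (fun L => ε * L) x}.ncard : ℝ) ≤
        ({x : ℤ | |(x : ℝ)| ≤ X ∧ ¬ Good d m r i₁ H x}.ncard : ℝ) := by
      exact_mod_cast Set.ncard_le_ncard hsub (fin_le X _ fun x hx => hx.1)
    refine (h1.trans hcnt).trans ?_
    have hsumm : ∑ i ∈ Icc i₁ (I + 1), (K * (t i ^ (2 * d + 5) * (2 * bb d m i (H i) +
          ((d : ℝ) ^ i) ^ (-(1 - η))) + (1 / t i) ^ (4 * d + 10)) + d * bb d m i (H i)) ≤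
        ∑ i ∈ Icc i₁ (I + 1), M * q ^ i := by
      apply sum_le_sum
      intro i hi
      rw [mem_Icc] at hi
      have hiR : (0 : ℝ) < i := by exact_mod_cast (by omega : 0 < i)
      have e1 : bb d m i (H i) ≤ 6 * ((i : ℝ) + 1) * Real.exp (-(2 * c₂ * i)) := by
        unfold bb
        apply mul_le_mul_of_nonneg_left _ (by positivity)
        apply Real.exp_le_exp.2
        apply neg_le_neg
        simp only [hH]
        have e2 : (ep d m ε * i) ^ 2 / (4 * Real.log (PP d m) ^ 2 * i) =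
            ep d m ε ^ 2 / (4 * Real.log (PP d m) ^ 2) * i := by field_simp
        rw [e2]
        exact mul_le_mul_of_nonneg_right hc2a hiR.le
      have e2 : ((d : ℝ) ^ i) ^ (-(1 - η)) ≤ Real.exp (-(2 * c₂ * i)) := by
        rw [Real.rpow_def_of_pos (by positivity), Real.log_pow]
        apply Real.exp_le_exp.2
        have := mul_le_mul_of_nonneg_right hc2b hiR.le
        linarith
      have e3 : t i ^ (2 * d + 5) = Real.exp (c₂ / 2 * i) := by
        simp only [ht]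
        rw [← Real.exp_nat_mul]
        congr 1
        rw [hγ]
        push_cast
        field_simp
      have e4 : (1 / t i) ^ (4 * d + 10) = Real.exp (-(c₂ * i)) := by
        simp only [ht]
        rw [one_div, ← Real.exp_neg, ← Real.exp_nat_mul]
        congr 1
        rw [hγ]
        push_cast
        field_simp
        ring
      rw [e4]
      have e5 : q ^ i = Real.exp (-(c₂ * i)) := by
        rw [hq, ← Real.exp_nat_mul]; congr 1; ring
      rw [e5, hM]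
      exact W1 hK hc2 hd0 hiR.le (bb_nonneg _ _) e1 e2 e3
    have h2 : ∑ i ∈ Icc i₁ (I + 1), M * q ^ i ≤ M / (1 - q) * q ^ i₁ := by
      rw [← mul_sum]
      calc M * ∑ i ∈ Icc i₁ (I + 1), q ^ i ≤ M * (q ^ i₁ / (1 - q)) :=
            mul_le_mul_of_nonneg_left (geom_tail hq0 hq1 _ _) hM0.le
        _ = _ := by ring
    have h3 : q ^ i₁ ≤ Real.exp c₂ * y ^ (-c) := by
      rw [Real.rpow_def_of_pos hy0, hq, ← Real.exp_nat_mul, ← Real.exp_add]
      apply Real.exp_le_exp.2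
      have h4 : Real.log y ≤ (i₁ + 1) * Real.log d := by
        have := Real.log_le_log hy0 hi2'.le
        rw [Real.log_pow] at this
        push_cast at this
        exact this
      have h5 : Real.log y * c ≤ (i₁ + 1) * c₂ := by
        rw [hcd, mul_div_assoc', div_le_iff₀ hlogd]
        have := mul_le_mul_of_nonneg_right h4 hc2.le
        linarith
      linarith
    have h4 : 0 ≤ 3 * Y₀ ^ c * X * y ^ (-c) := by positivity
    calc X * _ ≤ X * (M / (1 - q) * q ^ i₁) :=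
          mul_le_mul_of_nonneg_left (hsumm.trans h2) (by linarith)
      _ ≤ X * (M / (1 - q) * (Real.exp c₂ * y ^ (-c))) := by
          apply mul_le_mul_of_nonneg_left _ (by linarith)
          exact mul_le_mul_of_nonneg_left h3 (by positivity)
      _ ≤ X * (M / (1 - q) * (Real.exp c₂ * y ^ (-c))) + 3 * Y₀ ^ c * X * y ^ (-c) := by linarith
      _ = _ := by ring

end Pool.Agent.T2h89.LT
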