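import Pool.Agent.TH930.GH.MollerB

/-! Möller's maps: the number of the words all of whose beginnings have a large multiplier. -/

set_option autoImplicit false

namespace Pool.Agent.T2h89.Mo

open Finset Filter Topology Pool.Agent.H319R3.GC Pool.Agent.TH930.GH

theorem choose_term_ge {n k : ℕ} (hk : k ≤ n) :
    n ^ n ≤ (n + 1) * (n.choose k * (k ^ k * (n - k) ^ (n - k))) := by
  set t : ℕ → ℕ := fun m => k ^ m * (n - k) ^ (n - m) * n.choose m with ht
  have hrec : ∀ m < n, t (m + 1) * ((m + 1) * (n - k)) = t m * (k * (n - m)) := by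
    intro m hm
    have h1 := Nat.choose_succ_right_eq n m
    have h2 : (n - k) ^ (n - m) = (n - k) ^ (n - (m + 1)) * (n - k) := by
      rw [← pow_succ]
      congr 1
      omega
    simp only [ht]
    rw [h2, pow_succ]
    calc k ^ m * k * (n - k) ^ (n - (m + 1)) * n.choose (m + 1) * ((m + 1) * (n - k))
        = k ^ m * k * (n - k) ^ (n - (m + 1)) * (n - k) * (n.choose (m + 1) * (m + 1)) := by ring
      _ = k ^ m * k * (n - k) ^ (n - (m + 1)) * (n - k) * (n.choose m * (n - m)) := by rw [h1]
      _ = _ := by ring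
  have hup : ∀ m, m < k → t m ≤ t (m + 1) := by
    intro m hm
    have h1 := hrec m (by omega)
    have h2 : (m + 1) * (n - k) ≤ k * (n - m) := Nat.mul_le_mul (by omega) (by omega)
    have h3 : 0 < k * (n - m) := Nat.mul_pos (by omega) (by omega)
    have h4 : t m * (k * (n - m)) ≤ t (m + 1) * (k * (n - m)) := by
      rw [← h1]
      exact Nat.mul_le_mul_left _ h2
    exact Nat.le_of_mul_le_mul_right h4 h3
  have hdown : ∀ m, k ≤ m → m < n → t (m + 1) ≤ t m := by
    intro m hm hmn
    have h1 := hrec m hmn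
    have h2 : k * (n - m) ≤ (m + 1) * (n - k) := Nat.mul_le_mul (by omega) (by omega)
    have h3 : 0 < (m + 1) * (n - k) := Nat.mul_pos (by omega) (by omega)
    have h4 : t (m + 1) * ((m + 1) * (n - k)) ≤ t m * ((m + 1) * (n - k)) := by
      rw [h1]
      exact Nat.mul_le_mul_left _ h2
    exact Nat.le_of_mul_le_mul_right h4 h3
  have hle1 : ∀ d, d ≤ k → t (k - d) ≤ t k := by
    intro d
    induction d with
    | zero => intro _; exact le_rfl
    | succ d ih =>
      intro hd
      have h1 := hup (k - (d + 1)) (by omega)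
      have h2 : k - (d + 1) + 1 = k - d := by omega
      rw [h2] at h1
      exact h1.trans (ih (by omega))
  have hle2 : ∀ d, k + d ≤ n → t (k + d) ≤ t k := by
    intro d
    induction d with
    | zero => intro _; exact le_rfl
    | succ d ih =>
      intro hd
      exact (hdown (k + d) (by omega) (by omega)).trans (ih (by omega))
  have hall : ∀ m ∈ range (n + 1), t m ≤ t k := by
    intro m hm
    rw [mem_range] at hm
    rcases le_total m k with h | h
    · have := hle1 (k - m) (by omega)
      rwa [Nat.sub_sub_self h] at this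
    · have := hle2 (m - k) (by omega)
      rwa [Nat.add_sub_cancel' h] at this
  have h1 : n ^ n = (k + (n - k)) ^ n := by
    congr 1
    omega
  rw [h1, add_pow]
  refine (sum_le_card_nsmul _ _ _ hall).trans (le_of_eq ?_)
  rw [card_range, smul_eq_mul]
  simp only [ht]
  ring

/-- `L` times the entropy of `s / L` -/
theorem mul_ent {L s : ℕ} (hL : 0 < L) (hs : s ≤ L) :
    (L : ℝ) * Real.binEntropy ((s : ℝ) / L) = L * Real.log L - s * Real.log s - ((L - s : ℕ) : ℝ) * Real.log ((L - s : ℕ) : ℝ) := by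
  have hLR : (0 : ℝ) < L := by exact_mod_cast hL
  rcases Nat.eq_zero_or_pos s with h0 | h0
  · subst h0; simp
  rcases Nat.lt_or_ge s L with h1 | h1
  · have hsR : (0 : ℝ) < s := by exact_mod_cast h0
    have h2 : (s : ℝ) < L := by exact_mod_cast h1
    rw [Nat.cast_sub hs]
    unfold Real.binEntropy
    have e1 : 1 - (s : ℝ) / L = (L - s) / L := by field_simp
    rw [e1, inv_div, inv_div, Real.log_div hLR.ne' hsR.ne', Real.log_div hLR.ne' (by linarith)]
    field_simp
    ring
  · have : s = L := le_antisymm hs h1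
    subst this
    rw [div_self hLR.ne']
    simp

theorem log_choose {L s : ℕ} (hL : 0 < L) (hs : s ≤ L) :
    (L : ℝ) * Real.binEntropy ((s : ℝ) / L) - Real.log (L + 1) ≤ Real.log (L.choose s : ℝ) := by
  have h := choose_term_ge hs
  have h1 : ((L : ℝ)) ^ L ≤ (L + 1) * (L.choose s * (s ^ s * ((L - s : ℕ) : ℝ) ^ (L - s))) := by
    exact_mod_cast h
  have hLR : (0 : ℝ) < L := by exact_mod_cast hL
  have hC : (0 : ℝ) < (L.choose s : ℝ) := by exact_mod_cast Nat.choose_pos hs
  have hs0 : (0 : ℝ) < (s : ℝ) ^ s := by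
    rcases Nat.eq_zero_or_pos s with h0 | h0
    · subst h0; simp
    · have : (0 : ℝ) < s := by exact_mod_cast h0
      positivity
  have hs1 : (0 : ℝ) < ((L - s : ℕ) : ℝ) ^ (L - s) := by
    rcases Nat.eq_zero_or_pos (L - s) with h0 | h0
    · rw [h0]; simp
    · have : (0 : ℝ) < ((L - s : ℕ) : ℝ) := by exact_mod_cast h0
      positivity
  have h2 := Real.log_le_log (by positivity) h1
  rw [Real.log_mul (by positivity) (by positivity), Real.log_mul hC.ne' (by positivity),
    Real.log_mul hs0.ne' hs1.ne', Real.log_pow, Real.log_pow, Real.log_pow] at h2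
  rw [mul_ent hL hs]
  linarith

/-- words with `s` nonzero letters -/
def Bk (d L s : ℕ) : Finset (List ℕ) := (LW d L).filter (fun w => w.countP (fun a => a ≠ 0) = s)

theorem card_Bk {d : ℕ} (hd : 2 ≤ d) : ∀ L s : ℕ, (Bk d L s).card = L.choose s * (d - 1) ^ s := by
  intro L
  induction L with
  | zero =>
    intro s
    unfold Bk
    rw [card_filter]
    simp only [LW, sum_singleton, List.countP_nil]
    rcases s with _ | s
    · simp
    · simp
  | succ L ih =>
    intro s
    have e : ∀ s, (Bk d L s).card = ∑ w ∈ LW d L, if w.countP (fun a => a ≠ 0) = s then 1 else 0 := by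
      intro s; unfold Bk; rw [card_filter]
    have e' : (Bk d (L + 1) s).card = ∑ w ∈ LW d (L + 1), if w.countP (fun a => a ≠ 0) = s then 1 else 0 := by
      unfold Bk; rw [card_filter]
    rw [e', sum_LW_succ]
    obtain ⟨f, rfl⟩ : ∃ f, d = f + 1 := ⟨d - 1, by omega⟩
    rw [sum_range_succ']
    have h0 : (∑ w ∈ LW (f + 1) L, if List.countP (fun a => decide (a ≠ 0)) (0 :: w) = s then 1 else 0) =
        (Bk (f + 1) L s).card := by
      rw [e]
      apply sum_congr rfl
      intro w _
      simp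
    have h1 : ∀ i ∈ range f, (∑ w ∈ LW (f + 1) L,
        if List.countP (fun a => decide (a ≠ 0)) ((i + 1) :: w) = s then 1 else 0) =
        ∑ w ∈ LW (f + 1) L, if w.countP (fun a => a ≠ 0) + 1 = s then 1 else 0 := by
      intro i _
      apply sum_congr rfl
      intro w _
      simp
    rw [h0, sum_congr rfl h1, sum_const, card_range, smul_eq_mul]
    rcases s with _ | s
    · rw [ih]
      simp
    · have h2 : (∑ w ∈ LW (f + 1) L, if w.countP (fun a => a ≠ 0) + 1 = s + 1 then 1 else 0) =
          (Bk (f + 1) L s).card := by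
        rw [e]
        apply sum_congr rfl
        intro w _
        simp
      rw [h2, ih, ih, Nat.choose_succ_succ, Nat.add_sub_cancel]
      ring

theorem Mw_mq (m : ℕ) (w : List ℕ) : Mw (mq m) w = (m : ℤ) ^ (w.countP (fun a => a ≠ 0)) := by
  induction w with
  | nil => simp [Mw]
  | cons a w ih =>
    rw [Mw_cons, ih, List.countP_cons]
    by_cases h : a = 0
    · simp [mq, h]
    · simp only [mq, h, ne_eq, not_false_eq_true, decide_true, if_true, if_false]
      rw [pow_succ]; ring

theorem one_le_Mw {m : ℕ} (hm : 1 ≤ m) (w : List ℕ) : (1 : ℝ) ≤ (Mw (mq m) w : ℝ) := by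
  rw [Mw_mq]
  push_cast
  exact one_le_pow₀ (by exact_mod_cast hm)

/-- all beginnings have a large multiplier -/
def Hi (d m K : ℕ) (a : ℝ) (w : List ℕ) : Prop :=
  ∀ j, 1 ≤ j → j ≤ K → (d : ℝ) ^ j < a * (Mw (mq m) (w.take j) : ℝ)

open scoped Classical in
/-- words all of whose beginnings have a large multiplier -/
noncomputable def SS (d m K : ℕ) (a : ℝ) : Finset (List ℕ) := (LW d K).filter (Hi d m K a)

theorem mem_SS {d m K : ℕ} {a : ℝ} {w : List ℕ} : w ∈ SS d m K a ↔
    (w.length = K ∧ ∀ i ∈ w, i < d) ∧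
      ∀ j, 1 ≤ j → j ≤ K → (d : ℝ) ^ j < a * (Mw (mq m) (w.take j) : ℝ) := by
  classical
  unfold SS
  rw [mem_filter, mem_LW]
  rfl

theorem block_step {d m : ℕ} (hd : 2 ≤ d) (hm : 1 ≤ m) {a : ℝ} {L s K : ℕ} (ha : (d : ℝ) ^ L < a)
    (hs : (d : ℝ) ^ L ≤ (m : ℝ) ^ s) :
    (Bk d L s).card * (SS d m K a).card ≤ (SS d m (L + K) a).card := by
  classical
  have hdR : (1 : ℝ) ≤ d := by exact_mod_cast (by omega : 1 ≤ d)
  have hL1 : (1 : ℝ) ≤ (d : ℝ) ^ L := one_le_pow₀ hdR
  have ha0 : 0 < a := by linarith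
  rw [← card_product]
  apply card_le_card_of_injOn (fun p => p.1 ++ p.2)
  · intro p hp
    rw [mem_coe, mem_product] at hp
    obtain ⟨h1, h2⟩ := hp
    unfold Bk at h1
    rw [mem_filter, mem_LW] at h1
    rw [mem_SS] at h2
    rw [mem_coe, mem_SS]
    obtain ⟨⟨b1, b2⟩, b3⟩ := h1
    obtain ⟨⟨w1, w2⟩, w3⟩ := h2
    refine ⟨⟨by simp [b1, w1], ?_⟩, ?_⟩
    · intro i hi
      rw [List.mem_append] at hi
      rcases hi with hi | hi
      · exact b2 i hi
      · exact w2 i hi
    · intro j hj1 hj2
      rcases Nat.lt_or_ge L j with h3 | h3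
      · obtain ⟨t, rfl⟩ := Nat.exists_eq_add_of_lt h3
        have h4 : (p.1 ++ p.2).take (L + t + 1) = p.1 ++ p.2.take (t + 1) := by
          rw [List.take_append, b1, List.take_of_length_le (by omega)]
          congr 2
          omega
        rw [h4, Mw_append]
        have h5 := w3 (t + 1) (by omega) (by omega)
        have h6 : (Mw (mq m) p.1 : ℝ) = (m : ℝ) ^ s := by rw [Mw_mq, b3]; push_cast; rfl
        push_cast
        rw [h6]
        have h7 := one_le_Mw hm (p.2.take (t + 1))
        set M : ℝ := (Mw (mq m) (p.2.take (t + 1)) : ℝ) with hM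
        have h8 : (d : ℝ) ^ (L + t + 1) = (d : ℝ) ^ L * (d : ℝ) ^ (t + 1) := by
          rw [← pow_add]; congr 1
        rw [h8]
        calc (d : ℝ) ^ L * (d : ℝ) ^ (t + 1) < (d : ℝ) ^ L * (a * M) :=
              mul_lt_mul_of_pos_left h5 (by linarith)
          _ ≤ (m : ℝ) ^ s * (a * M) := mul_le_mul_of_nonneg_right hs (by positivity)
          _ = _ := by ring
      · have h5 := one_le_Mw hm ((p.1 ++ p.2).take j)
        calc (d : ℝ) ^ j ≤ (d : ℝ) ^ L := pow_le_pow_right₀ hdR h3
          _ < a := ha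
          _ = a * 1 := (mul_one a).symm
          _ ≤ _ := mul_le_mul_of_nonneg_left h5 ha0.le
  · intro p hp q hq hpq
    rw [mem_coe, mem_product] at hp hq
    have h1 := (mem_LW.1 (mem_filter.1 hp.1).1).1
    have h2 := (mem_LW.1 (mem_filter.1 hq.1).1).1
    have h3 := List.append_inj hpq (by rw [h1, h2])
    exact Prod.ext h3.1 h3.2

theorem blocks {d m : ℕ} (hd : 2 ≤ d) (hm : 1 ≤ m) {a : ℝ} {L s : ℕ} (ha : (d : ℝ) ^ L < a)
    (hs : (d : ℝ) ^ L ≤ (m : ℝ) ^ s) (q K : ℕ) :
    (Bk d L s).card ^ q * (SS d m K a).card ≤ (SS d m (q * L + K) a).card := by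
  induction q with
  | zero => simp
  | succ q ih =>
    have h1 := block_step hd hm (K := q * L + K) ha hs
    have h2 : (q + 1) * L + K = L + (q * L + K) := by ring
    rw [h2]
    refine le_trans ?_ h1
    rw [pow_succ']
    calc (Bk d L s).card * (Bk d L s).card ^ q * (SS d m K a).card
        = (Bk d L s).card * ((Bk d L s).card ^ q * (SS d m K a).card) := by ring
      _ ≤ _ := Nat.mul_le_mul_left _ ih

theorem base {d m : ℕ} (hd : 2 ≤ d) (hm : 1 ≤ m) {a : ℝ} {L K : ℕ} (ha : (d : ℝ) ^ L < a) (hK : K ≤ L) :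
    1 ≤ (SS d m K a).card := by
  classical
  have hdR : (1 : ℝ) ≤ d := by exact_mod_cast (by omega : 1 ≤ d)
  have hL1 : (1 : ℝ) ≤ (d : ℝ) ^ L := one_le_pow₀ hdR
  have ha0 : 0 < a := by linarith
  apply card_pos.2
  refine ⟨List.replicate K 0, ?_⟩
  rw [mem_SS]
  refine ⟨⟨by simp, ?_⟩, ?_⟩
  · intro i hi
    rw [List.eq_of_mem_replicate hi]
    omega
  · intro j _ hj
    have h5 := one_le_Mw hm ((List.replicate K 0).take j)
    calc (d : ℝ) ^ j ≤ (d : ℝ) ^ L := pow_le_pow_right₀ hdR (by omega)
      _ < a := ha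
      _ = a * 1 := (mul_one a).symm
      _ ≤ _ := mul_le_mul_of_nonneg_left h5 ha0.le

theorem start {d m : ℕ} (hd : 2 ≤ d) (hm : d < m) {a : ℝ} {c K : ℕ} (ha : a * (d : ℝ) ^ c ≤ (m : ℝ) ^ c) :
    (SS d m K a).card ≤ (SS d m (c + K) 1).card := by
  classical
  have hdR : (1 : ℝ) ≤ d := by exact_mod_cast (by omega : 1 ≤ d)
  have hmR : (d : ℝ) < m := by exact_mod_cast hm
  apply card_le_card_of_injOn (fun w => List.replicate c 1 ++ w)
  · intro w hw
    rw [mem_coe, mem_SS] at hw ⊢
    obtain ⟨⟨w1, w2⟩, w3⟩ := hw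
    refine ⟨⟨by simp [w1], ?_⟩, ?_⟩
    · intro i hi
      rw [List.mem_append] at hi
      rcases hi with hi | hi
      · rw [List.eq_of_mem_replicate hi]; omega
      · exact w2 i hi
    · intro j hj1 hj2
      rcases Nat.lt_or_ge c j with h3 | h3
      · obtain ⟨t, rfl⟩ := Nat.exists_eq_add_of_lt h3
        have h4 : (List.replicate c 1 ++ w).take (c + t + 1) = List.replicate c 1 ++ w.take (t + 1) := by
          rw [List.take_append, List.length_replicate, List.take_of_length_le (by simp; omega)]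
          congr 2
          omega
        rw [h4, Mw_append]
        have h5 := w3 (t + 1) (by omega) (by omega)
        have h6 : (Mw (mq m) (List.replicate c 1) : ℝ) = (m : ℝ) ^ c := by
          rw [Mw_mq, List.countP_replicate]; simp
        push_cast
        rw [h6]
        have h7 := one_le_Mw (by omega : 1 ≤ m) (w.take (t + 1))
        set M : ℝ := (Mw (mq m) (w.take (t + 1)) : ℝ) with hM
        have h8 : (d : ℝ) ^ (c + t + 1) = (d : ℝ) ^ c * (d : ℝ) ^ (t + 1) := by
          rw [← pow_add]; congr 1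
        rw [h8, one_mul]
        have h9 : (0 : ℝ) < (d : ℝ) ^ c := by positivity
        calc (d : ℝ) ^ c * (d : ℝ) ^ (t + 1) < (d : ℝ) ^ c * (a * M) :=
              mul_lt_mul_of_pos_left h5 h9
          _ = (a * (d : ℝ) ^ c) * M := by ring
          _ ≤ (m : ℝ) ^ c * M := mul_le_mul_of_nonneg_right ha (by linarith)
      · have h4 : (List.replicate c 1 ++ w).take j = List.replicate j 1 := by
          rw [List.take_append_of_le_length (by simp; omega), List.take_replicate]
          congr 1
          omega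
        rw [h4, Mw_mq, List.countP_replicate]
        simp only [ne_eq, one_ne_zero, not_false_eq_true, decide_true, if_true, one_mul]
        push_cast
        exact pow_lt_pow_left₀ hmR (by linarith) (by omega)
  · intro w _ w' _ h
    exact List.append_cancel_left h

end Pool.Agent.T2h89.Mo
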