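import Pool.Agent.H319R3.GC.F1
import Pool.Agent.H319R3.GC.F2

/-! Sieve conditions given by sets periodic modulo primes: exact counts along arithmetic progressions
over complete periods, and pair correlations. -/

set_option autoImplicit false

namespace Pool.Agent.T2h89.SV

open Finset
open Pool.Agent.H319R3.GC (sum_affine sum_range_mul)
open Classical

/-- number of the residues removed modulo `p` -/
noncomputable def om (B : ℕ → ℤ → Prop) (p : ℕ) : ℕ :=
  ((range p).filter (fun a : ℕ => B p (a : ℤ))).card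

/-- `B p` is periodic modulo `p` -/
def Per (B : ℕ → ℤ → Prop) (P : Finset ℕ) : Prop := ∀ p ∈ P, ∀ x : ℤ, B p (x + p) ↔ B p x

/-- indicator function of the sifted set -/
noncomputable def rho (B : ℕ → ℤ → Prop) (P : Finset ℕ) (x : ℤ) : ℝ :=
  if ∀ p ∈ P, ¬ B p x then 1 else 0

/-- density of the sifted set -/
noncomputable def lam (B : ℕ → ℤ → Prop) (P : Finset ℕ) : ℝ := ∏ p ∈ P, (1 - (om B p : ℝ) / p)

variable {B : ℕ → ℤ → Prop}

theorem rho_nonneg (P : Finset ℕ) (x : ℤ) : 0 ≤ rho B P x := by unfold rho; split_ifs <;> norm_num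

theorem rho_le_one (P : Finset ℕ) (x : ℤ) : rho B P x ≤ 1 := by unfold rho; split_ifs <;> norm_num

theorem rho_sq (P : Finset ℕ) (x : ℤ) : rho B P x * rho B P x = rho B P x := by
  unfold rho; split_ifs <;> norm_num

theorem om_le (p : ℕ) : om B p ≤ p := by
  unfold om
  exact (card_filter_le _ _).trans (by rw [card_range])

theorem fac_nonneg (p : ℕ) : 0 ≤ 1 - (om B p : ℝ) / p := by
  rcases Nat.eq_zero_or_pos p with rfl | hp
  · simp
  · have h1 : (om B p : ℝ) ≤ p := by exact_mod_cast om_le p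
    have h2 : (0 : ℝ) < p := by exact_mod_cast hp
    have := (div_le_one h2).2 h1
    linarith

theorem fac_le_one (p : ℕ) : 1 - (om B p : ℝ) / p ≤ 1 := by
  have : (0 : ℝ) ≤ (om B p : ℝ) / p := by positivity
  linarith

theorem lam_nonneg (P : Finset ℕ) : 0 ≤ lam B P := prod_nonneg fun p _ => fac_nonneg p

theorem lam_le_one (P : Finset ℕ) : lam B P ≤ 1 :=
  prod_le_one (fun p _ => fac_nonneg p) fun p _ => fac_le_one p

theorem rho_union (P Q : Finset ℕ) (x : ℤ) : rho B (P ∪ Q) x = rho B P x * rho B Q x := by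
  unfold rho
  by_cases h1 : ∀ p ∈ P, ¬ B p x
  · by_cases h2 : ∀ p ∈ Q, ¬ B p x
    · rw [if_pos h1, if_pos h2, if_pos, one_mul]
      intro p hp
      rcases mem_union.1 hp with h | h
      · exact h1 p h
      · exact h2 p h
    · rw [if_neg h2, if_neg, mul_zero]
      intro h
      exact h2 fun p hp => h p (mem_union_right _ hp)
  · rw [if_neg h1, if_neg, zero_mul]
    intro h
    exact h1 fun p hp => h p (mem_union_left _ hp)

theorem lam_union {P Q : Finset ℕ} (h : Disjoint P Q) : lam B (P ∪ Q) = lam B P * lam B Q := by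
  unfold lam; exact prod_union h

theorem Per.mul {P : Finset ℕ} (h : Per B P) {p : ℕ} (hp : p ∈ P) (x : ℤ) (k : ℤ) :
    B p (x + k * p) ↔ B p x := by
  induction k using Int.induction_on with
  | zero => simp
  | succ i ih =>
    rw [show x + ((i : ℤ) + 1) * p = (x + i * p) + p by ring, h p hp, ih]
  | pred i ih =>
    rw [← h p hp (x + (-(i : ℤ) - 1) * p), show x + (-(i : ℤ) - 1) * p + p = x + (-(i : ℤ)) * p by ring, ih]

/-- the sifted set is periodic -/
theorem rho_per {P : Finset ℕ} (h : Per B P) {D : ℕ} (hD : ∀ p ∈ P, p ∣ D) (x : ℤ) :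
    rho B P (x + D) = rho B P x := by
  unfold rho
  have : (∀ p ∈ P, ¬ B p (x + D)) ↔ ∀ p ∈ P, ¬ B p x := by
    refine forall₂_congr fun p hp => ?_
    obtain ⟨k, rfl⟩ := hD p hp
    have := h.mul hp x k
    rw [show x + ((p * k : ℕ) : ℤ) = x + k * p by push_cast; ring, this]
  simp only [this]

theorem rho_dvd {P : Finset ℕ} (h : Per B P) {x y : ℤ} (hD : ∀ p ∈ P, (p : ℤ) ∣ x - y) :
    rho B P x = rho B P y := by
  unfold rho
  have : (∀ p ∈ P, ¬ B p x) ↔ ∀ p ∈ P, ¬ B p y := by
    refine forall₂_congr fun p hp => ?_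
    obtain ⟨k, hk⟩ := hD p hp
    have := h.mul hp y k
    rw [show x = y + k * p by linarith, this]
  simp only [this]

theorem sum_single {q : ℕ} (hq : 0 < q) :
    ∑ a ∈ range q, rho B {q} (a : ℤ) = q * (1 - (om B q : ℝ) / q) := by
  have h1 : ∀ a : ℕ, rho B {q} (a : ℤ) = 1 - (if B q (a : ℤ) then (1 : ℝ) else 0) := by
    intro a
    unfold rho
    by_cases hb : B q (a : ℤ)
    · rw [if_neg (by simpa using hb), if_pos hb]; ring
    · rw [if_pos (by simpa using hb), if_neg hb]; ring
  simp only [h1]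
  rw [sum_sub_distrib, sum_const, card_range, nsmul_eq_mul, mul_one, ← sum_filter, sum_const,
    nsmul_eq_mul, mul_one]
  have hq' : (q : ℝ) ≠ 0 := by exact_mod_cast hq.ne'
  unfold om
  field_simp

/-- complete period -/
theorem crt_sum {P : Finset ℕ} (hP : ∀ p ∈ P, p.Prime) (h : Per B P) :
    ∑ t ∈ range (∏ p ∈ P, p), rho B P (t : ℤ) = (∏ p ∈ P, p : ℕ) * lam B P := by
  induction P using Finset.induction_on with
  | empty => simp [rho, lam]
  | insert q P hq ih =>
    have hP' : ∀ p ∈ P, p.Prime := fun p hp => hP p (mem_insert_of_mem hp)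
    have hPer' : Per B P := fun p hp => h p (mem_insert_of_mem hp)
    have hPer1 : Per B {q} := fun p hp => by
      rw [mem_singleton] at hp; subst hp; exact h _ (mem_insert_self _ _)
    have hqp := hP q (mem_insert_self _ _)
    set D : ℕ := ∏ p ∈ P, p with hD
    have hD0 : 0 < D := prod_pos fun p hp => (hP' p hp).pos
    have hcop : Nat.Coprime D q := by
      apply Nat.Coprime.prod_left
      intro p hp
      exact (Nat.coprime_primes (hP' p hp) hqp).2 (by rintro rfl; exact hq hp)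
    rw [prod_insert hq, mul_comm q, sum_range_mul hD0 (fun c : ℕ => rho B (insert q P) (c : ℤ))]
    have h1 : ∀ c a : ℕ, rho B (insert q P) ((c + D * a : ℕ) : ℤ)
        = rho B P (c : ℤ) * rho B {q} ((D : ℤ) * a + c) := by
      intro c a
      rw [Finset.insert_eq, union_comm, rho_union]
      congr 1
      · apply rho_dvd hPer'
        intro p hp
        push_cast
        rw [add_sub_cancel_left]
        exact Dvd.dvd.mul_right (by exact_mod_cast Finset.dvd_prod_of_mem _ hp) _
      · congr 1; push_cast; ring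
    have h2 : ∀ c : ℕ, ∑ a ∈ range q, rho B {q} ((D : ℤ) * a + c) = q * (1 - (om B q : ℝ) / q) := by
      intro c
      rw [← sum_single hqp.pos]
      refine sum_affine hqp.pos (f := fun x => rho B {q} x) ?_ ?_ c
      · intro x
        exact rho_per hPer1 (by intro p hp; rw [mem_singleton] at hp; rw [hp]) x
      · exact Nat.isCoprime_iff_coprime.2 hcop
    simp only [h1, ← mul_sum, h2]
    rw [← sum_mul, ih hP' hPer']
    unfold lam
    rw [prod_insert hq, Nat.cast_mul]
    ring

/-- sums along a progression over complete periods -/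
theorem crt_aff {P : Finset ℕ} (hP : ∀ p ∈ P, p.Prime) (h : Per B P) {δ : ℤ}
    (hδ : ∀ p ∈ P, IsCoprime δ (p : ℤ)) (a : ℤ) {L : ℕ} (hL : (∏ p ∈ P, p) ∣ L) :
    ∑ t ∈ range L, rho B P (a + δ * t) = L * lam B P := by
  obtain ⟨K, rfl⟩ := hL
  set D : ℕ := ∏ p ∈ P, p with hD
  have hD0 : 0 < D := prod_pos fun p hp => (hP p hp).pos
  have hper : ∀ x : ℤ, rho B P (x + D) = rho B P x :=
    rho_per h fun p hp => Finset.dvd_prod_of_mem _ hp
  rw [sum_range_mul hD0 (fun t : ℕ => rho B P (a + δ * (t : ℤ)))]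
  have h1 : ∀ c j : ℕ, rho B P (a + δ * ((c + D * j : ℕ) : ℤ)) = rho B P (δ * c + a) := by
    intro c j
    apply rho_dvd h
    intro p hp
    have h2 : (p : ℤ) ∣ D := by exact_mod_cast Finset.dvd_prod_of_mem _ hp
    have h3 : a + δ * ((c + D * j : ℕ) : ℤ) - (δ * c + a) = D * (δ * j) := by push_cast; ring
    rw [h3]
    exact Dvd.dvd.mul_right h2 _
  simp only [h1, sum_const, card_range, nsmul_eq_mul]
  rw [← mul_sum, sum_affine hD0 (f := fun x => rho B P x) hper, crt_sum hP h]
  · rw [Nat.cast_mul]; ring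
  · have : (D : ℤ) = ∏ p ∈ P, (p : ℤ) := by rw [hD]; push_cast; rfl
    rw [this]
    exact IsCoprime.prod_right hδ

/-- the condition at `x` or `x + g` -/
def two (B : ℕ → ℤ → Prop) (g : ℤ) : ℕ → ℤ → Prop := fun p x => B p x ∨ B p (x + g)

theorem two_per {P : Finset ℕ} (h : Per B P) (g : ℤ) : Per (two B g) P := by
  intro p hp x
  unfold two
  rw [h p hp x, show x + (p : ℤ) + g = x + g + p by ring, h p hp (x + g)]

theorem rho_two (P : Finset ℕ) (g x : ℤ) : rho (two B g) P x = rho B P x * rho B P (x + g) := by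
  unfold rho two
  by_cases h1 : ∀ p ∈ P, ¬ B p x
  · by_cases h2 : ∀ p ∈ P, ¬ B p (x + g)
    · rw [if_pos h1, if_pos h2, if_pos, one_mul]
      intro p hp; push Not; exact ⟨h1 p hp, h2 p hp⟩
    · rw [if_neg h2, if_neg, mul_zero]
      intro h
      exact h2 fun p hp hb => h p hp (Or.inr hb)
  · rw [if_neg h1, if_neg, zero_mul]
    intro h
    exact h1 fun p hp hb => h p hp (Or.inl hb)

/-- the removed classes of `x` and `x + g` overlap modulo `p` -/
def ovl (B : ℕ → ℤ → Prop) (p : ℕ) (g : ℤ) : Prop := ∃ x : ℤ, B p x ∧ B p (x + g)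

theorem om_two_ge (p : ℕ) (g : ℤ) : om B p ≤ om (two B g) p := by
  unfold om
  apply card_le_card
  intro a ha
  rw [mem_filter] at ha ⊢
  exact ⟨ha.1, Or.inl ha.2⟩

theorem om_shift {p : ℕ} (hp : 0 < p) (h : ∀ x : ℤ, B p (x + p) ↔ B p x) (g : ℤ) :
    ((range p).filter (fun a : ℕ => B p ((a : ℤ) + g))).card = om B p := by
  have h1 := sum_affine (D := p) hp (f := fun x => if B p x then (1 : ℝ) else 0)
    (by intro x; simp only [h x]) (u := 1) isCoprime_one_left g
  simp only [one_mul] at h1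
  rw [← sum_filter, ← sum_filter, sum_const, sum_const, nsmul_eq_mul, nsmul_eq_mul, mul_one, mul_one] at h1
  unfold om
  exact_mod_cast h1

theorem om_two_eq {p : ℕ} (hp : 0 < p) (h : ∀ x : ℤ, B p (x + p) ↔ B p x) {g : ℤ}
    (hg : ¬ ovl B p g) : om (two B g) p = 2 * om B p := by
  have h1 := om_shift hp h g
  unfold ovl at hg
  push Not at hg
  unfold om at h1 ⊢
  rw [two_mul]
  conv_rhs => rw [← h1]
  rw [h1]
  have h2 : (range p).filter (fun a : ℕ => two B g p (a : ℤ)) =
      (range p).filter (fun a : ℕ => B p (a : ℤ)) ∪ (range p).filter (fun a : ℕ => B p ((a : ℤ) + g)) := by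
    ext a
    rw [mem_filter, mem_union, mem_filter, mem_filter]
    constructor
    · rintro ⟨h3, h4 | h4⟩
      · exact Or.inl ⟨h3, h4⟩
      · exact Or.inr ⟨h3, h4⟩
    · rintro (⟨h3, h4⟩ | ⟨h3, h4⟩)
      · exact ⟨h3, Or.inl h4⟩
      · exact ⟨h3, Or.inr h4⟩
  rw [h2, card_union_of_disjoint, h1]
  rw [disjoint_left]
  intro a ha ha'
  rw [mem_filter] at ha ha'
  exact hg _ ha.2 ha'.2

theorem om_two_le {p : ℕ} (hp : 0 < p) (h : ∀ x : ℤ, B p (x + p) ↔ B p x) (g : ℤ) :
    om (two B g) p ≤ 2 * om B p := by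
  have h1 := om_shift hp h g
  have h2 : (range p).filter (fun a : ℕ => two B g p (a : ℤ)) =
      (range p).filter (fun a : ℕ => B p (a : ℤ)) ∪ (range p).filter (fun a : ℕ => B p ((a : ℤ) + g)) := by
    ext a
    rw [mem_filter, mem_union, mem_filter, mem_filter]
    constructor
    · rintro ⟨h3, h4 | h4⟩
      · exact Or.inl ⟨h3, h4⟩
      · exact Or.inr ⟨h3, h4⟩
    · rintro (⟨h3, h4⟩ | ⟨h3, h4⟩)
      · exact ⟨h3, Or.inl h4⟩
      · exact ⟨h3, Or.inr h4⟩
  have h3 := card_union_le ((range p).filter (fun a : ℕ => B p (a : ℤ)))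
    ((range p).filter (fun a : ℕ => B p ((a : ℤ) + g)))
  rw [← h2, h1] at h3
  unfold om at h3 ⊢
  omega

/-- the pair correlation -/
theorem lam_two_le {P : Finset ℕ} (hP : ∀ p ∈ P, p.Prime) (h : Per B P) (g : ℤ) {D z k : ℕ}
    (hD : ∀ p ∈ P, om B p ≤ D) (hz : ∀ p ∈ P, z ≤ p) (hDz : D < z)
    (hk : (P.filter (fun p => ovl B p g)).card ≤ k) :
    lam (two B g) P ≤ lam B P ^ 2 * ((1 - (D : ℝ) / z)⁻¹) ^ k := by
  have hz0 : (0 : ℝ) < z := by
    have : (D : ℝ) < z := by exact_mod_cast hDz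
    have : (0 : ℝ) ≤ D := by positivity
    linarith
  have hDz' : (D : ℝ) / z < 1 := by
    rw [div_lt_one hz0]; exact_mod_cast hDz
  set G : ℝ := (1 - (D : ℝ) / z)⁻¹ with hG
  have hG1 : 1 ≤ G := by
    rw [hG]; apply (one_le_inv₀ (by linarith)).2
    have : (0 : ℝ) ≤ (D : ℝ) / z := by positivity
    linarith
  have hterm : ∀ p ∈ P, 1 - (om (two B g) p : ℝ) / p ≤
      (1 - (om B p : ℝ) / p) ^ 2 * (if ovl B p g then G else 1) := by
    intro p hp
    have hp0 : (0 : ℝ) < p := by exact_mod_cast (hP p hp).pos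
    by_cases ho : ovl B p g
    · rw [if_pos ho]
      have h1 : (om B p : ℝ) ≤ om (two B g) p := by exact_mod_cast om_two_ge p g
      have h2 : (om B p : ℝ) / p ≤ (om (two B g) p : ℝ) / p := by gcongr
      have h3 : (om B p : ℝ) / p ≤ (D : ℝ) / z := by
        have a1 : (om B p : ℝ) ≤ D := by exact_mod_cast hD p hp
        have a2 : (z : ℝ) ≤ p := by exact_mod_cast hz p hp
        calc (om B p : ℝ) / p ≤ D / p := by gcongr
          _ ≤ D / z := by gcongr
      have h4 : 0 < 1 - (om B p : ℝ) / p := by linarith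
      have h5 : 1 ≤ (1 - (om B p : ℝ) / p) * G := by
        rw [hG, ← div_eq_mul_inv, one_le_div (by linarith)]
        linarith
      calc 1 - (om (two B g) p : ℝ) / p ≤ 1 - (om B p : ℝ) / p := by linarith
        _ = (1 - (om B p : ℝ) / p) * 1 := by ring
        _ ≤ (1 - (om B p : ℝ) / p) * ((1 - (om B p : ℝ) / p) * G) := by gcongr
        _ = _ := by ring
    · rw [if_neg ho, mul_one, om_two_eq (hP p hp).pos (h p hp) ho]
      push_cast
      have : 0 ≤ ((om B p : ℝ) / p) ^ 2 := by positivity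
      have e : (1 - (om B p : ℝ) / p) ^ 2 = 1 - 2 * (om B p : ℝ) / p + ((om B p : ℝ) / p) ^ 2 := by
        ring
      rw [e]
      linarith
  calc lam (two B g) P ≤ ∏ p ∈ P, ((1 - (om B p : ℝ) / p) ^ 2 * (if ovl B p g then G else 1)) :=
        prod_le_prod (fun p _ => fac_nonneg p) hterm
    _ = lam B P ^ 2 * G ^ (P.filter (fun p => ovl B p g)).card := by
        rw [prod_mul_distrib, prod_pow]
        congr 1
        rw [prod_ite, prod_const, prod_const_one, mul_one]
    _ ≤ lam B P ^ 2 * G ^ k := by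
        gcongr

end Pool.Agent.T2h89.SV
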