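import Pool.Agent.T2h89.SV7
import Pool.Agent.Erdos456.Mertens

/-! The comparison of the sifted sets with the upper bound sieve: from a small level to a power. -/

set_option autoImplicit false

namespace Pool.Agent.T2h89.SV

open Finset
open Pool.Agent.H319R3.GC
open Classical

variable {d : ℕ} {m r : ℕ → ℤ} {B : ℕ → ℤ → Prop}

theorem fin_calc2 {d D K ℓ z : ℕ} {X V μ E C C2 u AS ext h0 κ1 κ2 c1 : ℝ} (hd2 : 2 ≤ d) (hX : 0 < X)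
    (hV : 0 < V) (hμ : 0 < μ) (hC : 0 < C) (hC2 : 0 < C2) (hE : 0 ≤ E) (hh0 : 0 ≤ h0)
    (hz : 0 < z) (hKpos : 1 ≤ K) (hℓ2 : z < 2 ^ ℓ) (hℓ3 : ℓ ≤ z) (hκ1 : 0 ≤ κ1) (hκ2 : 0 ≤ κ2)
    (hK1 : (d + 2 * D + 1 : ℝ) ≤ κ1 * K) (hK2 : (1 : ℝ) ≤ κ2 * K)
    (hVlow : (1 / (z : ℝ)) ^ (2 * D) ≤ V) (hc1 : 0 < c1) (hμlow : c1 * (1 / (z : ℝ)) ^ (2 * D) ≤ μ)
    (hu : 0 ≤ u) (hAS : AS = u * (X * V)) (hext1 : ext * (z : ℝ) ^ (2 * D + 1) ≤ X) {T : ℝ}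
    (hmain : T ≤ √ ((C * μ ^ 2 * E) * (3 * X) * V) * √ (AS + ext) +
      3 * X * (√ ((h0 * (C * μ)) * V) * (((K * ℓ : ℕ) : ℝ) + 1) ^ d * (d : ℝ) ^ (-κ1 * ((K * ℓ : ℕ) : ℝ))) +
      3 * X * (V * (C2 * μ) * (d : ℝ) ^ (-κ2 * ((K * ℓ : ℕ) : ℝ)))) :
    T ≤ (X * V * μ) * ((√ (3 * C * E) + 3 * √ (h0 * C / c1) * (2 * K) ^ d + 3 * C2) * √ (u + 1 / z)) := by
  have hz0 : (0 : ℝ) < z := by exact_mod_cast hz
  have hz1 : (1 : ℝ) ≤ z := by exact_mod_cast hz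
  have hd0 : (0 : ℝ) < d := by exact_mod_cast (by omega : 0 < d)
  have hXV : 0 < X * V := by positivity
  have hextz : ext ≤ X * V * (1 / z) := by
    have h2 : ext ≤ X / (z : ℝ) ^ (2 * D + 1) := by rw [le_div_iff₀ (by positivity)]; exact hext1
    refine h2.trans ?_
    calc X / (z : ℝ) ^ (2 * D + 1) = X * (1 / (z : ℝ)) ^ (2 * D) * (1 / z) := by
          rw [pow_succ, one_div_pow]; field_simp
      _ ≤ X * V * (1 / z) := by gcongr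
  have hzinv : 1 / (z : ℝ) ≤ 1 := by rw [div_le_one hz0]; exact hz1
  have hzinv0 : 0 < 1 / (z : ℝ) := by positivity
  have hsz : 1 / (z : ℝ) ≤ √ (u + 1 / z) := by
    apply Real.le_sqrt_of_sq_le
    nlinarith
  have hT1 : √ ((C * μ ^ 2 * E) * (3 * X) * V) * √ (AS + ext) ≤
      (X * V * μ) * (√ (3 * C * E) * √ (u + 1 / z)) := by
    have h1 : AS + ext ≤ (X * V) * (u + 1 / z) := by rw [hAS]; linarith
    calc √ ((C * μ ^ 2 * E) * (3 * X) * V) * √ (AS + ext)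
        ≤ √ ((C * μ ^ 2 * E) * (3 * X) * V) * √ ((X * V) * (u + 1 / z)) := by
          apply mul_le_mul_of_nonneg_left (Real.sqrt_le_sqrt h1) (Real.sqrt_nonneg _)
      _ = √ ((X * V * μ) ^ 2 * ((3 * C * E) * (u + 1 / z))) := by
          rw [← Real.sqrt_mul (by positivity)]
          congr 1; ring
      _ = _ := by
          rw [Real.sqrt_mul (by positivity), Real.sqrt_sq (by positivity), Real.sqrt_mul (by positivity)]
  have hpow : ∀ x y : ℝ, x ≤ y * K → 0 ≤ y → (d : ℝ) ^ (-y * ((K * ℓ : ℕ) : ℝ)) ≤ (z : ℝ) ^ (-x) := by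
    intro x y hxy hy
    have hd2r : (2 : ℝ) ≤ d := by exact_mod_cast hd2
    calc (d : ℝ) ^ (-y * ((K * ℓ : ℕ) : ℝ)) ≤ (2 : ℝ) ^ (-y * ((K * ℓ : ℕ) : ℝ)) := by
          apply Real.rpow_le_rpow_of_nonpos (by norm_num) hd2r
          have : 0 ≤ y * ((K * ℓ : ℕ) : ℝ) := by positivity
          linarith
      _ = ((2 : ℝ) ^ ℓ) ^ (-(y * K)) := by
          rw [← Real.rpow_natCast 2 ℓ, ← Real.rpow_mul (by norm_num)]
          congr 1; push_cast; ring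
      _ ≤ (z : ℝ) ^ (-(y * K)) := by
          apply Real.rpow_le_rpow_of_nonpos hz0
          · exact_mod_cast hℓ2.le
          · have : 0 ≤ y * (K : ℝ) := by positivity
            linarith
      _ ≤ (z : ℝ) ^ (-x) := by
          apply Real.rpow_le_rpow_of_exponent_le hz1
          linarith
  have hT2 : 3 * X * (√ ((h0 * (C * μ)) * V) * (((K * ℓ : ℕ) : ℝ) + 1) ^ d *
      (d : ℝ) ^ (-κ1 * ((K * ℓ : ℕ) : ℝ))) ≤
      (X * V * μ) * (3 * √ (h0 * C / c1) * (2 * K) ^ d * √ (u + 1 / z)) := by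
    have h1 : (d : ℝ) ^ (-κ1 * ((K * ℓ : ℕ) : ℝ)) ≤ (z : ℝ) ^ (-(d + 2 * D + 1 : ℝ)) := hpow _ _ hK1 hκ1
    have h2 : (((K * ℓ : ℕ) : ℝ) + 1) ^ d ≤ (2 * K) ^ d * (z : ℝ) ^ d := by
      rw [← mul_pow]
      apply pow_le_pow_left₀ (by positivity)
      have h3 : K * ℓ + 1 ≤ 2 * K * z := by
        have h4 : K * ℓ ≤ K * z := Nat.mul_le_mul_left _ hℓ3
        have h5 : 1 ≤ K * z := Nat.mul_pos hKpos (by omega)
        nlinarith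
      exact_mod_cast h3
    have h3 : √ ((h0 * (C * μ)) * V) ≤ √ (h0 * C / c1) * ((V * μ) * (z : ℝ) ^ (2 * D)) := by
      have h4 : (h0 * (C * μ)) * V = (h0 * C / c1) * (c1 * (V * μ)) := by field_simp
      rw [h4, Real.sqrt_mul (by positivity)]
      apply mul_le_mul_of_nonneg_left _ (Real.sqrt_nonneg _)
      rw [Real.sqrt_le_left (by positivity)]
      have h5 : c1 ≤ (V * μ) * ((z : ℝ) ^ (2 * D)) ^ 2 := by
        have h6 : (1 / (z : ℝ)) ^ (2 * D) * (z : ℝ) ^ (2 * D) = 1 := by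
          rw [one_div_pow]; field_simp
        calc c1 = ((1 / (z : ℝ)) ^ (2 * D) * (z : ℝ) ^ (2 * D)) *
              (c1 * ((1 / (z : ℝ)) ^ (2 * D) * (z : ℝ) ^ (2 * D))) := by rw [h6]; ring
          _ = ((1 / (z : ℝ)) ^ (2 * D) * (c1 * (1 / (z : ℝ)) ^ (2 * D))) * ((z : ℝ) ^ (2 * D)) ^ 2 := by ring
          _ ≤ (V * μ) * ((z : ℝ) ^ (2 * D)) ^ 2 := by gcongr
      calc c1 * (V * μ) ≤ ((V * μ) * ((z : ℝ) ^ (2 * D)) ^ 2) * (V * μ) := by gcongr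
        _ = _ := by ring
    have h4 : (z : ℝ) ^ (-(d + 2 * D + 1 : ℝ)) * ((z : ℝ) ^ d * (z : ℝ) ^ (2 * D)) = 1 / z := by
      rw [← Real.rpow_natCast (z : ℝ) d, ← Real.rpow_natCast (z : ℝ) (2 * D), ← Real.rpow_add hz0,
        ← Real.rpow_add hz0]
      push_cast
      rw [show -(d + 2 * D + 1 : ℝ) + (d + 2 * D) = -1 by ring, Real.rpow_neg_one, one_div]
    calc 3 * X * (√ ((h0 * (C * μ)) * V) * (((K * ℓ : ℕ) : ℝ) + 1) ^ d *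
          (d : ℝ) ^ (-κ1 * ((K * ℓ : ℕ) : ℝ)))
        ≤ 3 * X * ((√ (h0 * C / c1) * ((V * μ) * (z : ℝ) ^ (2 * D))) * ((2 * K) ^ d * (z : ℝ) ^ d) *
          (z : ℝ) ^ (-(d + 2 * D + 1 : ℝ))) := by gcongr
      _ = (X * V * μ) * (3 * √ (h0 * C / c1) * (2 * K) ^ d *
          ((z : ℝ) ^ (-(d + 2 * D + 1 : ℝ)) * ((z : ℝ) ^ d * (z : ℝ) ^ (2 * D)))) := by ring
      _ = (X * V * μ) * (3 * √ (h0 * C / c1) * (2 * K) ^ d * (1 / z)) := by rw [h4]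
      _ ≤ (X * V * μ) * (3 * √ (h0 * C / c1) * (2 * K) ^ d * √ (u + 1 / z)) := by gcongr
  have hT3 : 3 * X * (V * (C2 * μ) * (d : ℝ) ^ (-κ2 * ((K * ℓ : ℕ) : ℝ))) ≤
      (X * V * μ) * (3 * C2 * √ (u + 1 / z)) := by
    have h1 : (d : ℝ) ^ (-κ2 * ((K * ℓ : ℕ) : ℝ)) ≤ (z : ℝ) ^ (-(1 : ℝ)) := hpow _ _ hK2 hκ2
    rw [Real.rpow_neg_one, ← one_div] at h1
    calc 3 * X * (V * (C2 * μ) * (d : ℝ) ^ (-κ2 * ((K * ℓ : ℕ) : ℝ)))
        ≤ 3 * X * (V * (C2 * μ) * √ (u + 1 / z)) := by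
          have := h1.trans hsz
          gcongr
      _ = _ := by ring
  have e1 : (X * V * μ) * ((√ (3 * C * E) + 3 * √ (h0 * C / c1) * (2 * K) ^ d + 3 * C2) * √ (u + 1 / z)) =
      (X * V * μ) * (√ (3 * C * E) * √ (u + 1 / z)) +
      (X * V * μ) * (3 * √ (h0 * C / c1) * (2 * K) ^ d * √ (u + 1 / z)) +
      (X * V * μ) * (3 * C2 * √ (u + 1 / z)) := by ring
  rw [e1]
  linarith

/-- lower bound for the sieve density over the primes up to `Q` -/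
theorem mu_low : ∃ CM : ℝ, 0 ≤ CM ∧ ∀ (B : ℕ → ℤ → Prop) (P : Finset ℕ) (D Q : ℕ), 3 ≤ Q →
    (∀ p ∈ P, p.Prime) → (∀ p ∈ P, p ≤ Q) → (∀ p ∈ P, om B p ≤ D) →
    ∑ p ∈ P, (om B p : ℝ) / p ≤ D * (Real.log (Real.log Q) + CM) := by
  obtain ⟨C, hC⟩ := Pool.Agent.Erdos456.Mert.mertens_inv
  have hC0 : 0 ≤ C := (abs_nonneg _).trans (hC 3 le_rfl)
  refine ⟨C, hC0, fun B P D Q hQ hP hPQ hD => ?_⟩
  have h1 := (abs_le.1 (hC Q hQ)).2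
  have h2 : ∑ p ∈ P, (1 : ℝ) / p ≤ ∑ p ∈ (Icc 1 Q).filter Nat.Prime, (1 : ℝ) / p := by
    apply sum_le_sum_of_subset_of_nonneg
    · intro p hp
      rw [mem_filter, mem_Icc]
      exact ⟨⟨(hP p hp).one_le, hPQ p hp⟩, hP p hp⟩
    · intro p _ _; positivity
  calc ∑ p ∈ P, (om B p : ℝ) / p ≤ ∑ p ∈ P, D * ((1 : ℝ) / p) := by
        apply sum_le_sum
        intro p hp
        have : (om B p : ℝ) ≤ D := by exact_mod_cast hD p hp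
        rw [mul_one_div]
        gcongr
    _ = D * ∑ p ∈ P, (1 : ℝ) / p := by rw [mul_sum]
    _ ≤ _ := by
        apply mul_le_mul_of_nonneg_left _ (by positivity)
        linarith

theorem one_step (h : Adm d m r) {s η : ℝ} (hs : 0 < s) (hη1 : η < 1)
    (hsum : ∑ j ∈ range d, (|(m j : ℝ)| / d) ^ s ≤ (d : ℝ) ^ η) {D zs : ℕ} {H0 : Finset ℤ} {CE : ℝ}
    (dat : Dat d B D zs H0 CE) {b R : ℕ} (hb : ∀ i < d, |m i| ≤ b) (hdb : d ≤ b)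
    (hR : ∀ i < d, |r i| ≤ R) {A : ℝ} (hA : 0 < A) :
    ∃ C : ℝ, 0 < C ∧ ∃ K' z3 : ℕ, zs ≤ z3 ∧ ∀ P : Finset ℕ, (∀ p ∈ P, p.Prime) →
      ∀ (X z1 Q Y0 : ℕ) (S : Set ℤ), z3 ≤ z1 → 3 ≤ Q → Real.log Q ≤ A * z1 →
      (Y0 + 4 ^ z1) * (2 * z1) ^ K' * Q ^ 2 ≤ X → Stab d m r R Y0 S →
      ∑ n ∈ Icc (-(X : ℤ)) X, ind S n * (rho B (P.filter (fun p => zs ≤ p ∧ p < z1)) n *
        rho B (P.filter (fun p => z1 ≤ p ∧ p ≤ Q)) n) ≤
        (X * lam B (P.filter (fun p => zs ≤ p ∧ p < z1)) *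
          Real.exp (- ∑ p ∈ P.filter (fun p => z1 ≤ p ∧ p ≤ Q), (om B p : ℝ) / p)) *
          (C * √ (uu B S (P.filter (fun p => zs ≤ p ∧ p < z1)) X + 1 / z1)) := by
  have hd2 := h.two_le
  have hd0 : (0 : ℝ) < d := by exact_mod_cast (by omega : 0 < d)
  have hb1 : 1 ≤ b := by omega
  obtain ⟨κ, hκ⟩ : ∃ κ : ℝ, κ = (1 - η) / (4 * s) := ⟨_, rfl⟩
  have hκ0 : 0 < κ := by rw [hκ]; apply div_pos <;> linarith
  obtain ⟨κ', hκ'⟩ : ∃ κ' : ℝ, κ' = (1 - η) / 2 := ⟨_, rfl⟩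
  have hη2 : 0 < κ' := by rw [hκ']; linarith
  obtain ⟨K, hK1, hK2⟩ : ∃ K : ℕ, (d + 2 * D + 1 : ℝ) ≤ κ * K ∧ (1 : ℝ) ≤ κ' * K := by
    refine ⟨max ⌈(d + 2 * D + 1 : ℝ) / κ⌉₊ ⌈1 / κ'⌉₊, ?_, ?_⟩
    · have h1 := Nat.le_ceil ((d + 2 * D + 1 : ℝ) / κ)
      have h2 : ((⌈(d + 2 * D + 1 : ℝ) / κ⌉₊ : ℕ) : ℝ) ≤ (max ⌈(d + 2 * D + 1 : ℝ) / κ⌉₊ ⌈1 / κ'⌉₊ : ℕ) := by
        exact_mod_cast le_max_left _ _
      calc (d + 2 * D + 1 : ℝ) = κ * ((d + 2 * D + 1 : ℝ) / κ) := by field_simp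
        _ ≤ _ := mul_le_mul_of_nonneg_left (h1.trans h2) hκ0.le
    · have h1 := Nat.le_ceil (1 / κ')
      have h2 : ((⌈1 / κ'⌉₊ : ℕ) : ℝ) ≤ (max ⌈(d + 2 * D + 1 : ℝ) / κ⌉₊ ⌈1 / κ'⌉₊ : ℕ) := by
        exact_mod_cast le_max_right _ _
      calc (1 : ℝ) = κ' * (1 / κ') := (mul_one_div_cancel hη2.ne').symm
        _ ≤ _ := mul_le_mul_of_nonneg_left (h1.trans h2) hη2.le
  have hKpos : 1 ≤ K := by
    by_contra hcon
    have : K = 0 := by omega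
    rw [this] at hK2; norm_num at hK2
  obtain ⟨c, hc⟩ : ∃ c : ℕ, c = 2 * b := ⟨_, rfl⟩
  have hbc : 2 * b ≤ 2 ^ c := by rw [hc]; exact (Nat.lt_two_pow_self).le
  obtain ⟨K1, hK1d⟩ : ∃ K1 : ℝ, K1 = CE * (1 + Real.log (1 + 2 * R)) / Real.log 2 + CE * (2 * (c * K) : ℕ) :=
    ⟨_, rfl⟩
  obtain ⟨k, hk⟩ : ∃ k : ℕ, k = ⌊K1⌋₊ := ⟨_, rfl⟩
  obtain ⟨C1, hC1, hcs⟩ := cell_sieve D
  obtain ⟨C2, hC2, hsu⟩ := sieve_up D
  obtain ⟨CM, hCM, hmu⟩ := mu_low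
  obtain ⟨c1, hc1d⟩ : ∃ c1 : ℝ, c1 = (1 / A) ^ D * Real.exp (-(D * CM)) := ⟨_, rfl⟩
  have hc1 : 0 < c1 := by rw [hc1d]; positivity
  refine ⟨√ (3 * C1 * Real.exp (k * D)) + 3 * √ ((H0.card : ℝ) * C1 / c1) * (2 * K) ^ d + 3 * C2,
    by positivity, c * K + 2 * D + 1 + (6 * R + 9), max zs 4, le_max_left _ _, ?_⟩
  intro P hP X z1 Q Y0 S hz1 hQ3 hQA hX hS
  have hzs : zs ≤ z1 := (le_max_left _ _).trans hz1
  have hz4 : 4 ≤ z1 := (le_max_right _ _).trans hz1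
  have hz0 : (0 : ℝ) < z1 := by exact_mod_cast (by omega : 0 < z1)
  obtain ⟨Pz, hPz⟩ : ∃ Pz : Finset ℕ, Pz = P.filter (fun p => zs ≤ p ∧ p < z1) := ⟨_, rfl⟩
  obtain ⟨Qz, hQz⟩ : ∃ Qz : Finset ℕ, Qz = P.filter (fun p => z1 ≤ p ∧ p ≤ Q) := ⟨_, rfl⟩
  rw [← hPz, ← hQz]
  have hdis : Disjoint Pz Qz := by
    rw [disjoint_left]
    intro p h1 h2
    rw [hPz, mem_filter] at h1
    rw [hQz, mem_filter] at h2
    omega
  have hPz' : ∀ p ∈ Pz, p.Prime ∧ zs ≤ p ∧ p < z1 := fun p hp => by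
    rw [hPz, mem_filter] at hp; exact ⟨hP p hp.1, hp.2⟩
  have hQz' : ∀ p ∈ Qz, p.Prime ∧ z1 ≤ p ∧ p ≤ Q := fun p hp => by
    rw [hQz, mem_filter] at hp; exact ⟨hP p hp.1, hp.2⟩
  have hperP : Per B Pz := fun p hp => dat.per p (hPz' p hp).1 (hPz' p hp).2.1
  have hperQ : Per B Qz := fun p hp => dat.per p (hQz' p hp).1 (hzs.trans (hQz' p hp).2.1)
  obtain ⟨e, he⟩ : ∃ e : ℕ, e = ∏ p ∈ Pz, p := ⟨_, rfl⟩
  have he0 : 0 < e := he ▸ prod_pos fun p hp => (hPz' p hp).1.pos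
  have he4 : e ≤ 4 ^ z1 := by
    rw [he]
    exact prod_le_four_pow (fun p hp => (hPz' p hp).1) (fun p hp => (hPz' p hp).2.2)
  -- the number of steps
  obtain ⟨ℓ, hℓ⟩ : ∃ ℓ : ℕ, ℓ = Nat.log 2 z1 + 1 := ⟨_, rfl⟩
  have hℓ1 : 2 ^ ℓ ≤ 2 * z1 := by
    rw [hℓ, pow_succ]
    have := Nat.pow_log_le_self 2 (show z1 ≠ 0 by omega)
    omega
  have hℓ2 : z1 < 2 ^ ℓ := by rw [hℓ]; exact Nat.lt_pow_succ_log_self (by norm_num) z1
  have hℓ3 : ℓ ≤ z1 := by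
    have := Nat.log_lt_self 2 (show z1 ≠ 0 by omega)
    omega
  obtain ⟨N, hN⟩ : ∃ N : ℕ, N = K * ℓ := ⟨_, rfl⟩
  obtain ⟨W, hW⟩ : ∃ W : ℕ, W = (2 * b) ^ N := ⟨_, rfl⟩
  have hW1 : 1 ≤ W := by rw [hW]; exact Nat.one_le_pow _ _ (by omega)
  have hWz : W ≤ (2 * z1) ^ (c * K) := by
    calc W = (2 * b) ^ (K * ℓ) := by rw [hW, hN]
      _ ≤ (2 ^ c) ^ (K * ℓ) := Nat.pow_le_pow_left hbc _
      _ = (2 ^ ℓ) ^ (c * K) := by rw [← pow_mul, ← pow_mul]; congr 1; ring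
      _ ≤ (2 * z1) ^ (c * K) := Nat.pow_le_pow_left hℓ1 _
  have hUW : d ^ N ≤ W := by rw [hW]; exact Nat.pow_le_pow_left (by omega) _
  have hU0 : 0 < d ^ N := pow_pos (by omega) N
  obtain ⟨Hn, hHnd⟩ : ∃ Hn : ℕ, Hn = R * W := ⟨_, rfl⟩
  have hHn : ∀ w ∈ LW d N, |Ww d m r w| ≤ Hn := fun w hw => by
    rw [hHnd, hW]; exact Hn_bound hb hdb hb1 hR N w hw
  obtain ⟨L, hj1, hj2⟩ := exists_L (2 * (X + Hn) + 3 * d ^ N) (e * d ^ N) (Nat.mul_pos he0 hU0)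
  have hLe : e * L * d ^ N = e * d ^ N * L := by ring
  -- the error terms
  obtain ⟨X0, hX0⟩ : ∃ X0 : ℕ, X0 = d ^ N * (Y0 + R) := ⟨_, rfl⟩
  obtain ⟨Bd, hBd⟩ : ∃ Bd : ℕ, Bd = 2 * Hn + 3 * d ^ N + 1 * e * d ^ N := ⟨_, rfl⟩
  have hedW : e * d ^ N ≤ 4 ^ z1 * W := Nat.mul_le_mul he4 hUW
  have hBd1 : Bd ≤ W * (2 * R + 3 + 4 ^ z1) := by
    rw [hBd, hHnd, one_mul]
    nlinarith
  have hX' : (Y0 + 4 ^ z1) * (2 * z1) ^ (c * K + 2 * D + 1 + (6 * R + 9)) ≤ X := by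
    refine le_trans ?_ hX
    exact Nat.le_mul_of_pos_right _ (by positivity)
  have hextN : (2 * X0 + 1) + 2 * Bd ≤ (6 * R + 9) * ((Y0 + 4 ^ z1) * W) := by
    have h1 : X0 ≤ W * (Y0 + R) := by rw [hX0]; exact Nat.mul_le_mul_right _ hUW
    have h2 : 1 ≤ 4 ^ z1 := Nat.one_le_pow _ _ (by norm_num)
    have h3 : (2 * X0 + 1) + 2 * Bd ≤ W * (2 * Y0 + 6 * R + 7 + 2 * 4 ^ z1) := by nlinarith
    have h4 : 2 * Y0 + 6 * R + 7 + 2 * 4 ^ z1 ≤ (6 * R + 9) * (Y0 + 4 ^ z1) := by nlinarith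
    calc _ ≤ _ := h3
      _ ≤ W * ((6 * R + 9) * (Y0 + 4 ^ z1)) := Nat.mul_le_mul_left _ h4
      _ = _ := by ring
  have hextX : ((2 * X0 + 1) + 2 * Bd) * z1 ^ (2 * D + 1) ≤ X := by
    calc ((2 * X0 + 1) + 2 * Bd) * z1 ^ (2 * D + 1)
        ≤ ((6 * R + 9) * ((Y0 + 4 ^ z1) * W)) * (2 * z1) ^ (2 * D + 1) := by
          apply Nat.mul_le_mul hextN
          exact Nat.pow_le_pow_left (by omega) _
      _ ≤ ((2 * z1) ^ (6 * R + 9) * ((Y0 + 4 ^ z1) * (2 * z1) ^ (c * K))) * (2 * z1) ^ (2 * D + 1) := by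
          apply Nat.mul_le_mul_right
          apply Nat.mul_le_mul
          · calc 6 * R + 9 ≤ 2 ^ (6 * R + 9) := (Nat.lt_two_pow_self).le
              _ ≤ (2 * z1) ^ (6 * R + 9) := Nat.pow_le_pow_left (by omega) _
          · exact Nat.mul_le_mul_left _ hWz
      _ = (Y0 + 4 ^ z1) * (2 * z1) ^ (c * K + 2 * D + 1 + (6 * R + 9)) := by ring
      _ ≤ X := hX'
  have hz'1 : 1 ≤ z1 ^ (2 * D + 1) := Nat.one_le_pow _ _ (by omega)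
  have hBdX : Bd ≤ X := by nlinarith
  have hX1 : 1 ≤ X := by nlinarith
  have hX0r : (0 : ℝ) < X := by exact_mod_cast hX1
  have hQL : Q ^ 2 ≤ L := by
    have h1 : e * d ^ N * Q ^ 2 ≤ X := by
      calc e * d ^ N * Q ^ 2 ≤ (4 ^ z1 * (2 * z1) ^ (c * K)) * Q ^ 2 :=
            Nat.mul_le_mul_right _ (hedW.trans (Nat.mul_le_mul_left _ hWz))
        _ ≤ ((Y0 + 4 ^ z1) * (2 * z1) ^ (c * K + 2 * D + 1 + (6 * R + 9))) * Q ^ 2 := by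
            apply Nat.mul_le_mul_right
            apply Nat.mul_le_mul (by omega)
            exact Nat.pow_le_pow_right (by omega) (by omega)
        _ ≤ X := hX
    have h2 : e * d ^ N * Q ^ 2 ≤ e * d ^ N * L := by omega
    exact Nat.le_of_mul_le_mul_left h2 (Nat.mul_pos he0 hU0)
  -- densities
  obtain ⟨V, hV⟩ : ∃ V : ℝ, V = lam B Pz := ⟨_, rfl⟩
  obtain ⟨μ, hμ⟩ : ∃ μ : ℝ, μ = Real.exp (- ∑ p ∈ Qz, (om B p : ℝ) / p) := ⟨_, rfl⟩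
  have hμ0 : 0 < μ := by rw [hμ]; exact Real.exp_pos _
  have hVpos : 0 < V := hV ▸ prod_pos fun p hp => by
    have h1 := dat.om_le p (hPz' p hp).1 (hPz' p hp).2.1
    have h2 := (hPz' p hp).2.1
    have h3 := dat.zs_gt
    have h4 : (om B p : ℝ) < p := by exact_mod_cast (by omega : om B p < p)
    have h5 : (0 : ℝ) < p := by exact_mod_cast (hPz' p hp).1.pos
    have := (div_lt_one h5).2 h4
    linarith
  have hVl : (1 / (z1 : ℝ)) ^ (2 * D) ≤ V := by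
    rw [hV]
    exact lam_low (a := zs) (by have := dat.zs_gt; omega) dat.zs_two hzs (fun p hp => (hPz' p hp).2)
      (fun p hp => dat.om_le p (hPz' p hp).1 (hPz' p hp).2.1)
  have hμl : c1 * (1 / (z1 : ℝ)) ^ (2 * D) ≤ μ := by
    have h1 := hmu B Qz D Q hQ3 (fun p hp => (hQz' p hp).1) (fun p hp => (hQz' p hp).2.2)
      (fun p hp => dat.om_le p (hQz' p hp).1 (hzs.trans (hQz' p hp).2.1))
    have hlQ : 1 ≤ Real.log Q := by
      have h2 : Real.exp 1 ≤ Q := by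
        have := Real.exp_one_lt_d9
        have : (3 : ℝ) ≤ Q := by exact_mod_cast hQ3
        linarith
      rwa [Real.le_log_iff_exp_le (by positivity)]
    have h2 : Real.exp (-(D * (Real.log (Real.log Q) + CM))) ≤ μ := by
      rw [hμ]; apply Real.exp_le_exp.2; linarith
    refine le_trans ?_ h2
    have h3 : Real.exp (-(D * (Real.log (Real.log Q) + CM))) = (1 / Real.log Q) ^ D * Real.exp (-(D * CM)) := by
      rw [mul_add, neg_add, Real.exp_add]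
      congr 1
      rw [Real.exp_neg, Real.exp_nat_mul, Real.exp_log (by linarith), one_div_pow, one_div]
    rw [h3, hc1d]
    have h4 : (1 / A) ^ D * (1 / (z1 : ℝ)) ^ (2 * D) ≤ (1 / Real.log Q) ^ D := by
      have h5 : (1 / (z1 : ℝ)) ^ (2 * D) ≤ (1 / (z1 : ℝ)) ^ D := by
        apply pow_le_pow_of_le_one (by positivity)
        · rw [div_le_one hz0]; exact_mod_cast (by omega : 1 ≤ z1)
        · omega
      calc (1 / A) ^ D * (1 / (z1 : ℝ)) ^ (2 * D) ≤ (1 / A) ^ D * (1 / (z1 : ℝ)) ^ D := by gcongr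
        _ = (1 / (A * z1)) ^ D := by rw [← mul_pow, one_div_mul_one_div]
        _ ≤ (1 / Real.log Q) ^ D := by
            apply pow_le_pow_left₀ (by positivity)
            apply one_div_le_one_div_of_le (by linarith) hQA
    have h5 : 0 < Real.exp (-(D * CM)) := Real.exp_pos _
    nlinarith
  have hVn : V ≠ 0 := hVpos.ne'
  -- the sums
  obtain ⟨AS, hAS⟩ : ∃ AS : ℝ, AS = ∑ n ∈ Icc (-(X : ℤ)) X, ind S n * rho B Pz n := ⟨_, rfl⟩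
  obtain ⟨ext, hext⟩ : ∃ ext : ℝ, ext = ((2 * X0 + 1 : ℕ) : ℝ) +
    2 * ((2 * Hn + 3 * d ^ N + 1 * e * d ^ N : ℕ) : ℝ) := ⟨_, rfl⟩
  obtain ⟨u, hu⟩ : ∃ u : ℝ, u = uu B S Pz X := ⟨_, rfl⟩
  have hAS0 : 0 ≤ AS := by
    rw [hAS]; exact sum_nonneg fun n _ => mul_nonneg (ind_nonneg _ _) (rho_nonneg _ _)
  have hu0 : 0 ≤ u := by
    rw [hu]; unfold uu; rw [← hAS, ← hV]; positivity
  have hASu : AS = u * (X * V) := by
    rw [hu]; unfold uu; rw [← hAS, ← hV]; field_simp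
  have hcop : ∀ σ : ℤ, (σ = 1 ∨ σ = -1) → ∀ p ∈ Qz, IsCoprime (σ * (d : ℤ) ^ N * e) (p : ℤ) := by
    intro σ hσ p hp
    have h1 : IsCoprime ((d : ℤ) ^ N) (p : ℤ) :=
      (dat.cop p (hQz' p hp).1 (hzs.trans (hQz' p hp).2.1)).pow_left
    have h2 : IsCoprime (e : ℤ) (p : ℤ) := by
      rw [Nat.isCoprime_iff_coprime, he]
      apply Nat.Coprime.prod_left
      intro q hq
      apply (Nat.coprime_primes (hPz' q hq).1 (hQz' p hp).1).2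
      rintro rfl
      exact (disjoint_left.1 hdis) hq hp
    have h3 : IsCoprime σ (p : ℤ) := by
      rcases hσ with rfl | rfl
      · exact isCoprime_one_left
      · exact isCoprime_one_left.neg_left
    exact (h3.mul_left h1).mul_left h2
  have hcell : ∀ A : Finset ℤ, (∀ a ∈ A, ∀ b ∈ A, |((b - a : ℤ) : ℝ)| ≤ 2 * (Hn : ℝ)) →
      ∀ σ : ℤ, (σ = 1 ∨ σ = -1) →
      ∑ t ∈ range L, (∑ a ∈ A, (rho B Qz (a + (σ * (d : ℤ) ^ N * e) * t) - 0)) ^ 2 ≤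
        L * ((C1 * μ ^ 2 * Real.exp (k * D)) * (A.card : ℝ) ^ 2 + (H0.card * (C1 * μ)) * A.card) := by
    intro A hA σ hσ
    simp only [sub_zero]
    have h1 := hcs B Qz Q L k z1 (σ * (d : ℤ) ^ N * e) A H0 (by omega) hQL (fun p hp => (hQz' p hp).1)
      (fun p hp => (hQz' p hp).2.2) hperQ
      (fun p hp => dat.om_le p (hQz' p hp).1 (hzs.trans (hQz' p hp).2.1)) (hcop σ hσ) (by omega)
      (fun p hp => (hQz' p hp).2.1) ?_
    · rw [← hμ] at h1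
      refine h1.trans ?_
      have h2 : Real.exp (k * D / z1) ≤ Real.exp (k * D) := by
        apply Real.exp_le_exp.2
        apply div_le_self (by positivity)
        exact_mod_cast (by omega : 1 ≤ z1)
      gcongr
    · intro a ha b' hb' hab
      have h2 : |((b' - a : ℤ) : ℝ)| ≤ 2 * Hn := hA a ha b' hb'
      have h5 : (W : ℝ) ≤ (z1 : ℝ) ^ (2 * (c * K)) := by
        have h7 : W ≤ z1 ^ (2 * (c * K)) := by
          rw [pow_mul]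
          refine hWz.trans (Nat.pow_le_pow_left ?_ _)
          nlinarith
        exact_mod_cast h7
      have h8 : (1 : ℝ) ≤ (z1 : ℝ) ^ (2 * (c * K)) := le_trans (by exact_mod_cast hW1) h5
      have h9 : (Hn : ℝ) = R * W := by rw [hHnd]; push_cast; ring
      have h10 : 1 + |((b' - a : ℤ) : ℝ)| ≤ (1 + 2 * (R : ℝ)) * (z1 : ℝ) ^ (2 * (c * K)) := by
        calc 1 + |((b' - a : ℤ) : ℝ)| ≤ 1 + 2 * (R * W) := by rw [← h9]; linarith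
          _ ≤ (z1 : ℝ) ^ (2 * (c * K)) + 2 * (R * (z1 : ℝ) ^ (2 * (c * K))) := by gcongr
          _ = _ := by ring
      have h4 := ov_count dat hab (z := (z1 : ℝ)) (by exact_mod_cast (by omega : 2 ≤ z1)) (Q := Qz)
        (fun p hp => ⟨(hQz' p hp).1, hzs.trans (hQz' p hp).2.1, by exact_mod_cast (hQz' p hp).2.1⟩)
        (R := (R : ℝ)) (by positivity) h10
      rw [hk, hK1d]
      exact Nat.le_floor h4
  have hcell1 : ∀ a : ℤ, ∑ t ∈ range L, rho B Qz (a + ((d : ℤ) ^ N * e) * t) ≤ L * (C2 * μ) := by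
    intro a
    have h1 := hsu B Qz Q L a ((d : ℤ) ^ N * e) (by omega) hQL (fun p hp => (hQz' p hp).1)
      (fun p hp => (hQz' p hp).2.2) hperQ
      (fun p hp => dat.om_le p (hQz' p hp).1 (hzs.trans (hQz' p hp).2.1))
      (fun p hp => by have := hcop 1 (Or.inl rfl) p hp; rwa [one_mul] at this)
    rw [← hμ] at h1
    refine h1.trans (le_of_eq ?_)
    ring
  have hmain := nstep h hs hsum (N := N) (X := X) (Hn := Hn) (K := 1) (e := e) (L := L) (X0 := X0)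
    (fun p hp => (hPz' p hp).1) hperP (fun p hp => dat.cop p (hPz' p hp).1 (hPz' p hp).2.1) he hHn
    (by rw [hLe]; exact hj1) (by rw [hLe, one_mul]; exact hj2) (hBd ▸ hBdX) S (hS.1 N)
    (fun n h1 h2 => hS.2 N n (hX0 ▸ h1) h2)
    (rho B Qz) (rho_nonneg Qz) (l0 := 0) (α := C1 * μ ^ 2 * Real.exp (k * D))
    (β := (H0.card : ℝ) * (C1 * μ)) (ν := C2 * μ) le_rfl (by positivity)
    (by positivity) (by positivity) hcell hcell1 hAS hext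
  rw [zero_mul, zero_add, ← hV] at hmain
  have hext1 : ext * (z1 : ℝ) ^ (2 * D + 1) ≤ X := by
    have : ((((2 * X0 + 1) + 2 * Bd) * z1 ^ (2 * D + 1) : ℕ) : ℝ) ≤ X := by exact_mod_cast hextX
    rw [hext, ← hBd]
    push_cast at this ⊢
    exact this
  rw [hN, ← hκ, ← hκ'] at hmain
  rw [← hV, ← hμ, ← hu]
  exact fin_calc2 (d := d) (D := D) (K := K) (ℓ := ℓ) (z := z1) (X := (X : ℝ)) (V := V) (μ := μ)
    (E := Real.exp (k * D)) (C := C1) (C2 := C2) (u := u) (AS := AS) (ext := ext) (h0 := (H0.card : ℝ))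
    (κ1 := κ) (κ2 := κ') (c1 := c1) hd2 hX0r hVpos hμ0 hC1 hC2 (Real.exp_pos _).le (Nat.cast_nonneg _)
    (by omega) hKpos hℓ2 hℓ3 hκ0.le hη2.le hK1 hK2 hVl hc1 hμl hu0 hASu hext1 hmain

end Pool.Agent.T2h89.SV
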