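import Pool.Agent.T2h89.SV8
import Pool.Agent.T2h89.SV9

/-! Sifted sets: the integers whose orbits stay away from `0`. -/

set_option autoImplicit false

namespace Pool.Agent.T2h89.SV

open Finset
open Pool.Agent.H319R3.GC
open Pool.Agent.H828R3.GP (Sy power_saving)
open Classical

variable {d : ℕ} {m r : ℕ → ℤ} {B : ℕ → ℤ → Prop}

theorem stab_Sy (h : Adm d m r) {R : ℕ} (hR : ∀ i < d, |r i| ≤ R) {y : ℝ} {Y0 : ℕ} (hy : y ≤ Y0) :
    Stab d m r R Y0 (Sy d m r y) := by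
  refine ⟨fun N n hn k => ?_, fun N n hN hS k => ?_⟩
  · rw [← Function.iterate_add_apply]
    exact hn (k + N)
  · rcases le_or_gt N k with hk | hk
    · obtain ⟨j, rfl⟩ := Nat.exists_eq_add_of_le hk
      have := hS j
      rwa [← Function.iterate_add_apply, add_comm j N] at this
    · have h1 := iter_low h (R := (R : ℝ)) (fun i hi => by exact_mod_cast hR i hi) (by positivity) k n
      have h2 : ((d ^ N * (Y0 + R) : ℕ) : ℝ) < |(n : ℝ)| := by exact_mod_cast hN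
      set t : ℝ := |(((Tm d m r)^[k] n : ℤ) : ℝ)| with ht
      have ht0 : 0 ≤ t := abs_nonneg _
      have hd1 : (1 : ℝ) ≤ d := by have := h.two_le; exact_mod_cast (by omega : 1 ≤ d)
      have h3 : (d : ℝ) ^ k * (t + R) ≤ (d : ℝ) ^ N * (t + R) := by
        apply mul_le_mul_of_nonneg_right _ (by positivity)
        exact pow_le_pow_right₀ hd1 hk.le
      push_cast at h2
      have h4 : (d : ℝ) ^ N * ((Y0 : ℝ) + R) < (d : ℝ) ^ N * (t + R) := by linarith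
      have h5 := lt_of_mul_lt_mul_left h4 (by positivity)
      linarith

theorem dens_Sy {Cp c0 : ℝ} (hps : ∀ X y : ℝ, 1 ≤ X → 1 ≤ y →
    ({x : ℤ | |(x : ℝ)| ≤ X ∧ ∀ k : ℕ, y < |(((Tm d m r)^[k] x : ℤ) : ℝ)|}.ncard : ℝ) ≤ Cp * X / y ^ c0)
    {X : ℕ} (hX : 1 ≤ X) {y : ℝ} (hy : 1 ≤ y) :
    ∑ n ∈ Icc (-(X : ℤ)) X, ind (Sy d m r y) n ≤ Cp * X / y ^ c0 := by
  refine le_trans (le_of_eq ?_) (hps X y (by exact_mod_cast hX) hy)
  unfold ind
  rw [← sum_filter, sum_const, nsmul_eq_mul, mul_one]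
  congr 1
  rw [← Set.ncard_coe_finset]
  congr 1
  ext n
  rw [mem_coe, mem_filter, mem_Icc, Set.mem_setOf_eq, ← abs_le]
  unfold Sy
  constructor
  · rintro ⟨h1, h2⟩
    exact ⟨by exact_mod_cast h1, h2⟩
  · rintro ⟨h1, h2⟩
    exact ⟨by exact_mod_cast h1, h2⟩

theorem lam_le_exp (P : Finset ℕ) : lam B P ≤ Real.exp (-∑ p ∈ P, (om B p : ℝ) / p) := by
  unfold lam
  rw [← sum_neg_distrib, Real.exp_sum]
  apply prod_le_prod (fun p _ => fac_nonneg p)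
  intro p _
  have := Real.add_one_le_exp (-((om B p : ℝ) / p))
  linarith

/-- the parameters -/
theorem params {θ : ℝ} (hθ : 0 < θ) (K' zz : ℕ) : ∃ X0 : ℕ, 1 ≤ X0 ∧ ∀ X : ℕ, X0 ≤ X → ∃ z1 Q : ℕ,
    zz ≤ z1 ∧ 3 ≤ Q ∧ Q ≤ X ∧ Real.log Q ≤ 2 * z1 ∧ Real.log X ≤ 16 * Real.log Q ∧
    ∀ y : ℝ, 1 ≤ y → y ^ θ ≤ z1 → (⌈y⌉₊ + 4 ^ z1) * (2 * z1) ^ K' * Q ^ 2 ≤ X := by
  have h8 : (0 : ℝ) < 1 / 8 := by norm_num
  have e1 := (isLittleO_log_rpow_rpow_atTop (K' : ℝ) h8).bound (show (0 : ℝ) < 1 by norm_num)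
  have e2 := (isLittleO_log_rpow_rpow_atTop (1 / θ) h8).bound (show (0 : ℝ) < 1 by norm_num)
  have e3 : ∀ᶠ x : ℝ in Filter.atTop, (3 : ℝ) ≤ x ^ (1 / 8 : ℝ) :=
    (tendsto_rpow_atTop h8).eventually_ge_atTop 3
  have e4 : ∀ᶠ x : ℝ in Filter.atTop, (8 * zz + 16 : ℝ) ≤ Real.log x :=
    Real.tendsto_log_atTop.eventually_ge_atTop _
  have e5 := (e1.and (e2.and (e3.and e4))).and (Filter.eventually_ge_atTop (1 : ℝ))
  obtain ⟨x0, hx0⟩ := Filter.eventually_atTop.1 e5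
  refine ⟨max ⌈x0⌉₊ 1, le_max_right _ _, fun X hX => ?_⟩
  have hX1 : 1 ≤ X := (le_max_right _ _).trans hX
  have hXr : x0 ≤ (X : ℝ) := (Nat.le_ceil x0).trans (by exact_mod_cast (le_max_left _ _).trans hX)
  obtain ⟨⟨a1, a2, a3, a4⟩, _⟩ := hx0 X hXr
  have hX0 : (0 : ℝ) < X := by exact_mod_cast hX1
  set t : ℝ := Real.log X with ht
  set w : ℝ := (X : ℝ) ^ (1 / 8 : ℝ) with hw
  have hw0 : 0 < w := by linarith
  have ht16 : 16 ≤ t := by
    have : (0 : ℝ) ≤ 8 * zz := by positivity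
    linarith
  have ht0 : 0 < t := by linarith
  rw [one_mul, Real.norm_of_nonneg (by positivity), Real.norm_of_nonneg (by positivity),
    Real.rpow_natCast] at a1
  rw [one_mul, Real.norm_of_nonneg (by positivity), Real.norm_of_nonneg (by positivity)] at a2
  have hw8 : w ^ 8 = X := by
    rw [hw, ← Real.rpow_natCast, ← Real.rpow_mul hX0.le]; norm_num
  have hwt : Real.log w = t / 8 := by
    rw [hw, Real.log_rpow hX0]; ring
  refine ⟨⌊t / 8⌋₊, ⌊w⌋₊, ?_, ?_, ?_, ?_, ?_, ?_⟩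
  · apply Nat.le_floor; linarith
  · apply Nat.le_floor; exact_mod_cast a3
  · have h1 : (⌊w⌋₊ : ℝ) ≤ w := Nat.floor_le hw0.le
    have h2 : w ≤ w ^ 8 := by
      calc w = w ^ 1 := (pow_one w).symm
        _ ≤ w ^ 8 := pow_le_pow_right₀ (by linarith) (by norm_num)
    have h3 : (⌊w⌋₊ : ℝ) ≤ X := by rw [← hw8]; linarith
    exact_mod_cast h3
  · have h1 : Real.log (⌊w⌋₊ : ℝ) ≤ Real.log w := by
      apply Real.log_le_log
      · have : 3 ≤ ⌊w⌋₊ := Nat.le_floor (by exact_mod_cast a3)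
        exact_mod_cast (by omega : 0 < ⌊w⌋₊)
      · exact Nat.floor_le hw0.le
    have h2 := Nat.lt_floor_add_one (t / 8)
    rw [hwt] at h1
    linarith
  · have h1 := Nat.lt_floor_add_one w
    have h2 : √ w ≤ ⌊w⌋₊ := by
      have h3 : √ w ≤ w - 1 := by
        rw [Real.sqrt_le_left (by linarith)]
        nlinarith
      linarith
    have h3 : Real.log (√ w) ≤ Real.log (⌊w⌋₊ : ℝ) := Real.log_le_log (Real.sqrt_pos.2 hw0) h2
    rw [Real.log_sqrt hw0.le, hwt] at h3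
    linarith
  · intro y hy hyθ
    have hz : ((⌊t / 8⌋₊ : ℕ) : ℝ) ≤ t / 8 := Nat.floor_le (by linarith)
    have h1 : y ≤ w := by
      calc y = (y ^ θ) ^ (1 / θ) := by
            rw [← Real.rpow_mul (by linarith), mul_one_div_cancel hθ.ne', Real.rpow_one]
        _ ≤ t ^ (1 / θ) := by
            apply Real.rpow_le_rpow (by positivity) _ (by positivity)
            linarith
        _ ≤ w := a2
    have h2 : ((⌈y⌉₊ : ℕ) : ℝ) ≤ 2 * w ^ 2 := by
      have := Nat.ceil_lt_add_one (show 0 ≤ y by linarith)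
      nlinarith
    have h3 : (4 : ℝ) ^ ⌊t / 8⌋₊ ≤ w ^ 2 := by
      have h4 : (4 : ℝ) ^ ⌊t / 8⌋₊ = Real.exp (⌊t / 8⌋₊ * Real.log 4) := by
        rw [Real.exp_nat_mul, Real.exp_log (by norm_num)]
      have h5 : w ^ 2 = Real.exp (t / 4) := by
        rw [← Real.exp_log (show (0 : ℝ) < w ^ 2 by positivity), Real.log_pow, hwt]
        congr 1; push_cast; ring
      rw [h4, h5]
      apply Real.exp_le_exp.2
      have h6 : Real.log 4 ≤ 2 := by
        have : (4 : ℝ) = 2 ^ 2 := by norm_num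
        rw [this, Real.log_pow]
        have := Real.log_two_lt_d9
        push_cast; linarith
      have h7 : 0 ≤ Real.log 4 := Real.log_nonneg (by norm_num)
      nlinarith
    have h4 : ((2 : ℝ) * (⌊t / 8⌋₊ : ℕ)) ^ K' ≤ w := by
      calc ((2 : ℝ) * (⌊t / 8⌋₊ : ℕ)) ^ K' ≤ t ^ K' := by
            apply pow_le_pow_left₀ (by positivity)
            linarith
        _ ≤ w := a1
    have h5 : ((⌊w⌋₊ : ℕ) : ℝ) ≤ w := Nat.floor_le hw0.le
    have h6 : (((⌈y⌉₊ + 4 ^ ⌊t / 8⌋₊) * (2 * ⌊t / 8⌋₊) ^ K' * ⌊w⌋₊ ^ 2 : ℕ) : ℝ) ≤ X := by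
      push_cast
      calc ((⌈y⌉₊ : ℝ) + 4 ^ ⌊t / 8⌋₊) * (2 * (⌊t / 8⌋₊ : ℝ)) ^ K' * (⌊w⌋₊ : ℝ) ^ 2
          ≤ (2 * w ^ 2 + w ^ 2) * w * w ^ 2 := by gcongr
        _ = 3 * w ^ 5 := by ring
        _ ≤ w ^ 3 * w ^ 5 := by
            have : (3 : ℝ) ≤ w ^ 3 := by nlinarith [sq_nonneg w]
            gcongr
        _ = w ^ 8 := by ring
        _ = X := hw8
    exact_mod_cast h6

/-- the primes between `Q` and `X` -/
theorem mu_high : ∃ CM : ℝ, 0 ≤ CM ∧ ∀ (B : ℕ → ℤ → Prop) (P : Finset ℕ) (D Q X : ℕ), 3 ≤ Q → Q ≤ X →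
    Real.log X ≤ 16 * Real.log Q → (∀ p ∈ P, p.Prime) → (∀ p ∈ P, Q < p ∧ p ≤ X) → (∀ p ∈ P, om B p ≤ D) →
    ∑ p ∈ P, (om B p : ℝ) / p ≤ D * CM := by
  obtain ⟨C, hC⟩ := Pool.Agent.Erdos456.Mert.mertens_inv
  have hC0 : 0 ≤ C := (abs_nonneg _).trans (hC 3 le_rfl)
  refine ⟨Real.log 16 + 2 * C, by positivity, fun B P D Q X hQ hQX hlog hP hPQ hD => ?_⟩
  have h1 := (abs_le.1 (hC X (by omega))).2
  have h1' := (abs_le.1 (hC Q hQ)).1
  have hlQ : 0 < Real.log Q := Real.log_pos (by exact_mod_cast (by omega : 1 < Q))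
  have hlX : 0 < Real.log X := Real.log_pos (by exact_mod_cast (by omega : 1 < X))
  have hdis : Disjoint P ((Icc 1 Q).filter Nat.Prime) := by
    rw [disjoint_left]
    intro p hp h
    rw [mem_filter, mem_Icc] at h
    have := hPQ p hp
    omega
  have h2 : ∑ p ∈ P, (1 : ℝ) / p + ∑ p ∈ (Icc 1 Q).filter Nat.Prime, (1 : ℝ) / p ≤
      ∑ p ∈ (Icc 1 X).filter Nat.Prime, (1 : ℝ) / p := by
    rw [← sum_union hdis]
    apply sum_le_sum_of_subset_of_nonneg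
    · intro p hp
      rw [mem_filter, mem_Icc]
      rcases mem_union.1 hp with h3 | h3
      · exact ⟨⟨(hP p h3).one_le, (hPQ p h3).2⟩, hP p h3⟩
      · rw [mem_filter, mem_Icc] at h3
        exact ⟨⟨h3.1.1, h3.1.2.trans hQX⟩, h3.2⟩
    · intro p _ _; positivity
  have h3 : Real.log (Real.log X) ≤ Real.log 16 + Real.log (Real.log Q) := by
    rw [← Real.log_mul (by norm_num) hlQ.ne']
    exact Real.log_le_log hlX hlog
  calc ∑ p ∈ P, (om B p : ℝ) / p ≤ ∑ p ∈ P, D * ((1 : ℝ) / p) := by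
        apply sum_le_sum
        intro p hp
        have : (om B p : ℝ) ≤ D := by exact_mod_cast hD p hp
        rw [mul_one_div]
        gcongr
    _ = D * ∑ p ∈ P, (1 : ℝ) / p := by rw [mul_sum]
    _ ≤ _ := by
        apply mul_le_mul_of_nonneg_left _ (by positivity)
        linarith

end Pool.Agent.T2h89.SV
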