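import Pool.Agent.T2h89.SV10

/-! Sifted sets: the main estimate for general sieve conditions. -/

set_option autoImplicit false

namespace Pool.Agent.T2h89.SV

open Finset
open Pool.Agent.H319R3.GC
open Pool.Agent.H828R3.GP (Sy power_saving)
open Classical

variable {d : ℕ} {m r : ℕ → ℤ} {B : ℕ → ℤ → Prop}

theorem rho_anti {P P' : Finset ℕ} (hP : P' ⊆ P) (n : ℤ) : rho B P n ≤ rho B P' n := by
  unfold rho
  by_cases h1 : ∀ p ∈ P, ¬ B p n
  · rw [if_pos h1, if_pos fun p hp => h1 p (hP hp)]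
  · rw [if_neg h1]
    split_ifs <;> norm_num

theorem sum_small {P : Finset ℕ} (zs : ℕ) :
    ∑ p ∈ P.filter (fun p => p < zs), (om B p : ℝ) / p ≤ zs := by
  have h1 : ∀ p ∈ P.filter (fun p => p < zs), (om B p : ℝ) / p ≤ 1 := by
    intro p _
    have := fac_nonneg (B := B) p
    linarith
  refine (sum_le_sum h1).trans ?_
  rw [sum_const, nsmul_eq_mul, mul_one]
  have : (P.filter (fun p => p < zs)).card ≤ (range zs).card := by
    apply card_le_card
    intro p hp
    rw [mem_filter] at hp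
    exact mem_range.2 hp.2
  rw [card_range] at this
  exact_mod_cast this

theorem split4 (P : Finset ℕ) (f : ℕ → ℝ) (hf : ∀ p, 0 ≤ f p) (zs z1 Q : ℕ) :
    ∑ p ∈ P, f p ≤ ∑ p ∈ P.filter (fun p => p < zs), f p + ∑ p ∈ P.filter (fun p => zs ≤ p ∧ p < z1), f p +
      ∑ p ∈ P.filter (fun p => z1 ≤ p ∧ p ≤ Q), f p + ∑ p ∈ P.filter (fun p => zs ≤ p ∧ Q < p), f p := by
  rw [sum_filter, sum_filter, sum_filter, sum_filter, ← sum_add_distrib, ← sum_add_distrib, ← sum_add_distrib]
  apply sum_le_sum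
  intro p _
  have := hf p
  by_cases h1 : p < zs
  · rw [if_pos h1]
    have a1 : 0 ≤ (if zs ≤ p ∧ p < z1 then f p else 0) := by split_ifs <;> linarith
    have a2 : 0 ≤ (if z1 ≤ p ∧ p ≤ Q then f p else 0) := by split_ifs <;> linarith
    have a3 : 0 ≤ (if zs ≤ p ∧ Q < p then f p else 0) := by split_ifs <;> linarith
    linarith
  · rw [if_neg h1]
    by_cases h2 : p < z1
    · rw [if_pos ⟨by omega, h2⟩]
      have a2 : 0 ≤ (if z1 ≤ p ∧ p ≤ Q then f p else 0) := by split_ifs <;> linarith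
      have a3 : 0 ≤ (if zs ≤ p ∧ Q < p then f p else 0) := by split_ifs <;> linarith
      linarith
    · rw [if_neg (fun h => h2 h.2)]
      by_cases h3 : p ≤ Q
      · rw [if_pos ⟨by omega, h3⟩]
        have a3 : 0 ≤ (if zs ≤ p ∧ Q < p then f p else 0) := by split_ifs <;> linarith
        linarith
      · rw [if_neg (fun h => h3 h.2), if_pos ⟨by omega, by omega⟩]
        linarith

theorem sift_main (h : Adm d m r) {s η : ℝ} (hs : 0 < s) (hη0 : 0 ≤ η) (hη1 : η < 1)
    (hsum : ∑ j ∈ range d, (|(m j : ℝ)| / d) ^ s ≤ (d : ℝ) ^ η) {D zs : ℕ} {H0 : Finset ℤ} {CE : ℝ}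
    (dat : Dat d B D zs H0 CE) {b R : ℕ} (hb : ∀ i < d, |m i| ≤ b) (hdb : d ≤ b)
    (hR : ∀ i < d, |r i| ≤ R) :
    ∃ C : ℝ, 0 < C ∧ ∀ (X : ℕ) (y : ℝ) (P : Finset ℕ), 1 ≤ X → 1 ≤ y → (∀ p ∈ P, p.Prime) →
      (∀ p ∈ P, p ≤ X) →
      ∑ n ∈ Icc (-(X : ℤ)) X, ind (Sy d m r y) n * rho B P n ≤
        C * X * Real.exp (-∑ p ∈ P, (om B p : ℝ) / p) * y ^ (-((1 - η) / (32 * (D + 1)))) := by
  obtain ⟨γ, hγ⟩ : ∃ γ : ℝ, γ = (1 - η) / (32 * (D + 1)) := ⟨_, rfl⟩
  have hγ0 : 0 < γ := by rw [hγ]; apply div_pos (by linarith) (by positivity)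
  have hγ1 : γ ≤ 1 := by
    rw [hγ, div_le_one (by positivity)]
    have : (0 : ℝ) ≤ D := by positivity
    linarith
  have hc0 : (1 - η) / 2 = 16 * (D + 1) * γ := by rw [hγ]; field_simp; ring
  obtain ⟨c0, hc0d⟩ : ∃ c0 : ℝ, c0 = 16 * (D + 1) * γ := ⟨_, rfl⟩
  have hc0p : 0 < c0 := by rw [hc0d]; positivity
  obtain ⟨Cp, hCp, hps⟩ := power_saving h hs.le hη0 hη1 hsum (c := c0) hc0p (by rw [hc0d, ← hc0]; linarith)
  obtain ⟨Cc, hCc, Kc, z2, hz2s, hz24, hchain⟩ := chain h hs hη1 hsum dat hb hdb hR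
  obtain ⟨Co, hCo, Ko, z3, hz3s, hone⟩ := one_step h hs hη1 hsum dat hb hdb hR (A := 2) (by norm_num)
  obtain ⟨CM1, hCM1, hmu1⟩ := mu_low
  obtain ⟨CM2, hCM2, hmu2⟩ := mu_high
  obtain ⟨zz, hzz⟩ : ∃ zz : ℕ, zz = max z2 z3 := ⟨_, rfl⟩
  have hθ0 : 0 < 4 * γ := by positivity
  obtain ⟨X0, hX01, hpar⟩ := params hθ0 (max Kc Ko) zz
  obtain ⟨C3, hC3⟩ : ∃ C3 : ℝ, C3 = Cp * ((zz : ℝ) + 2) ^ (2 * D) + Cc + 1 := ⟨_, rfl⟩
  have hC30 : 0 < C3 := by rw [hC3]; positivity
  obtain ⟨CB, hCB⟩ : ∃ CB : ℝ, CB = Real.exp (zs + D * CM2) * (Co * √ C3) := ⟨_, rfl⟩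
  obtain ⟨CA, hCA⟩ : ∃ CA : ℝ, CA = Cp * (2 ^ D * Real.exp (zs + D * CM1 + D * CM2)) := ⟨_, rfl⟩
  obtain ⟨CT, hCT⟩ : ∃ CT : ℝ, CT = 3 * Real.exp X0 * X0 := ⟨_, rfl⟩
  have hX0r : (1 : ℝ) ≤ X0 := by exact_mod_cast hX01
  have hCB0 : 0 ≤ CB := by rw [hCB]; positivity
  have hCA0 : 0 ≤ CA := by rw [hCA]; positivity
  have hCT0 : 0 < CT := by rw [hCT]; positivity
  refine ⟨CB + CA + CT, by positivity, fun X y P hX1 hy hP hPX => ?_⟩
  rw [← hγ]
  obtain ⟨E, hE⟩ : ∃ E : ℝ, E = Real.exp (-∑ p ∈ P, (om B p : ℝ) / p) := ⟨_, rfl⟩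
  have hE0 : 0 < E := by rw [hE]; exact Real.exp_pos _
  have hy0 : 0 < y := by linarith
  have hXr : (0 : ℝ) < X := by exact_mod_cast hX1
  rw [← hE]
  have hyγ : 0 < y ^ (-γ) := Real.rpow_pos_of_pos hy0 _
  have hdens := dens_Sy hps hX1 hy
  have hle1 : ∑ n ∈ Icc (-(X : ℤ)) X, ind (Sy d m r y) n * rho B P n ≤
      ∑ n ∈ Icc (-(X : ℤ)) X, ind (Sy d m r y) n := by
    apply sum_le_sum
    intro n _
    have := ind_nonneg (Sy d m r y) n
    have := rho_le_one (B := B) P n
    nlinarith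
  -- it suffices to prove the bound with one of the constants
  have hsuff : ∀ C' : ℝ, C' ≤ CB + CA + CT →
      ∑ n ∈ Icc (-(X : ℤ)) X, ind (Sy d m r y) n * rho B P n ≤ C' * X * E * y ^ (-γ) →
      ∑ n ∈ Icc (-(X : ℤ)) X, ind (Sy d m r y) n * rho B P n ≤ (CB + CA + CT) * X * E * y ^ (-γ) := by
    intro C' h1 h2
    refine h2.trans ?_
    gcongr
  rcases lt_or_ge X X0 with hsm | hbig
  · -- small `X`
    apply hsuff CT (by linarith)
    rcases le_or_gt (X : ℝ) y with hyX | hyX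
    · have h0 : ∑ n ∈ Icc (-(X : ℤ)) X, ind (Sy d m r y) n = 0 := by
        apply sum_eq_zero
        intro n hn
        unfold ind
        rw [if_neg]
        intro hS
        have h1 := hS 0
        simp only [Function.iterate_zero, id] at h1
        rw [mem_Icc, ← abs_le] at hn
        have h2 : |(n : ℝ)| ≤ X := by exact_mod_cast hn
        linarith
      rw [h0] at hle1
      refine hle1.trans (by positivity)
    · have h1 : ∑ n ∈ Icc (-(X : ℤ)) X, ind (Sy d m r y) n ≤ 3 * X := by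
        calc ∑ n ∈ Icc (-(X : ℤ)) X, ind (Sy d m r y) n ≤ ∑ n ∈ Icc (-(X : ℤ)) X, (1 : ℝ) :=
              sum_le_sum fun n _ => ind_le_one _ _
          _ = (((X : ℤ) + 1 - -(X : ℤ)).toNat : ℝ) := by
              rw [sum_const, nsmul_eq_mul, mul_one, Int.card_Icc]
          _ ≤ 3 * X := by
              have : ((X : ℤ) + 1 - -(X : ℤ)).toNat ≤ 3 * X := by omega
              exact_mod_cast this
      have h2 : Real.exp (-X0) ≤ E := by
        rw [hE]
        apply Real.exp_le_exp.2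
        apply neg_le_neg
        have h3 : ∀ p ∈ P, (om B p : ℝ) / p ≤ 1 := by
          intro p _
          have := fac_nonneg (B := B) p
          linarith
        refine (sum_le_sum h3).trans ?_
        rw [sum_const, nsmul_eq_mul, mul_one]
        have h4 : P.card ≤ (Icc 1 X).card := card_le_card fun p hp => by
          rw [mem_Icc]; exact ⟨(hP p hp).one_le, hPX p hp⟩
        rw [Nat.card_Icc] at h4
        exact_mod_cast (by omega : P.card ≤ X0)
      have h3 : 1 / (X0 : ℝ) ≤ y ^ (-γ) := by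
        rw [Real.rpow_neg hy0.le, ← one_div]
        apply one_div_le_one_div_of_le (by positivity)
        calc y ^ γ ≤ y ^ (1 : ℝ) := Real.rpow_le_rpow_of_exponent_le hy hγ1
          _ = y := Real.rpow_one _
          _ ≤ X0 := by
              have : (X : ℝ) ≤ X0 := by exact_mod_cast hsm.le
              linarith
      refine (hle1.trans h1).trans ?_
      have hEX : Real.exp (X0 : ℝ) * Real.exp (-X0) = 1 := by rw [← Real.exp_add, add_neg_cancel, Real.exp_zero]
      calc (3 : ℝ) * X = 3 * X * (Real.exp (X0 : ℝ) * Real.exp (-X0)) * (X0 * (1 / X0)) := by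
            rw [hEX, mul_one_div_cancel (by positivity)]; ring
        _ ≤ 3 * X * (Real.exp (X0 : ℝ) * E) * (X0 * y ^ (-γ)) := by gcongr
        _ = CT * X * E * y ^ (-γ) := by rw [hCT]; ring
  · obtain ⟨z1, Q, hz1, hQ3, hQX, hlogQ, hlogX, hcond⟩ := hpar X hbig
    have hz2z1 : z2 ≤ z1 := by rw [hzz] at hz1; exact (le_max_left _ _).trans hz1
    have hz3z1 : z3 ≤ z1 := by rw [hzz] at hz1; exact (le_max_right _ _).trans hz1
    have hz1pos : (0 : ℝ) < z1 := by exact_mod_cast (by omega : 0 < z1)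
    have hz11 : (1 : ℝ) ≤ z1 := by exact_mod_cast (by omega : 1 ≤ z1)
    have homn : ∀ p : ℕ, 0 ≤ (om B p : ℝ) / p := fun p => by positivity
    have hs4 := split4 P (fun p => (om B p : ℝ) / p) homn zs z1 Q
    have hs5 := sum_small (B := B) (P := P) zs
    have hs6 := hmu2 B (P.filter (fun p => zs ≤ p ∧ Q < p)) D Q X hQ3 hQX hlogX
      (fun p hp => hP p (mem_filter.1 hp).1)
      (fun p hp => ⟨(mem_filter.1 hp).2.2, hPX p (mem_filter.1 hp).1⟩)
      (fun p hp => dat.om_le p (hP p (mem_filter.1 hp).1) (mem_filter.1 hp).2.1)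
    rcases le_or_gt (y ^ (4 * γ)) (z1 : ℝ) with hB | hA
    · -- main case
      apply hsuff CB (by linarith)
      have hXc := hcond y hy hB
      obtain ⟨z0, hz0⟩ : ∃ z0 : ℕ, z0 = max zz ⌈y ^ (4 * γ)⌉₊ := ⟨_, rfl⟩
      have hz01 : z0 ≤ z1 := by
        rw [hz0]; exact max_le hz1 (Nat.ceil_le.2 hB)
      have hzz0 : zz ≤ z0 := by rw [hz0]; exact le_max_left _ _
      have hz20 : z2 ≤ z0 := by rw [hzz] at hzz0; exact (le_max_left _ _).trans hzz0
      have hz0pos : (0 : ℝ) < z0 := by exact_mod_cast (by omega : 0 < z0)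
      have hyz0 : y ^ (4 * γ) ≤ z0 := by
        have h1 := Nat.le_ceil (y ^ (4 * γ))
        have h2 : (⌈y ^ (4 * γ)⌉₊ : ℝ) ≤ z0 := by rw [hz0]; exact_mod_cast le_max_right _ _
        linarith
      have hy4 : 1 ≤ y ^ (4 * γ) := Real.one_le_rpow hy (by positivity)
      have hz0le : (z0 : ℝ) ≤ ((zz : ℝ) + 2) * y ^ (4 * γ) := by
        have h1 := Nat.ceil_lt_add_one (show 0 ≤ y ^ (4 * γ) by linarith)
        have h2 : (z0 : ℝ) ≤ zz + ⌈y ^ (4 * γ)⌉₊ := by
          rw [hz0]
          have : max zz ⌈y ^ (4 * γ)⌉₊ ≤ zz + ⌈y ^ (4 * γ)⌉₊ := max_le (by omega) (by omega)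
          exact_mod_cast this
        have h3 : (0 : ℝ) ≤ zz := by positivity
        nlinarith
      have hstab := stab_Sy h hR (Nat.le_ceil y)
      have h2z1 : 1 ≤ 2 * z1 := by omega
      have hXchain : (⌈y⌉₊ + 4 ^ z1) * (2 * z1) ^ Kc ≤ X := by
        refine le_trans ?_ hXc
        refine le_trans (Nat.mul_le_mul_left _ (Nat.pow_le_pow_right h2z1 (le_max_left Kc Ko))) ?_
        exact Nat.le_mul_of_pos_right _ (by positivity)
      have hXone : (⌈y⌉₊ + 4 ^ z1) * (2 * z1) ^ Ko * Q ^ 2 ≤ X := by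
        refine le_trans ?_ hXc
        apply Nat.mul_le_mul_right
        exact Nat.mul_le_mul_left _ (Nat.pow_le_pow_right h2z1 (le_max_right Kc Ko))
      have hc := hchain P hP X z0 z1 ⌈y⌉₊ (Sy d m r y) hz20 hz01 hXchain hstab
      have ho := hone P hP X z1 Q ⌈y⌉₊ (Sy d m r y) hz3z1 hQ3 hlogQ hXone hstab
      -- the level `z0`
      have hu0 : uu B (Sy d m r y) (P.filter (fun p => zs ≤ p ∧ p < z0)) X ≤
          Cp * ((zz : ℝ) + 2) ^ (2 * D) * y ^ (-(2 * γ)) := by
        have hlam : (1 / (z0 : ℝ)) ^ (2 * D) ≤ lam B (P.filter (fun p => zs ≤ p ∧ p < z0)) :=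
          lam_low (a := zs) (by have := dat.zs_gt; omega) dat.zs_two (by omega)
            (fun p hp => (mem_filter.1 hp).2)
            (fun p hp => dat.om_le p (hP p (mem_filter.1 hp).1) (mem_filter.1 hp).2.1)
        have h1 : ∑ n ∈ Icc (-(X : ℤ)) X, ind (Sy d m r y) n *
            rho B (P.filter (fun p => zs ≤ p ∧ p < z0)) n ≤ Cp * X / y ^ c0 := by
          refine le_trans ?_ hdens
          apply sum_le_sum
          intro n _
          have := ind_nonneg (Sy d m r y) n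
          have := rho_le_one (B := B) (P.filter (fun p => zs ≤ p ∧ p < z0)) n
          nlinarith
        unfold uu
        have hl0 : 0 < (1 / (z0 : ℝ)) ^ (2 * D) := by positivity
        calc (∑ n ∈ Icc (-(X : ℤ)) X, ind (Sy d m r y) n *
              rho B (P.filter (fun p => zs ≤ p ∧ p < z0)) n) /
              (X * lam B (P.filter (fun p => zs ≤ p ∧ p < z0)))
            ≤ (Cp * X / y ^ c0) / (X * (1 / (z0 : ℝ)) ^ (2 * D)) := by
              apply div_le_div₀ (by positivity) h1 (by positivity)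
              gcongr
          _ = Cp * (z0 : ℝ) ^ (2 * D) * y ^ (-c0) := by
              rw [Real.rpow_neg hy0.le, one_div_pow]; field_simp
          _ ≤ Cp * (((zz : ℝ) + 2) * y ^ (4 * γ)) ^ (2 * D) * y ^ (-c0) := by gcongr
          _ = Cp * ((zz : ℝ) + 2) ^ (2 * D) * (y ^ (4 * γ * (2 * D)) * y ^ (-c0)) := by
              rw [mul_pow, ← Real.rpow_natCast (y ^ (4 * γ)), ← Real.rpow_mul hy0.le]
              push_cast; ring
          _ ≤ Cp * ((zz : ℝ) + 2) ^ (2 * D) * y ^ (-(2 * γ)) := by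
              apply mul_le_mul_of_nonneg_left _ (by positivity)
              rw [← Real.rpow_add hy0]
              apply Real.rpow_le_rpow_of_exponent_le hy
              rw [hc0d]
              have : (0 : ℝ) ≤ D * γ := by positivity
              nlinarith
      have hu1 : uu B (Sy d m r y) (P.filter (fun p => zs ≤ p ∧ p < z1)) X + 1 / z1 ≤
          C3 * y ^ (-(2 * γ)) := by
        have h1 : Cc / √ (z0 : ℝ) ≤ Cc * y ^ (-(2 * γ)) := by
          rw [div_eq_mul_one_div]
          apply mul_le_mul_of_nonneg_left _ hCc.le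
          rw [Real.rpow_neg hy0.le, ← one_div]
          apply one_div_le_one_div_of_le (by positivity)
          apply Real.le_sqrt_of_sq_le
          calc (y ^ (2 * γ)) ^ 2 = y ^ (4 * γ) := by
                rw [← Real.rpow_natCast, ← Real.rpow_mul hy0.le]; congr 1; push_cast; ring
            _ ≤ z0 := hyz0
        have h2 : 1 / (z1 : ℝ) ≤ y ^ (-(2 * γ)) := by
          rw [Real.rpow_neg hy0.le, ← one_div]
          apply one_div_le_one_div_of_le (by positivity)
          calc y ^ (2 * γ) ≤ y ^ (4 * γ) := Real.rpow_le_rpow_of_exponent_le hy (by linarith)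
            _ ≤ z1 := hB
        rw [hC3]
        have : (Cp * ((zz : ℝ) + 2) ^ (2 * D) + Cc + 1) * y ^ (-(2 * γ)) =
          Cp * ((zz : ℝ) + 2) ^ (2 * D) * y ^ (-(2 * γ)) + Cc * y ^ (-(2 * γ)) + y ^ (-(2 * γ)) := by ring
        rw [this]
        linarith
      have hsq : √ (uu B (Sy d m r y) (P.filter (fun p => zs ≤ p ∧ p < z1)) X + 1 / z1) ≤
          √ C3 * y ^ (-γ) := by
        calc √ (uu B (Sy d m r y) (P.filter (fun p => zs ≤ p ∧ p < z1)) X + 1 / z1)
            ≤ √ (C3 * y ^ (-(2 * γ))) := Real.sqrt_le_sqrt hu1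
          _ = √ C3 * y ^ (-γ) := by
              rw [Real.sqrt_mul hC30.le]
              congr 1
              rw [Real.sqrt_eq_iff_mul_self_eq (by positivity) (by positivity), ← Real.rpow_add hy0]
              congr 1; ring
      have hrho : ∑ n ∈ Icc (-(X : ℤ)) X, ind (Sy d m r y) n * rho B P n ≤
          ∑ n ∈ Icc (-(X : ℤ)) X, ind (Sy d m r y) n *
            (rho B (P.filter (fun p => zs ≤ p ∧ p < z1)) n * rho B (P.filter (fun p => z1 ≤ p ∧ p ≤ Q)) n) := by
        apply sum_le_sum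
        intro n _
        apply mul_le_mul_of_nonneg_left _ (ind_nonneg _ _)
        rw [← rho_union]
        exact rho_anti (union_subset (filter_subset _ _) (filter_subset _ _)) n
      have hlE : lam B (P.filter (fun p => zs ≤ p ∧ p < z1)) *
          Real.exp (- ∑ p ∈ P.filter (fun p => z1 ≤ p ∧ p ≤ Q), (om B p : ℝ) / p) ≤
          Real.exp (zs + D * CM2) * E := by
        calc lam B (P.filter (fun p => zs ≤ p ∧ p < z1)) *
              Real.exp (- ∑ p ∈ P.filter (fun p => z1 ≤ p ∧ p ≤ Q), (om B p : ℝ) / p)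
            ≤ Real.exp (-∑ p ∈ P.filter (fun p => zs ≤ p ∧ p < z1), (om B p : ℝ) / p) *
              Real.exp (- ∑ p ∈ P.filter (fun p => z1 ≤ p ∧ p ≤ Q), (om B p : ℝ) / p) :=
              mul_le_mul_of_nonneg_right (lam_le_exp _) (Real.exp_pos _).le
          _ ≤ _ := by
              rw [hE, ← Real.exp_add, ← Real.exp_add]
              apply Real.exp_le_exp.2
              linarith
      refine (hrho.trans ho).trans ?_
      calc (X * lam B (P.filter (fun p => zs ≤ p ∧ p < z1)) *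
            Real.exp (- ∑ p ∈ P.filter (fun p => z1 ≤ p ∧ p ≤ Q), (om B p : ℝ) / p)) *
            (Co * √ (uu B (Sy d m r y) (P.filter (fun p => zs ≤ p ∧ p < z1)) X + 1 / z1))
          = X * (lam B (P.filter (fun p => zs ≤ p ∧ p < z1)) *
            Real.exp (- ∑ p ∈ P.filter (fun p => z1 ≤ p ∧ p ≤ Q), (om B p : ℝ) / p)) *
            (Co * √ (uu B (Sy d m r y) (P.filter (fun p => zs ≤ p ∧ p < z1)) X + 1 / z1)) := by ring
        _ ≤ X * (Real.exp (zs + D * CM2) * E) * (Co * (√ C3 * y ^ (-γ))) := by gcongr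
        _ = CB * X * E * y ^ (-γ) := by rw [hCB]; ring
    · -- large `y`
      apply hsuff CA (by linarith)
      have hs7 := hmu1 B (P.filter (fun p => zs ≤ p ∧ p ≤ Q)) D Q hQ3
        (fun p hp => hP p (mem_filter.1 hp).1) (fun p hp => (mem_filter.1 hp).2.2)
        (fun p hp => dat.om_le p (hP p (mem_filter.1 hp).1) (mem_filter.1 hp).2.1)
      have hs8 := split4 P (fun p => (om B p : ℝ) / p) homn zs zs Q
      have hs9 : P.filter (fun p => zs ≤ p ∧ p < zs) = ∅ := by
        apply filter_eq_empty_iff.2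
        intro p _ hp
        omega
      rw [hs9, sum_empty, add_zero] at hs8
      have hlQ : 1 ≤ Real.log Q := by
        have h2 : Real.exp 1 ≤ Q := by
          have := Real.exp_one_lt_d9
          have : (3 : ℝ) ≤ Q := by exact_mod_cast hQ3
          linarith
        rwa [Real.le_log_iff_exp_le (by positivity)]
      have hE1 : (1 / (z1 : ℝ)) ^ D ≤ 2 ^ D * Real.exp (zs + D * CM1 + D * CM2) * E := by
        have h1 : Real.exp (-(zs + D * CM1 + D * CM2) + -(D * Real.log (Real.log Q))) ≤ E := by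
          rw [hE]
          apply Real.exp_le_exp.2
          linarith
        have h2 : (1 / (2 * (z1 : ℝ))) ^ D ≤ Real.exp (-(D * Real.log (Real.log Q))) := by
          rw [Real.exp_neg, Real.exp_nat_mul, Real.exp_log (by linarith), one_div_pow, one_div]
          apply inv_anti₀ (by positivity)
          apply pow_le_pow_left₀ (by linarith) hlogQ
        rw [Real.exp_add] at h1
        have h3 : Real.exp (zs + D * CM1 + D * CM2) * Real.exp (-(zs + D * CM1 + D * CM2)) = 1 := by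
          rw [← Real.exp_add, add_neg_cancel, Real.exp_zero]
        calc (1 / (z1 : ℝ)) ^ D = 2 ^ D * (1 / (2 * (z1 : ℝ))) ^ D := by
              rw [← mul_pow]; congr 1; field_simp
          _ = 2 ^ D * (Real.exp (zs + D * CM1 + D * CM2) * Real.exp (-(zs + D * CM1 + D * CM2))) *
              (1 / (2 * (z1 : ℝ))) ^ D := by rw [h3]; ring
          _ ≤ 2 ^ D * (Real.exp (zs + D * CM1 + D * CM2) * Real.exp (-(zs + D * CM1 + D * CM2))) *
              Real.exp (-(D * Real.log (Real.log Q))) := by gcongr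
          _ = 2 ^ D * Real.exp (zs + D * CM1 + D * CM2) * (Real.exp (-(zs + D * CM1 + D * CM2)) *
              Real.exp (-(D * Real.log (Real.log Q)))) := by ring
          _ ≤ _ := by gcongr
      have hyc : y ^ (-c0) ≤ y ^ (-γ) * (1 / (z1 : ℝ)) ^ D := by
        have h1 : -c0 = -γ + (4 * γ) * (-((16 * (D : ℝ) + 15) / 4)) := by rw [hc0d]; ring
        rw [h1, Real.rpow_add hy0, Real.rpow_mul hy0.le]
        apply mul_le_mul_of_nonneg_left _ hyγ.le
        calc (y ^ (4 * γ)) ^ (-((16 * (D : ℝ) + 15) / 4)) ≤ (z1 : ℝ) ^ (-((16 * (D : ℝ) + 15) / 4)) := by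
              apply Real.rpow_le_rpow_of_nonpos hz1pos hA.le
              have : (0 : ℝ) ≤ D := by positivity
              linarith
          _ ≤ (z1 : ℝ) ^ (-(D : ℝ)) := by
              apply Real.rpow_le_rpow_of_exponent_le hz11
              have : (0 : ℝ) ≤ D := by positivity
              linarith
          _ = (1 / (z1 : ℝ)) ^ D := by
              rw [Real.rpow_neg hz1pos.le, Real.rpow_natCast, one_div_pow, one_div]
      refine (hle1.trans hdens).trans ?_
      calc Cp * X / y ^ c0 = Cp * X * y ^ (-c0) := by rw [Real.rpow_neg hy0.le]; ring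
        _ ≤ Cp * X * (y ^ (-γ) * (2 ^ D * Real.exp (zs + D * CM1 + D * CM2) * E)) := by
            apply mul_le_mul_of_nonneg_left _ (by positivity)
            refine hyc.trans ?_
            gcongr
        _ = CA * X * E * y ^ (-γ) := by rw [hCA]; ring

end Pool.Agent.T2h89.SV
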