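import Pool.Agent.T2h89.SV11

/-! Sieve conditions given by the values of a polynomial. -/

set_option autoImplicit false

namespace Pool.Agent.T2h89.SV

open Finset Polynomial
open Classical

/-- `p` divides the value of `F` -/
def Bp (F : ℤ[X]) : ℕ → ℤ → Prop := fun p n => (p : ℤ) ∣ F.eval n

theorem exists_res (F : ℤ[X]) (hF : 0 < F.natDegree) : ∃ c : ℤ[X], c ≠ 0 ∧
    ∀ x g p : ℤ, p ∣ F.eval x → p ∣ F.eval (x + g) → p ∣ c.eval g := by
  set f₁ : (ℤ[X])[X] := F.map (C : ℤ →+* ℤ[X]) with hf₁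
  set f₂ : (ℤ[X])[X] := f₁.comp (X + C X) with hf₂
  set n : ℕ := F.natDegree with hn
  have hd1 : f₁.natDegree = n := natDegree_map_eq_of_injective C_injective F
  have hd2 : f₂.natDegree = n := by
    rw [hf₂, natDegree_comp, hd1, natDegree_X_add_C, mul_one]
  obtain ⟨p, q, -, -, hpq⟩ := exists_mul_add_mul_eq_C_resultant f₁ f₂ hd1.le hd2.le (Or.inl hF.ne')
  refine ⟨resultant f₁ f₂ n n, ?_, ?_⟩
  · -- a complex number that is not a difference of two roots
    set FC : ℂ[X] := F.map (Int.castRingHom ℂ) with hFC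
    have hFC0 : FC ≠ 0 := by
      rw [hFC, Polynomial.map_ne_zero_iff (RingHom.injective_int _)]
      intro h0
      rw [hn, h0, natDegree_zero] at hF
      exact lt_irrefl _ hF
    have hFCd : FC.natDegree = n := natDegree_map_eq_of_injective (RingHom.injective_int _) F
    obtain ⟨g, hg⟩ : ∃ g : ℂ, g ∉ (FC.roots.toFinset ×ˢ FC.roots.toFinset).image (fun ij => ij.2 - ij.1) :=
      Infinite.exists_notMem_finset _
    intro h0
    set φ : ℤ[X] →+* ℂ := eval₂RingHom (Int.castRingHom ℂ) g with hφ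
    have h1 := resultant_map_map f₁ f₂ n n φ
    rw [h0, map_zero] at h1
    have e1 : f₁.map φ = FC := by
      rw [hf₁, Polynomial.map_map, hFC]
      congr 1
      exact RingHom.ext_int _ _
    have e2 : f₂.map φ = FC.comp (X + C g) := by
      rw [hf₂, Polynomial.map_comp, e1]
      congr 1
      simp [hφ]
    rw [e1, e2] at h1
    have hd3 : (FC.comp (X + C g)).natDegree = n := by
      rw [natDegree_comp, hFCd, natDegree_X_add_C, mul_one]
    have h2 : resultant FC (FC.comp (X + C g)) = 0 := by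
      rw [hd3, hFCd]; exact h1
    rw [resultant_eq_zero_iff] at h2
    apply h2.2
    -- coprime over the complex numbers
    apply isCoprime_of_irreducible_dvd (fun h => hFC0 h.1)
    intro z hz hz1 hz2
    obtain ⟨α, hα⟩ := IsAlgClosed.exists_root z (Polynomial.degree_pos_of_irreducible hz).ne'
    apply hg
    rw [mem_image]
    refine ⟨(α, α + g), ?_, by ring⟩
    rw [mem_product, Multiset.mem_toFinset, Multiset.mem_toFinset, mem_roots hFC0, mem_roots hFC0]
    constructor
    · exact hα.dvd hz1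
    · have h3 := hα.dvd hz2
      rw [IsRoot.def, eval_comp] at h3
      rw [IsRoot.def]
      simpa using h3
  · intro x g p' h1 h2
    set ev : (ℤ[X])[X] →+* ℤ := (evalRingHom x).comp (mapRingHom (evalRingHom g)) with hev
    have h3 := congrArg ev hpq
    rw [map_add, map_mul, map_mul] at h3
    have e1 : ev f₁ = F.eval x := by
      rw [hev, hf₁, RingHom.comp_apply, coe_mapRingHom, Polynomial.map_map, coe_evalRingHom]
      congr 1
      have : (evalRingHom g).comp (C : ℤ →+* ℤ[X]) = RingHom.id ℤ := RingHom.ext_int _ _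
      rw [this, Polynomial.map_id]
    have e2 : ev f₂ = F.eval (x + g) := by
      have : (evalRingHom g).comp (C : ℤ →+* ℤ[X]) = RingHom.id ℤ := RingHom.ext_int _ _
      rw [hev, hf₂, RingHom.comp_apply, coe_mapRingHom, Polynomial.map_comp, hf₁, Polynomial.map_map,
        this, Polynomial.map_id, coe_evalRingHom, eval_comp]
      simp
    have e3 : ev (C (resultant f₁ f₂ n n)) = (resultant f₁ f₂ n n).eval g := by
      rw [hev, RingHom.comp_apply, coe_mapRingHom, Polynomial.map_C, coe_evalRingHom, eval_C,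
        coe_evalRingHom]
    rw [e1, e2, e3] at h3
    rw [← h3]
    exact dvd_add (h1.mul_right _) (h2.mul_right _)

theorem eval_bound (c : ℤ[X]) : ∃ A : ℝ, 1 ≤ A ∧ ∀ g : ℤ, |((c.eval g : ℤ) : ℝ)| ≤ A * (1 + |(g : ℝ)|) ^ c.natDegree := by
  refine ⟨1 + ∑ i ∈ range (c.natDegree + 1), |((c.coeff i : ℤ) : ℝ)|, ?_, fun g => ?_⟩
  · have : 0 ≤ ∑ i ∈ range (c.natDegree + 1), |((c.coeff i : ℤ) : ℝ)| := sum_nonneg fun i _ => abs_nonneg _
    linarith
  · have h1 : (1 : ℝ) ≤ 1 + |(g : ℝ)| := by linarith [abs_nonneg (g : ℝ)]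
    rw [eval_eq_sum_range]
    push_cast
    calc |∑ i ∈ range (c.natDegree + 1), ((c.coeff i : ℤ) : ℝ) * (g : ℝ) ^ i|
        ≤ ∑ i ∈ range (c.natDegree + 1), |((c.coeff i : ℤ) : ℝ) * (g : ℝ) ^ i| := abs_sum_le_sum_abs _ _
      _ ≤ ∑ i ∈ range (c.natDegree + 1), |((c.coeff i : ℤ) : ℝ)| * (1 + |(g : ℝ)|) ^ c.natDegree := by
          apply sum_le_sum
          intro i hi
          rw [mem_range] at hi
          rw [abs_mul, abs_pow]
          apply mul_le_mul_of_nonneg_left _ (abs_nonneg _)
          calc |(g : ℝ)| ^ i ≤ (1 + |(g : ℝ)|) ^ i := by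
                apply pow_le_pow_left₀ (abs_nonneg _); linarith
            _ ≤ (1 + |(g : ℝ)|) ^ c.natDegree := pow_le_pow_right₀ h1 (by omega)
      _ = (∑ i ∈ range (c.natDegree + 1), |((c.coeff i : ℤ) : ℝ)|) * (1 + |(g : ℝ)|) ^ c.natDegree := by
          rw [sum_mul]
      _ ≤ _ := by
          apply mul_le_mul_of_nonneg_right _ (by positivity)
          linarith

/-- number of the roots modulo `p` -/
theorem om_poly {F : ℤ[X]} {p : ℕ} (hp : p.Prime) (hlc : ¬ (p : ℤ) ∣ F.leadingCoeff) :
    om (Bp F) p ≤ F.natDegree := by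
  have := Fact.mk hp
  set Fp : (ZMod p)[X] := F.map (Int.castRingHom (ZMod p)) with hFp
  have h0 : Fp ≠ 0 := by
    intro h
    apply hlc
    have h1 : Fp.coeff F.natDegree = 0 := by rw [h, coeff_zero]
    rw [hFp, coeff_map, coeff_natDegree] at h1
    exact (ZMod.intCast_zmod_eq_zero_iff_dvd _ _).1 (by simpa using h1)
  unfold om
  calc ((range p).filter (fun a : ℕ => Bp F p (a : ℤ))).card
      ≤ Fp.roots.toFinset.card := by
        apply card_le_card_of_injOn (fun a : ℕ => (a : ZMod p))
        · intro a ha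
          rw [mem_coe, mem_filter] at ha
          rw [mem_coe, Multiset.mem_toFinset, mem_roots h0, IsRoot.def]
          have h1 : (F.map (Int.castRingHom (ZMod p))).eval ((Int.castRingHom (ZMod p)) (a : ℤ)) =
              Int.castRingHom (ZMod p) (F.eval (a : ℤ)) := by
            rw [Polynomial.eval_map, Polynomial.eval₂_hom]
          have h2 : ((F.eval (a : ℤ) : ℤ) : ZMod p) = 0 := (ZMod.intCast_zmod_eq_zero_iff_dvd _ _).2 ha.2
          rw [hFp]
          have h3 : (Int.castRingHom (ZMod p)) (a : ℤ) = (a : ZMod p) := by simp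
          rw [h3] at h1
          rw [h1]
          simpa using h2
        · intro a ha b hb hab
          rw [mem_coe, mem_filter, mem_range] at ha hb
          have h1 := (ZMod.natCast_eq_natCast_iff' a b p).1 hab
          rwa [Nat.mod_eq_of_lt ha.1, Nat.mod_eq_of_lt hb.1] at h1
    _ ≤ Multiset.card Fp.roots := Multiset.toFinset_card_le _
    _ ≤ Fp.natDegree := card_roots' _
    _ ≤ F.natDegree := natDegree_map_le

theorem dat_poly {d : ℕ} (hd : 2 ≤ d) {F : ℤ[X]} (hF : 0 < F.natDegree) :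
    ∃ (zs : ℕ) (H0 : Finset ℤ) (CE : ℝ), Dat d (Bp F) F.natDegree zs H0 CE := by
  obtain ⟨c, hc0, hc⟩ := exists_res F hF
  obtain ⟨A, hA1, hA⟩ := eval_bound c
  have hlogA : 0 ≤ Real.log A := Real.log_nonneg hA1
  have hF0 : F.leadingCoeff ≠ 0 := by
    intro h
    rw [leadingCoeff_eq_zero] at h
    rw [h, natDegree_zero] at hF
    exact lt_irrefl _ hF
  refine ⟨2 * F.natDegree + d + F.leadingCoeff.natAbs + 1, c.roots.toFinset, Real.log A + c.natDegree + 1,
    ?_, ?_, ?_, by omega, by omega, by positivity, ?_⟩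
  · intro p _ _ x
    unfold Bp
    have h1 : (p : ℤ) ∣ F.eval (x + p) - F.eval x := by
      have := F.sub_dvd_eval_sub (x + p) x
      rwa [add_sub_cancel_left] at this
    constructor
    · intro h2
      have := dvd_sub h2 h1
      rwa [sub_sub_cancel] at this
    · intro h2
      have := dvd_add h1 h2
      rwa [sub_add_cancel] at this
  · intro p hp hzs
    apply om_poly hp
    intro h1
    have h2 := Int.le_of_dvd (by positivity) (Int.natCast_dvd_natCast.2 (Int.natCast_dvd.1 h1))
    omega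
  · intro p hp hzs
    rw [Nat.isCoprime_iff_coprime]
    exact (Nat.coprime_of_lt_prime (n := d) (by omega) (by omega) hp).symm
  · intro g hg z hz Q hQ
    have hcg : c.eval g ≠ 0 := by
      intro h
      apply hg
      rw [Multiset.mem_toFinset, mem_roots hc0]
      exact h
    have h1 : (∏ p ∈ Q, p) ∣ (c.eval g).natAbs := by
      apply Finset.prod_primes_dvd
      · intro p hp
        exact (hQ p hp).1.prime
      · intro p hp
        obtain ⟨x, hx1, hx2⟩ := (hQ p hp).2.2.2
        exact Int.natCast_dvd.1 (hc x g p hx1 hx2)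
    have h2 : ∏ p ∈ Q, p ≤ (c.eval g).natAbs := Nat.le_of_dvd (Int.natAbs_pos.2 hcg) h1
    have h3 : z ^ Q.card ≤ ((∏ p ∈ Q, p : ℕ) : ℝ) := by
      push_cast
      rw [← prod_const]
      apply prod_le_prod (fun p _ => by linarith)
      intro p hp
      exact (hQ p hp).2.2.1
    have h4 : ((∏ p ∈ Q, p : ℕ) : ℝ) ≤ A * (1 + |(g : ℝ)|) ^ c.natDegree := by
      refine le_trans ?_ (hA g)
      have : ((∏ p ∈ Q, p : ℕ) : ℝ) ≤ ((c.eval g).natAbs : ℝ) := by exact_mod_cast h2
      rwa [Nat.cast_natAbs, Int.cast_abs] at this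
    have h5 := Real.log_le_log (by positivity) (h3.trans h4)
    have hg1 : (1 : ℝ) ≤ 1 + |(g : ℝ)| := by linarith [abs_nonneg (g : ℝ)]
    rw [Real.log_pow, Real.log_mul (by positivity) (by positivity), Real.log_pow] at h5
    have h6 : 0 ≤ Real.log (1 + |(g : ℝ)|) := Real.log_nonneg hg1
    have h7 : (0 : ℝ) ≤ c.natDegree := by positivity
    nlinarith

end Pool.Agent.T2h89.SV
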