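import Pool.Agent.T2h89.SV12

/-! Sifted sets given by polynomials, and prime tuples. -/

set_option autoImplicit false

namespace Pool.Agent.T2h89.SV

open Finset Polynomial
open Pool.Agent.H319R3.GC
open Pool.Agent.H828R3.GP (Sy power_saving)
open Classical

variable {d : ℕ} {m r : ℕ → ℤ}

theorem exists_bR (d : ℕ) (m r : ℕ → ℤ) : ∃ b R : ℕ, (∀ i < d, |m i| ≤ b) ∧ d ≤ b ∧ ∀ i < d, |r i| ≤ R := by
  refine ⟨d + ∑ i ∈ range d, (m i).natAbs, ∑ i ∈ range d, (r i).natAbs, ?_, by omega, ?_⟩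
  · intro i hi
    have h1 : (m i).natAbs ≤ ∑ i ∈ range d, (m i).natAbs :=
      single_le_sum (f := fun i => (m i).natAbs) (fun _ _ => Nat.zero_le _) (mem_range.2 hi)
    rw [Int.abs_eq_natAbs]
    exact_mod_cast (by omega : (m i).natAbs ≤ d + ∑ i ∈ range d, (m i).natAbs)
  · intro i hi
    have h1 : (r i).natAbs ≤ ∑ i ∈ range d, (r i).natAbs :=
      single_le_sum (f := fun i => (r i).natAbs) (fun _ _ => Nat.zero_le _) (mem_range.2 hi)
    rw [Int.abs_eq_natAbs]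
    exact_mod_cast h1

theorem sift_poly (h : Adm d m r) {s η : ℝ} (hs : 0 < s) (hη0 : 0 ≤ η) (hη1 : η < 1)
    (hsum : ∑ j ∈ range d, (|(m j : ℝ)| / d) ^ s ≤ (d : ℝ) ^ η) {F : ℤ[X]} (hF : 0 < F.natDegree) :
    ∃ C : ℝ, 0 < C ∧ ∀ (X y : ℝ) (P : Finset ℕ), 1 ≤ X → 1 ≤ y → (∀ p ∈ P, p.Prime ∧ (p : ℝ) ≤ X) →
      ({x : ℤ | |(x : ℝ)| ≤ X ∧ (∀ p ∈ P, ¬ (p : ℤ) ∣ F.eval x) ∧ x ∈ Sy d m r y}.ncard : ℝ) ≤
        C * X * Real.exp (-∑ p ∈ P, (om (Bp F) p : ℝ) / p) *
          y ^ (-((1 - η) / (32 * (F.natDegree + 1)))) := by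
  obtain ⟨b, R, hb, hdb, hR⟩ := exists_bR d m r
  obtain ⟨zs, H0, CE, dat⟩ := dat_poly h.two_le hF
  obtain ⟨C, hC, hmain⟩ := sift_main h hs hη0 hη1 hsum dat hb hdb hR
  refine ⟨C, hC, fun X y P hX hy hP => ?_⟩
  have hX0 : 0 ≤ X := by linarith
  have h1 : 1 ≤ ⌊X⌋₊ := Nat.le_floor (by exact_mod_cast hX)
  have h2 := hmain ⌊X⌋₊ y P h1 hy (fun p hp => (hP p hp).1) (fun p hp => Nat.le_floor (hP p hp).2)
  have hset : ({x : ℤ | |(x : ℝ)| ≤ X ∧ (∀ p ∈ P, ¬ (p : ℤ) ∣ F.eval x) ∧ x ∈ Sy d m r y}.ncard : ℝ) =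
      ∑ n ∈ Icc (-(⌊X⌋₊ : ℤ)) ⌊X⌋₊, ind (Sy d m r y) n * rho (Bp F) P n := by
    have e1 : ∀ n : ℤ, ind (Sy d m r y) n * rho (Bp F) P n =
        if (∀ p ∈ P, ¬ (p : ℤ) ∣ F.eval n) ∧ n ∈ Sy d m r y then 1 else 0 := by
      intro n
      unfold ind rho Bp
      by_cases a1 : n ∈ Sy d m r y
      · by_cases a2 : ∀ p ∈ P, ¬ (p : ℤ) ∣ F.eval n
        · rw [if_pos a1, if_pos a2, if_pos ⟨a2, a1⟩, mul_one]
        · have a3 : ¬ ((∀ p ∈ P, ¬ (p : ℤ) ∣ F.eval n) ∧ n ∈ Sy d m r y) := fun h => a2 h.1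
          rw [if_neg a2, if_neg a3, mul_zero]
      · have a3 : ¬ ((∀ p ∈ P, ¬ (p : ℤ) ∣ F.eval n) ∧ n ∈ Sy d m r y) := fun h => a1 h.2
        rw [if_neg a1, if_neg a3, zero_mul]
    simp only [e1]
    rw [← sum_filter, sum_const, nsmul_eq_mul, mul_one]
    congr 1
    rw [← Set.ncard_coe_finset]
    congr 1
    ext n
    rw [mem_coe, mem_filter, mem_Icc, Set.mem_ofPred_eq, ← abs_le]
    have e2 : |(n : ℝ)| ≤ X ↔ |n| ≤ (⌊X⌋₊ : ℤ) := by
      constructor
      · intro h3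
        have h4 : ((n.natAbs : ℕ) : ℝ) ≤ X := by rw [Nat.cast_natAbs, Int.cast_abs]; exact h3
        have h5 := Nat.le_floor h4
        rw [Int.abs_eq_natAbs]
        exact_mod_cast h5
      · intro h3
        have h4 : |(n : ℝ)| ≤ (⌊X⌋₊ : ℝ) := by exact_mod_cast h3
        exact h4.trans (Nat.floor_le hX0)
    rw [e2]
  rw [hset]
  refine h2.trans ?_
  have h3 : (⌊X⌋₊ : ℝ) ≤ X := Nat.floor_le hX0
  gcongr

/-- the number of the roots of a product of linear factors -/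
theorem om_tuple {Hs : Finset ℤ} {p M : ℕ} (hp : p.Prime) (hM : ∀ h ∈ Hs, 2 * h.natAbs ≤ M) (hpM : M < p) :
    Hs.card ≤ om (Bp (∏ h ∈ Hs, (X + C h : ℤ[X]))) p := by
  have hp0 : (p : ℤ) ≠ 0 := by exact_mod_cast hp.ne_zero
  unfold om
  apply card_le_card_of_injOn (fun h : ℤ => ((-h) % (p : ℤ)).toNat)
  · intro h hh
    have h1 : 0 ≤ (-h) % (p : ℤ) := Int.emod_nonneg _ hp0
    have h2 : (-h) % (p : ℤ) < p := Int.emod_lt_of_pos _ (by exact_mod_cast hp.pos)
    rw [mem_coe, mem_filter, mem_range]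
    refine ⟨by simp only; omega, ?_⟩
    unfold Bp
    rw [Int.toNat_of_nonneg h1, eval_prod]
    refine (?_ : (p : ℤ) ∣ _).trans (dvd_prod_of_mem _ hh)
    rw [eval_add, eval_X, eval_C]
    have h3 := Int.emod_add_mul_ediv (-h) p
    exact ⟨-((-h) / p), by linarith⟩
  · intro h hh h' hh' hhh
    simp only at hhh
    have a1 := hM h hh
    have a2 := hM h' hh'
    have h1 : 0 ≤ (-h) % (p : ℤ) := Int.emod_nonneg _ hp0
    have h2 : 0 ≤ (-h') % (p : ℤ) := Int.emod_nonneg _ hp0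
    have h3 : (-h) % (p : ℤ) = (-h') % (p : ℤ) := by omega
    have h4 : (p : ℤ) ∣ h - h' := by
      have h5 : (p : ℤ) ∣ (-h') - (-h) := Int.ModEq.dvd h3
      have h6 : (-h') - (-h) = h - h' := by ring
      rwa [h6] at h5
    by_contra hne
    have h5 : h - h' ≠ 0 := sub_ne_zero.2 hne
    have h6 := Int.natAbs_le_of_dvd_ne_zero h4 h5
    omega

theorem tuple_sum {Hs : Finset ℤ} {M N : ℕ} (hM : ∀ h ∈ Hs, 2 * h.natAbs ≤ M) {CM : ℝ} (hCM : 0 ≤ CM)
    (hmert : |∑ p ∈ (Icc 1 N).filter Nat.Prime, (1 : ℝ) / p - Real.log (Real.log N)| ≤ CM) :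
    Hs.card * (Real.log (Real.log N) - CM - M) ≤
      ∑ p ∈ (Icc 1 N).filter Nat.Prime, (om (Bp (∏ h ∈ Hs, (X + C h : ℤ[X]))) p : ℝ) / p := by
  have h1 := (abs_le.1 hmert).1
  have h2 : ∑ p ∈ (Icc 1 N).filter Nat.Prime, (1 : ℝ) / p ≤
      ∑ p ∈ ((Icc 1 N).filter Nat.Prime).filter (fun p => M < p), (1 : ℝ) / p + M := by
    rw [← sum_filter_add_sum_filter_not ((Icc 1 N).filter Nat.Prime) (fun p => M < p)]
    have h3 : ∑ p ∈ ((Icc 1 N).filter Nat.Prime).filter (fun p => ¬ M < p), (1 : ℝ) / p ≤ M := by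
      calc ∑ p ∈ ((Icc 1 N).filter Nat.Prime).filter (fun p => ¬ M < p), (1 : ℝ) / p
          ≤ ∑ p ∈ ((Icc 1 N).filter Nat.Prime).filter (fun p => ¬ M < p), (1 : ℝ) := by
            apply sum_le_sum
            intro p hp
            rw [mem_filter, mem_filter, mem_Icc] at hp
            rw [div_le_one (by exact_mod_cast (by omega : 0 < p))]
            exact_mod_cast hp.1.1.1
        _ = ((((Icc 1 N).filter Nat.Prime).filter (fun p => ¬ M < p)).card : ℝ) := by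
            rw [sum_const, nsmul_eq_mul, mul_one]
        _ ≤ ((Icc 1 M).card : ℝ) := by
            have : (((Icc 1 N).filter Nat.Prime).filter (fun p => ¬ M < p)).card ≤ (Icc 1 M).card := by
              apply card_le_card
              intro p hp
              rw [mem_filter, mem_filter, mem_Icc] at hp
              rw [mem_Icc]; omega
            exact_mod_cast this
        _ = M := by rw [Nat.card_Icc]; simp
    linarith
  have h3 : ∑ p ∈ ((Icc 1 N).filter Nat.Prime).filter (fun p => M < p), (Hs.card : ℝ) * ((1 : ℝ) / p) ≤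
      ∑ p ∈ (Icc 1 N).filter Nat.Prime, (om (Bp (∏ h ∈ Hs, (X + C h : ℤ[X]))) p : ℝ) / p := by
    calc ∑ p ∈ ((Icc 1 N).filter Nat.Prime).filter (fun p => M < p), (Hs.card : ℝ) * ((1 : ℝ) / p)
        ≤ ∑ p ∈ ((Icc 1 N).filter Nat.Prime).filter (fun p => M < p),
            (om (Bp (∏ h ∈ Hs, (X + C h : ℤ[X]))) p : ℝ) / p := by
          apply sum_le_sum
          intro p hp
          rw [mem_filter, mem_filter] at hp
          have h4 : (Hs.card : ℝ) ≤ om (Bp (∏ h ∈ Hs, (X + C h : ℤ[X]))) p := by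
            exact_mod_cast om_tuple hp.1.2 hM hp.2
          rw [mul_one_div]
          gcongr
      _ ≤ _ := by
          apply sum_le_sum_of_subset_of_nonneg (filter_subset _ _)
          intro p _ _
          positivity
  refine le_trans ?_ h3
  rw [← mul_sum]
  apply mul_le_mul_of_nonneg_left _ (by positivity)
  linarith

theorem tuples (h : Adm d m r) {s η : ℝ} (hs : 0 < s) (hη0 : 0 ≤ η) (hη1 : η < 1)
    (hsum : ∑ j ∈ range d, (|(m j : ℝ)| / d) ^ s ≤ (d : ℝ) ^ η) {Hs : Finset ℤ} (hH : Hs.Nonempty) :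
    ∃ Ct : ℝ, 0 < Ct ∧ ∀ X y : ℝ, 2 ≤ X → 1 ≤ y →
      ({n : ℤ | 1 ≤ n ∧ (n : ℝ) ≤ X ∧ (∀ h ∈ Hs, (n + h).toNat.Prime) ∧ n ∈ Sy d m r y}.ncard : ℝ) ≤
        Ct * (X / Real.log X ^ Hs.card) * y ^ (-((1 - η) / (32 * (Hs.card + 1)))) := by
  obtain ⟨k, hk⟩ : ∃ k : ℕ, k = Hs.card := ⟨_, rfl⟩
  have hk1 : 1 ≤ k := by rw [hk]; exact hH.card_pos
  obtain ⟨F, hF⟩ : ∃ F : ℤ[X], F = ∏ h ∈ Hs, (Polynomial.X + Polynomial.C h : ℤ[X]) := ⟨_, rfl⟩
  have hFd : F.natDegree = k := by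
    rw [hF, natDegree_prod_of_monic _ _ (fun h _ => monic_X_add_C h), hk, card_eq_sum_ones]
    exact sum_congr rfl fun h _ => natDegree_X_add_C h
  obtain ⟨C1, hC1, hmain⟩ := sift_poly h hs hη0 hη1 hsum (F := F) (by omega)
  obtain ⟨CM, hmert⟩ := Pool.Agent.Erdos456.Mert.mertens_inv
  have hCM : 0 ≤ CM := (abs_nonneg _).trans (hmert 3 le_rfl)
  rw [hFd] at hmain
  rw [← hk]
  obtain ⟨γ, hγ⟩ : ∃ γ : ℝ, γ = (1 - η) / (32 * ((k : ℝ) + 1)) := ⟨_, rfl⟩
  rw [← hγ] at hmain ⊢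
  have hk0 : (0 : ℝ) < k := by exact_mod_cast hk1
  have hγ0 : 0 < γ := by rw [hγ]; apply div_pos (by linarith) (by positivity)
  have hγ1 : γ ≤ 1 / 4 := by
    rw [hγ, div_le_iff₀ (by positivity)]
    nlinarith
  obtain ⟨M, hMd⟩ : ∃ M : ℕ, M = ∑ h ∈ Hs, 2 * h.natAbs := ⟨_, rfl⟩
  have hM : ∀ h ∈ Hs, 2 * h.natAbs ≤ M := by
    intro h hh
    rw [hMd]
    exact single_le_sum (f := fun h : ℤ => 2 * h.natAbs) (fun _ _ => Nat.zero_le _) hh
  refine ⟨C1 * 4 ^ k * Real.exp (k * (CM + M)) + (1 + M) * (4 * k) ^ k + 100 * 3 ^ k, by positivity,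
    fun X y hX hy => ?_⟩
  have hX0 : 0 < X := by linarith
  have hy0 : 0 < y := by linarith
  have hlX : 0 < Real.log X := Real.log_pos (by linarith)
  have hyγ : 0 < y ^ (-γ) := Real.rpow_pos_of_pos hy0 _
  have hXl : 0 < X / Real.log X ^ k := by positivity
  rcases lt_or_ge X y with hyX | hyX
  · -- the set is empty
    have h0 : {n : ℤ | 1 ≤ n ∧ (n : ℝ) ≤ X ∧ (∀ h ∈ Hs, (n + h).toNat.Prime) ∧ n ∈ Sy d m r y} = ∅ := by
      apply Set.eq_empty_of_forall_notMem
      rintro n ⟨h1, h2, -, h4⟩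
      have h5 := h4 0
      simp only [Function.iterate_zero, id] at h5
      have h6 : (1 : ℝ) ≤ n := by exact_mod_cast h1
      rw [abs_of_pos (by linarith)] at h5
      linarith
    rw [h0, Set.ncard_empty, Nat.cast_zero]
    positivity
  · rcases lt_or_ge X 9 with hsm | hbig
    · have h1 : ({n : ℤ | 1 ≤ n ∧ (n : ℝ) ≤ X ∧ (∀ h ∈ Hs, (n + h).toNat.Prime) ∧ n ∈ Sy d m r y}.ncard : ℝ)
          ≤ 9 := by
        have h2 : {n : ℤ | 1 ≤ n ∧ (n : ℝ) ≤ X ∧ (∀ h ∈ Hs, (n + h).toNat.Prime) ∧ n ∈ Sy d m r y} ⊆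
            (Icc (1 : ℤ) 9 : Finset ℤ) := by
          rintro n ⟨h3, h4, -, -⟩
          rw [mem_coe, mem_Icc]
          refine ⟨h3, ?_⟩
          have : (n : ℝ) ≤ 9 := by linarith
          exact_mod_cast this
        have h3 := Set.ncard_le_ncard h2 (finite_toSet _)
        rw [Set.ncard_coe_finset] at h3
        have h4 : (Icc (1 : ℤ) 9).card = 9 := by simp
        rw [h4] at h3
        exact_mod_cast h3
      refine h1.trans ?_
      have h2 : Real.log X ≤ 3 := by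
        have h3 : Real.log X ≤ Real.log 9 := Real.log_le_log hX0 hsm.le
        have h4 : Real.log 9 = 2 * Real.log 3 := by
          rw [show (9 : ℝ) = 3 ^ 2 by norm_num, Real.log_pow]; push_cast; ring
        have h5 : Real.log 3 ≤ 3 / 2 := by
          have h6 : Real.log 3 ≤ Real.log 4 := Real.log_le_log (by norm_num) (by norm_num)
          have h7 : Real.log 4 = 2 * Real.log 2 := by
            rw [show (4 : ℝ) = 2 ^ 2 by norm_num, Real.log_pow]; push_cast; ring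
          have := Real.log_two_lt_d9
          linarith
        linarith
      have h3 : 1 / 9 ≤ y ^ (-γ) := by
        rw [Real.rpow_neg hy0.le, ← one_div]
        apply one_div_le_one_div_of_le (by positivity)
        calc y ^ γ ≤ y ^ (1 : ℝ) := Real.rpow_le_rpow_of_exponent_le hy (by linarith)
          _ = y := Real.rpow_one _
          _ ≤ 9 := by linarith
      have h4 : 2 / 3 ^ k ≤ X / Real.log X ^ k := by
        apply div_le_div₀ (by linarith) hX (by positivity)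
        exact pow_le_pow_left₀ hlX.le h2 k
      calc (9 : ℝ) ≤ 100 * 3 ^ k * (2 / 3 ^ k) * (1 / 9) := by
            rw [show (100 : ℝ) * 3 ^ k * (2 / 3 ^ k) = 200 by field_simp; norm_num]
            norm_num
        _ ≤ (C1 * 4 ^ k * Real.exp (k * (CM + M)) + (1 + M) * (4 * k) ^ k + 100 * 3 ^ k) *
            (X / Real.log X ^ k) * y ^ (-γ) := by
            gcongr
            have : 0 ≤ C1 * 4 ^ k * Real.exp (k * (CM + M)) + (1 + M) * (4 * (k : ℝ)) ^ k := by positivity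
            linarith
    · obtain ⟨N, hN⟩ : ∃ N : ℕ, N = ⌊√ X⌋₊ := ⟨_, rfl⟩
      have hs3 : (3 : ℝ) ≤ √ X := by
        apply Real.le_sqrt_of_sq_le; linarith
      have hN3 : 3 ≤ N := by rw [hN]; exact Nat.le_floor (by exact_mod_cast hs3)
      have hNs : (N : ℝ) ≤ √ X := by rw [hN]; exact Nat.floor_le (Real.sqrt_nonneg _)
      have hsX : √ X ≤ X := by
        rw [Real.sqrt_le_left hX0.le]; nlinarith
      obtain ⟨P, hP⟩ : ∃ P : Finset ℕ, P = (Icc 1 N).filter Nat.Prime := ⟨_, rfl⟩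
      have hPm : ∀ p ∈ P, p.Prime ∧ p ≤ N := by
        intro p hp
        rw [hP, mem_filter, mem_Icc] at hp
        exact ⟨hp.2, hp.1.2⟩
      have h1 := hmain X y P (by linarith) hy (fun p hp => ⟨(hPm p hp).1, by
        have : (p : ℝ) ≤ N := by exact_mod_cast (hPm p hp).2
        linarith⟩)
      have h2 := tuple_sum (N := N) hM hCM (hmert N hN3)
      rw [← hF, ← hP, ← hk] at h2
      have hlN : Real.log X / 4 ≤ Real.log N := by
        have h3 : X ^ (1 / 4 : ℝ) ≤ N := by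
          have h4 := Nat.lt_floor_add_one (√ X)
          rw [← hN] at h4
          set t : ℝ := X ^ (1 / 4 : ℝ) with ht
          have ht2 : √ X = t ^ 2 := by
            rw [Real.sqrt_eq_rpow, ht, ← Real.rpow_natCast, ← Real.rpow_mul hX0.le]; norm_num
          have ht0 : 0 < t := by positivity
          have ht1 : 17 / 10 ≤ t := by
            by_contra hcon
            push Not at hcon
            nlinarith
          nlinarith
        have h4 := Real.log_le_log (by positivity) h3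
        rw [Real.log_rpow hX0] at h4
        linarith
      have hlN0 : 0 < Real.log N := by linarith
      have h3 : Real.exp (-∑ p ∈ P, (om (Bp F) p : ℝ) / p) ≤
          4 ^ k * Real.exp (k * (CM + M)) / Real.log X ^ k := by
        calc Real.exp (-∑ p ∈ P, (om (Bp F) p : ℝ) / p)
            ≤ Real.exp (k * (CM + M) + -(k * Real.log (Real.log N))) := by
              apply Real.exp_le_exp.2; linarith
          _ = Real.exp (k * (CM + M)) * (1 / Real.log N) ^ k := by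
              rw [Real.exp_add]
              congr 1
              rw [Real.exp_neg, Real.exp_nat_mul, Real.exp_log hlN0, one_div_pow, one_div]
          _ ≤ Real.exp (k * (CM + M)) * (1 / (Real.log X / 4)) ^ k := by
              gcongr
          _ = _ := by
              rw [one_div_div, div_pow]; ring
      -- the decomposition
      have hsub : {n : ℤ | 1 ≤ n ∧ (n : ℝ) ≤ X ∧ (∀ h ∈ Hs, (n + h).toNat.Prime) ∧ n ∈ Sy d m r y} ⊆
          {x : ℤ | |(x : ℝ)| ≤ X ∧ (∀ p ∈ P, ¬ (p : ℤ) ∣ F.eval x) ∧ x ∈ Sy d m r y} ∪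
          ((Icc (1 : ℤ) ((N + M : ℕ) : ℤ) : Finset ℤ) : Set ℤ) := by
        rintro n ⟨a1, a2, a3, a4⟩
        by_cases hc : ∃ h ∈ Hs, n + h ≤ N
        · right
          obtain ⟨h, hh, hle⟩ := hc
          have := hM h hh
          rw [mem_coe, mem_Icc]
          push_cast
          omega
        · left
          push Not at hc
          have a1' : (1 : ℝ) ≤ n := by exact_mod_cast a1
          refine ⟨by rw [abs_of_pos (by linarith)]; exact a2, ?_, a4⟩
          intro p hp hdvd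
          rw [hF, eval_prod] at hdvd
          have hpp : Prime (p : ℤ) := Nat.prime_iff_prime_int.1 (hPm p hp).1
          obtain ⟨h, hh, hdvd'⟩ := (Prime.dvd_finsetProd_iff hpp _).1 hdvd
          rw [eval_add, eval_X, eval_C] at hdvd'
          have h5 := a3 h hh
          have h6 := hc h hh
          have h7 : ((n + h).toNat : ℤ) = n + h := Int.toNat_of_nonneg (by
            have : (0 : ℤ) ≤ N := by positivity
            linarith)
          rw [← h7, Int.natCast_dvd_natCast] at hdvd'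
          have h8 := (Nat.prime_dvd_prime_iff_eq (hPm p hp).1 h5).1 hdvd'
          have h9 := (hPm p hp).2
          omega
      have hfin1 : {x : ℤ | |(x : ℝ)| ≤ X ∧ (∀ p ∈ P, ¬ (p : ℤ) ∣ F.eval x) ∧ x ∈ Sy d m r y}.Finite := by
        apply (Set.finite_Icc (-⌈X⌉) ⌈X⌉).subset
        rintro x ⟨hx, -⟩
        have h1 := abs_le.1 hx
        have h2 := Int.le_ceil X
        rw [Set.mem_Icc]
        constructor
        · have : (-(⌈X⌉ : ℤ) : ℝ) ≤ x := by linarith
          exact_mod_cast this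
        · have : (x : ℝ) ≤ (⌈X⌉ : ℤ) := by linarith
          exact_mod_cast this
      have h4 := (Set.ncard_le_ncard hsub (hfin1.union (finite_toSet _))).trans (Set.ncard_union_le _ _)
      rw [Set.ncard_coe_finset, Int.card_Icc] at h4
      have h5 : (((N + M : ℕ) : ℤ) + 1 - 1).toNat = N + M := by omega
      rw [h5] at h4
      have h6 : ({n : ℤ | 1 ≤ n ∧ (n : ℝ) ≤ X ∧ (∀ h ∈ Hs, (n + h).toNat.Prime) ∧ n ∈ Sy d m r y}.ncard : ℝ)
          ≤ ({x : ℤ | |(x : ℝ)| ≤ X ∧ (∀ p ∈ P, ¬ (p : ℤ) ∣ F.eval x) ∧ x ∈ Sy d m r y}.ncard : ℝ) +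
            ((N : ℝ) + M) := by exact_mod_cast h4
      refine h6.trans ?_
      have h7 : (N : ℝ) + M ≤ (1 + M) * (4 * k) ^ k * (X / Real.log X ^ k) * y ^ (-γ) := by
        have a1 : (N : ℝ) + M ≤ (1 + M) * √ X := by
          have : (0 : ℝ) ≤ M := by positivity
          nlinarith
        have a2 : Real.log X ^ k ≤ (4 * k) ^ k * X ^ (1 / 4 : ℝ) := by
          have a3 : Real.log X ≤ (4 * k) * X ^ (1 / (4 * k) : ℝ) := by
            have := Real.log_le_rpow_div hX0.le (show (0 : ℝ) < 1 / (4 * k) by positivity)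
            calc Real.log X ≤ X ^ (1 / (4 * k) : ℝ) / (1 / (4 * k)) := this
              _ = _ := by field_simp
          calc Real.log X ^ k ≤ ((4 * k) * X ^ (1 / (4 * k) : ℝ)) ^ k := pow_le_pow_left₀ hlX.le a3 k
            _ = (4 * k) ^ k * X ^ (1 / 4 : ℝ) := by
                rw [mul_pow, ← Real.rpow_natCast (X ^ (1 / (4 * k) : ℝ)), ← Real.rpow_mul hX0.le]
                congr 2
                field_simp
        have a3 : X ^ (-(1 / 4) : ℝ) ≤ y ^ (-γ) := by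
          calc X ^ (-(1 / 4) : ℝ) ≤ y ^ (-(1 / 4) : ℝ) :=
                Real.rpow_le_rpow_of_nonpos hy0 hyX (by norm_num)
            _ ≤ y ^ (-γ) := Real.rpow_le_rpow_of_exponent_le hy (by linarith)
        have a4 : √ X ≤ (4 * k) ^ k * (X / Real.log X ^ k) * y ^ (-γ) := by
          have a5 : X ^ (3 / 4 : ℝ) ≤ (4 * k) ^ k * (X / Real.log X ^ k) := by
            rw [mul_div_assoc', le_div_iff₀ (by positivity)]
            calc X ^ (3 / 4 : ℝ) * Real.log X ^ k ≤ X ^ (3 / 4 : ℝ) * ((4 * k) ^ k * X ^ (1 / 4 : ℝ)) := by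
                  gcongr
              _ = (4 * k) ^ k * (X ^ (3 / 4 : ℝ) * X ^ (1 / 4 : ℝ)) := by ring
              _ = (4 * k) ^ k * X := by
                  rw [← Real.rpow_add hX0]; norm_num
          calc √ X = X ^ (3 / 4 : ℝ) * X ^ (-(1 / 4) : ℝ) := by
                rw [Real.sqrt_eq_rpow, ← Real.rpow_add hX0]; norm_num
            _ ≤ _ := mul_le_mul a5 a3 (by positivity) (by positivity)
        calc (N : ℝ) + M ≤ (1 + M) * √ X := a1
          _ ≤ (1 + M) * ((4 * k) ^ k * (X / Real.log X ^ k) * y ^ (-γ)) := by gcongr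
          _ = _ := by ring
      have h8 : ({x : ℤ | |(x : ℝ)| ≤ X ∧ (∀ p ∈ P, ¬ (p : ℤ) ∣ F.eval x) ∧ x ∈ Sy d m r y}.ncard : ℝ) ≤
          C1 * 4 ^ k * Real.exp (k * (CM + M)) * (X / Real.log X ^ k) * y ^ (-γ) := by
        refine h1.trans ?_
        calc C1 * X * Real.exp (-∑ p ∈ P, (om (Bp F) p : ℝ) / p) * y ^ (-γ)
            ≤ C1 * X * (4 ^ k * Real.exp (k * (CM + M)) / Real.log X ^ k) * y ^ (-γ) := by gcongr
          _ = _ := by ring
      have h9 : 0 ≤ 100 * 3 ^ k * (X / Real.log X ^ k) * y ^ (-γ) := by positivity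
      calc ({x : ℤ | |(x : ℝ)| ≤ X ∧ (∀ p ∈ P, ¬ (p : ℤ) ∣ F.eval x) ∧ x ∈ Sy d m r y}.ncard : ℝ) +
            ((N : ℝ) + M)
          ≤ C1 * 4 ^ k * Real.exp (k * (CM + M)) * (X / Real.log X ^ k) * y ^ (-γ) +
            (1 + M) * (4 * k) ^ k * (X / Real.log X ^ k) * y ^ (-γ) +
            100 * 3 ^ k * (X / Real.log X ^ k) * y ^ (-γ) := by linarith
        _ = _ := by ring

end Pool.Agent.T2h89.SV
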