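import Pool.Agent.T2h89.SV1
import Pool.Agent.Q51.EL.LSV
import Pool.Agent.Q91.EL.Sums

/-! The large sieve for conditions periodic modulo primes along arithmetic progressions, and second
moments over finite sets of shifts. -/

set_option autoImplicit false

namespace Pool.Agent.T2h89.SV

open Finset
open Pool.Agent.H319R3.GC (sum_affine sum_range_mul)
open Classical

variable {B : ℕ → ℤ → Prop}

theorem om_aff {p : ℕ} (hp : 0 < p) (h : ∀ x : ℤ, B p (x + p) ↔ B p x) {u : ℤ}
    (hu : IsCoprime u (p : ℤ)) (g : ℤ) :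
    ((range p).filter (fun a : ℕ => B p (u * (a : ℤ) + g))).card = om B p := by
  have h1 := sum_affine (D := p) hp (f := fun x => if B p x then (1 : ℝ) else 0)
    (by intro x; simp only [h x]) hu g
  rw [← sum_filter, ← sum_filter, sum_const, sum_const, nsmul_eq_mul, nsmul_eq_mul, mul_one, mul_one] at h1
  unfold om
  exact_mod_cast h1

/-- the upper bound sieve -/
theorem sieve_up (A : ℕ) : ∃ C : ℝ, 0 < C ∧ ∀ (B : ℕ → ℤ → Prop) (P : Finset ℕ) (Q L : ℕ) (a δ : ℤ),
    1 ≤ Q → Q ^ 2 ≤ L → (∀ p ∈ P, p.Prime) → (∀ p ∈ P, p ≤ Q) → Per B P → (∀ p ∈ P, om B p ≤ A) →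
    (∀ p ∈ P, IsCoprime δ (p : ℤ)) →
    ∑ t ∈ range L, rho B P (a + δ * t) ≤ C * L * Real.exp (- ∑ p ∈ P, (om B p : ℝ) / p) := by
  obtain ⟨c, hc, hS⟩ := Pool.Agent.Q91.EL.sums ((A : ℝ) + 1) (by positivity)
  refine ⟨12 / c, by positivity, fun B P Q L a δ hQ hQL hP hPQ hPer hA hδ => ?_⟩
  set P' : Finset ℕ := P.filter (fun p => 0 < om B p) with hP'
  set η : ℕ → ℝ := fun p => (om B p : ℝ) / p with hη
  set Om : (t : ℕ) → Finset (Fin 1 → ZMod t) := fun t =>
    ((range t).filter (fun c : ℕ => ¬ B t (δ * (c : ℤ) + (a - δ)))).image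
      (fun c : ℕ => (fun _ : Fin 1 => ((c : ℕ) : ZMod t))) with hOm
  set Z : Finset (Fin 1 → ℕ) := ((range L).filter (fun t : ℕ => ∀ p ∈ P, ¬ B p (a + δ * (t : ℤ)))).image
    (fun t : ℕ => (fun _ : Fin 1 => t + 1)) with hZ
  have hL1 : 1 ≤ L := le_trans (Nat.one_le_pow _ _ (by omega)) hQL
  have hmem' : ∀ p ∈ P', p ∈ P ∧ 0 < om B p := fun p hp => by rwa [hP', mem_filter] at hp
  have h1 := Pool.Agent.Q51.EL.lsv 1 L Q (fun _ => 0) P' Z Om η hL1 hQL (fun t ht => hP t (hmem' t ht).1)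
    (by
      intro z hz i
      rw [hZ, mem_image] at hz
      obtain ⟨t, ht, rfl⟩ := hz
      rw [mem_filter, mem_range] at ht
      have := ht.1
      rw [mem_Ioc]
      constructor
      · positivity
      · show t + 1 ≤ 0 + L
        omega)
    (by
      intro t ht
      have h2 := (hmem' t ht).2
      have h3 := (hP t (hmem' t ht).1).pos
      have : (0 : ℝ) < om B t := by exact_mod_cast h2
      have : (0 : ℝ) < t := by exact_mod_cast h3
      rw [hη]; positivity)
    (by
      intro t ht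
      have htP := (hmem' t ht).1
      have ht0 := (hP t htP).pos
      have ht0' : (0 : ℝ) < t := by exact_mod_cast ht0
      have h2 : ((Om t).card : ℝ) ≤ ((range t).filter (fun c : ℕ => ¬ B t (δ * (c : ℤ) + (a - δ)))).card := by
        exact_mod_cast card_image_le
      have h3 := card_filter_add_card_filter_not (s := range t)
        (fun c : ℕ => B t (δ * (c : ℤ) + (a - δ)))
      rw [card_range, om_aff ht0 (hPer t htP) (hδ t htP)] at h3
      have h4 : ((om B t : ℕ) : ℝ) + ((range t).filter (fun c : ℕ => ¬ B t (δ * (c : ℤ) + (a - δ)))).card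
          = t := by exact_mod_cast h3
      have h5 : (1 - η t) * (t : ℝ) ^ 1 = t - om B t := by
        rw [hη]; field_simp
      rw [h5]; linarith)
    (by
      intro z hz t ht
      rw [hZ, mem_image] at hz
      obtain ⟨s, hs, rfl⟩ := hz
      rw [mem_filter] at hs
      have htP := (hmem' t ht).1
      have ht0 := (hP t htP).pos
      rw [hOm, mem_image]
      refine ⟨(s + 1) % t, ?_, ?_⟩
      · rw [mem_filter, mem_range]
        refine ⟨Nat.mod_lt _ ht0, ?_⟩
        have h2 := hs.2 t htP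
        intro h3
        apply h2
        have h4 : a + δ * (s : ℤ) = δ * (((s + 1) % t : ℕ) : ℤ) + (a - δ) + (δ * ((s + 1) / t : ℕ)) * t := by
          have h5 : (((s + 1 : ℕ)) : ℤ) = ((s + 1) % t : ℕ) + (t : ℤ) * ((s + 1) / t : ℕ) := by
            exact_mod_cast (Nat.mod_add_div (s + 1) t).symm
          have h6 : (s : ℤ) = ((s + 1) % t : ℕ) + (t : ℤ) * ((s + 1) / t : ℕ) - 1 := by
            rw [← h5]; push_cast; ring
          rw [h6]; ring
        rw [h4, hPer.mul htP]
        exact h3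
      · funext i
        rw [ZMod.natCast_mod])
  have h2 := hS Q P' η hQ (fun t ht => hP t (hmem' t ht).1) (fun t ht => hPQ t (hmem' t ht).1)
    (by
      intro t ht
      have h3 := (hP t (hmem' t ht).1).pos
      have h4 : (om B t : ℝ) ≤ A := by exact_mod_cast hA t (hmem' t ht).1
      have : (0 : ℝ) < t := by exact_mod_cast h3
      refine ⟨by rw [hη]; positivity, ?_⟩
      rw [hη]
      apply div_le_div_of_nonneg_right _ this.le
      linarith)
  have h3 : ∑ p ∈ P', η p = ∑ p ∈ P, (om B p : ℝ) / p := by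
    rw [hP', sum_filter]
    apply sum_congr rfl
    intro p _
    by_cases h0 : 0 < om B p
    · rw [if_pos h0]
    · have : om B p = 0 := by omega
      rw [if_neg h0, this]; simp
  rw [h3] at h2
  have h4 : ∑ t ∈ range L, rho B P (a + δ * t) = Z.card := by
    rw [hZ, card_image_of_injective]
    · unfold rho
      rw [← sum_filter, sum_const, nsmul_eq_mul, mul_one]
    · intro x y hxy
      have := congrFun hxy 0
      simpa using this
  rw [h4]
  set E : ℝ := Real.exp (∑ p ∈ P, (om B p : ℝ) / p) with hE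
  have hE0 : 0 < E := Real.exp_pos _
  have h5 : (Z.card : ℝ) * (c * E) ≤ 12 * L := by
    calc (Z.card : ℝ) * (c * E) ≤ Z.card * ∑ D ∈ P'.powerset.filter (fun D => ∏ t ∈ D, t ≤ Q), ∏ t ∈ D, η t := by
          gcongr
      _ ≤ (12 * (L : ℝ)) ^ 1 := h1
      _ = 12 * L := pow_one _
  rw [Real.exp_neg, ← hE]
  have h6 : (Z.card : ℝ) ≤ 12 * L / (c * E) := by
    rw [le_div_iff₀ (by positivity)]; exact h5
  calc (Z.card : ℝ) ≤ 12 * L / (c * E) := h6
    _ = 12 / c * L * E⁻¹ := by field_simp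

/-- second moments over finite sets of shifts from correlations -/
theorem second_moment (A : Finset ℤ) (H0 : Finset ℤ) (L : ℕ) (φ : ℤ → ℝ) (δ : ℤ) {α β : ℝ} (hα : 0 ≤ α)
    (hβ : 0 ≤ β)
    (h1 : ∀ a ∈ A, ∀ b ∈ A, b - a ∉ H0 →
      ∑ t ∈ range L, φ (a + δ * t) * φ (b + δ * t) ≤ L * α)
    (h2 : ∀ a ∈ A, ∀ b ∈ A, ∑ t ∈ range L, φ (a + δ * t) * φ (b + δ * t) ≤ L * β) :
    ∑ t ∈ range L, (∑ a ∈ A, φ (a + δ * t)) ^ 2 ≤
      L * (α * (A.card : ℝ) ^ 2 + (H0.card * β) * A.card) := by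
  have e1 : ∑ t ∈ range L, (∑ a ∈ A, φ (a + δ * t)) ^ 2 =
      ∑ a ∈ A, ∑ b ∈ A, ∑ t ∈ range L, φ (a + δ * t) * φ (b + δ * t) := by
    have : ∀ t : ℕ, (∑ a ∈ A, φ (a + δ * t)) ^ 2 = ∑ a ∈ A, ∑ b ∈ A, φ (a + δ * t) * φ (b + δ * t) := by
      intro t
      rw [sq, sum_mul_sum]
    simp only [this]
    rw [sum_comm]
    apply sum_congr rfl
    intro a _
    rw [sum_comm]
  rw [e1]
  have e2 : ∀ a ∈ A, ∑ b ∈ A, ∑ t ∈ range L, φ (a + δ * t) * φ (b + δ * t) ≤
      L * (α * A.card + H0.card * β) := by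
    intro a ha
    have h3 : ∀ b ∈ A, ∑ t ∈ range L, φ (a + δ * t) * φ (b + δ * t) ≤
        L * α + (if b - a ∈ H0 then L * β else 0) := by
      intro b hb
      by_cases h : b - a ∈ H0
      · rw [if_pos h]
        have := h2 a ha b hb
        have : 0 ≤ (L : ℝ) * α := by positivity
        linarith
      · rw [if_neg h, add_zero]
        exact h1 a ha b hb h
    refine (sum_le_sum h3).trans ?_
    rw [sum_add_distrib, sum_const, nsmul_eq_mul, ← sum_filter, sum_const, nsmul_eq_mul]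
    have h4 : ((A.filter (fun b => b - a ∈ H0)).card : ℝ) ≤ H0.card := by
      have : (A.filter (fun b => b - a ∈ H0)).card ≤ H0.card := by
        apply card_le_card_of_injOn (fun b => b - a)
        · intro b hb
          rw [mem_coe, mem_filter] at hb
          exact hb.2
        · intro x _ y _ hxy
          simpa using hxy
      exact_mod_cast this
    have h5 : ((A.filter (fun b => b - a ∈ H0)).card : ℝ) * (L * β) ≤ H0.card * (L * β) := by
      gcongr
    linarith
  refine (sum_le_sum e2).trans ?_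
  rw [sum_const, nsmul_eq_mul]
  apply le_of_eq
  ring

/-- cell estimate for sifted sets with exact densities -/
theorem cell_exact {P : Finset ℕ} (hP : ∀ p ∈ P, p.Prime) (h : Per B P) {δ : ℤ}
    (hδ : ∀ p ∈ P, IsCoprime δ (p : ℤ)) {L : ℕ} (hL : (∏ p ∈ P, p) ∣ L) {D z k : ℕ}
    (hD : ∀ p ∈ P, om B p ≤ D) (hz : ∀ p ∈ P, z ≤ p) (hDz : D < z) (A H0 : Finset ℤ)
    (hk : ∀ a ∈ A, ∀ b ∈ A, b - a ∉ H0 → (P.filter (fun p => ovl B p (b - a))).card ≤ k) :
    ∑ t ∈ range L, (∑ a ∈ A, (rho B P (a + δ * t) - lam B P)) ^ 2 ≤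
      L * (lam B P ^ 2 * (((1 - (D : ℝ) / z)⁻¹) ^ k - 1) * (A.card : ℝ) ^ 2 +
        (H0.card * lam B P) * A.card) := by
  have hz0 : (0 : ℝ) < z := by
    have : (D : ℝ) < z := by exact_mod_cast hDz
    have : (0 : ℝ) ≤ D := by positivity
    linarith
  have hDz' : (D : ℝ) / z < 1 := by
    rw [div_lt_one hz0]; exact_mod_cast hDz
  set G : ℝ := (1 - (D : ℝ) / z)⁻¹ with hG
  have hG1 : 1 ≤ G := by
    rw [hG]; apply (one_le_inv₀ (by linarith)).2
    have : (0 : ℝ) ≤ (D : ℝ) / z := by positivity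
    linarith
  have hGk : 1 ≤ G ^ k := one_le_pow₀ hG1
  have hlam := lam_nonneg (B := B) P
  have e1 : ∀ a b : ℤ, ∑ t ∈ range L, (rho B P (a + δ * t) - lam B P) * (rho B P (b + δ * t) - lam B P)
      = L * lam (two B (b - a)) P - L * lam B P ^ 2 := by
    intro a b
    have h1 : ∀ t : ℕ, (rho B P (a + δ * t) - lam B P) * (rho B P (b + δ * t) - lam B P) =
        rho (two B (b - a)) P (a + δ * t) - lam B P * rho B P (a + δ * t)
          - lam B P * rho B P (b + δ * t) + lam B P ^ 2 := by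
      intro t
      rw [rho_two, show a + δ * (t : ℤ) + (b - a) = b + δ * t by ring]
      ring
    simp only [h1]
    rw [sum_add_distrib, sum_sub_distrib, sum_sub_distrib, ← mul_sum, ← mul_sum, crt_aff hP h hδ a hL,
      crt_aff hP h hδ b hL, crt_aff hP (two_per h _) hδ a hL, sum_const, card_range, nsmul_eq_mul]
    ring
  refine second_moment A H0 L (fun x => rho B P x - lam B P) δ
    (α := lam B P ^ 2 * (G ^ k - 1)) (β := lam B P) (by
      apply mul_nonneg (by positivity); linarith) hlam ?_ ?_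
  · intro a ha b hb hab
    rw [e1]
    have h2 := lam_two_le hP h (b - a) hD hz hDz (hk a ha b hb hab)
    have hL0 : (0 : ℝ) ≤ L := by positivity
    nlinarith
  · intro a ha b hb
    rw [e1]
    have h2 : lam (two B (b - a)) P ≤ lam B P := by
      apply prod_le_prod (fun p _ => fac_nonneg p)
      intro p _
      have h3 : (om B p : ℝ) ≤ om (two B (b - a)) p := by exact_mod_cast om_two_ge p (b - a)
      have h4 : (om B p : ℝ) / p ≤ (om (two B (b - a)) p : ℝ) / p := by gcongr
      linarith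
    have hL0 : (0 : ℝ) ≤ L := by positivity
    nlinarith [mul_le_mul_of_nonneg_left h2 hL0, sq_nonneg (lam B P)]

/-- cell estimate for sifted sets, upper bound sieve -/
theorem cell_sieve (D : ℕ) : ∃ C : ℝ, 0 < C ∧ ∀ (B : ℕ → ℤ → Prop) (P : Finset ℕ) (Q L k z : ℕ) (δ : ℤ)
    (A H0 : Finset ℤ),
    1 ≤ Q → Q ^ 2 ≤ L → (∀ p ∈ P, p.Prime) → (∀ p ∈ P, p ≤ Q) → Per B P → (∀ p ∈ P, om B p ≤ D) →
    (∀ p ∈ P, IsCoprime δ (p : ℤ)) → 1 ≤ z → (∀ p ∈ P, z ≤ p) →
    (∀ a ∈ A, ∀ b ∈ A, b - a ∉ H0 → (P.filter (fun p => ovl B p (b - a))).card ≤ k) →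
    ∑ t ∈ range L, (∑ a ∈ A, rho B P (a + δ * t)) ^ 2 ≤
      L * (C * Real.exp (- ∑ p ∈ P, (om B p : ℝ) / p) ^ 2 * Real.exp (k * D / z) * (A.card : ℝ) ^ 2 +
        (H0.card * (C * Real.exp (- ∑ p ∈ P, (om B p : ℝ) / p))) * A.card) := by
  obtain ⟨C, hC, hS⟩ := sieve_up (2 * D)
  refine ⟨C, hC, fun B P Q L k z δ A H0 hQ hQL hP hPQ hPer hD hδ hz1 hz hk => ?_⟩
  have hz0 : (0 : ℝ) < z := by exact_mod_cast hz1
  set μ : ℝ := Real.exp (- ∑ p ∈ P, (om B p : ℝ) / p) with hμ
  have hμ0 : 0 < μ := Real.exp_pos _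
  have e1 : ∀ a b : ℤ, ∀ t : ℕ, rho B P (a + δ * t) * rho B P (b + δ * t) =
      rho (two B (b - a)) P (a + δ * t) := by
    intro a b t
    rw [rho_two, show a + δ * (t : ℤ) + (b - a) = b + δ * t by ring]
  refine second_moment A H0 L (fun x => rho B P x) δ
    (α := C * μ ^ 2 * Real.exp (k * D / z)) (β := C * μ) (by positivity) (by positivity) ?_ ?_
  · intro a ha b hb hab
    simp only [e1]
    have h1 := hS (two B (b - a)) P Q L a δ hQ hQL hP hPQ (two_per hPer _)
      (fun p hp => (om_two_le (hP p hp).pos (hPer p hp) _).trans (by have := hD p hp; omega)) hδ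
    refine h1.trans ?_
    have h2 : - ∑ p ∈ P, (om (two B (b - a)) p : ℝ) / p ≤
        2 * (- ∑ p ∈ P, (om B p : ℝ) / p) + k * D / z := by
      have h3 : ∀ p ∈ P, 2 * ((om B p : ℝ) / p) ≤ (om (two B (b - a)) p : ℝ) / p +
          (if ovl B p (b - a) then (D : ℝ) / z else 0) := by
        intro p hp
        have hp0 : (0 : ℝ) < p := by exact_mod_cast (hP p hp).pos
        by_cases ho : ovl B p (b - a)
        · rw [if_pos ho]
          have h4 : (om B p : ℝ) ≤ om (two B (b - a)) p := by exact_mod_cast om_two_ge p (b - a)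
          have h5 : (om B p : ℝ) / p ≤ (om (two B (b - a)) p : ℝ) / p := by gcongr
          have h6 : (om B p : ℝ) / p ≤ (D : ℝ) / z := by
            have a1 : (om B p : ℝ) ≤ D := by exact_mod_cast hD p hp
            have a2 : (z : ℝ) ≤ p := by exact_mod_cast hz p hp
            calc (om B p : ℝ) / p ≤ D / p := by gcongr
              _ ≤ D / z := by gcongr
          linarith
        · rw [if_neg ho, add_zero, om_two_eq (hP p hp).pos (hPer p hp) ho]
          push_cast
          apply le_of_eq; ring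
      have h4 := sum_le_sum h3
      rw [← mul_sum, sum_add_distrib, ← sum_filter, sum_const, nsmul_eq_mul] at h4
      have h5 : ((P.filter (fun p => ovl B p (b - a))).card : ℝ) * (D / z) ≤ k * D / z := by
        have : ((P.filter (fun p => ovl B p (b - a))).card : ℝ) ≤ k := by exact_mod_cast hk a ha b hb hab
        calc ((P.filter (fun p => ovl B p (b - a))).card : ℝ) * (D / z) ≤ k * (D / z) := by gcongr
          _ = k * D / z := by ring
      linarith
    have h6 := Real.exp_le_exp.2 h2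
    rw [Real.exp_add, two_mul, Real.exp_add, ← hμ] at h6
    calc C * L * Real.exp (- ∑ p ∈ P, (om (two B (b - a)) p : ℝ) / p)
        ≤ C * L * (μ * μ * Real.exp (k * D / z)) := by gcongr
      _ = L * (C * μ ^ 2 * Real.exp (k * D / z)) := by ring
  · intro a ha b hb
    have h1 := hS B P Q L a δ hQ hQL hP hPQ hPer
      (fun p hp => by have := hD p hp; omega) hδ
    calc ∑ t ∈ range L, rho B P (a + δ * t) * rho B P (b + δ * t) ≤ ∑ t ∈ range L, rho B P (a + δ * t) := by
          apply sum_le_sum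
          intro t _
          calc rho B P (a + δ * t) * rho B P (b + δ * t) ≤ rho B P (a + δ * t) * 1 := by
                gcongr
                · exact rho_nonneg _ _
                · exact rho_le_one _ _
            _ = _ := mul_one _
      _ ≤ C * L * Real.exp (- ∑ p ∈ P, (om B p : ℝ) / p) := h1
      _ = L * (C * μ) := by rw [← hμ]; ring

end Pool.Agent.T2h89.SV
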