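import Pool.Agent.H828R3.GP.Main

/-! Words of generalised Collatz maps of coprime type: the converse of `iter_eq`, the size of the
offsets, atypical words. -/

set_option autoImplicit false

namespace Pool.Agent.T2h89.SV

open Finset
open Pool.Agent.H319R3.GC
open Classical

variable {d : ℕ} {m r : ℕ → ℤ}

theorem toNat_mod (h : 2 ≤ d) (x : ℤ) : ((x % d).toNat : ℤ) = x % d ∧ (x % d).toNat < d :=
  Pool.Agent.H828R3.GP.toNat_mod h x

/-- the integer with itinerary `w` and `k`-th iterate `y` -/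
theorem wd_of (h : Adm d m r) (w : List ℕ) : (∀ i ∈ w, i < d) → ∀ (x y : ℤ),
    Mw m w * x = (d : ℤ) ^ w.length * y + Ww d m r w →
    wd d m r w.length x = w ∧ (Tm d m r)^[w.length] x = y := by
  induction w with
  | nil =>
    intro _ x y hxy
    simp [Mw, Ww] at hxy
    exact ⟨rfl, hxy⟩
  | cons i w ih =>
    intro hw x y hxy
    have hi : i < d := hw i (by simp)
    have hw' : ∀ j ∈ w, j < d := fun j hj => hw j (by simp [hj])
    have hd0 : (0 : ℤ) < d := by have := h.two_le; exact_mod_cast (by omega : 0 < d)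
    rw [Mw_cons, List.length_cons] at hxy
    have hW : Ww d m r (i :: w) = r i * Mw m w + d * Ww d m r w := rfl
    rw [hW] at hxy
    have h1 : Mw m w * (m i * x - r i) = d * ((d : ℤ) ^ w.length * y + Ww d m r w) := by
      rw [pow_succ] at hxy; linarith
    have hcop := Mw_cop h hw'
    have h2 : (d : ℤ) ∣ m i * x - r i := by
      have : (d : ℤ) ∣ Mw m w * (m i * x - r i) := ⟨_, h1⟩
      exact hcop.symm.dvd_of_dvd_mul_left this
    have h3 : (d : ℤ) ∣ x - i := by
      have h4 := h.adm i hi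
      have h5 : (d : ℤ) ∣ m i * (x - i) := by
        have := dvd_sub h2 h4
        rwa [show m i * x - r i - (m i * i - r i) = m i * (x - i) by ring] at this
      exact (h.cop i hi).symm.dvd_of_dvd_mul_left h5
    have h4 : (x % d).toNat = i := by
      have h5 : x % d = i := by
        have h6 : x % d = (i : ℤ) % d := (Int.emod_emod_of_dvd (i : ℤ) (dvd_refl (d : ℤ))) ▸
          ((Int.emod_emod_of_dvd x (dvd_refl (d : ℤ))) ▸ (Int.emod_emod_of_dvd x (dvd_refl (d : ℤ)))).trans
          (by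
            have : (i : ℤ) ≡ x [ZMOD d] := Int.modEq_iff_dvd.2 h3
            rw [Int.emod_emod_of_dvd _ (dvd_refl (d : ℤ))]
            exact this.symm)
        rw [h6]
        exact Int.emod_eq_of_lt (by positivity) (by exact_mod_cast hi)
      rw [h5]; rfl
    have h5 : Tm d m r x = (m i * x - r i) / d := by
      unfold Tm; rw [h4]
    have h6 : (d : ℤ) * Tm d m r x = m i * x - r i := by
      rw [h5]; exact Int.mul_ediv_cancel' h2
    have h7 : Mw m w * Tm d m r x = (d : ℤ) ^ w.length * y + Ww d m r w := by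
      apply mul_left_cancel₀ hd0.ne'
      rw [← h1, ← h6]; ring
    obtain ⟨h8, h9⟩ := ih hw' _ _ h7
    constructor
    · rw [List.length_cons]
      show (x % d).toNat :: wd d m r w.length (Tm d m r x) = i :: w
      rw [h4, h8]
    · rw [List.length_cons, Function.iterate_succ_apply]
      exact h9

/-- size of the multipliers -/
theorem abs_Mw_le {b : ℝ} (hb : ∀ i < d, |(m i : ℝ)| ≤ b) (w : List ℕ) (hw : ∀ i ∈ w, i < d) :
    |(Mw m w : ℝ)| ≤ b ^ w.length := by
  induction w with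
  | nil => simp [Mw]
  | cons i w ih =>
    rw [Mw_cons, List.length_cons, pow_succ]
    push_cast
    rw [abs_mul, mul_comm]
    have h1 := ih fun j hj => hw j (by simp [hj])
    have h2 := hb i (hw i (by simp))
    have h3 : 0 ≤ |(m i : ℝ)| := abs_nonneg _
    have h4 : 0 ≤ b := h3.trans h2
    gcongr

/-- size of the offsets -/
theorem abs_Ww_le {b R : ℝ} (hb : ∀ i < d, |(m i : ℝ)| ≤ b) (hdb : (d : ℝ) ≤ b) (h1 : 1 ≤ b)
    (hR : ∀ i < d, |(r i : ℝ)| ≤ R) (w : List ℕ) (hw : ∀ i ∈ w, i < d) (hR0 : 0 ≤ R) :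
    |(Ww d m r w : ℝ)| ≤ w.length * R * b ^ w.length := by
  induction w with
  | nil => simp [Ww]
  | cons i w ih =>
    have hw' : ∀ j ∈ w, j < d := fun j hj => hw j (by simp [hj])
    have e : (Ww d m r (i :: w) : ℝ) = r i * Mw m w + d * Ww d m r w := by
      have : Ww d m r (i :: w) = r i * Mw m w + d * Ww d m r w := rfl
      rw [this]; push_cast; ring
    rw [e, List.length_cons]
    have h2 := ih hw'
    have h3 := abs_Mw_le hb w hw'
    have h4 := hR i (hw i (by simp))
    have hb0 : 0 ≤ b := by linarith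
    have hbk : 1 ≤ b ^ w.length := one_le_pow₀ h1
    calc |(r i : ℝ) * Mw m w + d * Ww d m r w| ≤ |(r i : ℝ) * Mw m w| + |(d : ℝ) * Ww d m r w| :=
          abs_add_le _ _
      _ = |(r i : ℝ)| * |(Mw m w : ℝ)| + d * |(Ww d m r w : ℝ)| := by
          rw [abs_mul, abs_mul, Nat.abs_cast]
      _ ≤ R * b ^ w.length + b * (w.length * R * b ^ w.length) := by gcongr
      _ ≤ b * (R * b ^ w.length) + b * (w.length * R * b ^ w.length) := by
          have : 0 ≤ R * b ^ w.length := by positivity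
          nlinarith
      _ = ((w.length + 1 : ℕ) : ℝ) * R * b ^ (w.length + 1) := by push_cast; ring

/-- the moments of the multipliers -/
theorem sum_Mw_rpow (s : ℝ) (k : ℕ) :
    ∑ w ∈ LW d k, (|(Mw m w : ℝ)| / (d : ℝ) ^ k) ^ s = (∑ j ∈ range d, (|(m j : ℝ)| / d) ^ s) ^ k := by
  induction k with
  | zero => simp [LW, Mw]
  | succ k ih =>
    rw [sum_LW_succ, pow_succ (∑ j ∈ range d, (|(m j : ℝ)| / d) ^ s), ← ih, mul_comm, sum_mul]
    apply sum_congr rfl
    intro i _
    rw [mul_sum]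
    apply sum_congr rfl
    intro w _
    rw [Mw_cons]
    push_cast
    rw [abs_mul, pow_succ, mul_comm ((d : ℝ) ^ k), mul_div_mul_comm,
      Real.mul_rpow (by positivity) (by positivity)]

/-- atypical words -/
theorem card_atyp (h : Adm d m r) {s η κ : ℝ} (hs : 0 < s)
    (hsum : ∑ j ∈ range d, (|(m j : ℝ)| / d) ^ s ≤ (d : ℝ) ^ η) (k : ℕ) :
    (((LW d k).filter (fun w => (d : ℝ) ^ ((1 - κ) * k) < |(Mw m w : ℝ)|)).card : ℝ) ≤
      (d : ℝ) ^ ((η + κ * s) * k) := by
  have hd0 : (0 : ℝ) < d := by have := h.two_le; exact_mod_cast (by omega : 0 < d)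
  have h1 : ∀ w ∈ (LW d k).filter (fun w => (d : ℝ) ^ ((1 - κ) * k) < |(Mw m w : ℝ)|),
      (1 : ℝ) ≤ (d : ℝ) ^ (κ * s * k) * (|(Mw m w : ℝ)| / (d : ℝ) ^ k) ^ s := by
    intro w hw
    rw [mem_filter] at hw
    have h2 := hw.2.le
    have h3 : (d : ℝ) ^ (-(κ * k)) ≤ |(Mw m w : ℝ)| / (d : ℝ) ^ k := by
      rw [le_div_iff₀ (by positivity), ← Real.rpow_natCast (d : ℝ) k, ← Real.rpow_add hd0]
      refine le_trans (le_of_eq ?_) h2
      congr 1; ring
    have h4 : (d : ℝ) ^ (-(κ * s * k)) ≤ (|(Mw m w : ℝ)| / (d : ℝ) ^ k) ^ s := by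
      have := Real.rpow_le_rpow (by positivity) h3 hs.le
      rw [← Real.rpow_mul hd0.le] at this
      refine le_trans (le_of_eq ?_) this
      congr 1; ring
    calc (1 : ℝ) = (d : ℝ) ^ (κ * s * k) * (d : ℝ) ^ (-(κ * s * k)) := by
          rw [← Real.rpow_add hd0, add_neg_cancel, Real.rpow_zero]
      _ ≤ _ := by gcongr
  calc (((LW d k).filter (fun w => (d : ℝ) ^ ((1 - κ) * k) < |(Mw m w : ℝ)|)).card : ℝ)
      = ∑ w ∈ (LW d k).filter (fun w => (d : ℝ) ^ ((1 - κ) * k) < |(Mw m w : ℝ)|), (1 : ℝ) := by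
        rw [sum_const, nsmul_eq_mul, mul_one]
    _ ≤ ∑ w ∈ (LW d k).filter (fun w => (d : ℝ) ^ ((1 - κ) * k) < |(Mw m w : ℝ)|),
          (d : ℝ) ^ (κ * s * k) * (|(Mw m w : ℝ)| / (d : ℝ) ^ k) ^ s := sum_le_sum h1
    _ ≤ ∑ w ∈ LW d k, (d : ℝ) ^ (κ * s * k) * (|(Mw m w : ℝ)| / (d : ℝ) ^ k) ^ s := by
        apply sum_le_sum_of_subset_of_nonneg (filter_subset _ _)
        intro w _ _
        positivity
    _ = (d : ℝ) ^ (κ * s * k) * (∑ j ∈ range d, (|(m j : ℝ)| / d) ^ s) ^ k := by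
        rw [← mul_sum, sum_Mw_rpow]
    _ ≤ (d : ℝ) ^ (κ * s * k) * ((d : ℝ) ^ η) ^ k := by
        gcongr
    _ = (d : ℝ) ^ ((η + κ * s) * k) := by
        rw [← Real.rpow_natCast ((d : ℝ) ^ η) k, ← Real.rpow_mul hd0.le, ← Real.rpow_add hd0]
        congr 1; ring

/-- iterates from below -/
theorem iter_low (h : Adm d m r) {R : ℝ} (hR : ∀ i < d, |(r i : ℝ)| ≤ R) (hR0 : 0 ≤ R) (k : ℕ) (x : ℤ) :
    |(x : ℝ)| ≤ (d : ℝ) ^ k * (|(((Tm d m r)^[k] x : ℤ) : ℝ)| + R) := by
  have hd2 : (2 : ℝ) ≤ d := by exact_mod_cast h.two_le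
  induction k generalizing x with
  | zero => simp; exact hR0
  | succ k ih =>
    rw [Function.iterate_succ_apply]
    have h1 := ih (Tm d m r x)
    have h2 := Pool.Agent.H828R3.GP.Tm_eq h x
    have h3 := (toNat_mod h.two_le x).2
    set i := (x % d).toNat with hi
    have h4 : (m i : ℝ) * x = d * (Tm d m r x : ℝ) + r i := by
      have : m i * x = d * Tm d m r x + r i := by linarith
      exact_mod_cast this
    have h5 := Pool.Agent.H828R3.GP.m_abs h h3
    have h6 := hR i h3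
    have h7 : |(x : ℝ)| ≤ d * |(Tm d m r x : ℝ)| + R := by
      calc |(x : ℝ)| ≤ |(m i : ℝ)| * |(x : ℝ)| := by
            nlinarith [abs_nonneg (x : ℝ)]
        _ = |(m i : ℝ) * x| := (abs_mul _ _).symm
        _ = |(d : ℝ) * (Tm d m r x : ℝ) + r i| := by rw [h4]
        _ ≤ |(d : ℝ) * (Tm d m r x : ℝ)| + |(r i : ℝ)| := abs_add_le _ _
        _ ≤ d * |(Tm d m r x : ℝ)| + R := by
            rw [abs_mul, Nat.abs_cast]; linarith
    have hdk : (1 : ℝ) ≤ (d : ℝ) ^ k := one_le_pow₀ (by linarith)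
    -- use the sharper form
    have key : ∀ (k : ℕ) (x : ℤ), |(x : ℝ)| + R ≤ (d : ℝ) ^ k * (|(((Tm d m r)^[k] x : ℤ) : ℝ)| + R) := by
      intro k
      induction k with
      | zero => intro x; simp
      | succ k ihk =>
        intro x
        rw [Function.iterate_succ_apply]
        have g1 := ihk (Tm d m r x)
        have g2 := Pool.Agent.H828R3.GP.Tm_eq h x
        have g3 := (toNat_mod h.two_le x).2
        set i := (x % d).toNat with hi
        have g4 : (m i : ℝ) * x = d * (Tm d m r x : ℝ) + r i := by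
          have : m i * x = d * Tm d m r x + r i := by linarith
          exact_mod_cast this
        have g5 := Pool.Agent.H828R3.GP.m_abs h g3
        have g6 := hR i g3
        have g7 : |(x : ℝ)| ≤ d * |(Tm d m r x : ℝ)| + R := by
          calc |(x : ℝ)| ≤ |(m i : ℝ)| * |(x : ℝ)| := by
                nlinarith [abs_nonneg (x : ℝ)]
            _ = |(m i : ℝ) * x| := (abs_mul _ _).symm
            _ = |(d : ℝ) * (Tm d m r x : ℝ) + r i| := by rw [g4]
            _ ≤ |(d : ℝ) * (Tm d m r x : ℝ)| + |(r i : ℝ)| := abs_add_le _ _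
            _ ≤ d * |(Tm d m r x : ℝ)| + R := by
                rw [abs_mul, Nat.abs_cast]; linarith
        calc |(x : ℝ)| + R ≤ d * |(Tm d m r x : ℝ)| + R + R := by linarith
          _ ≤ d * (|(Tm d m r x : ℝ)| + R) := by nlinarith
          _ ≤ d * ((d : ℝ) ^ k * (|(((Tm d m r)^[k] (Tm d m r x) : ℤ) : ℝ)| + R)) := by gcongr
          _ = _ := by ring
    have := key (k + 1) x
    rw [Function.iterate_succ_apply] at this
    linarith

end Pool.Agent.T2h89.SV
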