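import Pool.Agent.T2h89.SV2
import Pool.Agent.T2h89.SV3

/-! Second moments over the cells of a generalised Collatz map: the preimages of `y` under `N` steps with
multiplier `M` that satisfy a sieve condition, `y` in a residue class modulo `M e`. -/

set_option autoImplicit false

namespace Pool.Agent.T2h89.SV

open Finset
open Pool.Agent.H319R3.GC
open Classical

variable {d : ℕ} {m r : ℕ → ℤ} {B : ℕ → ℤ → Prop}

/-- the preimage of `y` along the word `w` -/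
def nn (d : ℕ) (m r : ℕ → ℤ) (N : ℕ) (w : List ℕ) (y : ℤ) : ℤ :=
  ((d : ℤ) ^ N * y + Ww d m r w) / Mw m w

/-- the preimage of `y` along the word `w` is an integer and satisfies the sieve condition -/
def cnd (d : ℕ) (m r : ℕ → ℤ) (N : ℕ) (B : ℕ → ℤ → Prop) (P : Finset ℕ) (w : List ℕ) (y : ℤ) : Prop :=
  Mw m w ∣ (d : ℤ) ^ N * y + Ww d m r w ∧ ∀ p ∈ P, ¬ B p (nn d m r N w y)

theorem mul_nn {N : ℕ} {w : List ℕ} {y : ℤ} (h : Mw m w ∣ (d : ℤ) ^ N * y + Ww d m r w) :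
    Mw m w * nn d m r N w y = (d : ℤ) ^ N * y + Ww d m r w := Int.mul_ediv_cancel' h

/-- moving `y` by a multiple of `|M| D` -/
theorem nn_add (h : Adm d m r) {N : ℕ} {w : List ℕ} (hw : ∀ i ∈ w, i < d) {M : ℤ} (hM : Mw m w = M)
    (y : ℤ) (D : ℤ) (hdvd : M ∣ (d : ℤ) ^ N * y + Ww d m r w) :
    M ∣ (d : ℤ) ^ N * (y + M.natAbs * D) + Ww d m r w ∧
    nn d m r N w (y + M.natAbs * D) = nn d m r N w y + M.sign * (d : ℤ) ^ N * D := by
  have hM0 : M ≠ 0 := hM ▸ Mw_ne_zero h hw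
  have h1 : (M.natAbs : ℤ) = M * M.sign := by rw [Int.mul_sign_self]
  have h2 : (d : ℤ) ^ N * (y + M.natAbs * D) + Ww d m r w =
      ((d : ℤ) ^ N * y + Ww d m r w) + M * (M.sign * (d : ℤ) ^ N * D) := by rw [h1]; ring
  refine ⟨by rw [h2]; exact dvd_add hdvd (dvd_mul_right _ _), ?_⟩
  unfold nn
  rw [h2, hM, Int.add_mul_ediv_left _ _ hM0]

theorem cnd_add (h : Adm d m r) {N : ℕ} {P : Finset ℕ} (hPer : Per B P) {w : List ℕ}
    (hw : ∀ i ∈ w, i < d) {M : ℤ} (hM : Mw m w = M) (y : ℤ) {e : ℕ} (he : ∀ p ∈ P, p ∣ e) (t : ℤ) :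
    cnd d m r N B P w (y + M.natAbs * (e * t)) ↔ cnd d m r N B P w y := by
  have hM0 : M ≠ 0 := hM ▸ Mw_ne_zero h hw
  have h1 : (M.natAbs : ℤ) = M * M.sign := by rw [Int.mul_sign_self]
  have h2 : (d : ℤ) ^ N * (y + M.natAbs * (e * t)) + Ww d m r w =
      ((d : ℤ) ^ N * y + Ww d m r w) + M * (M.sign * (d : ℤ) ^ N * (e * t)) := by rw [h1]; ring
  unfold cnd
  rw [hM]
  constructor
  · rintro ⟨h3, h4⟩
    have h5 : M ∣ (d : ℤ) ^ N * y + Ww d m r w := by
      rw [h2] at h3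
      exact (Int.dvd_add_left (dvd_mul_right _ _)).1 h3
    refine ⟨h5, fun p hp hb => h4 p hp ?_⟩
    rw [(nn_add h hw hM y (e * t) h5).2]
    obtain ⟨k, hk⟩ := he p hp
    rw [show M.sign * (d : ℤ) ^ N * (e * t) = (M.sign * (d : ℤ) ^ N * t * k) * p by
      rw [hk]; push_cast; ring, hPer.mul hp]
    exact hb
  · rintro ⟨h5, h4⟩
    refine ⟨(nn_add h hw hM y (e * t) h5).1, fun p hp hb => h4 p hp ?_⟩
    rw [(nn_add h hw hM y (e * t) h5).2] at hb
    obtain ⟨k, hk⟩ := he p hp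
    rw [show M.sign * (d : ℤ) ^ N * (e * t) = (M.sign * (d : ℤ) ^ N * t * k) * p by
      rw [hk]; push_cast; ring, hPer.mul hp] at hb
    exact hb

/-- the number of all preimages in the group of `M` satisfying the sieve condition, over a complete
system of residues `y` modulo `|M| e` -/
theorem sum_cells (h : Adm d m r) (N : ℕ) {P : Finset ℕ} (hP : ∀ p ∈ P, p.Prime) (hPer : Per B P)
    (hd : ∀ p ∈ P, IsCoprime (d : ℤ) (p : ℤ)) {M : ℤ} (hM : M ∈ Ms d m N) (y0 : ℤ) {e : ℕ}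
    (he : e = ∏ p ∈ P, p) :
    ∑ γ ∈ range (M.natAbs * e), (((gr d m N M).filter (fun w => cnd d m r N B P w (y0 + γ))).card : ℝ) ≤
      (gr d m N M).card * (e * lam B P) := by
  obtain ⟨w₀, hw₀, hw₀M⟩ := mem_image.1 hM
  have hw₀' := (mem_LW.1 hw₀).2
  have hM0 : M ≠ 0 := hw₀M ▸ Mw_ne_zero h hw₀'
  have hMd : IsCoprime M (d : ℤ) := hw₀M ▸ Mw_cop h hw₀'
  have hMn : 0 < M.natAbs := Int.natAbs_pos.2 hM0
  have hpe : ∀ p ∈ P, p ∣ e := fun p hp => he ▸ Finset.dvd_prod_of_mem _ hp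
  have hsgn : IsUnit M.sign := by
    rw [Int.isUnit_iff]
    rcases lt_trichotomy M 0 with h8 | h8 | h8
    · right; exact Int.sign_eq_neg_one_of_neg h8
    · exact absurd h8 hM0
    · left; exact Int.sign_eq_one_of_pos h8
  have hU : IsCoprime ((d : ℤ) ^ N) (M.natAbs : ℤ) := by
    have h1 : (M.natAbs : ℤ) = M * M.sign := by rw [Int.mul_sign_self]
    rw [h1]
    exact (isCoprime_mul_unit_right_right hsgn _ _).2 (hMd.symm.pow_left)
  have e1 : ∀ γ : ℕ, (((gr d m N M).filter (fun w => cnd d m r N B P w (y0 + γ))).card : ℝ) =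
      ∑ w ∈ gr d m N M, if cnd d m r N B P w (y0 + γ) then (1 : ℝ) else 0 := by
    intro γ
    rw [← sum_filter, sum_const, nsmul_eq_mul, mul_one]
  simp only [e1]
  rw [sum_comm]
  have e2 : ∀ w ∈ gr d m N M, ∑ γ ∈ range (M.natAbs * e),
      (if cnd d m r N B P w (y0 + (γ : ℕ)) then (1 : ℝ) else 0) ≤ e * lam B P := by
    intro w hw
    obtain ⟨hwL, hwM⟩ := mem_gr.1 hw
    have hwd := (mem_LW.1 hwL).2
    rw [sum_range_mul hMn (fun γ : ℕ => if cnd d m r N B P w (y0 + (γ : ℕ)) then (1 : ℝ) else 0)]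
    have e3 : ∀ c ∈ range M.natAbs, ∑ j ∈ range e,
        (if cnd d m r N B P w (y0 + ((c + M.natAbs * j : ℕ) : ℤ)) then (1 : ℝ) else 0) =
        if M ∣ (d : ℤ) ^ N * (y0 + c) + Ww d m r w then e * lam B P else 0 := by
      intro c _
      have hy : ∀ j : ℕ, y0 + ((c + M.natAbs * j : ℕ) : ℤ) = (y0 + c) + M.natAbs * (j : ℤ) := by
        intro j; push_cast; ring
      by_cases hc : M ∣ (d : ℤ) ^ N * (y0 + c) + Ww d m r w
      · rw [if_pos hc]
        have h3 : ∀ j : ℕ, (if cnd d m r N B P w (y0 + ((c + M.natAbs * j : ℕ) : ℤ)) then (1 : ℝ) else 0)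
            = rho B P (nn d m r N w (y0 + c) + (M.sign * (d : ℤ) ^ N) * j) := by
          intro j
          rw [hy]
          obtain ⟨h4, h5⟩ := nn_add h hwd hwM (y0 + c) (j : ℤ) hc
          unfold rho cnd
          rw [hwM, h5]
          simp only [h4, true_and]
        simp only [h3]
        rw [crt_aff hP hPer _ _ (by rw [he])]
        intro p hp
        have h6 : IsCoprime ((d : ℤ) ^ N) (p : ℤ) := (hd p hp).pow_left
        have h7 : IsUnit M.sign := by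
          rw [Int.isUnit_iff]
          rcases lt_trichotomy M 0 with h8 | h8 | h8
          · right; exact Int.sign_eq_neg_one_of_neg h8
          · exact absurd h8 hM0
          · left; exact Int.sign_eq_one_of_pos h8
        exact (isCoprime_mul_unit_left_left h7 _ _).2 h6
      · rw [if_neg hc]
        apply sum_eq_zero
        intro j _
        rw [if_neg]
        rw [hy]
        rintro ⟨h4, -⟩
        apply hc
        rw [hwM] at h4
        have h5 : (d : ℤ) ^ N * ((y0 + c) + M.natAbs * (j : ℤ)) + Ww d m r w =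
            ((d : ℤ) ^ N * (y0 + c) + Ww d m r w) + M * (M.sign * (d : ℤ) ^ N * j) := by
          have h1 : (M.natAbs : ℤ) = M * M.sign := by rw [Int.mul_sign_self]
          rw [h1]; ring
        rw [h5] at h4
        exact (Int.dvd_add_left (dvd_mul_right _ _)).1 h4
    rw [sum_congr rfl e3, ← sum_filter, sum_const, nsmul_eq_mul]
    have h3 : ((range M.natAbs).filter (fun c : ℕ => M ∣ (d : ℤ) ^ N * (y0 + c) + Ww d m r w)).card ≤ 1 := by
      rw [card_le_one]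
      intro a ha b hb
      rw [mem_filter, mem_range] at ha hb
      have h4 : (M.natAbs : ℤ) ∣ (d : ℤ) ^ N * ((a : ℤ) - b) := by
        rw [Int.natAbs_dvd]
        have := dvd_sub ha.2 hb.2
        rwa [show (d : ℤ) ^ N * (y0 + a) + Ww d m r w - ((d : ℤ) ^ N * (y0 + b) + Ww d m r w) =
          (d : ℤ) ^ N * ((a : ℤ) - b) by ring] at this
      have h5 : (M.natAbs : ℤ) ∣ (a : ℤ) - b := hU.symm.dvd_of_dvd_mul_left h4
      have h6 : (a : ℤ) - b = 0 := by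
        apply Int.eq_zero_of_abs_lt_dvd h5
        rw [abs_lt]
        constructor <;> omega
      omega
    have h4 : (((range M.natAbs).filter (fun c : ℕ => M ∣ (d : ℤ) ^ N * (y0 + c) + Ww d m r w)).card : ℝ) ≤ 1 := by
      exact_mod_cast h3
    have h5 : 0 ≤ (e : ℝ) * lam B P := mul_nonneg (by positivity) (lam_nonneg _)
    nlinarith
  refine (sum_le_sum e2).trans ?_
  rw [sum_const, nsmul_eq_mul]

theorem sqrt_add_le' {x y : ℝ} (hx : 0 ≤ x) (hy : 0 ≤ y) : √ (x + y) ≤ √ x + √ y := by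
  rw [Real.sqrt_le_left (by positivity)]
  have h1 := Real.sq_sqrt hx
  have h2 := Real.sq_sqrt hy
  have h3 : 0 ≤ √ x * √ y := by positivity
  nlinarith

/-- one group of words -/
theorem cell_M (h : Adm d m r) (N : ℕ) {P : Finset ℕ} (hP : ∀ p ∈ P, p.Prime) (hPer : Per B P)
    (hd : ∀ p ∈ P, IsCoprime (d : ℤ) (p : ℤ)) {M : ℤ} (hM : M ∈ Ms d m N) (y0 : ℤ) {e : ℕ}
    (he : e = ∏ p ∈ P, p) (L : ℕ) (τ : ℤ → ℝ) (hτ : ∀ y, τ y = 0 ∨ τ y = 1) (φ : ℤ → ℝ) {α β Hw : ℝ}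
    (hα : 0 ≤ α) (hβ : 0 ≤ β) (hHw : ∀ w ∈ LW d N, |(Ww d m r w : ℝ)| ≤ Hw)
    (hcell : ∀ A : Finset ℤ, (∀ a ∈ A, ∀ b ∈ A, |((b - a : ℤ) : ℝ)| ≤ 2 * Hw) → ∀ σ : ℤ, (σ = 1 ∨ σ = -1) →
      ∑ t ∈ range L, (∑ a ∈ A, φ (a + (σ * (d : ℤ) ^ N * e) * t)) ^ 2 ≤
        L * (α * (A.card : ℝ) ^ 2 + β * A.card)) :
    ∑ i ∈ range (M.natAbs * e * L), τ (y0 + i) *
      |∑ w ∈ (gr d m N M).filter (fun w => cnd d m r N B P w (y0 + i)), φ (nn d m r N w (y0 + i))| ≤
      √ (α * (e * L) * lam B P * (gr d m N M).card) *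
        √ (∑ i ∈ range (M.natAbs * e * L), τ (y0 + i) *
          (((gr d m N M).filter (fun w => cnd d m r N B P w (y0 + i))).card : ℝ)) +
      (e * L) * √ (β * lam B P * (M.natAbs * (gr d m N M).card)) := by
  obtain ⟨w₀, hw₀, hw₀M⟩ := mem_image.1 hM
  have hw₀' := (mem_LW.1 hw₀).2
  have hM0 : M ≠ 0 := hw₀M ▸ Mw_ne_zero h hw₀'
  have hMn : 0 < M.natAbs := Int.natAbs_pos.2 hM0
  have hpe : ∀ p ∈ P, p ∣ e := fun p hp => he ▸ Finset.dvd_prod_of_mem _ hp
  have he0 : 0 < e := he ▸ prod_pos fun p hp => (hP p hp).pos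
  have hE0 : 0 < M.natAbs * e := Nat.mul_pos hMn he0
  have hσ : M.sign = 1 ∨ M.sign = -1 := by
    rcases lt_trichotomy M 0 with h8 | h8 | h8
    · right; exact Int.sign_eq_neg_one_of_neg h8
    · exact absurd h8 hM0
    · left; exact Int.sign_eq_one_of_pos h8
  set WW : ℕ → Finset (List ℕ) := fun γ => (gr d m N M).filter (fun w => cnd d m r N B P w (y0 + γ)) with hWW
  -- the values in a cell
  have hfilt : ∀ γ t : ℕ, (gr d m N M).filter (fun w => cnd d m r N B P w (y0 + ((γ + M.natAbs * e * t : ℕ) : ℤ)))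
      = WW γ := by
    intro γ t
    rw [hWW]
    apply filter_congr
    intro w hw
    obtain ⟨hwL, hwM⟩ := mem_gr.1 hw
    have hwd := (mem_LW.1 hwL).2
    have : y0 + ((γ + M.natAbs * e * t : ℕ) : ℤ) = (y0 + γ) + M.natAbs * ((e : ℤ) * t) := by
      push_cast; ring
    rw [this, cnd_add h hPer hwd hwM (y0 + γ) hpe]
  have hval : ∀ γ t : ℕ, ∀ w ∈ WW γ, nn d m r N w (y0 + ((γ + M.natAbs * e * t : ℕ) : ℤ)) =
      nn d m r N w (y0 + γ) + (M.sign * (d : ℤ) ^ N * e) * t := by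
    intro γ t w hw
    rw [hWW, mem_filter] at hw
    obtain ⟨hwL, hwM⟩ := mem_gr.1 hw.1
    have hwd := (mem_LW.1 hwL).2
    have h1 := hw.2.1
    rw [hwM] at h1
    have : y0 + ((γ + M.natAbs * e * t : ℕ) : ℤ) = (y0 + γ) + M.natAbs * ((e : ℤ) * t) := by
      push_cast; ring
    rw [this, (nn_add h hwd hwM (y0 + γ) _ h1).2]
    ring
  have hinj : ∀ γ : ℕ, Set.InjOn (fun w => nn d m r N w (y0 + γ)) (WW γ : Set (List ℕ)) := by
    intro γ u hu v hv huv
    rw [mem_coe, hWW, mem_filter] at hu hv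
    obtain ⟨huL, huM⟩ := mem_gr.1 hu.1
    obtain ⟨hvL, hvM⟩ := mem_gr.1 hv.1
    have h1 := mul_nn hu.2.1
    have h2 := mul_nn hv.2.1
    have h3 : nn d m r N u (y0 + γ) = nn d m r N v (y0 + γ) := huv
    rw [huM] at h1
    rw [hvM, ← h3] at h2
    have h4 : Ww d m r u = Ww d m r v := by linarith
    exact Ww_inj h (mem_LW.1 huL).2 (mem_LW.1 hvL).2
      ((mem_LW.1 huL).1.trans (mem_LW.1 hvL).1.symm) (huM.trans hvM.symm) h4
  set AA : ℕ → Finset ℤ := fun γ => (WW γ).image (fun w => nn d m r N w (y0 + γ)) with hAA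
  have hAcard : ∀ γ, (AA γ).card = (WW γ).card := fun γ => card_image_of_injOn (hinj γ)
  have hdiam : ∀ γ, ∀ a ∈ AA γ, ∀ b ∈ AA γ, |((b - a : ℤ) : ℝ)| ≤ 2 * Hw := by
    intro γ a ha b hb
    rw [hAA, mem_image] at ha hb
    obtain ⟨u, hu, rfl⟩ := ha
    obtain ⟨v, hv, rfl⟩ := hb
    rw [hWW, mem_filter] at hu hv
    obtain ⟨huL, huM⟩ := mem_gr.1 hu.1
    obtain ⟨hvL, hvM⟩ := mem_gr.1 hv.1
    have h1 := mul_nn hu.2.1
    have h2 := mul_nn hv.2.1
    rw [huM] at h1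
    rw [hvM] at h2
    have h3 : M * (nn d m r N v (y0 + γ) - nn d m r N u (y0 + γ)) = Ww d m r v - Ww d m r u := by
      linarith
    have h4 : (M : ℝ) * ((nn d m r N v (y0 + γ) - nn d m r N u (y0 + γ) : ℤ) : ℝ) =
        Ww d m r v - Ww d m r u := by exact_mod_cast h3
    have h5 : (1 : ℝ) ≤ |(M : ℝ)| := by
      have : 1 ≤ |M| := Int.one_le_abs hM0
      exact_mod_cast this
    calc |((nn d m r N v (y0 + γ) - nn d m r N u (y0 + γ) : ℤ) : ℝ)|
        ≤ |(M : ℝ)| * |((nn d m r N v (y0 + γ) - nn d m r N u (y0 + γ) : ℤ) : ℝ)| := by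
          nlinarith [abs_nonneg ((nn d m r N v (y0 + γ) - nn d m r N u (y0 + γ) : ℤ) : ℝ)]
      _ = |(Ww d m r v : ℝ) - Ww d m r u| := by rw [← abs_mul, h4]
      _ ≤ |(Ww d m r v : ℝ)| + |(Ww d m r u : ℝ)| := abs_sub _ _
      _ ≤ 2 * Hw := by
          have := hHw _ huL
          have := hHw _ hvL
          linarith
  have hsum : ∀ γ t : ℕ, ∑ w ∈ (gr d m N M).filter (fun w => cnd d m r N B P w
      (y0 + ((γ + M.natAbs * e * t : ℕ) : ℤ))), φ (nn d m r N w (y0 + ((γ + M.natAbs * e * t : ℕ) : ℤ))) =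
      ∑ a ∈ AA γ, φ (a + (M.sign * (d : ℤ) ^ N * e) * t) := by
    intro γ t
    rw [hfilt, hAA, sum_image (hinj γ)]
    exact sum_congr rfl fun w hw => by rw [hval γ t w hw]
  set a : ℕ → ℝ := fun γ => ((WW γ).card : ℝ) with ha
  set T : ℕ → ℝ := fun γ => ∑ t ∈ range L, τ (y0 + ((γ + M.natAbs * e * t : ℕ) : ℤ)) with hT
  have hτ0 : ∀ y, 0 ≤ τ y := fun y => by rcases hτ y with h1 | h1 <;> rw [h1]; norm_num
  have hτ1 : ∀ y, τ y ≤ 1 := fun y => by rcases hτ y with h1 | h1 <;> rw [h1]; norm_num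
  have hτs : ∀ y, τ y = τ y ^ 2 := fun y => by rcases hτ y with h1 | h1 <;> rw [h1] <;> norm_num
  have hT0 : ∀ γ, 0 ≤ T γ := fun γ => sum_nonneg fun t _ => hτ0 _
  have hTL : ∀ γ, T γ ≤ L := fun γ => by
    calc T γ ≤ ∑ t ∈ range L, (1 : ℝ) := sum_le_sum fun t _ => hτ1 _
      _ = L := by rw [sum_const, card_range, nsmul_eq_mul, mul_one]
  have ha0 : ∀ γ, 0 ≤ a γ := fun γ => Nat.cast_nonneg _
  have hL0 : (0 : ℝ) ≤ L := Nat.cast_nonneg _
  have hV0 := lam_nonneg (B := B) P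
  -- left side
  rw [sum_range_mul hE0 (fun i : ℕ => τ (y0 + (i : ℤ)) *
      |∑ w ∈ (gr d m N M).filter (fun w => cnd d m r N B P w (y0 + (i : ℤ))), φ (nn d m r N w (y0 + (i : ℤ)))|),
    sum_range_mul hE0 (fun i : ℕ => τ (y0 + (i : ℤ)) *
          (((gr d m N M).filter (fun w => cnd d m r N B P w (y0 + (i : ℤ)))).card : ℝ))]
  have hright : ∑ γ ∈ range (M.natAbs * e), ∑ t ∈ range L, τ (y0 + ((γ + M.natAbs * e * t : ℕ) : ℤ)) *
        (((gr d m N M).filter (fun w => cnd d m r N B P w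
          (y0 + ((γ + M.natAbs * e * t : ℕ) : ℤ)))).card : ℝ) =
      ∑ γ ∈ range (M.natAbs * e), a γ * T γ := by
    apply sum_congr rfl
    intro γ _
    rw [hT]
    simp only
    rw [mul_sum]
    apply sum_congr rfl
    intro t _
    rw [hfilt, mul_comm]
  rw [hright]
  have hcellγ : ∀ γ ∈ range (M.natAbs * e), ∑ t ∈ range L, τ (y0 + ((γ + M.natAbs * e * t : ℕ) : ℤ)) *
        |∑ w ∈ (gr d m N M).filter (fun w => cnd d m r N B P w (y0 + ((γ + M.natAbs * e * t : ℕ) : ℤ))),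
          φ (nn d m r N w (y0 + ((γ + M.natAbs * e * t : ℕ) : ℤ)))| ≤
      √ (α * L) * (√ (a γ) * √ (a γ * T γ)) + (L * √ β) * √ (a γ) := by
    intro γ _
    simp only [hsum]
    set x : ℕ → ℝ := fun t => |∑ a ∈ AA γ, φ (a + (M.sign * (d : ℤ) ^ N * e) * t)| with hx
    have h1 : (∑ t ∈ range L, τ (y0 + ((γ + M.natAbs * e * t : ℕ) : ℤ)) * x t) ^ 2 ≤
        T γ * (L * (α * a γ ^ 2 + β * a γ)) := by
      have h2 := sum_mul_sq_le_sq_mul_sq (range L) (fun t => τ (y0 + ((γ + M.natAbs * e * t : ℕ) : ℤ))) x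
      have h3 : ∑ t ∈ range L, τ (y0 + ((γ + M.natAbs * e * t : ℕ) : ℤ)) ^ 2 = T γ := by
        rw [hT]; exact sum_congr rfl fun t _ => (hτs _).symm
      have h4 : ∑ t ∈ range L, x t ^ 2 ≤ L * (α * a γ ^ 2 + β * a γ) := by
        have := hcell (AA γ) (hdiam γ) M.sign hσ
        rw [hAcard] at this
        rw [hx]
        simp only [sq_abs]
        exact this
      rw [h3] at h2
      exact h2.trans (mul_le_mul_of_nonneg_left h4 (hT0 γ))
    have h2 : ∑ t ∈ range L, τ (y0 + ((γ + M.natAbs * e * t : ℕ) : ℤ)) * x t ≤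
        √ (T γ * (L * (α * a γ ^ 2 + β * a γ))) := Real.le_sqrt_of_sq_le h1
    refine h2.trans ?_
    have h3 : T γ * (L * (α * a γ ^ 2 + β * a γ)) ≤ (α * L) * (a γ * (a γ * T γ)) + L ^ 2 * β * a γ := by
      have : T γ * (L * (β * a γ)) ≤ L * (L * (β * a γ)) :=
        mul_le_mul_of_nonneg_right (hTL γ) (mul_nonneg hL0 (mul_nonneg hβ (ha0 γ)))
      have e5 : T γ * (L * (α * a γ ^ 2 + β * a γ)) = (α * L) * (a γ * (a γ * T γ)) + T γ * (L * (β * a γ)) := by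
        ring
      have e6 : (L : ℝ) ^ 2 * β * a γ = L * (L * (β * a γ)) := by ring
      rw [e5, e6]
      linarith
    calc √ (T γ * (L * (α * a γ ^ 2 + β * a γ))) ≤ √ ((α * L) * (a γ * (a γ * T γ)) + L ^ 2 * β * a γ) :=
          Real.sqrt_le_sqrt h3
      _ ≤ √ ((α * L) * (a γ * (a γ * T γ))) + √ (L ^ 2 * β * a γ) := sqrt_add_le'
          (mul_nonneg (mul_nonneg hα hL0) (mul_nonneg (ha0 γ) (mul_nonneg (ha0 γ) (hT0 γ))))
          (mul_nonneg (mul_nonneg (sq_nonneg _) hβ) (ha0 γ))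
      _ = √ (α * L) * (√ (a γ) * √ (a γ * T γ)) + (L * √ β) * √ (a γ) := by
          rw [Real.sqrt_mul (mul_nonneg hα hL0), Real.sqrt_mul (ha0 γ),
            Real.sqrt_mul (mul_nonneg (sq_nonneg _) hβ), Real.sqrt_mul (sq_nonneg _), Real.sqrt_sq hL0]
  refine (sum_le_sum hcellγ).trans ?_
  rw [sum_add_distrib, ← mul_sum, ← mul_sum]
  have hsa : ∑ γ ∈ range (M.natAbs * e), a γ ≤ (gr d m N M).card * (e * lam B P) :=
    sum_cells h N hP hPer hd hM y0 he
  have hsa0 : 0 ≤ ∑ γ ∈ range (M.natAbs * e), a γ := sum_nonneg fun γ _ => ha0 γ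
  have hcs1 : ∑ γ ∈ range (M.natAbs * e), √ (a γ) * √ (a γ * T γ) ≤
      √ (∑ γ ∈ range (M.natAbs * e), a γ) * √ (∑ γ ∈ range (M.natAbs * e), a γ * T γ) :=
    Real.sum_sqrt_mul_sqrt_le _ ha0 (fun γ => mul_nonneg (ha0 γ) (hT0 γ))
  have hcs2 : ∑ γ ∈ range (M.natAbs * e), √ (a γ) ≤
      √ (M.natAbs * e) * √ (∑ γ ∈ range (M.natAbs * e), a γ) := by
    have := Real.sum_sqrt_mul_sqrt_le (range (M.natAbs * e)) (f := fun _ => (1 : ℝ)) (g := a)
      (fun _ => zero_le_one) ha0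
    simp only [Real.sqrt_one, one_mul, sum_const, card_range, nsmul_eq_mul, mul_one] at this
    rwa [Nat.cast_mul] at this
  apply add_le_add
  · calc √ (α * L) * ∑ γ ∈ range (M.natAbs * e), √ (a γ) * √ (a γ * T γ)
        ≤ √ (α * L) * (√ (∑ γ ∈ range (M.natAbs * e), a γ) * √ (∑ γ ∈ range (M.natAbs * e), a γ * T γ)) := by
          gcongr
      _ ≤ √ (α * L) * (√ ((gr d m N M).card * (e * lam B P)) *
          √ (∑ γ ∈ range (M.natAbs * e), a γ * T γ)) :=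
          mul_le_mul_of_nonneg_left (mul_le_mul_of_nonneg_right (Real.sqrt_le_sqrt hsa)
            (Real.sqrt_nonneg _)) (Real.sqrt_nonneg _)
      _ = √ (α * (e * L) * lam B P * (gr d m N M).card) * √ (∑ γ ∈ range (M.natAbs * e), a γ * T γ) := by
          rw [← mul_assoc, ← Real.sqrt_mul (mul_nonneg hα hL0)]
          congr 2
          ring
  · calc L * √ β * ∑ γ ∈ range (M.natAbs * e), √ (a γ)
        ≤ L * √ β * (√ (M.natAbs * e) * √ (∑ γ ∈ range (M.natAbs * e), a γ)) := by gcongr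
      _ ≤ L * √ β * (√ (M.natAbs * e) * √ ((gr d m N M).card * (e * lam B P))) :=
          mul_le_mul_of_nonneg_left (mul_le_mul_of_nonneg_left (Real.sqrt_le_sqrt hsa)
            (Real.sqrt_nonneg _)) (mul_nonneg hL0 (Real.sqrt_nonneg _))
      _ = (e * L) * √ (β * lam B P * (M.natAbs * (gr d m N M).card)) := by
          rw [← Real.sqrt_mul (by positivity)]
          have h5 : (M.natAbs : ℝ) * e * ((gr d m N M).card * (e * lam B P)) =
              (e : ℝ) ^ 2 * (lam B P * (M.natAbs * (gr d m N M).card)) := by ring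
          rw [h5, Real.sqrt_mul (by positivity), Real.sqrt_sq (by positivity), mul_assoc β,
            Real.sqrt_mul hβ]
          ring

end Pool.Agent.T2h89.SV
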