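import Pool.Agent.T2h89.SV4

/-! One step of the comparison of sifted sets: the elements of a set `S` stable under a generalised Collatz
map that satisfy a further sieve condition. -/

set_option autoImplicit false

namespace Pool.Agent.T2h89.SV

open Finset
open Pool.Agent.H319R3.GC
open Classical

variable {d : ℕ} {m r : ℕ → ℤ} {B : ℕ → ℤ → Prop}

/-- indicator function of a set of integers -/
noncomputable def ind (S : Set ℤ) (n : ℤ) : ℝ := if n ∈ S then 1 else 0

theorem ind_nonneg (S : Set ℤ) (n : ℤ) : 0 ≤ ind S n := by unfold ind; split_ifs <;> norm_num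
theorem ind_le_one (S : Set ℤ) (n : ℤ) : ind S n ≤ 1 := by unfold ind; split_ifs <;> norm_num
theorem ind_or (S : Set ℤ) (n : ℤ) : ind S n = 0 ∨ ind S n = 1 := by unfold ind; split_ifs <;> simp

theorem sum_le_inj {α β : Type*} {S : Finset α} {T : Finset β} {f : α → ℝ} {g : β → ℝ} (φ : α → β)
    (hφ : ∀ n ∈ S, φ n ∈ T) (hinj : Set.InjOn φ S) (hfg : ∀ n ∈ S, f n ≤ g (φ n))
    (hg : ∀ t ∈ T, 0 ≤ g t) : ∑ n ∈ S, f n ≤ ∑ t ∈ T, g t := by
  calc ∑ n ∈ S, f n ≤ ∑ n ∈ S, g (φ n) := sum_le_sum hfg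
    _ = ∑ t ∈ S.image φ, g t := (sum_image hinj).symm
    _ ≤ ∑ t ∈ T, g t := by
        apply sum_le_sum_of_subset_of_nonneg
        · intro t ht
          obtain ⟨n, hn, rfl⟩ := mem_image.1 ht
          exact hφ n hn
        · intro t ht _; exact hg t ht

/-- half length of the range of the `y` -/
def YM (U X Hn : ℕ) (M : ℤ) : ℕ := M.natAbs * (X + Hn) / U + 1

theorem YM_lo {U X Hn : ℕ} (hU : 0 < U) (M : ℤ) : M.natAbs * (X + Hn) ≤ U * YM U X Hn M := by
  unfold YM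
  have := Nat.lt_mul_div_succ (M.natAbs * (X + Hn)) hU
  omega

theorem YM_hi {U X Hn : ℕ} (M : ℤ) : U * YM U X Hn M ≤ M.natAbs * (X + Hn) + U := by
  unfold YM
  have := Nat.mul_div_le (M.natAbs * (X + Hn)) U
  rw [mul_add, mul_one]; omega

section

variable (h : Adm d m r) {N X Hn K e L : ℕ}
  (hHn : ∀ w ∈ LW d N, |Ww d m r w| ≤ Hn)

include h hHn in
theorem up_M (hL1 : 2 * (X + Hn) + 3 * d ^ N ≤ e * L * d ^ N)
    {n : ℤ} (hn : |n| ≤ X) {M : ℤ} (hM : Mw m (wd d m r N n) = M) :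
    0 ≤ (Tm d m r)^[N] n + YM (d ^ N) X Hn M ∧
    (Tm d m r)^[N] n + YM (d ^ N) X Hn M < (M.natAbs * e * L : ℕ) := by
  have hwd := wd_mem (m := m) (r := r) h.two_le N n
  have hM0 : M ≠ 0 := hM ▸ Mw_ne_zero h (mem_LW.1 hwd).2
  have hMn : 1 ≤ M.natAbs := Int.natAbs_pos.2 hM0
  have hU : 0 < d ^ N := pow_pos (by have := h.two_le; omega) N
  have h1 := iter_eq h N n
  rw [hM] at h1
  set y := (Tm d m r)^[N] n with hy
  have h2 := hHn _ hwd
  have h3 : ((d : ℤ) ^ N) * |y| ≤ M.natAbs * (X + Hn) := by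
    have h4 : |(d : ℤ) ^ N * y| = (d : ℤ) ^ N * |y| := by
      rw [abs_mul, abs_of_nonneg (by positivity)]
    rw [← h4, h1]
    calc |M * n - Ww d m r (wd d m r N n)| ≤ |M * n| + |Ww d m r (wd d m r N n)| := abs_sub _ _
      _ ≤ M.natAbs * X + Hn := by
          rw [abs_mul, Int.abs_eq_natAbs M]
          have : (M.natAbs : ℤ) * |n| ≤ M.natAbs * X := by gcongr
          linarith
      _ ≤ M.natAbs * (X + Hn) := by
          have : (1 : ℤ) * Hn ≤ M.natAbs * Hn := by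
            apply mul_le_mul_of_nonneg_right _ (by positivity)
            exact_mod_cast hMn
          linarith
  have h5 : |y| < YM (d ^ N) X Hn M := by
    have h6 : (d ^ N * y.natAbs : ℕ) ≤ M.natAbs * (X + Hn) := by
      rw [Int.abs_eq_natAbs] at h3
      exact_mod_cast h3
    have h7 : y.natAbs ≤ M.natAbs * (X + Hn) / d ^ N := by
      rw [Nat.le_div_iff_mul_le hU, mul_comm]; exact h6
    rw [Int.abs_eq_natAbs]
    unfold YM
    have : y.natAbs < M.natAbs * (X + Hn) / d ^ N + 1 := by omega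
    exact_mod_cast this
  rw [abs_lt] at h5
  refine ⟨by linarith, ?_⟩
  have h8 : 2 * YM (d ^ N) X Hn M ≤ M.natAbs * e * L := by
    have h9 : d ^ N * (2 * YM (d ^ N) X Hn M) ≤ d ^ N * (M.natAbs * e * L) := by
      have a1 := YM_hi (U := d ^ N) (X := X) (Hn := Hn) M
      have a2 := Nat.mul_le_mul_left M.natAbs hL1
      have a3 : d ^ N * (M.natAbs * e * L) = M.natAbs * (e * L * d ^ N) := by ring
      rw [a3]
      have a4 : 1 * d ^ N ≤ M.natAbs * d ^ N := Nat.mul_le_mul_right _ hMn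
      nlinarith
    exact Nat.le_of_mul_le_mul_left h9 hU
  have h9 : ((2 * YM (d ^ N) X Hn M : ℕ) : ℤ) ≤ (M.natAbs * e * L : ℕ) := by exact_mod_cast h8
  push_cast at h9 ⊢
  linarith

include h hHn in
theorem down_M (hL2 : e * L * d ^ N ≤ 2 * (X + Hn) + 3 * d ^ N + K * e * d ^ N)
    {w : List ℕ} (hw : w ∈ LW d N) {i : ℕ} (hi : i < (Mw m w).natAbs * e * L)
    (hdvd : Mw m w ∣ (d : ℤ) ^ N * (-(YM (d ^ N) X Hn (Mw m w) : ℤ) + i) + Ww d m r w) :
    |nn d m r N w (-(YM (d ^ N) X Hn (Mw m w) : ℤ) + i)| ≤ (X + (2 * Hn + 3 * d ^ N + K * e * d ^ N) : ℕ) := by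
  set M := Mw m w with hM
  have hM0 : M ≠ 0 := Mw_ne_zero h (mem_LW.1 hw).2
  have hMn : 1 ≤ M.natAbs := Int.natAbs_pos.2 hM0
  have hU : 0 < d ^ N := pow_pos (by have := h.two_le; omega) N
  set Y := YM (d ^ N) X Hn M with hY
  set y : ℤ := -(Y : ℤ) + i with hy
  have h1 := mul_nn hdvd
  rw [← hM] at h1
  have hlo : (M.natAbs : ℤ) * (X + Hn) ≤ (d : ℤ) ^ N * Y := by
    exact_mod_cast YM_lo (X := X) (Hn := Hn) hU M
  have hhi : (d : ℤ) ^ N * Y ≤ (M.natAbs : ℤ) * (X + Hn) + (d : ℤ) ^ N := by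
    exact_mod_cast YM_hi (U := d ^ N) (X := X) (Hn := Hn) M
  have hMz : (1 : ℤ) ≤ M.natAbs := by exact_mod_cast hMn
  have hUz : (0 : ℤ) < (d : ℤ) ^ N := by exact_mod_cast hU
  have hL2' : (e : ℤ) * L * (d : ℤ) ^ N ≤ 2 * (X + Hn) + 3 * (d : ℤ) ^ N + K * e * (d : ℤ) ^ N := by
    exact_mod_cast hL2
  have hi' : (i : ℤ) ≤ M.natAbs * e * L := by exact_mod_cast hi.le
  set A : ℤ := M.natAbs * (X + Hn + 3 * (d : ℤ) ^ N + K * e * (d : ℤ) ^ N) with hA
  have hKe : (0 : ℤ) ≤ K * e * (d : ℤ) ^ N := by positivity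
  have h2 : (d : ℤ) ^ N * |y| ≤ A := by
    have e1 : (d : ℤ) ^ N * |y| = |(d : ℤ) ^ N * y| := by rw [abs_mul, abs_of_pos hUz]
    rw [e1, abs_le]
    have e2 : (d : ℤ) ^ N * y = (d : ℤ) ^ N * i - (d : ℤ) ^ N * Y := by rw [hy]; ring
    have e3 : (d : ℤ) ^ N * i ≤ M.natAbs * (2 * (X + Hn) + 3 * (d : ℤ) ^ N + K * e * (d : ℤ) ^ N) := by
      calc (d : ℤ) ^ N * i ≤ (d : ℤ) ^ N * (M.natAbs * e * L) := by gcongr
        _ = M.natAbs * (e * L * (d : ℤ) ^ N) := by ring
        _ ≤ _ := by gcongr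
    have e4 : 0 ≤ (d : ℤ) ^ N * i := by positivity
    constructor
    · rw [e2, hA]
      have : (M.natAbs : ℤ) * (3 * (d : ℤ) ^ N + K * e * (d : ℤ) ^ N) ≥ 1 * (3 * (d : ℤ) ^ N + K * e * (d : ℤ) ^ N) := by
        apply mul_le_mul_of_nonneg_right hMz; positivity
      nlinarith
    · rw [e2, hA]
      nlinarith
  have h3 : (M.natAbs : ℤ) * |nn d m r N w y| ≤ A + Hn := by
    have e1 : (M.natAbs : ℤ) * |nn d m r N w y| = |M * nn d m r N w y| := by
      rw [abs_mul, Int.abs_eq_natAbs M]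
    rw [e1, h1]
    calc |(d : ℤ) ^ N * y + Ww d m r w| ≤ |(d : ℤ) ^ N * y| + |Ww d m r w| := abs_add_le _ _
      _ = (d : ℤ) ^ N * |y| + |Ww d m r w| := by rw [abs_mul, abs_of_pos hUz]
      _ ≤ A + Hn := add_le_add h2 (hHn w hw)
  have h4 : (M.natAbs : ℤ) * |nn d m r N w y| ≤ M.natAbs * (X + (2 * Hn + 3 * (d : ℤ) ^ N + K * e * (d : ℤ) ^ N)) := by
    have : (1 : ℤ) * Hn ≤ M.natAbs * Hn := mul_le_mul_of_nonneg_right hMz (by positivity)
    rw [hA] at h3
    nlinarith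
  have h5 := le_of_mul_le_mul_left h4 (by linarith)
  push_cast
  exact h5

end

/-- the elements of a word -/
theorem word_sum (h : Adm d m r) {N X e L : ℕ} {P : Finset ℕ} (hP : ∀ p ∈ P, p.Prime) (hPer : Per B P)
    (hd : ∀ p ∈ P, IsCoprime (d : ℤ) (p : ℤ)) (he : e = ∏ p ∈ P, p)
    (hL1 : 2 * X + d ^ N ≤ e * L * d ^ N) (g : ℤ → ℝ) (hg : ∀ n, 0 ≤ g n) {ν : ℝ}
    (hcell1 : ∀ a : ℤ, ∑ t ∈ range L, g (a + ((d : ℤ) ^ N * e) * t) ≤ L * ν) (w : List ℕ) :
    ∑ n ∈ (Icc (-(X : ℤ)) X).filter (fun n => wd d m r N n = w), rho B P n * g n ≤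
      e * L * (lam B P * ν) := by
  have hpe : ∀ p ∈ P, p ∣ e := fun p hp => he ▸ Finset.dvd_prod_of_mem _ hp
  have he0 : 0 < e := he ▸ prod_pos fun p hp => (hP p hp).pos
  have hU : (0 : ℤ) < (d : ℤ) ^ N := by
    have := h.two_le
    exact_mod_cast pow_pos (by omega : 0 < d) N
  have hf0 : ∀ n, 0 ≤ rho B P n * g n := fun n => mul_nonneg (rho_nonneg _ _) (hg n)
  -- sums over progressions
  have hprog : ∀ a : ℤ, ∑ j ∈ range (e * L), rho B P (a + (d : ℤ) ^ N * j) * g (a + (d : ℤ) ^ N * j) ≤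
      e * L * (lam B P * ν) := by
    intro a
    rw [sum_range_mul he0 (fun j : ℕ => rho B P (a + (d : ℤ) ^ N * (j : ℤ)) * g (a + (d : ℤ) ^ N * (j : ℤ)))]
    have h1 : ∀ c ∈ range e, ∑ t ∈ range L, rho B P (a + (d : ℤ) ^ N * ((c + e * t : ℕ) : ℤ)) *
        g (a + (d : ℤ) ^ N * ((c + e * t : ℕ) : ℤ)) ≤ rho B P (a + (d : ℤ) ^ N * c) * (L * ν) := by
      intro c _
      have h2 : ∀ t : ℕ, rho B P (a + (d : ℤ) ^ N * ((c + e * t : ℕ) : ℤ)) = rho B P (a + (d : ℤ) ^ N * c) := by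
        intro t
        apply rho_dvd hPer
        intro p hp
        obtain ⟨k, hk⟩ := hpe p hp
        refine ⟨(d : ℤ) ^ N * k * t, ?_⟩
        rw [hk]; push_cast; ring
      simp only [h2, ← mul_sum]
      apply mul_le_mul_of_nonneg_left _ (rho_nonneg _ _)
      refine le_trans (le_of_eq ?_) (hcell1 (a + (d : ℤ) ^ N * c))
      apply sum_congr rfl
      intro t _
      congr 1; push_cast; ring
    refine (sum_le_sum h1).trans ?_
    rw [← sum_mul, crt_aff hP hPer (fun p hp => (hd p hp).pow_left) a (by rw [he])]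
    apply le_of_eq; ring
  rcases ((Icc (-(X : ℤ)) X).filter (fun n => wd d m r N n = w)).eq_empty_or_nonempty with h0 | ⟨n0, hn0⟩
  · rw [h0, sum_empty]
    have h1 := hprog 0
    refine le_trans ?_ h1
    exact sum_nonneg fun j _ => hf0 _
  · rw [mem_filter, mem_Icc] at hn0
    set a : ℤ := -(X : ℤ) + (n0 + X) % (d : ℤ) ^ N with ha
    have ha1 : -(X : ℤ) ≤ a ∧ a < -(X : ℤ) + (d : ℤ) ^ N := by
      have := Int.emod_nonneg (n0 + X) hU.ne'
      have := Int.emod_lt_of_pos (n0 + X) hU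
      constructor <;> linarith
    have ha2 : (d : ℤ) ^ N ∣ n0 - a := by
      have := Int.emod_add_mul_ediv (n0 + X) ((d : ℤ) ^ N)
      refine ⟨(n0 + X) / (d : ℤ) ^ N, ?_⟩
      rw [ha]; linarith
    have hkey : ∀ n ∈ (Icc (-(X : ℤ)) X).filter (fun n => wd d m r N n = w),
        n = a + (d : ℤ) ^ N * (((n - a) / (d : ℤ) ^ N).toNat : ℕ) ∧
        ((n - a) / (d : ℤ) ^ N).toNat < e * L := by
      intro n hn
      rw [mem_filter, mem_Icc] at hn
      have h1 : (d : ℤ) ^ N ∣ n - n0 := wd_cong h (hn.2.trans hn0.2.symm)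
      have h2 : (d : ℤ) ^ N ∣ n - a := by
        have := dvd_add h1 ha2
        rwa [show n - n0 + (n0 - a) = n - a by ring] at this
      obtain ⟨j, hj⟩ := h2
      have h3 : (n - a) / (d : ℤ) ^ N = j := by rw [hj]; exact Int.mul_ediv_cancel_left _ hU.ne'
      have h4 : 0 ≤ j := by
        by_contra hcon
        push Not at hcon
        have : (d : ℤ) ^ N * j ≤ (d : ℤ) ^ N * (-1) := by
          apply mul_le_mul_of_nonneg_left _ hU.le; omega
        linarith [hn.1.1, ha1.2]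
      rw [h3]
      have h5 : ((j.toNat : ℕ) : ℤ) = j := Int.toNat_of_nonneg h4
      refine ⟨by rw [h5]; linarith, ?_⟩
      have h6 : j < ((e * L : ℕ) : ℤ) := by
        by_contra hcon
        push Not at hcon
        have h7 : (d : ℤ) ^ N * ((e * L : ℕ) : ℤ) ≤ (d : ℤ) ^ N * j := by gcongr
        have h8 : ((2 * X + d ^ N : ℕ) : ℤ) ≤ ((e * L * d ^ N : ℕ) : ℤ) := by exact_mod_cast hL1
        push_cast at h7 h8
        linarith [hn.1.2, ha1.1]
      omega
    refine le_trans ?_ (hprog a)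
    refine sum_le_inj (fun n => ((n - a) / (d : ℤ) ^ N).toNat) ?_ ?_ ?_ ?_
    · intro n hn
      rw [mem_range]; exact (hkey n hn).2
    · intro x hx y hy hxy
      have h1 := (hkey x hx).1
      have h2 := (hkey y hy).1
      have h3 : ((x - a) / (d : ℤ) ^ N).toNat = ((y - a) / (d : ℤ) ^ N).toNat := hxy
      rw [h1, h2, h3]
    · intro n hn
      have h1 := (hkey n hn).1
      rw [← h1]
    · intro j _
      exact hf0 _

/-- **One step.** -/
theorem step (h : Adm d m r) {N X Hn K e L X0 : ℕ} {P : Finset ℕ} (hP : ∀ p ∈ P, p.Prime)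
    (hPer : Per B P) (hd : ∀ p ∈ P, IsCoprime (d : ℤ) (p : ℤ)) (he : e = ∏ p ∈ P, p)
    (hHn : ∀ w ∈ LW d N, |Ww d m r w| ≤ Hn)
    (hL1 : 2 * (X + Hn) + 3 * d ^ N ≤ e * L * d ^ N)
    (hL2 : e * L * d ^ N ≤ 2 * (X + Hn) + 3 * d ^ N + K * e * d ^ N)
    (S : Set ℤ) (hfw : ∀ n ∈ S, (Tm d m r)^[N] n ∈ S)
    (hbk : ∀ n : ℤ, (X0 : ℤ) < |n| → |n| ≤ (X + (2 * Hn + 3 * d ^ N + K * e * d ^ N) : ℕ) →
      (Tm d m r)^[N] n ∈ S → n ∈ S)
    (g : ℤ → ℝ) (hg : ∀ n, 0 ≤ g n) {l0 α β ν : ℝ} (hl0 : 0 ≤ l0) (hα : 0 ≤ α) (hβ : 0 ≤ β)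
    (hcell : ∀ A : Finset ℤ, (∀ a ∈ A, ∀ b ∈ A, |((b - a : ℤ) : ℝ)| ≤ 2 * (Hn : ℝ)) →
      ∀ σ : ℤ, (σ = 1 ∨ σ = -1) →
      ∑ t ∈ range L, (∑ a ∈ A, (g (a + (σ * (d : ℤ) ^ N * e) * t) - l0)) ^ 2 ≤
        L * (α * (A.card : ℝ) ^ 2 + β * A.card))
    (hcell1 : ∀ a : ℤ, ∑ t ∈ range L, g (a + ((d : ℤ) ^ N * e) * t) ≤ L * ν)
    (Ty : Finset ℤ) (hTy : Ty ⊆ Ms d m N) {AS ext : ℝ}
    (hAS : AS = ∑ n ∈ Icc (-(X : ℤ)) X, ind S n * rho B P n)
    (hext : ext = (2 * X0 + 1 : ℕ) + 2 * (2 * Hn + 3 * d ^ N + K * e * d ^ N : ℕ)) :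
    ∑ n ∈ Icc (-(X : ℤ)) X, ind S n * (rho B P n * g n) ≤
      l0 * (AS + ext) + √ (α * (e * L) * lam B P * (d : ℝ) ^ N) * √ (AS + ext) +
        (e * L) * ∑ M ∈ Ty, √ (β * lam B P * (M.natAbs * (gr d m N M).card)) +
        ((LW d N).filter (fun w => Mw m w ∉ Ty)).card * (e * L * (lam B P * ν)) := by
  set Bd : ℕ := 2 * Hn + 3 * d ^ N + K * e * d ^ N with hBd
  have hpe : ∀ p ∈ P, p ∣ e := fun p hp => he ▸ Finset.dvd_prod_of_mem _ hp
  have he0 : 0 < e := he ▸ prod_pos fun p hp => (hP p hp).pos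
  have hV0 := lam_nonneg (B := B) P
  have hf0 : ∀ n, 0 ≤ rho B P n * g n := fun n => mul_nonneg (rho_nonneg _ _) (hg n)
  -- the split into typical and atypical words
  have hsplit : ∑ n ∈ Icc (-(X : ℤ)) X, ind S n * (rho B P n * g n) =
      ∑ n ∈ (Icc (-(X : ℤ)) X).filter (fun n => Mw m (wd d m r N n) ∈ Ty), ind S n * (rho B P n * g n) +
      ∑ n ∈ (Icc (-(X : ℤ)) X).filter (fun n => ¬ Mw m (wd d m r N n) ∈ Ty), ind S n * (rho B P n * g n) :=
    (sum_filter_add_sum_filter_not _ _ _).symm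
  -- atypical words
  have hatyp : ∑ n ∈ (Icc (-(X : ℤ)) X).filter (fun n => ¬ Mw m (wd d m r N n) ∈ Ty),
      ind S n * (rho B P n * g n) ≤
      ((LW d N).filter (fun w => Mw m w ∉ Ty)).card * (e * L * (lam B P * ν)) := by
    have h1 : ∑ n ∈ (Icc (-(X : ℤ)) X).filter (fun n => ¬ Mw m (wd d m r N n) ∈ Ty),
        ind S n * (rho B P n * g n) ≤
        ∑ w ∈ (LW d N).filter (fun w => Mw m w ∉ Ty),
          ∑ n ∈ (Icc (-(X : ℤ)) X).filter (fun n => wd d m r N n = w), rho B P n * g n := by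
      have h2 : ∀ n ∈ (Icc (-(X : ℤ)) X).filter (fun n => ¬ Mw m (wd d m r N n) ∈ Ty),
          wd d m r N n ∈ (LW d N).filter (fun w => Mw m w ∉ Ty) := by
        intro n hn
        rw [mem_filter] at hn ⊢
        exact ⟨wd_mem h.two_le N n, hn.2⟩
      rw [← sum_fiberwise_of_maps_to h2]
      apply sum_le_sum
      intro w _
      rw [filter_filter]
      calc ∑ n ∈ (Icc (-(X : ℤ)) X).filter (fun n => ¬ Mw m (wd d m r N n) ∈ Ty ∧ wd d m r N n = w),
            ind S n * (rho B P n * g n)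
          ≤ ∑ n ∈ (Icc (-(X : ℤ)) X).filter (fun n => ¬ Mw m (wd d m r N n) ∈ Ty ∧ wd d m r N n = w),
            rho B P n * g n := by
            apply sum_le_sum
            intro n _
            have := ind_le_one S n
            have := hf0 n
            nlinarith
        _ ≤ _ := by
            apply sum_le_sum_of_subset_of_nonneg
            · intro n hn
              rw [mem_filter] at hn ⊢
              exact ⟨hn.1, hn.2.2⟩
            · intro n _ _; exact hf0 n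
    refine h1.trans ?_
    calc _ ≤ ∑ w ∈ (LW d N).filter (fun w => Mw m w ∉ Ty), (e * L * (lam B P * ν)) := by
          apply sum_le_sum
          intro w _
          exact word_sum h hP hPer hd he (by omega) g hg hcell1 w
      _ = _ := by rw [sum_const, nsmul_eq_mul]
  -- typical words
  set y : ℤ → ℕ → ℤ := fun M i => -(YM (d ^ N) X Hn M : ℤ) + i with hy
  set WC : ℤ → ℕ → Finset (List ℕ) := fun M i => (gr d m N M).filter (fun w => cnd d m r N B P w (y M i)) with hWC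
  have htyp1 : ∑ n ∈ (Icc (-(X : ℤ)) X).filter (fun n => Mw m (wd d m r N n) ∈ Ty),
      ind S n * (rho B P n * g n) ≤
      ∑ M ∈ Ty, ∑ i ∈ range (M.natAbs * e * L), ind S (y M i) * ∑ w ∈ WC M i, g (nn d m r N w (y M i)) := by
    rw [← sum_fiberwise_of_maps_to (t := Ty) (g := fun n => Mw m (wd d m r N n)) (by
      intro n hn; rw [mem_filter] at hn; exact hn.2)]
    apply sum_le_sum
    intro M hM
    rw [filter_filter]
    have e1 : ∑ i ∈ range (M.natAbs * e * L), ind S (y M i) * ∑ w ∈ WC M i, g (nn d m r N w (y M i)) =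
        ∑ q ∈ range (M.natAbs * e * L) ×ˢ gr d m N M, (if cnd d m r N B P q.2 (y M q.1) then
          ind S (y M q.1) * g (nn d m r N q.2 (y M q.1)) else 0) := by
      rw [sum_product]
      apply sum_congr rfl
      intro i _
      rw [mul_sum, hWC, sum_filter]
    rw [e1]
    have hkey : ∀ n ∈ (Icc (-(X : ℤ)) X).filter (fun n => Mw m (wd d m r N n) ∈ Ty ∧ Mw m (wd d m r N n) = M),
        |n| ≤ X ∧ Mw m (wd d m r N n) = M ∧
        y M ((Tm d m r)^[N] n + YM (d ^ N) X Hn M).toNat = (Tm d m r)^[N] n ∧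
        ((Tm d m r)^[N] n + YM (d ^ N) X Hn M).toNat < M.natAbs * e * L ∧
        M ∣ (d : ℤ) ^ N * (Tm d m r)^[N] n + Ww d m r (wd d m r N n) ∧
        nn d m r N (wd d m r N n) ((Tm d m r)^[N] n) = n := by
      intro n hn
      rw [mem_filter, mem_Icc] at hn
      have hnX : |n| ≤ X := abs_le.2 hn.1
      have hMn := hn.2.2
      obtain ⟨h1, h2⟩ := up_M h hHn hL1 hnX hMn
      have h3 := iter_eq h N n
      have hM0 : M ≠ 0 := hMn ▸ Mw_ne_zero h (mem_LW.1 (wd_mem h.two_le N n)).2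
      have h4 : (d : ℤ) ^ N * (Tm d m r)^[N] n + Ww d m r (wd d m r N n) = M * n := by
        rw [h3, hMn]; ring
      refine ⟨hnX, hMn, ?_, ?_, ⟨n, h4⟩, ?_⟩
      · rw [hy]; simp only
        rw [Int.toNat_of_nonneg h1]; ring
      · have := Int.toNat_of_nonneg h1
        omega
      · unfold nn
        rw [h4, hMn]
        exact Int.mul_ediv_cancel_left _ hM0
    refine sum_le_inj (fun n => (((Tm d m r)^[N] n + YM (d ^ N) X Hn M).toNat, wd d m r N n)) ?_ ?_ ?_ ?_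
    · intro n hn
      obtain ⟨h1, h2, h3, h4, h5, h6⟩ := hkey n hn
      rw [mem_product]
      exact ⟨mem_range.2 h4, mem_gr.2 ⟨wd_mem h.two_le N n, h2⟩⟩
    · intro n hn n' hn' heq
      obtain ⟨h1, h2, h3, h4, h5, h6⟩ := hkey n hn
      obtain ⟨h1', h2', h3', h4', h5', h6'⟩ := hkey n' hn'
      simp only [Prod.mk.injEq] at heq
      rw [← h6, ← h6', heq.2, ← h3, ← h3', heq.1]
    · intro n hn
      obtain ⟨h1, h2, h3, h4, h5, h6⟩ := hkey n hn
      simp only
      rw [h3]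
      by_cases hr : ∀ p ∈ P, ¬ B p n
      · rw [if_pos ⟨by rw [h2]; exact h5, by rw [h6]; exact hr⟩, h6]
        have h7 : rho B P n = 1 := by unfold rho; rw [if_pos hr]
        rw [h7, one_mul]
        apply mul_le_mul_of_nonneg_right _ (hg n)
        unfold ind
        by_cases hS : n ∈ S
        · rw [if_pos hS, if_pos (hfw n hS)]
        · rw [if_neg hS]; split_ifs <;> norm_num
      · have h7 : rho B P n = 0 := by unfold rho; rw [if_neg hr]
        rw [h7, zero_mul, mul_zero]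
        split_ifs
        · exact mul_nonneg (ind_nonneg _ _) (hg _)
        · exact le_refl _
    · intro q _
      split_ifs
      · exact mul_nonneg (ind_nonneg _ _) (hg _)
      · exact le_refl _
  -- the number of the points
  set GG : ℝ := ∑ M ∈ Ty, ∑ i ∈ range (M.natAbs * e * L), ind S (y M i) * ((WC M i).card : ℝ) with hGG
  have hG0 : 0 ≤ GG := sum_nonneg fun M _ => sum_nonneg fun i _ =>
    mul_nonneg (ind_nonneg _ _) (Nat.cast_nonneg _)
  have hG1 : GG ≤ ∑ n ∈ Icc (-((X + Bd : ℕ) : ℤ)) (X + Bd : ℕ), ind S ((Tm d m r)^[N] n) * rho B P n := by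
    have h1 : ∀ M ∈ Ty, ∑ i ∈ range (M.natAbs * e * L), ind S (y M i) * ((WC M i).card : ℝ) ≤
        ∑ n ∈ (Icc (-((X + Bd : ℕ) : ℤ)) (X + Bd : ℕ)).filter (fun n => Mw m (wd d m r N n) = M),
          ind S ((Tm d m r)^[N] n) * rho B P n := by
      intro M hM
      have e1 : ∑ i ∈ range (M.natAbs * e * L), ind S (y M i) * ((WC M i).card : ℝ) =
          ∑ q ∈ (range (M.natAbs * e * L) ×ˢ gr d m N M).filter (fun q => cnd d m r N B P q.2 (y M q.1)),
            ind S (y M q.1) := by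
        rw [sum_filter, sum_product]
        apply sum_congr rfl
        intro i _
        have e2 : ∑ w ∈ gr d m N M, (if cnd d m r N B P w (y M i) then ind S (y M i) else 0) =
            ((WC M i).card : ℝ) * ind S (y M i) := by
          rw [← sum_filter, sum_const, nsmul_eq_mul]
        rw [mul_comm]
        exact e2.symm
      rw [e1]
      have hkey : ∀ q ∈ (range (M.natAbs * e * L) ×ˢ gr d m N M).filter (fun q => cnd d m r N B P q.2 (y M q.1)),
          |nn d m r N q.2 (y M q.1)| ≤ (X + Bd : ℕ) ∧ wd d m r N (nn d m r N q.2 (y M q.1)) = q.2 ∧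
          (Tm d m r)^[N] (nn d m r N q.2 (y M q.1)) = y M q.1 ∧ Mw m q.2 = M ∧
          ∀ p ∈ P, ¬ B p (nn d m r N q.2 (y M q.1)) := by
        intro q hq
        rw [mem_filter, mem_product, mem_range] at hq
        obtain ⟨⟨h1, h2⟩, h3⟩ := hq
        obtain ⟨h4, h5⟩ := mem_gr.1 h2
        have h6 := mul_nn h3.1
        have hlen := (mem_LW.1 h4).1
        have h7 := wd_of h q.2 (mem_LW.1 h4).2 (nn d m r N q.2 (y M q.1)) (y M q.1) (by rw [hlen]; exact h6)
        rw [hlen] at h7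
        refine ⟨?_, h7.1, h7.2, h5, h3.2⟩
        have h8 := h3.1
        rw [hy] at h8 ⊢
        simp only at h8 ⊢
        rw [← h5] at h1 h8 ⊢
        exact down_M h hHn hL2 h4 h1 h8
      refine sum_le_inj (fun q => nn d m r N q.2 (y M q.1)) ?_ ?_ ?_ ?_
      · intro q hq
        obtain ⟨h1, h2, h3, h4, h5⟩ := hkey q hq
        rw [mem_filter, mem_Icc]
        exact ⟨abs_le.1 h1, by rw [h2, h4]⟩
      · intro q hq q' hq' heq
        obtain ⟨h1, h2, h3, h4, h5⟩ := hkey q hq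
        obtain ⟨h1', h2', h3', h4', h5'⟩ := hkey q' hq'
        have heq' : nn d m r N q.2 (y M q.1) = nn d m r N q'.2 (y M q'.1) := heq
        have h6 : q.2 = q'.2 := by rw [← h2, ← h2', heq']
        have h7 : y M q.1 = y M q'.1 := by rw [← h3, ← h3', heq']
        have h8 : q.1 = q'.1 := by
          rw [hy] at h7
          simp only at h7
          omega
        exact Prod.ext h8 h6
      · intro q hq
        obtain ⟨h1, h2, h3, h4, h5⟩ := hkey q hq
        rw [h3]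
        have : rho B P (nn d m r N q.2 (y M q.1)) = 1 := by unfold rho; rw [if_pos h5]
        rw [this, mul_one]
      · intro n _
        exact mul_nonneg (ind_nonneg _ _) (rho_nonneg _ _)
    refine (sum_le_sum h1).trans ?_
    rw [sum_fiberwise_eq_sum_filter]
    apply sum_le_sum_of_subset_of_nonneg (filter_subset _ _)
    intro n _ _
    exact mul_nonneg (ind_nonneg _ _) (rho_nonneg _ _)
  have hG2 : GG ≤ AS + ext := by
    refine hG1.trans ?_
    have h1 : ∑ n ∈ Icc (-((X + Bd : ℕ) : ℤ)) (X + Bd : ℕ), ind S ((Tm d m r)^[N] n) * rho B P n ≤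
        ∑ n ∈ Icc (-((X + Bd : ℕ) : ℤ)) (X + Bd : ℕ),
          ((if n ∈ Icc (-(X : ℤ)) X then ind S n * rho B P n else 0) +
          ((if n ∈ Icc (-(X0 : ℤ)) X0 then 1 else 0) +
          (if n ∈ Icc (-(X : ℤ)) X then 0 else 1))) := by
      apply sum_le_sum
      intro n hn
      rw [mem_Icc] at hn
      have hnb : |n| ≤ (X + Bd : ℕ) := abs_le.2 hn
      have a1 := ind_nonneg S n
      have a2 := rho_nonneg (B := B) P n
      have a3 := ind_le_one S ((Tm d m r)^[N] n)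
      have a4 := rho_le_one (B := B) P n
      have a5 := ind_nonneg S ((Tm d m r)^[N] n)
      have a6 : ind S ((Tm d m r)^[N] n) * rho B P n ≤ 1 := by nlinarith
      have a7 : 0 ≤ ind S n * rho B P n := mul_nonneg a1 a2
      by_cases c1 : n ∈ Icc (-(X : ℤ)) X
      · rw [if_pos c1, if_pos c1]
        by_cases c2 : n ∈ Icc (-(X0 : ℤ)) X0
        · rw [if_pos c2]; linarith
        · rw [if_neg c2]
          have c3 : (X0 : ℤ) < |n| := by
            rw [mem_Icc, ← abs_le] at c2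
            push Not at c2
            exact c2
          have : ind S ((Tm d m r)^[N] n) ≤ ind S n := by
            unfold ind
            by_cases hS : (Tm d m r)^[N] n ∈ S
            · rw [if_pos hS, if_pos (hbk n c3 hnb hS)]
            · rw [if_neg hS]; split_ifs <;> norm_num
          have : ind S ((Tm d m r)^[N] n) * rho B P n ≤ ind S n * rho B P n :=
            mul_le_mul_of_nonneg_right this a2
          linarith
      · rw [if_neg c1, if_neg c1]
        split_ifs <;> linarith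
    refine h1.trans ?_
    rw [sum_add_distrib, sum_add_distrib, ← sum_filter, ← sum_filter]
    have hsub : (Icc (-((X + Bd : ℕ) : ℤ)) (X + Bd : ℕ)).filter (fun n => n ∈ Icc (-(X : ℤ)) X) =
        Icc (-(X : ℤ)) X := by
      ext n
      rw [mem_filter, mem_Icc, mem_Icc]
      push_cast
      constructor
      · rintro ⟨-, h2⟩; exact h2
      · intro h2; exact ⟨⟨by linarith [h2.1], by linarith [h2.2]⟩, h2⟩
    rw [hsub, ← hAS]
    have h2 : ∑ n ∈ (Icc (-((X + Bd : ℕ) : ℤ)) (X + Bd : ℕ)).filter (fun n => n ∈ Icc (-(X0 : ℤ)) X0), (1 : ℝ) ≤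
        (2 * X0 + 1 : ℕ) := by
      rw [sum_const, nsmul_eq_mul, mul_one]
      have : ((Icc (-((X + Bd : ℕ) : ℤ)) (X + Bd : ℕ)).filter (fun n => n ∈ Icc (-(X0 : ℤ)) X0)).card ≤
          (Icc (-(X0 : ℤ)) X0).card := by
        apply card_le_card
        intro n hn
        rw [mem_filter] at hn
        exact hn.2
      rw [Int.card_Icc] at this
      have h3 : ((X0 : ℤ) + 1 - -(X0 : ℤ)).toNat = 2 * X0 + 1 := by omega
      rw [h3] at this
      exact_mod_cast this
    have h3 : ∑ n ∈ Icc (-((X + Bd : ℕ) : ℤ)) (X + Bd : ℕ), (if n ∈ Icc (-(X : ℤ)) X then (0 : ℝ) else 1) ≤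
        2 * (Bd : ℕ) := by
      have h4 : ∀ n : ℤ, (if n ∈ Icc (-(X : ℤ)) X then (0 : ℝ) else 1) =
          1 - (if n ∈ Icc (-(X : ℤ)) X then (1 : ℝ) else 0) := by
        intro n; split_ifs <;> norm_num
      simp only [h4]
      rw [sum_sub_distrib, ← sum_filter, hsub, sum_const, sum_const, nsmul_eq_mul, nsmul_eq_mul,
        Int.card_Icc, Int.card_Icc]
      have h5 : (((X + Bd : ℕ) : ℤ) + 1 - -((X + Bd : ℕ) : ℤ)).toNat = 2 * (X + Bd) + 1 := by omega
      have h6 : ((X : ℤ) + 1 - -(X : ℤ)).toNat = 2 * X + 1 := by omega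
      rw [h5, h6]
      push_cast
      linarith
    rw [hext]
    linarith
  -- the cells
  have hcellM : ∀ M ∈ Ty, ∑ i ∈ range (M.natAbs * e * L), ind S (y M i) *
      |∑ w ∈ WC M i, (g (nn d m r N w (y M i)) - l0)| ≤
      √ (α * (e * L) * lam B P * (gr d m N M).card) *
        √ (∑ i ∈ range (M.natAbs * e * L), ind S (y M i) * ((WC M i).card : ℝ)) +
      (e * L) * √ (β * lam B P * (M.natAbs * (gr d m N M).card)) := by
    intro M hM
    exact cell_M h N hP hPer hd (hTy hM) (-(YM (d ^ N) X Hn M : ℤ)) he L (ind S) (ind_or S)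
      (fun n => g n - l0) hα hβ (fun w hw => by exact_mod_cast hHn w hw) hcell
  have htyp2 : ∑ M ∈ Ty, ∑ i ∈ range (M.natAbs * e * L), ind S (y M i) * ∑ w ∈ WC M i, g (nn d m r N w (y M i)) ≤
      l0 * GG + ∑ M ∈ Ty, ∑ i ∈ range (M.natAbs * e * L), ind S (y M i) *
      |∑ w ∈ WC M i, (g (nn d m r N w (y M i)) - l0)| := by
    rw [hGG, mul_sum, ← sum_add_distrib]
    apply sum_le_sum
    intro M _
    rw [mul_sum, ← sum_add_distrib]
    apply sum_le_sum
    intro i _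
    have e1 : ∑ w ∈ WC M i, g (nn d m r N w (y M i)) =
        l0 * ((WC M i).card : ℝ) + ∑ w ∈ WC M i, (g (nn d m r N w (y M i)) - l0) := by
      rw [sum_sub_distrib, sum_const, nsmul_eq_mul]; ring
    rw [e1]
    have h1 := le_abs_self (∑ w ∈ WC M i, (g (nn d m r N w (y M i)) - l0))
    have h2 := mul_le_mul_of_nonneg_left h1 (ind_nonneg S (y M i))
    nlinarith
  have htyp3 : ∑ M ∈ Ty, ∑ i ∈ range (M.natAbs * e * L), ind S (y M i) *
      |∑ w ∈ WC M i, (g (nn d m r N w (y M i)) - l0)| ≤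
      √ (α * (e * L) * lam B P * (d : ℝ) ^ N) * √ (AS + ext) +
      (e * L) * ∑ M ∈ Ty, √ (β * lam B P * (M.natAbs * (gr d m N M).card)) := by
    refine (sum_le_sum hcellM).trans ?_
    rw [sum_add_distrib, ← mul_sum]
    gcongr
    set G : ℤ → ℝ := fun M => ∑ i ∈ range (M.natAbs * e * L), ind S (y M i) * ((WC M i).card : ℝ) with hGd
    have hGn : ∀ M, 0 ≤ G M := fun M => sum_nonneg fun i _ => mul_nonneg (ind_nonneg _ _) (Nat.cast_nonneg _)
    have hc0 : ∀ M, (0 : ℝ) ≤ α * (e * L) * lam B P * (gr d m N M).card := fun M => by positivity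
    have h1 := Real.sum_sqrt_mul_sqrt_le Ty hc0 hGn
    refine h1.trans ?_
    apply mul_le_mul _ (Real.sqrt_le_sqrt hG2) (Real.sqrt_nonneg _) (Real.sqrt_nonneg _)
    apply Real.sqrt_le_sqrt
    rw [← mul_sum]
    apply mul_le_mul_of_nonneg_left _ (by positivity)
    rw [← sum_card_gr (d := d) (m := m) N]
    apply sum_le_sum_of_subset_of_nonneg hTy
    intro M _ _
    positivity
  have h5 : l0 * GG ≤ l0 * (AS + ext) := mul_le_mul_of_nonneg_left hG2 hl0
  rw [hsplit]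
  linarith

end Pool.Agent.T2h89.SV
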