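import Pool.Agent.T2h89.SV5

/-! One step of the comparison with the contributions of the atypical words estimated. -/

set_option autoImplicit false

namespace Pool.Agent.T2h89.SV

open Finset
open Pool.Agent.H319R3.GC
open Classical

variable {d : ℕ} {m r : ℕ → ℤ} {B : ℕ → ℤ → Prop}

/-- the typical multipliers -/
noncomputable def Typ (d : ℕ) (m : ℕ → ℤ) (N : ℕ) (κ : ℝ) : Finset ℤ :=
  (Ms d m N).filter (fun M => |(M : ℝ)| ≤ (d : ℝ) ^ ((1 - κ) * N))

theorem sum_typ (h : Adm d m r) (N : ℕ) {κ b : ℝ} (hb : 0 ≤ b) :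
    ∑ M ∈ Typ d m N κ, √ (b * (M.natAbs * (gr d m N M).card)) ≤
      √ b * ((N : ℝ) + 1) ^ d * (d : ℝ) ^ ((1 - κ / 2) * N) := by
  have hd0 : (0 : ℝ) < d := by have := h.two_le; exact_mod_cast (by omega : 0 < d)
  have h1 : ∀ M ∈ Typ d m N κ, √ (b * (M.natAbs * (gr d m N M).card)) ≤
      √ b * (d : ℝ) ^ ((1 - κ / 2) * N) := by
    intro M hM
    unfold Typ at hM
    rw [mem_filter] at hM
    rw [Real.sqrt_mul hb]
    apply mul_le_mul_of_nonneg_left _ (Real.sqrt_nonneg _)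
    rw [Real.sqrt_le_left (by positivity)]
    have h2 : (M.natAbs : ℝ) = |(M : ℝ)| := by
      rw [Nat.cast_natAbs]; push_cast; rfl
    have h3 : ((gr d m N M).card : ℝ) ≤ (d : ℝ) ^ N := by
      have : (gr d m N M).card ≤ (LW d N).card := card_le_card (filter_subset _ _)
      rw [card_LW] at this
      exact_mod_cast this
    calc (M.natAbs : ℝ) * (gr d m N M).card ≤ (d : ℝ) ^ ((1 - κ) * N) * (d : ℝ) ^ N := by
          rw [h2]; exact mul_le_mul hM.2 h3 (by positivity) (by positivity)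
      _ = ((d : ℝ) ^ ((1 - κ / 2) * N)) ^ 2 := by
          rw [← Real.rpow_natCast (d : ℝ) N, ← Real.rpow_add hd0, ← Real.rpow_natCast _ 2,
            ← Real.rpow_mul hd0.le]
          congr 1; push_cast; ring
  refine (sum_le_sum h1).trans ?_
  rw [sum_const, nsmul_eq_mul]
  have h2 : ((Typ d m N κ).card : ℝ) ≤ ((N : ℝ) + 1) ^ d := by
    have h3 : (Typ d m N κ).card ≤ (Ms d m N).card := card_le_card (filter_subset _ _)
    have h4 := card_Ms (d := d) (m := m) N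
    exact_mod_cast h3.trans h4
  calc ((Typ d m N κ).card : ℝ) * (√ b * (d : ℝ) ^ ((1 - κ / 2) * N)) ≤
      ((N : ℝ) + 1) ^ d * (√ b * (d : ℝ) ^ ((1 - κ / 2) * N)) := by gcongr
    _ = _ := by ring

theorem card_not_typ (h : Adm d m r) {s η κ : ℝ} (hs : 0 < s)
    (hsum : ∑ j ∈ range d, (|(m j : ℝ)| / d) ^ s ≤ (d : ℝ) ^ η) (N : ℕ) :
    (((LW d N).filter (fun w => Mw m w ∉ Typ d m N κ)).card : ℝ) ≤ (d : ℝ) ^ ((η + κ * s) * N) := by
  refine le_trans ?_ (card_atyp h (κ := κ) hs hsum N)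
  have : (LW d N).filter (fun w => Mw m w ∉ Typ d m N κ) ⊆
      (LW d N).filter (fun w => (d : ℝ) ^ ((1 - κ) * N) < |(Mw m w : ℝ)|) := by
    intro w hw
    rw [mem_filter] at hw ⊢
    refine ⟨hw.1, ?_⟩
    by_contra hcon
    push Not at hcon
    apply hw.2
    unfold Typ
    rw [mem_filter]
    exact ⟨mem_image.2 ⟨w, hw.1, rfl⟩, hcon⟩
  exact_mod_cast card_le_card this

/-- **One step**, normalised. -/
theorem nstep (h : Adm d m r) {s η : ℝ} (hs : 0 < s)
    (hsum : ∑ j ∈ range d, (|(m j : ℝ)| / d) ^ s ≤ (d : ℝ) ^ η)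
    {N X Hn K e L X0 : ℕ} {P : Finset ℕ} (hP : ∀ p ∈ P, p.Prime)
    (hPer : Per B P) (hd : ∀ p ∈ P, IsCoprime (d : ℤ) (p : ℤ)) (he : e = ∏ p ∈ P, p)
    (hHn : ∀ w ∈ LW d N, |Ww d m r w| ≤ Hn)
    (hL1 : 2 * (X + Hn) + 3 * d ^ N ≤ e * L * d ^ N)
    (hL2 : e * L * d ^ N ≤ 2 * (X + Hn) + 3 * d ^ N + K * e * d ^ N)
    (hBd : 2 * Hn + 3 * d ^ N + K * e * d ^ N ≤ X)
    (S : Set ℤ) (hfw : ∀ n ∈ S, (Tm d m r)^[N] n ∈ S)
    (hbk : ∀ n : ℤ, (X0 : ℤ) < |n| → (Tm d m r)^[N] n ∈ S → n ∈ S)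
    (g : ℤ → ℝ) (hg : ∀ n, 0 ≤ g n) {l0 α β ν : ℝ} (hl0 : 0 ≤ l0) (hα : 0 ≤ α) (hβ : 0 ≤ β)
    (hν : 0 ≤ ν)
    (hcell : ∀ A : Finset ℤ, (∀ a ∈ A, ∀ b ∈ A, |((b - a : ℤ) : ℝ)| ≤ 2 * (Hn : ℝ)) →
      ∀ σ : ℤ, (σ = 1 ∨ σ = -1) →
      ∑ t ∈ range L, (∑ a ∈ A, (g (a + (σ * (d : ℤ) ^ N * e) * t) - l0)) ^ 2 ≤
        L * (α * (A.card : ℝ) ^ 2 + β * A.card))
    (hcell1 : ∀ a : ℤ, ∑ t ∈ range L, g (a + ((d : ℤ) ^ N * e) * t) ≤ L * ν)
    {AS ext : ℝ}
    (hAS : AS = ∑ n ∈ Icc (-(X : ℤ)) X, ind S n * rho B P n)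
    (hext : ext = (2 * X0 + 1 : ℕ) + 2 * (2 * Hn + 3 * d ^ N + K * e * d ^ N : ℕ)) :
    ∑ n ∈ Icc (-(X : ℤ)) X, ind S n * (rho B P n * g n) ≤
      l0 * (AS + ext) + √ (α * (3 * X) * lam B P) * √ (AS + ext) +
        3 * X * (√ (β * lam B P) * ((N : ℝ) + 1) ^ d * (d : ℝ) ^ (-((1 - η) / (4 * s)) * N)) +
        3 * X * (lam B P * ν * (d : ℝ) ^ (-((1 - η) / 2) * N)) := by
  have hd0 : (0 : ℝ) < d := by have := h.two_le; exact_mod_cast (by omega : 0 < d)
  set κ : ℝ := (1 - η) / (2 * s) with hκ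
  have hV0 := lam_nonneg (B := B) P
  have h1 := step h hP hPer hd he hHn hL1 hL2 S hfw (fun n h1 _ h3 => hbk n h1 h3) g hg hl0 hα hβ hcell
    hcell1 (Typ d m N κ) (filter_subset _ _) hAS hext
  refine h1.trans ?_
  have hU0 : (0 : ℝ) < (d : ℝ) ^ N := by positivity
  have heLU : (e : ℝ) * L * (d : ℝ) ^ N ≤ 3 * X := by
    have : e * L * d ^ N ≤ 3 * X := by omega
    exact_mod_cast this
  have heL0 : (0 : ℝ) ≤ (e : ℝ) * L := by positivity
  have heL : (e : ℝ) * L ≤ 3 * X / (d : ℝ) ^ N := by rw [le_div_iff₀ hU0]; exact heLU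
  have hASn : 0 ≤ AS := by
    rw [hAS]; exact sum_nonneg fun n _ => mul_nonneg (ind_nonneg _ _) (rho_nonneg _ _)
  have hext0 : 0 ≤ ext := by rw [hext]; positivity
  have t1 : √ (α * (e * L) * lam B P * (d : ℝ) ^ N) ≤ √ (α * (3 * X) * lam B P) := by
    apply Real.sqrt_le_sqrt
    calc α * (e * L) * lam B P * (d : ℝ) ^ N = α * lam B P * (e * L * (d : ℝ) ^ N) := by ring
      _ ≤ α * lam B P * (3 * X) := by gcongr
      _ = _ := by ring
  have t2 : (e * L) * ∑ M ∈ Typ d m N κ, √ (β * lam B P * (M.natAbs * (gr d m N M).card)) ≤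
      3 * X * (√ (β * lam B P) * ((N : ℝ) + 1) ^ d * (d : ℝ) ^ (-((1 - η) / (4 * s)) * N)) := by
    have h2 := sum_typ h N (κ := κ) (b := β * lam B P) (by positivity)
    calc (e * L) * ∑ M ∈ Typ d m N κ, √ (β * lam B P * (M.natAbs * (gr d m N M).card))
        ≤ (3 * X / (d : ℝ) ^ N) * (√ (β * lam B P) * ((N : ℝ) + 1) ^ d * (d : ℝ) ^ ((1 - κ / 2) * N)) := by
          apply mul_le_mul heL h2 (sum_nonneg fun M _ => Real.sqrt_nonneg _) (by positivity)
      _ = 3 * X * (√ (β * lam B P) * ((N : ℝ) + 1) ^ d * ((d : ℝ) ^ ((1 - κ / 2) * N) / (d : ℝ) ^ N)) := by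
          field_simp
      _ = _ := by
          congr 2
          rw [← Real.rpow_natCast (d : ℝ) N, ← Real.rpow_sub hd0]
          congr 1
          rw [hκ]; field_simp; ring
  have t3 : (((LW d N).filter (fun w => Mw m w ∉ Typ d m N κ)).card : ℝ) * (e * L * (lam B P * ν)) ≤
      3 * X * (lam B P * ν * (d : ℝ) ^ (-((1 - η) / 2) * N)) := by
    have h2 := card_not_typ h (κ := κ) hs hsum N
    calc (((LW d N).filter (fun w => Mw m w ∉ Typ d m N κ)).card : ℝ) * (e * L * (lam B P * ν))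
        ≤ (d : ℝ) ^ ((η + κ * s) * N) * (3 * X / (d : ℝ) ^ N * (lam B P * ν)) := by gcongr
      _ = 3 * X * (lam B P * ν * ((d : ℝ) ^ ((η + κ * s) * N) / (d : ℝ) ^ N)) := by field_simp
      _ = _ := by
          congr 2
          rw [← Real.rpow_natCast (d : ℝ) N, ← Real.rpow_sub hd0]
          congr 1
          rw [hκ]; field_simp; ring
  have t1' : √ (α * (e * L) * lam B P * (d : ℝ) ^ N) * √ (AS + ext) ≤
      √ (α * (3 * X) * lam B P) * √ (AS + ext) := mul_le_mul_of_nonneg_right t1 (Real.sqrt_nonneg _)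
  linarith

/-- lower bound for the density -/
theorem lam_low {P : Finset ℕ} {D a z : ℕ} (hDa : 2 * D ≤ a) (ha : 2 ≤ a) (haz : a ≤ z)
    (hP : ∀ p ∈ P, a ≤ p ∧ p < z) (hD : ∀ p ∈ P, om B p ≤ D) :
    (1 / (z : ℝ)) ^ (2 * D) ≤ lam B P := by
  have hfac : ∀ n : ℕ, a ≤ n → (1 - 1 / (n : ℝ)) ^ (2 * D) ≤ 1 - (D : ℝ) / n := by
    intro n hn
    have hn0 : (0 : ℝ) < n := by exact_mod_cast (by omega : 0 < n)
    have h1 : (2 * D : ℝ) / n ≤ 1 := by
      rw [div_le_one hn0]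
      have : 2 * D ≤ n := by omega
      exact_mod_cast this
    have h2 : 1 - 1 / (n : ℝ) ≤ Real.exp (-(1 / n)) := by
      have := Real.add_one_le_exp (-(1 / (n : ℝ)))
      linarith
    have h3 : 0 ≤ 1 - 1 / (n : ℝ) := by
      have : (1 : ℝ) / n ≤ 1 := by
        rw [div_le_one hn0]
        exact_mod_cast (by omega : 1 ≤ n)
      linarith
    have h4 : (1 - 1 / (n : ℝ)) ^ (2 * D) ≤ Real.exp (-(2 * D / n)) := by
      calc (1 - 1 / (n : ℝ)) ^ (2 * D) ≤ (Real.exp (-(1 / n))) ^ (2 * D) := by gcongr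
        _ = Real.exp (-(2 * D / n)) := by
            rw [← Real.exp_nat_mul]; congr 1; push_cast; ring
    refine h4.trans ?_
    set x : ℝ := 2 * D / n with hx
    have hx0 : 0 ≤ x := by rw [hx]; positivity
    have h5 : (D : ℝ) / n = x / 2 := by rw [hx]; ring
    rw [h5]
    have h6 : Real.exp (-x) ≤ 1 - x / 2 := by
      have h7 := Real.exp_bound' (x := x) (n := 1) hx0 h1 (by norm_num)
      rw [Real.exp_neg]
      have h8 : 1 + x ≤ Real.exp x := by have := Real.add_one_le_exp x; linarith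
      calc (Real.exp x)⁻¹ ≤ (1 + x)⁻¹ := by
            apply inv_anti₀ (by positivity) h8
        _ ≤ 1 - x / 2 := by
            rw [inv_le_comm₀ (by positivity) (by linarith)]
            rw [inv_le_comm₀ (by linarith) (by positivity)]
            rw [inv_eq_one_div, div_le_iff₀ (by positivity)]
            nlinarith
    exact h6
  have htel : ∀ z : ℕ, a ≤ z → ∏ n ∈ Ico a z, (1 - 1 / (n : ℝ)) = ((a : ℝ) - 1) / ((z : ℝ) - 1) := by
    intro z hz
    induction z, hz using Nat.le_induction with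
    | base =>
      have : (a : ℝ) - 1 ≠ 0 := by
        have : (2 : ℝ) ≤ a := by exact_mod_cast ha
        linarith
      simp [div_self this]
    | succ n hn ih =>
      have h2 : (2 : ℝ) ≤ n := by exact_mod_cast (by omega : 2 ≤ n)
      rw [prod_Ico_succ_top hn, ih]
      have h3 : (n : ℝ) - 1 ≠ 0 := by linarith
      have h4 : (n : ℝ) ≠ 0 := by linarith
      have h5 : 1 - 1 / (n : ℝ) = ((n : ℝ) - 1) / n := by field_simp
      rw [h5]
      push_cast
      rw [show (n : ℝ) + 1 - 1 = n by ring]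
      field_simp
  have hz2 : (2 : ℝ) ≤ z := by exact_mod_cast (by omega : 2 ≤ z)
  have ha2 : (2 : ℝ) ≤ a := by exact_mod_cast ha
  calc (1 / (z : ℝ)) ^ (2 * D) ≤ (∏ n ∈ Ico a z, (1 - 1 / (n : ℝ))) ^ (2 * D) := by
        rw [htel z haz]
        apply pow_le_pow_left₀ (by positivity)
        rw [div_le_div_iff₀ (by linarith) (by linarith)]
        nlinarith
    _ = ∏ n ∈ Ico a z, (1 - 1 / (n : ℝ)) ^ (2 * D) := by rw [prod_pow]
    _ ≤ ∏ n ∈ P, (1 - 1 / (n : ℝ)) ^ (2 * D) := by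
        have hsub : P ⊆ Ico a z := fun p hp => mem_Ico.2 (hP p hp)
        have h01 : ∀ n ∈ Ico a z, 0 ≤ (1 - 1 / (n : ℝ)) ^ (2 * D) ∧ (1 - 1 / (n : ℝ)) ^ (2 * D) ≤ 1 := by
          intro n hn
          rw [mem_Ico] at hn
          have hn0 : (0 : ℝ) < n := by exact_mod_cast (by omega : 0 < n)
          have h1 : (1 : ℝ) / n ≤ 1 := by
            rw [div_le_one hn0]
            exact_mod_cast (by omega : 1 ≤ n)
          have h2 : (0 : ℝ) ≤ 1 / n := by positivity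
          exact ⟨pow_nonneg (by linarith) _, pow_le_one₀ (by linarith) (by linarith)⟩
        rw [← prod_sdiff hsub]
        have h3 : ∏ n ∈ Ico a z \ P, (1 - 1 / (n : ℝ)) ^ (2 * D) ≤ 1 :=
          prod_le_one (fun n hn => (h01 n (mem_sdiff.1 hn).1).1) fun n hn => (h01 n (mem_sdiff.1 hn).1).2
        have h4 : 0 ≤ ∏ n ∈ P, (1 - 1 / (n : ℝ)) ^ (2 * D) := prod_nonneg fun n hn => (h01 n (hsub hn)).1
        nlinarith
    _ ≤ lam B P := by
        apply prod_le_prod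
        · intro p hp
          have : (1 : ℝ) / p ≤ 1 := by
            rw [div_le_one (by exact_mod_cast (by have := (hP p hp).1; omega : 0 < p))]
            exact_mod_cast (by have := (hP p hp).1; omega : 1 ≤ p)
          apply pow_nonneg; linarith
        · intro p hp
          refine (hfac p (hP p hp).1).trans ?_
          have : (om B p : ℝ) ≤ D := by exact_mod_cast hD p hp
          have : (om B p : ℝ) / p ≤ D / p := by gcongr
          linarith

end Pool.Agent.T2h89.SV
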