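import Pool.Agent.T2h89.SV7a

/-! The comparison of the sifted sets at the levels `z ≤ z' ≤ z ^ 2`. -/

set_option autoImplicit false

namespace Pool.Agent.T2h89.SV

open Finset
open Pool.Agent.H319R3.GC
open Classical

variable {d : ℕ} {m r : ℕ → ℤ} {B : ℕ → ℤ → Prop}

theorem two_step (h : Adm d m r) {s η : ℝ} (hs : 0 < s) (hη1 : η < 1)
    (hsum : ∑ j ∈ range d, (|(m j : ℝ)| / d) ^ s ≤ (d : ℝ) ^ η) {D zs : ℕ} {H0 : Finset ℤ} {CE : ℝ}
    (dat : Dat d B D zs H0 CE) {b R : ℕ} (hb : ∀ i < d, |m i| ≤ b) (hdb : d ≤ b)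
    (hR : ∀ i < d, |r i| ≤ R) :
    ∃ C : ℝ, 0 < C ∧ ∃ K' z2 : ℕ, zs ≤ z2 ∧ ∀ P : Finset ℕ, (∀ p ∈ P, p.Prime) →
      ∀ (X z z' Y0 : ℕ) (S : Set ℤ), z2 ≤ z → z ≤ z' → z' ≤ z ^ 2 → (Y0 + 4 ^ z') * (2 * z') ^ K' ≤ X →
      Stab d m r R Y0 S →
      uu B S (P.filter (fun p => zs ≤ p ∧ p < z')) X ≤
        uu B S (P.filter (fun p => zs ≤ p ∧ p < z)) X + C / √ (z : ℝ) := by
  have hd2 := h.two_le
  have hd0 : (0 : ℝ) < d := by exact_mod_cast (by omega : 0 < d)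
  have hb1 : 1 ≤ b := by omega
  obtain ⟨κ, hκ⟩ : ∃ κ : ℝ, κ = (1 - η) / (4 * s) := ⟨_, rfl⟩
  have hκ0 : 0 < κ := by rw [hκ]; apply div_pos <;> linarith
  obtain ⟨κ', hκ'⟩ : ∃ κ' : ℝ, κ' = (1 - η) / 2 := ⟨_, rfl⟩
  have hη2 : 0 < κ' := by rw [hκ']; linarith
  obtain ⟨K, hK1, hK2⟩ : ∃ K : ℕ, (d + D + 1 : ℝ) ≤ κ * K ∧ (1 : ℝ) ≤ κ' * K := by
    refine ⟨max ⌈(d + D + 1 : ℝ) / κ⌉₊ ⌈1 / κ'⌉₊, ?_, ?_⟩
    · have h1 := Nat.le_ceil ((d + D + 1 : ℝ) / κ)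
      have h2 : ((⌈(d + D + 1 : ℝ) / κ⌉₊ : ℕ) : ℝ) ≤ (max ⌈(d + D + 1 : ℝ) / κ⌉₊ ⌈1 / κ'⌉₊ : ℕ) := by
        exact_mod_cast le_max_left _ _
      calc (d + D + 1 : ℝ) = κ * ((d + D + 1 : ℝ) / κ) := by field_simp
        _ ≤ _ := mul_le_mul_of_nonneg_left (h1.trans h2) hκ0.le
    · have h1 := Nat.le_ceil (1 / κ')
      have h2 : ((⌈1 / κ'⌉₊ : ℕ) : ℝ) ≤ (max ⌈(d + D + 1 : ℝ) / κ⌉₊ ⌈1 / κ'⌉₊ : ℕ) := by
        exact_mod_cast le_max_right _ _
      calc (1 : ℝ) = κ' * (1 / κ') := (mul_one_div_cancel hη2.ne').symm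
        _ ≤ _ := mul_le_mul_of_nonneg_left (h1.trans h2) hη2.le
  have hKpos : 1 ≤ K := by
    by_contra hcon
    have : K = 0 := by omega
    rw [this] at hK2; norm_num at hK2
  set c : ℕ := 2 * b with hc
  have hbc : 2 * b ≤ 2 ^ c := by rw [hc]; exact (Nat.lt_two_pow_self).le
  obtain ⟨K1, hK1d⟩ : ∃ K1 : ℝ, K1 = CE * (1 + Real.log (1 + 2 * R)) / Real.log 2 + CE * (3 * (c * K) : ℕ) :=
    ⟨_, rfl⟩
  obtain ⟨k, hk⟩ : ∃ k : ℕ, k = ⌊K1⌋₊ := ⟨_, rfl⟩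
  refine ⟨1 + 2 * √ (6 * (k * D)) + 3 * √ (H0.card : ℝ) * (2 * K) ^ d + 3, by positivity,
    c * K + 2 * D + 1 + (6 * R + 9), max zs (4 * k * D + 4), le_max_left _ _, ?_⟩
  intro P hP X z z' Y0 S hz hzz' hzz2 hX hS
  have hzs : zs ≤ z := (le_max_left _ _).trans hz
  have hzk : 4 * k * D + 4 ≤ z := (le_max_right _ _).trans hz
  have hz4 : 4 ≤ z := by omega
  have hz0 : (0 : ℝ) < z := by exact_mod_cast (by omega : 0 < z)
  have hz'0 : (0 : ℝ) < z' := by exact_mod_cast (by omega : 0 < z')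
  set Pz : Finset ℕ := P.filter (fun p => zs ≤ p ∧ p < z) with hPz
  set Qz : Finset ℕ := P.filter (fun p => z ≤ p ∧ p < z') with hQz
  have hun : P.filter (fun p => zs ≤ p ∧ p < z') = Pz ∪ Qz := by
    ext p
    rw [hPz, hQz, mem_union, mem_filter, mem_filter, mem_filter]
    constructor
    · rintro ⟨h1, h2, h3⟩
      by_cases h4 : p < z
      · exact Or.inl ⟨h1, h2, h4⟩
      · exact Or.inr ⟨h1, by omega, h3⟩
    · rintro (⟨h1, h2, h3⟩ | ⟨h1, h2, h3⟩)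
      · exact ⟨h1, h2, by omega⟩
      · exact ⟨h1, by omega, h3⟩
  have hdis : Disjoint Pz Qz := by
    rw [disjoint_left]
    intro p h1 h2
    rw [hPz, mem_filter] at h1
    rw [hQz, mem_filter] at h2
    omega
  have hPz' : ∀ p ∈ Pz, p.Prime ∧ zs ≤ p ∧ p < z := fun p hp => by
    rw [hPz, mem_filter] at hp; exact ⟨hP p hp.1, hp.2⟩
  have hQz' : ∀ p ∈ Qz, p.Prime ∧ z ≤ p ∧ p < z' := fun p hp => by
    rw [hQz, mem_filter] at hp; exact ⟨hP p hp.1, hp.2⟩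
  have hperP : Per B Pz := fun p hp => dat.per p (hPz' p hp).1 (hPz' p hp).2.1
  have hperQ : Per B Qz := fun p hp => dat.per p (hQz' p hp).1 (hzs.trans (hQz' p hp).2.1)
  set e : ℕ := ∏ p ∈ Pz, p with he
  set Q : ℕ := ∏ p ∈ Qz, p with hQ
  have he0 : 0 < e := prod_pos fun p hp => (hPz' p hp).1.pos
  have hQ0 : 0 < Q := prod_pos fun p hp => (hQz' p hp).1.pos
  have heQ : e * Q ≤ 4 ^ z' := by
    rw [he, hQ, ← prod_union hdis]
    apply prod_le_four_pow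
    · intro p hp
      rcases mem_union.1 hp with h1 | h1
      · exact (hPz' p h1).1
      · exact (hQz' p h1).1
    · intro p hp
      rcases mem_union.1 hp with h1 | h1
      · have := (hPz' p h1).2.2; omega
      · exact (hQz' p h1).2.2
  -- the number of steps
  set ℓ : ℕ := Nat.log 2 z' + 1 with hℓ
  have hℓ1 : 2 ^ ℓ ≤ 2 * z' := by
    rw [hℓ, pow_succ]
    have := Nat.pow_log_le_self 2 (show z' ≠ 0 by omega)
    omega
  have hℓ2 : z' < 2 ^ ℓ := Nat.lt_pow_succ_log_self (by norm_num) z'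
  have hℓ3 : ℓ ≤ z' := by
    have := Nat.log_lt_self 2 (show z' ≠ 0 by omega)
    omega
  set N : ℕ := K * ℓ with hN
  set W : ℕ := (2 * b) ^ N with hW
  have hW1 : 1 ≤ W := Nat.one_le_pow _ _ (by omega)
  have hWz : W ≤ (2 * z') ^ (c * K) := by
    calc W = (2 * b) ^ (K * ℓ) := by rw [hW, hN]
      _ ≤ (2 ^ c) ^ (K * ℓ) := Nat.pow_le_pow_left hbc _
      _ = (2 ^ ℓ) ^ (c * K) := by rw [← pow_mul, ← pow_mul]; congr 1; ring
      _ ≤ (2 * z') ^ (c * K) := Nat.pow_le_pow_left hℓ1 _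
  have hUW : d ^ N ≤ W := Nat.pow_le_pow_left (by omega) _
  have hU0 : 0 < d ^ N := pow_pos (by omega) N
  set Hn : ℕ := R * W with hHnd
  have hHn : ∀ w ∈ LW d N, |Ww d m r w| ≤ Hn := fun w hw => Hn_bound hb hdb hb1 hR N w hw
  obtain ⟨j, hj1, hj2⟩ := exists_L (2 * (X + Hn) + 3 * d ^ N) (Q * e * d ^ N)
    (Nat.mul_pos (Nat.mul_pos hQ0 he0) hU0)
  set L : ℕ := Q * j with hL
  have hLe : e * L * d ^ N = Q * e * d ^ N * j := by rw [hL]; ring
  -- the error terms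
  set X0 : ℕ := d ^ N * (Y0 + R) with hX0
  set Bd : ℕ := 2 * Hn + 3 * d ^ N + Q * e * d ^ N with hBd
  have hBd1 : Bd ≤ W * (2 * R + 3 + 4 ^ z') := by
    have h1 : Q * e * d ^ N ≤ 4 ^ z' * W := by
      calc Q * e * d ^ N = (e * Q) * d ^ N := by ring
        _ ≤ 4 ^ z' * W := Nat.mul_le_mul heQ hUW
    rw [hBd, hHnd]
    nlinarith
  have hextN : (2 * X0 + 1) + 2 * Bd ≤ (6 * R + 9) * ((Y0 + 4 ^ z') * W) := by
    have h1 : X0 ≤ W * (Y0 + R) := Nat.mul_le_mul_right _ hUW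
    have h2 : 1 ≤ 4 ^ z' := Nat.one_le_pow _ _ (by norm_num)
    have h3 : (2 * X0 + 1) + 2 * Bd ≤ W * (2 * Y0 + 6 * R + 7 + 2 * 4 ^ z') := by nlinarith
    have h4 : 2 * Y0 + 6 * R + 7 + 2 * 4 ^ z' ≤ (6 * R + 9) * (Y0 + 4 ^ z') := by nlinarith
    calc _ ≤ _ := h3
      _ ≤ W * ((6 * R + 9) * (Y0 + 4 ^ z')) := Nat.mul_le_mul_left _ h4
      _ = _ := by ring
  have hextX : ((2 * X0 + 1) + 2 * Bd) * z' ^ (2 * D + 1) ≤ X := by
    calc ((2 * X0 + 1) + 2 * Bd) * z' ^ (2 * D + 1)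
        ≤ ((6 * R + 9) * ((Y0 + 4 ^ z') * W)) * (2 * z') ^ (2 * D + 1) := by
          apply Nat.mul_le_mul hextN
          exact Nat.pow_le_pow_left (by omega) _
      _ ≤ ((2 * z') ^ (6 * R + 9) * ((Y0 + 4 ^ z') * (2 * z') ^ (c * K))) * (2 * z') ^ (2 * D + 1) := by
          apply Nat.mul_le_mul_right
          apply Nat.mul_le_mul
          · calc 6 * R + 9 ≤ 2 ^ (6 * R + 9) := (Nat.lt_two_pow_self).le
              _ ≤ (2 * z') ^ (6 * R + 9) := Nat.pow_le_pow_left (by omega) _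
          · exact Nat.mul_le_mul_left _ hWz
      _ = (Y0 + 4 ^ z') * (2 * z') ^ (c * K + 2 * D + 1 + (6 * R + 9)) := by ring
      _ ≤ X := hX
  have hz'1 : 1 ≤ z' ^ (2 * D + 1) := Nat.one_le_pow _ _ (by omega)
  have hBdX : Bd ≤ X := by nlinarith
  have hX1 : 1 ≤ X := by nlinarith
  have hX0r : (0 : ℝ) < X := by exact_mod_cast hX1
  -- densities
  obtain ⟨V, hV⟩ : ∃ V : ℝ, V = lam B Pz := ⟨_, rfl⟩
  obtain ⟨l0, hl0⟩ : ∃ l0 : ℝ, l0 = lam B Qz := ⟨_, rfl⟩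
  have hVpos : 0 < V := hV ▸ prod_pos fun p hp => by
    have h1 := dat.om_le p (hPz' p hp).1 (hPz' p hp).2.1
    have h2 := (hPz' p hp).2.1
    have h3 := dat.zs_gt
    have h4 : (om B p : ℝ) < p := by exact_mod_cast (by omega : om B p < p)
    have h5 : (0 : ℝ) < p := by exact_mod_cast (hPz' p hp).1.pos
    have := (div_lt_one h5).2 h4
    linarith
  have hl0pos : 0 < l0 := hl0 ▸ prod_pos fun p hp => by
    have h1 := dat.om_le p (hQz' p hp).1 (hzs.trans (hQz' p hp).2.1)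
    have h2 := (hQz' p hp).2.1
    have h3 := dat.zs_gt
    have h4 : (om B p : ℝ) < p := by exact_mod_cast (by omega : om B p < p)
    have h5 : (0 : ℝ) < p := by exact_mod_cast (hQz' p hp).1.pos
    have := (div_lt_one h5).2 h4
    linarith
  have hl01 : l0 ≤ 1 := hl0 ▸ lam_le_one _
  have hVl : (1 / (z' : ℝ)) ^ (2 * D) ≤ V * l0 := by
    rw [hV, hl0, ← lam_union hdis]
    apply lam_low (a := zs) (by have := dat.zs_gt; omega) dat.zs_two (by omega)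
    · intro p hp
      rcases mem_union.1 hp with h1 | h1
      · have := hPz' p h1; omega
      · have := hQz' p h1; omega
    · intro p hp
      rcases mem_union.1 hp with h1 | h1
      · exact dat.om_le p (hPz' p h1).1 (hPz' p h1).2.1
      · exact dat.om_le p (hQz' p h1).1 (hzs.trans (hQz' p h1).2.1)
  -- the sums
  obtain ⟨AS, hAS⟩ : ∃ AS : ℝ, AS = ∑ n ∈ Icc (-(X : ℤ)) X, ind S n * rho B Pz n := ⟨_, rfl⟩
  obtain ⟨ext, hext⟩ : ∃ ext : ℝ, ext = ((2 * X0 + 1 : ℕ) : ℝ) +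
    2 * ((2 * Hn + 3 * d ^ N + Q * e * d ^ N : ℕ) : ℝ) := ⟨_, rfl⟩
  obtain ⟨G, hG⟩ : ∃ G : ℝ, G = (1 - (D : ℝ) / z)⁻¹ := ⟨_, rfl⟩
  have hDz : (D : ℝ) / z ≤ 1 / 2 := by
    rw [div_le_iff₀ hz0]
    have : 2 * D ≤ z := by have := dat.zs_gt; omega
    have : (2 * D : ℝ) ≤ z := by exact_mod_cast this
    linarith
  have hDz0 : 0 ≤ (D : ℝ) / z := by positivity
  have hkD : (k : ℝ) * (D / z) ≤ 1 / 4 := by
    rw [← mul_div_assoc, div_le_iff₀ hz0]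
    have : 4 * k * D ≤ z := by omega
    have : (4 * k * D : ℝ) ≤ z := by exact_mod_cast this
    linarith
  have hε := inv_pow_le (x := (D : ℝ) / z) (k := k) hDz0 (by linarith) hDz
  rw [← hG] at hε
  have hG1 : 1 ≤ G := by
    rw [hG]; apply (one_le_inv₀ (by linarith)).2; linarith
  have hε0 : 0 ≤ G ^ k - 1 := by have := one_le_pow₀ (n := k) hG1; linarith
  have hcell : ∀ A : Finset ℤ, (∀ a ∈ A, ∀ b ∈ A, |((b - a : ℤ) : ℝ)| ≤ 2 * (Hn : ℝ)) →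
      ∀ σ : ℤ, (σ = 1 ∨ σ = -1) →
      ∑ t ∈ range L, (∑ a ∈ A, (rho B Qz (a + (σ * (d : ℤ) ^ N * e) * t) - l0)) ^ 2 ≤
        L * ((l0 ^ 2 * (G ^ k - 1)) * (A.card : ℝ) ^ 2 + (H0.card * l0) * A.card) := by
    intro A hA σ hσ
    rw [hG]
    rw [hl0]
    refine cell_exact (fun p hp => (hQz' p hp).1) hperQ ?_ (dvd_mul_right _ _) (z := z) (D := D)
      (fun p hp => dat.om_le p (hQz' p hp).1 (hzs.trans (hQz' p hp).2.1)) (fun p hp => (hQz' p hp).2.1)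
      (by have := dat.zs_gt; omega) A H0 ?_
    · intro p hp
      have h1 : IsCoprime ((d : ℤ) ^ N) (p : ℤ) :=
        (dat.cop p (hQz' p hp).1 (hzs.trans (hQz' p hp).2.1)).pow_left
      have h2 : IsCoprime (e : ℤ) (p : ℤ) := by
        rw [Nat.isCoprime_iff_coprime, he]
        apply Nat.Coprime.prod_left
        intro q hq
        apply (Nat.coprime_primes (hPz' q hq).1 (hQz' p hp).1).2
        rintro rfl
        exact (disjoint_left.1 hdis) hq hp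
      have h3 : IsCoprime σ (p : ℤ) := by
        rcases hσ with rfl | rfl
        · exact isCoprime_one_left
        · exact isCoprime_one_left.neg_left
      exact (h3.mul_left h1).mul_left h2
    · intro a ha b' hb' hab
      have h2 : |((b' - a : ℤ) : ℝ)| ≤ 2 * Hn := hA a ha b' hb'
      have h5 : (W : ℝ) ≤ (z : ℝ) ^ (3 * (c * K)) := by
        have h6 : (2 * z') ≤ z ^ 3 := by
          calc 2 * z' ≤ z * z ^ 2 := Nat.mul_le_mul (by omega) hzz2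
            _ = z ^ 3 := by ring
        have h7 : W ≤ z ^ (3 * (c * K)) := by
          rw [pow_mul]
          exact hWz.trans (Nat.pow_le_pow_left h6 _)
        exact_mod_cast h7
      have h8 : (1 : ℝ) ≤ (z : ℝ) ^ (3 * (c * K)) := le_trans (by exact_mod_cast hW1) h5
      have h9 : (Hn : ℝ) = R * W := by rw [hHnd]; push_cast; ring
      have h10 : 1 + |((b' - a : ℤ) : ℝ)| ≤ (1 + 2 * (R : ℝ)) * (z : ℝ) ^ (3 * (c * K)) := by
        calc 1 + |((b' - a : ℤ) : ℝ)| ≤ 1 + 2 * (R * W) := by rw [← h9]; linarith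
          _ ≤ (z : ℝ) ^ (3 * (c * K)) + 2 * (R * (z : ℝ) ^ (3 * (c * K))) := by gcongr
          _ = _ := by ring
      have h4 := ov_count dat hab (z := (z : ℝ)) (by exact_mod_cast (by omega : 2 ≤ z)) (Q := Qz)
        (fun p hp => ⟨(hQz' p hp).1, hzs.trans (hQz' p hp).2.1, by exact_mod_cast (hQz' p hp).2.1⟩)
        (R := (R : ℝ)) (by positivity) h10
      rw [hk, hK1d]
      exact Nat.le_floor h4
  have hcell1 : ∀ a : ℤ, ∑ t ∈ range L, rho B Qz (a + ((d : ℤ) ^ N * e) * t) ≤ L * l0 := by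
    intro a
    rw [hl0, crt_aff (fun p hp => (hQz' p hp).1) hperQ _ a (dvd_mul_right _ _)]
    intro p hp
    have h1 : IsCoprime ((d : ℤ) ^ N) (p : ℤ) :=
      (dat.cop p (hQz' p hp).1 (hzs.trans (hQz' p hp).2.1)).pow_left
    have h2 : IsCoprime (e : ℤ) (p : ℤ) := by
      rw [Nat.isCoprime_iff_coprime, he]
      apply Nat.Coprime.prod_left
      intro q hq
      apply (Nat.coprime_primes (hPz' q hq).1 (hQz' p hp).1).2
      rintro rfl
      exact (disjoint_left.1 hdis) hq hp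
    exact h1.mul_left h2
  have hmain := nstep h hs hsum (N := N) (X := X) (Hn := Hn) (K := Q) (e := e) (L := L) (X0 := X0)
    (fun p hp => (hPz' p hp).1) hperP (fun p hp => dat.cop p (hPz' p hp).1 (hPz' p hp).2.1) he hHn
    (by rw [hLe]; exact hj1) (by rw [hLe]; exact hj2) hBdX S (hS.1 N) (fun n h1 h2 => hS.2 N n h1 h2)
    (rho B Qz) (rho_nonneg Qz) hl0pos.le (mul_nonneg (sq_nonneg l0) hε0)
    (mul_nonneg (Nat.cast_nonneg H0.card) hl0pos.le) hl0pos.le hcell hcell1 hAS hext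
  -- final computation
  have hleft : ∑ n ∈ Icc (-(X : ℤ)) X, ind S n * (rho B Pz n * rho B Qz n) =
      ∑ n ∈ Icc (-(X : ℤ)) X, ind S n * rho B (Pz ∪ Qz) n :=
    sum_congr rfl fun n _ => by rw [rho_union]
  rw [hleft, ← hV] at hmain
  have hQlam : lam B (Pz ∪ Qz) = V * l0 := by rw [hV, hl0]; exact lam_union hdis
  have hAS3 : AS ≤ 3 * X * V := by
    have h1 : 1 + ∏ p ∈ Pz, p ≤ X := by
      rw [← he]
      have h2 : e ≤ 4 ^ z' := by
        calc e = e * 1 := (mul_one _).symm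
          _ ≤ e * Q := Nat.mul_le_mul_left _ hQ0
          _ ≤ 4 ^ z' := heQ
      have h3 : 1 ≤ (2 * z') ^ (c * K + 2 * D + 1 + (6 * R + 9)) := Nat.one_le_pow _ _ (by omega)
      have h4 : 2 ≤ (2 * z') ^ (c * K + 2 * D + 1 + (6 * R + 9)) := by
        calc 2 = 2 ^ 1 := rfl
          _ ≤ (2 * z') ^ 1 := Nat.pow_le_pow_left (by omega) _
          _ ≤ _ := Nat.pow_le_pow_right (by omega) (by omega)
      have h5 : 1 ≤ 4 ^ z' := Nat.one_le_pow _ _ (by norm_num)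
      nlinarith
    have h2 := sifted_le (fun p hp => (hPz' p hp).1) hperP h1
    rw [← hV] at h2
    refine le_trans ?_ h2
    rw [hAS]
    apply sum_le_sum
    intro n _
    have := ind_le_one S n
    have := rho_nonneg (B := B) Pz n
    nlinarith
  have hAS0 : 0 ≤ AS := by
    rw [hAS]; exact sum_nonneg fun n _ => mul_nonneg (ind_nonneg _ _) (rho_nonneg _ _)
  have hext0 : 0 ≤ ext := by rw [hext]; positivity
  have hext1 : ext * (z' : ℝ) ^ (2 * D + 1) ≤ X := by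
    have : ((((2 * X0 + 1) + 2 * Bd) * z' ^ (2 * D + 1) : ℕ) : ℝ) ≤ X := by exact_mod_cast hextX
    rw [hext, ← hBd]
    push_cast at this ⊢
    exact this
  rw [hN, ← hκ, ← hκ'] at hmain
  have hfin := fin_calc (d := d) (D := D) (K := K) (ℓ := ℓ) (k := k) (z := z) (z' := z') (X := (X : ℝ)) (V := V)
    (l0 := l0) (E := G ^ k - 1) (AS := AS) (ext := ext) (h0 := (H0.card : ℝ)) (κ1 := κ) (κ2 := κ') hd2
    hX0r hVpos hl0pos (Nat.cast_nonneg _) (by omega) hzz' hKpos hℓ2 hℓ3 hl01 hε hκ0.le hη2.le hK1 hK2 hVl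
    hAS0 hAS3 hext0 hext1 hmain
  rw [hun]
  unfold uu
  rw [← hAS, hQlam, ← hV, div_le_iff₀ (by positivity)]
  have h1 : (AS / (X * V) + (1 + 2 * √ (6 * (k * D)) + 3 * √ (H0.card : ℝ) * (2 * K) ^ d + 3) / √ (z : ℝ)) *
      (X * (V * l0)) = l0 * AS + (X * V * l0) *
      ((1 + 2 * √ (6 * (k * D)) + 3 * √ (H0.card : ℝ) * (2 * K) ^ d + 3) / √ (z : ℝ)) := by
    field_simp
  rw [h1]
  exact hfin

end Pool.Agent.T2h89.SV
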