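import Pool.Agent.T2h89.SV6

/-! Preparations for the comparison of the sifted sets at the levels `z ≤ z' ≤ z ^ 2`. -/

set_option autoImplicit false

namespace Pool.Agent.T2h89.SV

open Finset
open Pool.Agent.H319R3.GC
open Classical

variable {d : ℕ} {m r : ℕ → ℤ} {B : ℕ → ℤ → Prop}

/-- the assumptions on the sieve conditions modulo the primes `p ≥ zs` -/
structure Dat (d : ℕ) (B : ℕ → ℤ → Prop) (D zs : ℕ) (H0 : Finset ℤ) (CE : ℝ) : Prop where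
  per : ∀ p : ℕ, p.Prime → zs ≤ p → ∀ x : ℤ, B p (x + p) ↔ B p x
  om_le : ∀ p : ℕ, p.Prime → zs ≤ p → om B p ≤ D
  cop : ∀ p : ℕ, p.Prime → zs ≤ p → IsCoprime (d : ℤ) (p : ℤ)
  zs_gt : 2 * D < zs
  zs_two : 2 ≤ zs
  CE_pos : 0 < CE
  ov : ∀ g : ℤ, g ∉ H0 → ∀ z : ℝ, 2 ≤ z → ∀ Q : Finset ℕ,
    (∀ p ∈ Q, p.Prime ∧ zs ≤ p ∧ z ≤ p ∧ ovl B p g) → Q.card * Real.log z ≤ CE * (1 + Real.log (1 + |(g : ℝ)|))

/-- stability under the map and, for large integers, under taking preimages -/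
def Stab (d : ℕ) (m r : ℕ → ℤ) (R Y0 : ℕ) (S : Set ℤ) : Prop :=
  (∀ N : ℕ, ∀ n ∈ S, (Tm d m r)^[N] n ∈ S) ∧
  (∀ (N : ℕ) (n : ℤ), ((d ^ N * (Y0 + R) : ℕ) : ℤ) < |n| → (Tm d m r)^[N] n ∈ S → n ∈ S)

/-- normalised number of the elements of `S` in the sifted set -/
noncomputable def uu (B : ℕ → ℤ → Prop) (S : Set ℤ) (P : Finset ℕ) (X : ℕ) : ℝ :=
  (∑ n ∈ Icc (-(X : ℤ)) X, ind S n * rho B P n) / (X * lam B P)

theorem exists_L (A q : ℕ) (hq : 0 < q) : ∃ j : ℕ, A ≤ q * j ∧ q * j ≤ A + q := by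
  refine ⟨A / q + 1, ?_, ?_⟩
  · have := Nat.lt_mul_div_succ A hq
    omega
  · have := Nat.mul_div_le A q
    rw [mul_add, mul_one]; omega

/-- the number of all sifted integers -/
theorem sifted_le {P : Finset ℕ} (hP : ∀ p ∈ P, p.Prime) (hPer : Per B P) {X : ℕ}
    (hX : 1 + ∏ p ∈ P, p ≤ X) :
    ∑ n ∈ Icc (-(X : ℤ)) X, rho B P n ≤ 3 * X * lam B P := by
  set e : ℕ := ∏ p ∈ P, p with he
  have he0 : 0 < e := prod_pos fun p hp => (hP p hp).pos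
  obtain ⟨j, h1, h2⟩ := exists_L (2 * X + 1) e he0
  have h3 : ∑ n ∈ Icc (-(X : ℤ)) X, rho B P n ≤ ∑ t ∈ range (e * j), rho B P (-(X : ℤ) + 1 * t) := by
    refine sum_le_inj (fun n => (n + X).toNat) ?_ ?_ ?_ ?_
    · intro n hn
      rw [mem_Icc] at hn
      rw [mem_range]; omega
    · intro x hx y hy hxy
      rw [mem_coe, mem_Icc] at hx hy
      simp only at hxy
      omega
    · intro n hn
      rw [mem_Icc] at hn
      have : -(X : ℤ) + 1 * ((n + X).toNat : ℕ) = n := by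
        rw [Int.toNat_of_nonneg (by omega)]; ring
      rw [this]
    · intro t _; exact rho_nonneg _ _
  refine h3.trans ?_
  rw [crt_aff hP hPer (fun p _ => isCoprime_one_left) _ (dvd_mul_right _ _)]
  have h4 : ((e * j : ℕ) : ℝ) ≤ 3 * X := by
    have : e * j ≤ 3 * X := by omega
    exact_mod_cast this
  exact mul_le_mul_of_nonneg_right h4 (lam_nonneg _)

theorem inv_pow_le {x : ℝ} {k : ℕ} (hx : 0 ≤ x) (hkx : k * x ≤ 1 / 2) (hx1 : x ≤ 1 / 2) :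
    ((1 - x)⁻¹) ^ k - 1 ≤ 2 * (k * x) := by
  have h1 : 1 - k * x ≤ (1 - x) ^ k := by
    have := one_add_mul_le_pow (a := -x) (by linarith) k
    calc 1 - k * x = 1 + k * (-x) := by ring
      _ ≤ (1 + -x) ^ k := this
      _ = _ := by ring
  have h2 : 0 ≤ (k : ℝ) * x := by positivity
  rw [inv_pow]
  have h3 : ((1 - x) ^ k)⁻¹ ≤ (1 - k * x)⁻¹ := inv_anti₀ (by linarith) h1
  have h4 : (1 - (k : ℝ) * x)⁻¹ ≤ 1 + 2 * (k * x) := by
    rw [inv_le_comm₀ (by linarith) (by linarith), inv_eq_one_div, div_le_iff₀ (by linarith)]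
    nlinarith
  linarith

theorem prod_le_four_pow {P : Finset ℕ} (hP : ∀ p ∈ P, p.Prime) {z : ℕ} (hz : ∀ p ∈ P, p < z) :
    ∏ p ∈ P, p ≤ 4 ^ z := by
  have h1 : P ⊆ (range (z + 1)).filter Nat.Prime := by
    intro p hp
    rw [mem_filter, mem_range]
    exact ⟨by have := hz p hp; omega, hP p hp⟩
  calc ∏ p ∈ P, p ≤ ∏ p ∈ (range (z + 1)).filter Nat.Prime, p := by
        apply prod_le_prod_of_subset_of_one_le' h1
        intro p hp _
        exact (mem_filter.1 hp).2.one_le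
    _ = primorial z := by
        unfold primorial
        rfl
    _ ≤ 4 ^ z := primorial_le_four_pow z

/-- the offsets of the words of length `N` -/
theorem Hn_bound {b R : ℕ} (hb : ∀ i < d, |m i| ≤ b) (hdb : d ≤ b) (hb1 : 1 ≤ b)
    (hR : ∀ i < d, |r i| ≤ R) (N : ℕ) (w : List ℕ) (hw : w ∈ LW d N) :
    |Ww d m r w| ≤ (R * (2 * b) ^ N : ℕ) := by
  obtain ⟨hl, hwd⟩ := mem_LW.1 hw
  have h1 := abs_Ww_le (d := d) (m := m) (r := r) (b := (b : ℝ)) (R := (R : ℝ))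
    (fun i hi => by exact_mod_cast hb i hi) (by exact_mod_cast hdb) (by exact_mod_cast hb1)
    (fun i hi => by exact_mod_cast hR i hi) w hwd (by positivity)
  rw [hl] at h1
  have h2 : (N : ℝ) ≤ 2 ^ N := by exact_mod_cast (Nat.lt_two_pow_self (n := N)).le
  have h3 : |(Ww d m r w : ℝ)| ≤ ((R * (2 * b) ^ N : ℕ) : ℝ) := by
    refine h1.trans ?_
    push_cast
    rw [mul_pow]
    have : (0 : ℝ) ≤ R * (b : ℝ) ^ N := by positivity
    nlinarith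
  exact_mod_cast h3

/-- the number of the primes for which the two conditions overlap -/
theorem ov_count {D zs : ℕ} {H0 : Finset ℤ} {CE : ℝ} (dat : Dat d B D zs H0 CE) {Q : Finset ℕ} {g : ℤ}
    (hg : g ∉ H0) {z : ℝ} (hz : 2 ≤ z) (hQ : ∀ p ∈ Q, p.Prime ∧ zs ≤ p ∧ z ≤ p) {R : ℝ} (hR : 0 ≤ R)
    {a : ℕ} (hgb : 1 + |(g : ℝ)| ≤ (1 + 2 * R) * z ^ a) :
    ((Q.filter (fun p => ovl B p g)).card : ℝ) ≤
      CE * (1 + Real.log (1 + 2 * R)) / Real.log 2 + CE * a := by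
  have hl2 : 0 < Real.log 2 := Real.log_pos (by norm_num)
  have hCE := dat.CE_pos
  have h1 := dat.ov g hg z hz (Q.filter (fun p => ovl B p g)) (fun p hp => by
    rw [mem_filter] at hp
    exact ⟨(hQ p hp.1).1, (hQ p hp.1).2.1, (hQ p hp.1).2.2, hp.2⟩)
  have hlz : Real.log 2 ≤ Real.log z := Real.log_le_log (by norm_num) hz
  have hlz0 : 0 < Real.log z := by linarith
  have h3 : Real.log (1 + |(g : ℝ)|) ≤ Real.log (1 + 2 * R) + a * Real.log z := by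
    have h5 := Real.log_le_log (by positivity) hgb
    rw [Real.log_mul (by positivity) (by positivity), Real.log_pow] at h5
    exact h5
  refine le_of_mul_le_mul_right ?_ hlz0
  refine h1.trans ?_
  have h6 := mul_le_mul_of_nonneg_left h3 hCE.le
  have h7 : 0 ≤ CE * (1 + Real.log (1 + 2 * R)) := by
    have : 0 ≤ Real.log (1 + 2 * R) := Real.log_nonneg (by linarith)
    positivity
  have h8 : CE * (1 + Real.log (1 + 2 * R)) ≤
      CE * (1 + Real.log (1 + 2 * R)) / Real.log 2 * Real.log z := by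
    rw [div_mul_eq_mul_div, le_div_iff₀ hl2]
    exact mul_le_mul_of_nonneg_left hlz h7
  linarith

/-- the final computation in the comparison of two levels -/
theorem fin_calc {d D K ℓ k z z' : ℕ} {X V l0 E AS ext h0 κ1 κ2 : ℝ} (hd2 : 2 ≤ d) (hX : 0 < X)
    (hV : 0 < V) (hl0 : 0 < l0) (hh0 : 0 ≤ h0) (hz : 0 < z) (hzz' : z ≤ z')
    (hKpos : 1 ≤ K) (hℓ2 : z' < 2 ^ ℓ) (hℓ3 : ℓ ≤ z') (hl1 : l0 ≤ 1)
    (hE : E ≤ 2 * (k * ((D : ℝ) / z))) (hκ1 : 0 ≤ κ1) (hκ2 : 0 ≤ κ2)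
    (hK1 : (d + D + 1 : ℝ) ≤ κ1 * K) (hK2 : (1 : ℝ) ≤ κ2 * K)
    (hVl : (1 / (z' : ℝ)) ^ (2 * D) ≤ V * l0) (hAS0 : 0 ≤ AS) (hAS3 : AS ≤ 3 * X * V)
    (hext0 : 0 ≤ ext) (hext1 : ext * (z' : ℝ) ^ (2 * D + 1) ≤ X) {T : ℝ}
    (hmain : T ≤ l0 * (AS + ext) + √ ((l0 ^ 2 * E) * (3 * X) * V) * √ (AS + ext) +
      3 * X * (√ ((h0 * l0) * V) * (((K * ℓ : ℕ) : ℝ) + 1) ^ d * (d : ℝ) ^ (-κ1 * ((K * ℓ : ℕ) : ℝ))) +
      3 * X * (V * l0 * (d : ℝ) ^ (-κ2 * ((K * ℓ : ℕ) : ℝ)))) :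
    T ≤ l0 * AS + (X * V * l0) * ((1 + 2 * √ (6 * (k * D)) + 3 * √ h0 * (2 * K) ^ d + 3) / √ (z : ℝ)) := by
  have hz0 : (0 : ℝ) < z := by exact_mod_cast hz
  have hz'0 : (0 : ℝ) < z' := by exact_mod_cast (by omega : 0 < z')
  have hz'1 : (1 : ℝ) ≤ z' := by exact_mod_cast (by omega : 1 ≤ z')
  have hd0 : (0 : ℝ) < d := by exact_mod_cast (by omega : 0 < d)
  have hXV : 0 < X * V := by positivity
  have hVlow : (1 / (z' : ℝ)) ^ (2 * D) ≤ V := hVl.trans (by nlinarith)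
  have hextz : ext ≤ X * V * (1 / z') := by
    have h2 : ext ≤ X / (z' : ℝ) ^ (2 * D + 1) := by rw [le_div_iff₀ (by positivity)]; exact hext1
    refine h2.trans ?_
    calc X / (z' : ℝ) ^ (2 * D + 1) = X * (1 / (z' : ℝ)) ^ (2 * D) * (1 / z') := by
          rw [pow_succ, one_div_pow]; field_simp
      _ ≤ X * V * (1 / z') := by gcongr
  have hz'inv : 1 / (z' : ℝ) ≤ 1 := by rw [div_le_one hz'0]; exact hz'1
  have hASe : AS + ext ≤ 4 * (X * V) := by nlinarith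
  have hsz : 1 / (z' : ℝ) ≤ 1 / √ (z : ℝ) := by
    apply one_div_le_one_div_of_le (Real.sqrt_pos.2 hz0)
    rw [Real.sqrt_le_left hz'0.le]
    have h1 : (z : ℝ) ≤ z' := by exact_mod_cast hzz'
    nlinarith
  have hsz0 : 0 ≤ 1 / √ (z : ℝ) := by positivity
  -- the second term
  have hT2 : √ ((l0 ^ 2 * E) * (3 * X) * V) * √ (AS + ext) ≤
      (X * V * l0) * (2 * √ (6 * (k * D)) * (1 / √ (z : ℝ))) := by
    have h1 : √ ((l0 ^ 2 * E) * (3 * X) * V) * √ (AS + ext) ≤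
        √ ((l0 ^ 2 * (2 * (k * ((D : ℝ) / z)))) * (3 * X) * V) * √ (4 * (X * V)) := by
      apply mul_le_mul _ (Real.sqrt_le_sqrt hASe) (Real.sqrt_nonneg _) (Real.sqrt_nonneg _)
      apply Real.sqrt_le_sqrt
      gcongr
    refine h1.trans (le_of_eq ?_)
    rw [← Real.sqrt_mul (by positivity)]
    have h2 : l0 ^ 2 * (2 * ((k : ℝ) * (D / z))) * (3 * X) * V * (4 * (X * V)) =
        (2 * (X * V * l0)) ^ 2 * (6 * (k * D) / z) := by
      field_simp; ring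
    rw [h2, Real.sqrt_mul (by positivity), Real.sqrt_sq (by positivity), Real.sqrt_div (by positivity)]
    ring
  -- powers of `d`
  have hpow : ∀ x y : ℝ, x ≤ y * K → 0 ≤ y → (d : ℝ) ^ (-y * ((K * ℓ : ℕ) : ℝ)) ≤ (z' : ℝ) ^ (-x) := by
    intro x y hxy hy
    have hd2r : (2 : ℝ) ≤ d := by exact_mod_cast hd2
    calc (d : ℝ) ^ (-y * ((K * ℓ : ℕ) : ℝ)) ≤ (2 : ℝ) ^ (-y * ((K * ℓ : ℕ) : ℝ)) := by
          apply Real.rpow_le_rpow_of_nonpos (by norm_num) hd2r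
          have : 0 ≤ y * ((K * ℓ : ℕ) : ℝ) := by positivity
          linarith
      _ = ((2 : ℝ) ^ ℓ) ^ (-(y * K)) := by
          rw [← Real.rpow_natCast 2 ℓ, ← Real.rpow_mul (by norm_num)]
          congr 1; push_cast; ring
      _ ≤ (z' : ℝ) ^ (-(y * K)) := by
          apply Real.rpow_le_rpow_of_nonpos hz'0
          · exact_mod_cast hℓ2.le
          · have : 0 ≤ y * (K : ℝ) := by positivity
            linarith
      _ ≤ (z' : ℝ) ^ (-x) := by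
          apply Real.rpow_le_rpow_of_exponent_le hz'1
          linarith
  have hT3 : 3 * X * (√ ((h0 * l0) * V) * (((K * ℓ : ℕ) : ℝ) + 1) ^ d * (d : ℝ) ^ (-κ1 * ((K * ℓ : ℕ) : ℝ))) ≤
      (X * V * l0) * (3 * √ h0 * (2 * K) ^ d * (1 / √ (z : ℝ))) := by
    have h1 : (d : ℝ) ^ (-κ1 * ((K * ℓ : ℕ) : ℝ)) ≤ (z' : ℝ) ^ (-(d + D + 1 : ℝ)) :=
      hpow _ _ hK1 hκ1
    have h2 : (((K * ℓ : ℕ) : ℝ) + 1) ^ d ≤ (2 * K) ^ d * (z' : ℝ) ^ d := by
      rw [← mul_pow]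
      apply pow_le_pow_left₀ (by positivity)
      have h3 : K * ℓ + 1 ≤ 2 * K * z' := by
        have h4 : K * ℓ ≤ K * z' := Nat.mul_le_mul_left _ hℓ3
        have h5 : 1 ≤ K * z' := Nat.mul_pos hKpos (by omega)
        nlinarith
      exact_mod_cast h3
    have h3 : √ ((h0 * l0) * V) ≤ √ h0 * ((V * l0) * (z' : ℝ) ^ D) := by
      rw [mul_assoc, Real.sqrt_mul hh0]
      apply mul_le_mul_of_nonneg_left _ (Real.sqrt_nonneg _)
      rw [Real.sqrt_le_left (by positivity)]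
      have h4 : 1 ≤ (V * l0) * ((z' : ℝ) ^ D) ^ 2 := by
        have h5 : (1 / (z' : ℝ)) ^ (2 * D) * ((z' : ℝ) ^ D) ^ 2 = 1 := by
          rw [one_div_pow, ← pow_mul, mul_comm D 2]; field_simp
        calc (1 : ℝ) = (1 / (z' : ℝ)) ^ (2 * D) * ((z' : ℝ) ^ D) ^ 2 := h5.symm
          _ ≤ _ := by gcongr
      calc l0 * V = (V * l0) * 1 := by ring
        _ ≤ (V * l0) * ((V * l0) * ((z' : ℝ) ^ D) ^ 2) := by gcongr
        _ = _ := by ring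
    have h4 : (z' : ℝ) ^ (-(d + D + 1 : ℝ)) * ((z' : ℝ) ^ d * (z' : ℝ) ^ D) = 1 / z' := by
      rw [← Real.rpow_natCast (z' : ℝ) d, ← Real.rpow_natCast (z' : ℝ) D, ← Real.rpow_add hz'0,
        ← Real.rpow_add hz'0, show -(d + D + 1 : ℝ) + (d + D) = -1 by ring, Real.rpow_neg_one, one_div]
    calc 3 * X * (√ ((h0 * l0) * V) * (((K * ℓ : ℕ) : ℝ) + 1) ^ d * (d : ℝ) ^ (-κ1 * ((K * ℓ : ℕ) : ℝ)))
        ≤ 3 * X * ((√ h0 * ((V * l0) * (z' : ℝ) ^ D)) * ((2 * K) ^ d * (z' : ℝ) ^ d) *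
          (z' : ℝ) ^ (-(d + D + 1 : ℝ))) := by gcongr
      _ = (X * V * l0) * (3 * √ h0 * (2 * K) ^ d *
          ((z' : ℝ) ^ (-(d + D + 1 : ℝ)) * ((z' : ℝ) ^ d * (z' : ℝ) ^ D))) := by ring
      _ = (X * V * l0) * (3 * √ h0 * (2 * K) ^ d * (1 / z')) := by rw [h4]
      _ ≤ (X * V * l0) * (3 * √ h0 * (2 * K) ^ d * (1 / √ (z : ℝ))) := by gcongr
  have hT4 : 3 * X * (V * l0 * (d : ℝ) ^ (-κ2 * ((K * ℓ : ℕ) : ℝ))) ≤ (X * V * l0) * (3 * (1 / √ (z : ℝ))) := by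
    have h1 : (d : ℝ) ^ (-κ2 * ((K * ℓ : ℕ) : ℝ)) ≤ (z' : ℝ) ^ (-(1 : ℝ)) := hpow _ _ hK2 hκ2
    rw [Real.rpow_neg_one, ← one_div] at h1
    calc 3 * X * (V * l0 * (d : ℝ) ^ (-κ2 * ((K * ℓ : ℕ) : ℝ))) ≤ 3 * X * (V * l0 * (1 / √ (z : ℝ))) := by
          have := h1.trans hsz
          gcongr
      _ = _ := by ring
  have hT1 : l0 * (AS + ext) ≤ l0 * AS + (X * V * l0) * (1 / √ (z : ℝ)) := by
    have h1 : ext ≤ X * V * (1 / √ (z : ℝ)) := hextz.trans (by gcongr)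
    have := mul_le_mul_of_nonneg_left h1 hl0.le
    linarith
  have h1 : (X * V * l0) * ((1 + 2 * √ (6 * (k * D)) + 3 * √ h0 * (2 * K) ^ d + 3) / √ (z : ℝ)) =
      (X * V * l0) * (1 / √ (z : ℝ)) + (X * V * l0) * (2 * √ (6 * (k * D)) * (1 / √ (z : ℝ))) +
      (X * V * l0) * (3 * √ h0 * (2 * K) ^ d * (1 / √ (z : ℝ))) + (X * V * l0) * (3 * (1 / √ (z : ℝ))) := by
    ring
  rw [h1]
  linarith

end Pool.Agent.T2h89.SV
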