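import Pool.Agent.T2h89.SV7

/-! The comparison of the sifted sets at all levels `z0 ≤ z1`. -/

set_option autoImplicit false

namespace Pool.Agent.T2h89.SV

open Finset
open Pool.Agent.H319R3.GC
open Classical

variable {d : ℕ} {m r : ℕ → ℤ} {B : ℕ → ℤ → Prop}

theorem sqrt_pow_two_pow {z : ℕ} (hz : 4 ≤ z) (j : ℕ) :
    1 / √ ((z ^ 2 ^ j : ℕ) : ℝ) ≤ (1 / √ (z : ℝ)) * (1 / 2) ^ j := by
  have hz0 : (0 : ℝ) < z := by exact_mod_cast (by omega : 0 < z)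
  have h2 : (2 : ℝ) ≤ √ (z : ℝ) := by
    rw [show (2 : ℝ) = √ (2 ^ 2) by rw [Real.sqrt_sq (by norm_num)]]
    apply Real.sqrt_le_sqrt
    have : (4 : ℝ) ≤ z := by exact_mod_cast hz
    linarith
  have h3 : √ ((z ^ 2 ^ j : ℕ) : ℝ) = √ (z : ℝ) ^ (2 ^ j) := by
    push_cast
    rw [Real.sqrt_eq_iff_mul_self_eq (by positivity) (by positivity), ← mul_pow,
      Real.mul_self_sqrt hz0.le]
  rw [h3]
  have h4 : j + 1 ≤ 2 ^ j := Nat.lt_two_pow_self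
  have h5 : √ (z : ℝ) * 2 ^ j ≤ √ (z : ℝ) ^ (2 ^ j) := by
    calc √ (z : ℝ) * 2 ^ j ≤ √ (z : ℝ) * √ (z : ℝ) ^ j := by gcongr
      _ = √ (z : ℝ) ^ (j + 1) := by ring
      _ ≤ √ (z : ℝ) ^ (2 ^ j) := pow_le_pow_right₀ (by linarith) h4
  calc 1 / √ (z : ℝ) ^ (2 ^ j) ≤ 1 / (√ (z : ℝ) * 2 ^ j) := by
        apply one_div_le_one_div_of_le (by positivity) h5
    _ = _ := by rw [one_div_pow, one_div_mul_one_div]

theorem chain (h : Adm d m r) {s η : ℝ} (hs : 0 < s) (hη1 : η < 1)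
    (hsum : ∑ j ∈ range d, (|(m j : ℝ)| / d) ^ s ≤ (d : ℝ) ^ η) {D zs : ℕ} {H0 : Finset ℤ} {CE : ℝ}
    (dat : Dat d B D zs H0 CE) {b R : ℕ} (hb : ∀ i < d, |m i| ≤ b) (hdb : d ≤ b)
    (hR : ∀ i < d, |r i| ≤ R) :
    ∃ C : ℝ, 0 < C ∧ ∃ K' z2 : ℕ, zs ≤ z2 ∧ 4 ≤ z2 ∧ ∀ P : Finset ℕ, (∀ p ∈ P, p.Prime) →
      ∀ (X z0 z1 Y0 : ℕ) (S : Set ℤ), z2 ≤ z0 → z0 ≤ z1 → (Y0 + 4 ^ z1) * (2 * z1) ^ K' ≤ X →
      Stab d m r R Y0 S →
      uu B S (P.filter (fun p => zs ≤ p ∧ p < z1)) X ≤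
        uu B S (P.filter (fun p => zs ≤ p ∧ p < z0)) X + C / √ (z0 : ℝ) := by
  obtain ⟨C, hC, K', z2, hz2, hst⟩ := two_step h hs hη1 hsum dat hb hdb hR
  refine ⟨2 * C, by positivity, K', max z2 4, hz2.trans (le_max_left _ _), le_max_right _ _, ?_⟩
  intro P hP X z0 z1 Y0 S hz0 hz01 hX hS
  have hz02 : z2 ≤ z0 := (le_max_left _ _).trans hz0
  have hz04 : 4 ≤ z0 := (le_max_right _ _).trans hz0
  have key : ∀ j : ℕ, ∀ z1 : ℕ, z0 ≤ z1 → z1 ≤ z0 ^ 2 ^ j → (Y0 + 4 ^ z1) * (2 * z1) ^ K' ≤ X →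
      uu B S (P.filter (fun p => zs ≤ p ∧ p < z1)) X ≤
        uu B S (P.filter (fun p => zs ≤ p ∧ p < z0)) X +
          C * ∑ i ∈ range j, (1 / √ (z0 : ℝ)) * (1 / 2) ^ i := by
    intro j
    induction j with
    | zero =>
      intro z1 h1 h2 _
      have : z1 = z0 := by simp at h2; omega
      rw [this]; simp
    | succ j ih =>
      intro z1 h1 h2 h3
      have hsum' : ∑ i ∈ range (j + 1), (1 / √ (z0 : ℝ)) * (1 / 2) ^ i =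
        ∑ i ∈ range j, (1 / √ (z0 : ℝ)) * (1 / 2) ^ i + (1 / √ (z0 : ℝ)) * (1 / 2) ^ j := sum_range_succ _ _
      rcases le_or_gt z1 (z0 ^ 2 ^ j) with h4 | h4
      · refine (ih z1 h1 h4 h3).trans ?_
        rw [hsum']
        have : 0 ≤ (1 / √ (z0 : ℝ)) * (1 / 2) ^ j := by positivity
        nlinarith
      · have h5 : z0 ≤ z0 ^ 2 ^ j := by
          calc z0 = z0 ^ 1 := (pow_one _).symm
            _ ≤ z0 ^ 2 ^ j := Nat.pow_le_pow_right (by omega) (Nat.one_le_two_pow)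
        have h6 : (Y0 + 4 ^ (z0 ^ 2 ^ j)) * (2 * (z0 ^ 2 ^ j)) ^ K' ≤ X := by
          refine le_trans ?_ h3
          apply Nat.mul_le_mul
          · apply Nat.add_le_add_left
            exact Nat.pow_le_pow_right (by norm_num) h4.le
          · exact Nat.pow_le_pow_left (by omega) _
        have h7 := ih _ h5 le_rfl h6
        have h8 := hst P hP X (z0 ^ 2 ^ j) z1 Y0 S (hz02.trans h5) h4.le (by
          calc z1 ≤ z0 ^ 2 ^ (j + 1) := h2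
            _ = (z0 ^ 2 ^ j) ^ 2 := by rw [← pow_mul, pow_succ]) h3 hS
        have h9 := sqrt_pow_two_pow hz04 j
        have h10 : C / √ ((z0 ^ 2 ^ j : ℕ) : ℝ) ≤ C * ((1 / √ (z0 : ℝ)) * (1 / 2) ^ j) := by
          rw [div_eq_mul_one_div]
          exact mul_le_mul_of_nonneg_left h9 hC.le
        rw [hsum', mul_add]
        linarith
  have hj : z1 ≤ z0 ^ 2 ^ z1 := by
    calc z1 ≤ 2 ^ z1 := (Nat.lt_two_pow_self).le
      _ ≤ 2 ^ 2 ^ z1 := Nat.pow_le_pow_right (by norm_num) (Nat.lt_two_pow_self).le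
      _ ≤ z0 ^ 2 ^ z1 := Nat.pow_le_pow_left (by omega) _
  have h1 := key z1 z1 hz01 hj hX
  refine h1.trans ?_
  have h2 : ∑ i ∈ range z1, (1 / √ (z0 : ℝ)) * (1 / 2) ^ i ≤ 2 / √ (z0 : ℝ) := by
    rw [← mul_sum]
    have h3 : ∑ i ∈ range z1, ((1 : ℝ) / 2) ^ i ≤ 2 := by
      rw [geom_sum_eq (by norm_num)]
      have : (0 : ℝ) ≤ (1 / 2) ^ z1 := by positivity
      rw [div_le_iff_of_neg (by norm_num)]
      linarith
    calc (1 / √ (z0 : ℝ)) * ∑ i ∈ range z1, ((1 : ℝ) / 2) ^ i ≤ (1 / √ (z0 : ℝ)) * 2 := by gcongr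
      _ = _ := by ring
  have h3 : C * ∑ i ∈ range z1, (1 / √ (z0 : ℝ)) * (1 / 2) ^ i ≤ 2 * C / √ (z0 : ℝ) := by
    calc C * ∑ i ∈ range z1, (1 / √ (z0 : ℝ)) * (1 / 2) ^ i ≤ C * (2 / √ (z0 : ℝ)) := by gcongr
      _ = _ := by ring
  linarith

end Pool.Agent.T2h89.SV
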