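import Pool.Agent.TH930.GH.MollerB

/-! Möller's maps: the integers of an arbitrary interval whose orbit stays above its starting point. -/

set_option autoImplicit false

namespace Pool.Agent.T2h89.Mo

open Finset Filter Topology Pool.Agent.H319R3.GC Pool.Agent.TH930.GH
open Pool.Agent.H828R3.GP (Mu m_abs approx)

variable {d : ℕ} {m r : ℕ → ℤ}

/-- the multiplier along an orbit that stays above its starting point -/
theorem stay_mult2 (h : Adm d m r) {R : ℝ} (hR : ∀ i < d, |(r i : ℝ)| ≤ R) (hR0 : 0 ≤ R) {K : ℕ} {y : ℤ}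
    (hy : 0 < y) (hn : 4 * K * R ≤ y) (hst : ∀ j ≤ K, y ≤ (Tm d m r)^[j] y) :
    (d : ℝ) ^ K ≤ 2 * |(Mw m (wd d m r K y) : ℝ)| := by
  have hd0 : (0 : ℝ) < d := by exact_mod_cast (by have := h.two_le; omega : 0 < d)
  have hY : (0 : ℝ) < y := by exact_mod_cast hy
  have hnn : (0 : ℝ) ≤ K := Nat.cast_nonneg K
  have hst' : ∀ j ≤ K, (y : ℝ) ≤ (((Tm d m r)^[j] y : ℤ) : ℝ) := fun j hj => by exact_mod_cast hst j hj
  have h6 := approx h hR hR0 hY K (x := y) (fun j hj => (hst' j hj.le).trans (le_abs_self _))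
    (by nlinarith)
  rw [Mu_eq] at h6
  set M : ℝ := (Mw m (wd d m r K y) : ℝ) with hM
  set z : ℝ := (((Tm d m r)^[K] y : ℤ) : ℝ) with hz
  have hD : (0 : ℝ) < (d : ℝ) ^ K := by positivity
  have h8 : K * (2 * R / (y : ℝ)) ≤ 1 / 2 := by
    rw [mul_div_assoc', div_le_iff₀ hY]; linarith
  have h9 : |M * y - (d : ℝ) ^ K * z| ≤ 1 / 2 * ((d : ℝ) ^ K * |z|) :=
    h6.trans (mul_le_mul_of_nonneg_right h8 (by positivity))
  have h10 : (d : ℝ) ^ K * |z| ≤ 2 * (|M| * |(y : ℝ)|) := by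
    have e1 : (d : ℝ) ^ K * |z| = |(d : ℝ) ^ K * z| := by rw [abs_mul, abs_of_pos hD]
    have e2 := abs_sub_abs_le_abs_sub ((d : ℝ) ^ K * z) (M * y)
    rw [abs_sub_comm, ← e1, abs_mul M] at e2
    linarith
  have h11 : (y : ℝ) ≤ |z| := (hst' K le_rfl).trans (le_abs_self _)
  rw [abs_of_pos hY] at h10
  have h12 : (d : ℝ) ^ K * y ≤ (2 * |M|) * y := by
    calc (d : ℝ) ^ K * y ≤ (d : ℝ) ^ K * |z| := mul_le_mul_of_nonneg_left h11 hD.le
      _ ≤ _ := h10
      _ = _ := by ring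
  exact le_of_mul_le_mul_right h12 hY

/-- intervals of length a power of `d` -/
theorem blk {r0 : ℕ → ℤ} (h0 : Adm d m r0) {s η : ℝ} (hs : 0 < s) (hη0 : 0 ≤ η) (hη1 : η < 1)
    (hsum : ∑ j ∈ range d, (|(m j : ℝ)| / d) ^ s ≤ (d : ℝ) ^ η) :
    ∃ c1 : ℝ, 0 < c1 ∧ ∃ τ0 : ℝ, 0 < τ0 ∧ τ0 ≤ 1 ∧ ∀ τ : ℝ, 0 < τ → τ ≤ τ0 → ∀ r : ℕ → ℤ,
      Adm d m r → ∀ R0 : ℝ, 0 ≤ R0 → (∀ i < d, |(r i : ℝ)| ≤ R0) →
      ∃ A : ℝ, 0 ≤ A ∧ ∀ i : ℕ, ∀ (u : ℤ) (B : Finset ℤ),
        (∀ x ∈ B, |x - u| ≤ (d : ℤ) ^ i ∧ 0 < x ∧ 8 * i * R0 ≤ x ∧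
          ∀ j ≤ i + ⌊τ * (i : ℝ)⌋₊, x ≤ (Tm d m r)^[j] x) →
        (B.card : ℝ) ≤ A * ((d : ℝ) ^ (η - τ * (1 - η) + Real.exp (-(c1 / τ)))) ^ i := by
  classical
  have hd := h0.two_le
  have hdR : (2 : ℝ) ≤ d := by exact_mod_cast hd
  have hd0 : (0 : ℝ) < d := by linarith
  have hl2 : (0.6931471803 : ℝ) < Real.log 2 := Real.log_two_gt_d9
  have hld2 : Real.log 2 ≤ Real.log d := Real.log_le_log (by norm_num) hdR
  have hld : 0 < Real.log d := by linarith
  obtain ⟨c0, hc0, k0, hk0, hmain⟩ := main_large (Cop_of_Adm h0) (big_of_Adm h0) s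
  -- the error term
  obtain ⟨τ1, hτ10, hτ11⟩ : ∃ τ1 : ℝ, 0 < τ1 ∧ ∀ τ : ℝ, 0 < τ → τ ≤ τ1 →
      3 * Real.exp (-(c0 / (16 * τ))) ≤ Real.exp (-(c0 / 32 / τ)) := by
    refine ⟨c0 / 64, by positivity, fun τ h1 h2 => ?_⟩
    have h3 : Real.exp (-(c0 / (16 * τ))) = Real.exp (-(c0 / 32 / τ)) * Real.exp (-(c0 / 32 / τ)) := by
      rw [← Real.exp_add]; congr 1; field_simp; ring
    have h4 : Real.exp (-(c0 / 32 / τ)) ≤ 1 / 3 := by
      rw [Real.exp_neg, ← one_div]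
      apply one_div_le_one_div_of_le (by norm_num)
      have h5 : 2 ≤ c0 / 32 / τ := by
        rw [le_div_iff₀ h1]; linarith
      have h6 := Real.add_one_le_exp (c0 / 32 / τ)
      linarith
    have h5 := Real.exp_pos (-(c0 / 32 / τ))
    rw [h3]
    nlinarith
  refine ⟨c0 / 32, by positivity, min τ1 (min (1 / 16) (1 / (16 * k0))), ?_, ?_, ?_⟩
  · have : (0 : ℝ) < k0 := by exact_mod_cast hk0
    positivity
  · exact (min_le_right _ _).trans ((min_le_left _ _).trans (by norm_num))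
  intro τ hτ0 hτ r h R0 hR00 hR0
  have hC := Cop_of_Adm h
  have hτa : τ ≤ τ1 := hτ.trans (min_le_left _ _)
  have hτb : τ ≤ 1 / 16 := hτ.trans ((min_le_right _ _).trans (min_le_left _ _))
  have hτc : τ ≤ 1 / (16 * k0) := hτ.trans ((min_le_right _ _).trans (min_le_right _ _))
  have hk0R : (1 : ℝ) ≤ k0 := by exact_mod_cast hk0
  set k : ℕ := ⌊1 / (8 * τ)⌋₊ with hk
  have hk1 : (k : ℝ) ≤ 1 / (8 * τ) := Nat.floor_le (by positivity)
  have hk2 : 1 / (16 * τ) ≤ k := by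
    have h1 := Nat.lt_floor_add_one (1 / (8 * τ))
    rw [← hk] at h1
    have h2 : 1 ≤ 1 / (16 * τ) := by
      rw [le_div_iff₀ (by positivity)]; linarith
    have h3 : 1 / (8 * τ) = 1 / (16 * τ) + 1 / (16 * τ) := by field_simp; norm_num
    linarith
  have hkk0 : k0 ≤ k := by
    have h1 : (k0 : ℝ) ≤ 1 / (16 * τ) := by
      rw [le_div_iff₀ (by positivity)] at hτc ⊢
      linarith
    exact_mod_cast h1.trans hk2
  have hk8 : 8 * k * τ ≤ 1 := by
    rw [le_div_iff₀ (by positivity)] at hk1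
    linarith
  obtain ⟨C, hC0, hcount⟩ := hmain k hkk0 r hC
  set E : ℝ := Real.exp (-(c0 / 32 / τ)) with hE
  have hE0 : 0 < E := Real.exp_pos _
  set θ : ℝ := η - τ * (1 - η) + E with hθ
  -- the threshold
  have e2 : ∀ᶠ i : ℕ in atTop, 3 ≤ τ * (i : ℝ) :=
    (Tendsto.const_mul_atTop hτ0 tendsto_natCast_atTop_atTop).eventually_ge_atTop _
  obtain ⟨i0, hi0⟩ := eventually_atTop.1 e2
  have hdθ : (0 : ℝ) < (d : ℝ) ^ θ := Real.rpow_pos_of_pos hd0 θ
  -- the constants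
  set A1 : ℝ := C * 2 ^ s * (d : ℝ) ^ (5 : ℝ) with hA1
  have hA10 : 0 < A1 := by positivity
  set A2 : ℝ := ∑ i ∈ range (i0 + 1), 3 * (d : ℝ) ^ i / ((d : ℝ) ^ θ) ^ i with hA2
  have hA20 : 0 ≤ A2 := sum_nonneg fun _ _ => by positivity
  refine ⟨A1 + A2, by positivity, ?_⟩
  intro i u B hB
  have hSub : B ⊆ Icc (u - (d : ℤ) ^ i) (u + (d : ℤ) ^ i) := by
    intro x hx
    have h1 := abs_le.1 (hB x hx).1
    rw [mem_Icc]
    constructor <;> linarith [h1.1, h1.2]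
  rcases lt_or_ge i i0 with hsm | hbig
  · have h1 : (B.card : ℝ) ≤ 3 * (d : ℝ) ^ i := by
      have h2 := card_le_card hSub
      rw [Int.card_Icc] at h2
      have h3 : (u + (d : ℤ) ^ i + 1 - (u - (d : ℤ) ^ i)).toNat = 2 * d ^ i + 1 := by
        have : (u + (d : ℤ) ^ i + 1 - (u - (d : ℤ) ^ i)) = ((2 * d ^ i + 1 : ℕ) : ℤ) := by push_cast; ring
        rw [this, Int.toNat_natCast]
      rw [h3] at h2
      have h4 : (B.card : ℝ) ≤ 2 * (d : ℝ) ^ i + 1 := by exact_mod_cast h2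
      have h5 : (1 : ℝ) ≤ (d : ℝ) ^ i := one_le_pow₀ (by linarith)
      linarith
    have h2 : 3 * (d : ℝ) ^ i / ((d : ℝ) ^ θ) ^ i ≤ A2 :=
      single_le_sum (f := fun i => 3 * (d : ℝ) ^ i / ((d : ℝ) ^ θ) ^ i) (fun _ _ => by positivity)
        (mem_range.2 (by omega))
    rw [div_le_iff₀ (by positivity)] at h2
    have h3 : 0 ≤ A1 * ((d : ℝ) ^ θ) ^ i := by positivity
    linarith
  · have g2 := hi0 i hbig
    have hin : (0 : ℝ) ≤ i := Nat.cast_nonneg i
    set ρ0 : ℕ := ⌊τ * (i : ℝ)⌋₊ with hρ0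
    have hfl : (ρ0 : ℝ) ≤ τ * i := Nat.floor_le (by positivity)
    have hfl2 : τ * (i : ℝ) < ρ0 + 1 := Nat.lt_floor_add_one _
    have hρ3 : 3 ≤ ρ0 := Nat.le_floor (by exact_mod_cast g2)
    set K : ℕ := i + ρ0 with hK
    have hKR : (K : ℝ) = i + ρ0 := by rw [hK]; push_cast; rfl
    have hρi : ρ0 ≤ i := by
      have : (ρ0 : ℝ) ≤ i := by nlinarith
      exact_mod_cast this
    set ρ : ℕ := ρ0 - 3 with hρ
    have hρK : ρ ≤ K / (8 * k) := by
      have hk0' : 0 < k := by omega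
      rw [Nat.le_div_iff_mul_le (by omega)]
      have h1 : ((ρ0 * (8 * k) : ℕ) : ℝ) ≤ K := by
        push_cast
        rw [hKR]
        have h2 : (ρ0 : ℝ) * (8 * k) ≤ τ * i * (8 * k) := mul_le_mul_of_nonneg_right hfl (by positivity)
        have h3 : τ * i * (8 * k) = (8 * k * τ) * i := by ring
        have h4 : (8 * k * τ) * i ≤ 1 * i := mul_le_mul_of_nonneg_right hk8 hin
        have h5 : (0 : ℝ) ≤ ρ0 := Nat.cast_nonneg _
        linarith
      have h2 : ρ0 * (8 * k) ≤ K := by exact_mod_cast h1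
      exact (Nat.mul_le_mul_right _ (by omega)).trans h2
    have hRpos : 1 ≤ d ^ ρ := Nat.one_le_pow _ _ (by omega)
    -- the count
    have hct := hcount K (d ^ ρ) hRpos (Nat.pow_le_pow_right (by omega) hρK)
      (2 ^ s * (d : ℝ) ^ (-(s * K))) (by positivity) u B (by
        intro x hx
        obtain ⟨hx1, hx2, hx3, hx4⟩ := hB x hx
        constructor
        · have h2 : (8 : ℤ) ≤ (d : ℤ) ^ 3 := by
            have : (2 : ℤ) ≤ d := by exact_mod_cast hd
            calc (8 : ℤ) = 2 ^ 3 := by norm_num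
              _ ≤ (d : ℤ) ^ 3 := pow_le_pow_left₀ (by norm_num) this 3
          push_cast
          calc |x - u| * (8 * (d : ℤ) ^ ρ) ≤ (d : ℤ) ^ i * ((d : ℤ) ^ 3 * (d : ℤ) ^ ρ) := by
                apply mul_le_mul hx1 _ (by positivity) (by positivity)
                exact mul_le_mul_of_nonneg_right h2 (by positivity)
            _ = (d : ℤ) ^ K := by
                rw [← pow_add, ← pow_add]; congr 1; omega
        · have h1 := stay_mult2 h hR0 hR00 (K := K) hx2 (by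
            have h2 : (K : ℝ) ≤ 2 * i := by
              rw [hKR]
              have : (ρ0 : ℝ) ≤ i := by exact_mod_cast hρi
              linarith
            have h3 : 4 * (K : ℝ) * R0 ≤ 4 * (2 * i) * R0 := by
              apply mul_le_mul_of_nonneg_right _ hR00
              linarith
            linarith) hx4
          have hM0 : (0 : ℝ) < |(Mw m (wd d m r K x) : ℝ)| :=
            _root_.abs_pos.2 (by exact_mod_cast hC.Mw_ne (hC.wd_mem' K x))
          have h2 : ((d : ℝ) ^ K / 2) ≤ |(Mw m (wd d m r K x) : ℝ)| := by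
            rw [div_le_iff₀ (by positivity)]; linarith
          calc |(Mw m (wd d m r K x) : ℝ)| ^ (-s) ≤ ((d : ℝ) ^ K / 2) ^ (-s) :=
                Real.rpow_le_rpow_of_nonpos (by positivity) h2 (by linarith)
            _ = _ := by
                rw [Real.rpow_neg (by positivity), Real.div_rpow (by positivity) (by positivity),
                  inv_div, ← Real.rpow_natCast, ← Real.rpow_mul hd0.le, Real.rpow_neg hd0.le,
                  div_eq_mul_inv, mul_comm (K : ℝ) s])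
    -- the exponents
    have hZ : Zs d m s ^ K * (2 ^ s * (d : ℝ) ^ (-(s * K))) ≤ 2 ^ s * (d : ℝ) ^ (η * K) := by
      have h1 : Zs d m s ≤ (d : ℝ) ^ (η + s) := by
        have h2 : ∑ j ∈ range d, (|(m j : ℝ)| / d) ^ s = Zs d m s / (d : ℝ) ^ s := by
          unfold Zs
          rw [sum_div]
          apply sum_congr rfl
          intro j _
          rw [Real.div_rpow (abs_nonneg _) hd0.le]
        rw [h2, div_le_iff₀ (Real.rpow_pos_of_pos hd0 s), ← Real.rpow_add hd0] at hsum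
        exact hsum
      have h2 : Zs d m s ^ K ≤ (d : ℝ) ^ ((η + s) * K) := by
        calc Zs d m s ^ K ≤ ((d : ℝ) ^ (η + s)) ^ K := pow_le_pow_left₀ (hC.Zs_pos s).le h1 K
          _ = _ := by rw [← Real.rpow_natCast, ← Real.rpow_mul hd0.le]
      calc Zs d m s ^ K * (2 ^ s * (d : ℝ) ^ (-(s * K)))
          ≤ (d : ℝ) ^ ((η + s) * K) * (2 ^ s * (d : ℝ) ^ (-(s * K))) :=
            mul_le_mul_of_nonneg_right h2 (by positivity)
        _ = 2 ^ s * ((d : ℝ) ^ ((η + s) * K) * (d : ℝ) ^ (-(s * K))) := by ring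
        _ = _ := by rw [← Real.rpow_add hd0]; congr 2; ring
    have hkE : Real.exp (-(c0 * k)) * 3 ≤ E := by
      refine le_trans ?_ (hτ11 τ hτ0 hτa)
      rw [mul_comm]
      apply mul_le_mul_of_nonneg_left _ (by norm_num)
      apply Real.exp_le_exp.2
      have h1 : c0 * (1 / (16 * τ)) ≤ c0 * k := mul_le_mul_of_nonneg_left hk2 hc0.le
      have h2 : c0 * (1 / (16 * τ)) = c0 / (16 * τ) := by ring
      linarith
    refine hct.trans ?_
    have hRc : ((d ^ ρ : ℕ) : ℝ) = (d : ℝ) ^ (ρ : ℝ) := by push_cast; rw [Real.rpow_natCast]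
    rw [hRc]
    have hexp : Real.exp (Real.exp (-(c0 * k)) * K) = (d : ℝ) ^ (Real.exp (-(c0 * k)) * K / Real.log d) := by
      rw [Real.rpow_def_of_pos hd0]; congr 1; field_simp
    rw [hexp]
    have hfin : C * (d : ℝ) ^ (Real.exp (-(c0 * k)) * K / Real.log d) *
        (Zs d m s ^ K * (2 ^ s * (d : ℝ) ^ (-(s * K)))) / (d : ℝ) ^ (ρ : ℝ) ≤
        C * 2 ^ s * (d : ℝ) ^ (Real.exp (-(c0 * k)) * K / Real.log d + η * K - ρ) := by
      rw [Real.rpow_sub hd0, Real.rpow_add hd0]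
      have g3 := mul_le_mul_of_nonneg_left hZ
        (show 0 ≤ C * (d : ℝ) ^ (Real.exp (-(c0 * k)) * K / Real.log d) by positivity)
      have g4 := div_le_div_of_nonneg_right g3 (show 0 ≤ (d : ℝ) ^ (ρ : ℝ) by positivity)
      refine g4.trans (le_of_eq ?_)
      ring
    refine hfin.trans ?_
    have h1 : (d : ℝ) ^ (Real.exp (-(c0 * k)) * K / Real.log d + η * K - ρ) ≤
        (d : ℝ) ^ (5 : ℝ) * ((d : ℝ) ^ θ) ^ i := by
      rw [← Real.rpow_natCast ((d : ℝ) ^ θ), ← Real.rpow_mul hd0.le, ← Real.rpow_add hd0]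
      apply Real.rpow_le_rpow_of_exponent_le (by linarith)
      have h2 : Real.exp (-(c0 * k)) * K / Real.log d ≤ E * i := by
        rw [div_le_iff₀ hld]
        have h3 : (K : ℝ) ≤ 2 * i := by
          rw [hKR]
          have : (ρ0 : ℝ) ≤ i := by exact_mod_cast hρi
          linarith
        have h4 : Real.exp (-(c0 * k)) * K ≤ Real.exp (-(c0 * k)) * (2 * i) :=
          mul_le_mul_of_nonneg_left h3 (Real.exp_pos _).le
        have h5 : Real.exp (-(c0 * k)) * (2 * i) ≤ (2 / 3) * (E * i) := by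
          have h6 : Real.exp (-(c0 * k)) * 3 * i ≤ E * i := mul_le_mul_of_nonneg_right hkE hin
          linarith
        have h6 : (2 / 3) * (E * i) ≤ E * i * Real.log d := by
          have h7 : 0 ≤ E * i := by positivity
          nlinarith
        linarith
      have h3 : (ρ : ℝ) = ρ0 - 3 := by
        rw [hρ, Nat.cast_sub hρ3]; norm_num
      rw [h3, hKR, hθ]
      have h4 : η * (i + ρ0) - (ρ0 - 3) ≤ 5 + (η - τ * (1 - η)) * i := by
        have h5 : (τ * i - 1) * (1 - η) ≤ ρ0 * (1 - η) :=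
          mul_le_mul_of_nonneg_right (by linarith) (by linarith)
        nlinarith
      rw [hKR] at h2
      linarith
    calc C * 2 ^ s * (d : ℝ) ^ (Real.exp (-(c0 * k)) * K / Real.log d + η * K - ρ)
        ≤ C * 2 ^ s * ((d : ℝ) ^ (5 : ℝ) * ((d : ℝ) ^ θ) ^ i) :=
          mul_le_mul_of_nonneg_left h1 (by positivity)
      _ = A1 * ((d : ℝ) ^ θ) ^ i := by rw [hA1]; ring
      _ ≤ _ := mul_le_mul_of_nonneg_right (by linarith) (by positivity)

end Pool.Agent.T2h89.Mo
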