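import Pool.Agent.T2h89.Up

/-! Möller's maps: the integers of an arbitrary interval whose orbit stays above its starting point. -/

set_option autoImplicit false

namespace Pool.Agent.T2h89.Mo

open Finset Filter Topology Pool.Agent.H319R3.GC Pool.Agent.TH930.GH

theorem upper {d m : ℕ} (hd : 2 ≤ d) (hm : d < m) (hcop : Nat.Coprime m d) (hc : m ^ (d - 1) < d ^ d) :
    ∃ a τ₀ : ℝ, 0 < a ∧ 0 < τ₀ ∧ τ₀ ≤ 1 ∧ ∀ r : ℕ → ℤ, (∀ i < d, (d : ℤ) ∣ mq m i * i - r i) →
      ∀ τ : ℝ, 0 < τ → τ ≤ τ₀ →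
      ∃ C : ℝ, 0 < C ∧ ∀ X : ℝ, 1 ≤ X → ∀ (u : ℤ) (B : Finset ℤ),
        (∀ n ∈ B, 0 < n ∧ u < n ∧ (n : ℝ) ≤ u + X ∧
          ∀ j : ℕ, (j : ℝ) ≤ (1 + τ) * Real.logb d X → n ≤ (Tm d (mq m) r)^[j] n) →
        (B.card : ℝ) ≤ C * X ^ (1 - (1 + τ) * (1 - hq d m) + Real.exp (-(a / τ))) := by
  classical
  obtain ⟨s, hs, hsum⟩ := sum_moller (m' := mq m) hd hm hc (by simp [mq]) (by
    intro i hi _
    simp only [mq]
    rw [if_neg (by omega)]
    exact abs_of_nonneg (by positivity))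
  obtain ⟨hη0, hη1⟩ := hq_lt hd hm hc
  set η : ℝ := hq d m with hη
  obtain ⟨c1, hc1, τ0, hτ0, hτ01, hblk⟩ := blk (adm_mq0 hd hm hcop hc) hs hη0.le hη1 hsum.le
  refine ⟨c1, min τ0 (η / 2), hc1, by positivity, (min_le_left _ _).trans hτ01, ?_⟩
  intro r hr τ hτp hτ
  have h := adm_mq hd hm hcop hc hr
  have hτa : τ ≤ τ0 := hτ.trans (min_le_left _ _)
  have hτb : τ ≤ η / 2 := hτ.trans (min_le_right _ _)
  set R0 : ℝ := ∑ i ∈ range d, |(r i : ℝ)| with hR0
  have hR00 : 0 ≤ R0 := sum_nonneg fun _ _ => abs_nonneg _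
  have hR0' : ∀ i < d, |(r i : ℝ)| ≤ R0 := fun i hi =>
    single_le_sum (f := fun i => |(r i : ℝ)|) (fun _ _ => abs_nonneg _) (mem_range.2 hi)
  obtain ⟨A, hA, hcnt⟩ := hblk τ hτp hτa r h R0 hR00 hR0'
  set θ : ℝ := η - τ * (1 - η) + Real.exp (-(c1 / τ)) with hθ
  have hE0 : 0 < Real.exp (-(c1 / τ)) := Real.exp_pos _
  have hθ0 : 0 < θ := by
    have : τ * (1 - η) ≤ η / 2 * 1 := mul_le_mul hτb (by linarith) (by linarith) (by linarith)
    rw [hθ]; linarith
  have hθe : 1 - (1 + τ) * (1 - η) + Real.exp (-(c1 / τ)) = θ := by rw [hθ]; ring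
  have hdR : (2 : ℝ) ≤ d := by exact_mod_cast hd
  have hd0 : (0 : ℝ) < d := by linarith
  have hl2 : (0.6931471803 : ℝ) < Real.log 2 := Real.log_two_gt_d9
  have hld2 : Real.log 2 ≤ Real.log d := Real.log_le_log (by norm_num) hdR
  have hld : 0 < Real.log d := by linarith
  refine ⟨d * A + 16 * R0 / θ + 1, by positivity, ?_⟩
  intro X hX u B hB
  rw [hθe]
  have hX0 : 0 < X := by linarith
  have hlX : 0 ≤ Real.log X := Real.log_nonneg hX
  have hlb0 : 0 ≤ Real.logb d X := Real.logb_nonneg (by linarith) hX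
  set i : ℕ := ⌊Real.logb d X⌋₊ with hi
  have hi1 : (i : ℝ) ≤ Real.logb d X := Nat.floor_le hlb0
  have hi2 : Real.logb d X < i + 1 := Nat.lt_floor_add_one _
  have hdi1 : (d : ℝ) ^ i ≤ X := by
    rw [← Real.rpow_natCast, ← Real.le_logb_iff_rpow_le (by linarith) hX0]
    exact hi1
  have hdi2 : X < (d : ℝ) ^ (i + 1) := by
    rw [← Real.rpow_natCast, ← Real.logb_lt_iff_lt_rpow (by linarith) hX0]
    push_cast
    exact hi2
  have hXθ : 1 ≤ X ^ θ := Real.one_le_rpow hX hθ0.le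
  -- the small elements
  have hsplit : B.card = (B.filter (fun n : ℤ => (n : ℝ) < 8 * i * R0)).card +
      (B.filter (fun n : ℤ => ¬ (n : ℝ) < 8 * i * R0)).card :=
    (card_filter_add_card_filter_not _).symm
  have hB1 : ((B.filter (fun n : ℤ => (n : ℝ) < 8 * i * R0)).card : ℝ) ≤ 16 * R0 / θ * X ^ θ := by
    have h1 : B.filter (fun n : ℤ => (n : ℝ) < 8 * i * R0) ⊆ Icc 1 ⌊8 * i * R0⌋ := by
      intro n hn
      rw [mem_filter] at hn
      rw [mem_Icc]
      exact ⟨(hB n hn.1).1, Int.le_floor.2 hn.2.le⟩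
    have h2 := card_le_card h1
    rw [Int.card_Icc] at h2
    have h3 : (0 : ℝ) ≤ 8 * i * R0 := by positivity
    have h4 : (0 : ℤ) ≤ ⌊8 * (i : ℝ) * R0⌋ := Int.floor_nonneg.2 h3
    have h5 : ((⌊8 * (i : ℝ) * R0⌋ + 1 - 1).toNat : ℝ) ≤ 8 * i * R0 := by
      have h6 : (((⌊8 * (i : ℝ) * R0⌋ + 1 - 1).toNat : ℤ) : ℝ) = ⌊8 * (i : ℝ) * R0⌋ := by
        rw [Int.toNat_of_nonneg (by linarith)]
        push_cast; ring
      have h7 := Int.floor_le (8 * (i : ℝ) * R0)
      have h8 : (((⌊8 * (i : ℝ) * R0⌋ + 1 - 1).toNat : ℤ) : ℝ) =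
        ((⌊8 * (i : ℝ) * R0⌋ + 1 - 1).toNat : ℝ) := by push_cast; rfl
      linarith
    have h9 : (i : ℝ) ≤ 2 * (X ^ θ / θ) := by
      have e1 := Real.log_le_rpow_div hX0.le hθ0
      have e2 : Real.logb d X ≤ 2 * Real.log X := by
        unfold Real.logb
        rw [div_le_iff₀ hld]
        nlinarith
      linarith
    calc ((B.filter (fun n : ℤ => (n : ℝ) < 8 * i * R0)).card : ℝ)
        ≤ ((⌊8 * (i : ℝ) * R0⌋ + 1 - 1).toNat : ℝ) := by exact_mod_cast h2
      _ ≤ 8 * i * R0 := h5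
      _ ≤ 8 * (2 * (X ^ θ / θ)) * R0 := by
          apply mul_le_mul_of_nonneg_right _ hR00
          linarith
      _ = _ := by ring
  -- the others
  have hDi : (0 : ℤ) < (d : ℤ) ^ i := by positivity
  have hB2 : ((B.filter (fun n : ℤ => ¬ (n : ℝ) < 8 * i * R0)).card : ℝ) ≤ d * A * X ^ θ := by
    set B2 := B.filter (fun n : ℤ => ¬ (n : ℝ) < 8 * i * R0) with hB2
    have hmaps : ∀ n ∈ B2, ((n - u - 1) / (d : ℤ) ^ i).toNat ∈ range d := by
      intro n hn
      rw [hB2, mem_filter] at hn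
      obtain ⟨-, g2, g3, -⟩ := hB n hn.1
      rw [mem_range]
      have g4 : 0 ≤ n - u - 1 := by omega
      have g5 : ((n - u - 1 : ℤ) : ℝ) < (((d : ℤ) ^ (i + 1) : ℤ) : ℝ) := by
        push_cast
        linarith
      have g6 : n - u - 1 < (d : ℤ) * (d : ℤ) ^ i := by
        have : n - u - 1 < (d : ℤ) ^ (i + 1) := by exact_mod_cast g5
        rwa [pow_succ'] at this
      have g7 : (n - u - 1) / (d : ℤ) ^ i < d := Int.ediv_lt_of_lt_mul hDi g6
      have g8 : 0 ≤ (n - u - 1) / (d : ℤ) ^ i := Int.ediv_nonneg g4 hDi.le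
      omega
    have h1 := card_eq_sum_card_fiberwise hmaps
    have h2 : ∀ t ∈ range d, ((B2.filter (fun n => ((n - u - 1) / (d : ℤ) ^ i).toNat = t)).card : ℝ) ≤
        A * X ^ θ := by
      intro t _
      have h3 := hcnt i (u + 1 + t * (d : ℤ) ^ i)
        (B2.filter (fun n => ((n - u - 1) / (d : ℤ) ^ i).toNat = t)) (by
          intro n hn
          rw [mem_filter, hB2, mem_filter] at hn
          obtain ⟨⟨hn1, hn2⟩, hn3⟩ := hn
          obtain ⟨g1, g2, g3, g4⟩ := hB n hn1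
          have g5 : 0 ≤ n - u - 1 := by omega
          have g8 : 0 ≤ (n - u - 1) / (d : ℤ) ^ i := Int.ediv_nonneg g5 hDi.le
          have g9 : (n - u - 1) / (d : ℤ) ^ i = t := by omega
          have g10 := Int.emod_add_mul_ediv (n - u - 1) ((d : ℤ) ^ i)
          have g11 := Int.emod_nonneg (n - u - 1) hDi.ne'
          have g12 := Int.emod_lt_of_pos (n - u - 1) hDi
          rw [g9] at g10
          refine ⟨?_, g1, not_lt.1 hn2, ?_⟩
          · rw [abs_le]
            constructor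
            · nlinarith
            · nlinarith
          · intro j hj
            apply g4
            have g13 : (j : ℝ) ≤ ((i + ⌊τ * (i : ℝ)⌋₊ : ℕ) : ℝ) := by exact_mod_cast hj
            have g14 : (⌊τ * (i : ℝ)⌋₊ : ℝ) ≤ τ * i := Nat.floor_le (by positivity)
            push_cast at g13
            calc (j : ℝ) ≤ i + τ * i := by linarith
              _ = (1 + τ) * i := by ring
              _ ≤ _ := mul_le_mul_of_nonneg_left hi1 (by linarith))
      refine h3.trans (mul_le_mul_of_nonneg_left ?_ hA)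
      rw [← Real.rpow_natCast, ← Real.rpow_mul hd0.le, mul_comm, Real.rpow_mul hd0.le,
        Real.rpow_natCast]
      exact Real.rpow_le_rpow (by positivity) hdi1 hθ0.le
    rw [h1]
    push_cast
    refine (sum_le_card_nsmul _ _ _ h2).trans (le_of_eq ?_)
    rw [card_range, nsmul_eq_mul]
    ring
  have h3 : (B.card : ℝ) = ((B.filter (fun n : ℤ => (n : ℝ) < 8 * i * R0)).card : ℝ) +
      ((B.filter (fun n : ℤ => ¬ (n : ℝ) < 8 * i * R0)).card : ℝ) := by exact_mod_cast hsplit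
  rw [h3]
  nlinarith

end Pool.Agent.T2h89.Mo
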